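import Pool.Agent.Lib.MP_2dc536_an.X.Zone

/-!
Definitions shared by the blocks of the explicit density bound.
-/

namespace Pool.Agent.Lib.MP_2dc536_an.X

open Real Set MeasureTheory

/-- The part of `[n, n + 1)` kept at small heights. -/
def UB (n : ℕ) : Set ℝ :=
  if n % 2 = 0 then Ico (n : ℝ) (n + 1) else Icc ((n : ℝ) + 2 / (5 * n)) (n + 1 - 3 / (20 * n))

/-- The lap weight at large heights. -/
noncomputable def Phi0 (n : ℕ) : ℝ := 1 + (6 + if n % 3 = 1 then 5 / 4 else 0) / √n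

open Classical in
/-- The weight at large heights. -/
noncomputable def HA (y : ℝ) : ℝ := if y ∈ UA ⌊y⌋₊ then Phi0 ⌊y⌋₊ / (y + 1 / 2) else 0

/-- The transfer inequality at `y`. -/
def Key (U : ℕ → Set ℝ) (H b : ℝ → ℝ) (y : ℝ) : Prop :=
  ∀ (S : Finset ℕ) (x : ℕ → ℝ), (∀ n ∈ S, x n ∈ U n ∧ ff (x n) = y) →
    ∑ n ∈ S, H (x n) / |ff' (x n)| ≤ H y + b y

/-- The shape of the loss at large heights. -/
noncomputable def GA (r : ℕ) (η : ℝ) : ℝ :=
  max 0 (263 / 1000 / √η - if r = 1 then 114 / 100 else if r = 0 then 57 / 100 else 99 / 100) +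
    max 0 ((if r = 1 then 1482 / 1000 else if r = 0 then 2 / 100 else 0) / √(1 - η) -
      if r = 1 then 231 / 100 else 4 / 100)

open Classical in
/-- The loss at large heights. -/
noncomputable def bA (y : ℝ) : ℝ :=
  GA (⌊y⌋₊ % 3) (y - ⌊y⌋₊) / (y * √y) + if y ∈ UA ⌊y⌋₊ then 0 else 119 / 100 / y

/-- The ramp at the top. -/
noncomputable def top (B X z : ℝ) : ℝ := if z ≤ X then 60 + B * log (X / z) else 60 * √(X / z)

/-- The loss on the ramp. -/
noncomputable def bT (y : ℝ) : ℝ :=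
  2 * (1 + 1 / √(y - ⌊y⌋₊) + 1 / √(⌊y⌋₊ + 1 - y)) / (y * √y)

/-- Small cells: ends, bounds of the multiplier, bound of its slope. -/
inductive SB
  | nil
  | cons (a b lo hi s : ℕ) (r : SB)

/-- Blocks of small cells. -/
inductive TB
  | nil
  | cons (a b lo hi : ℕ) (sub : SB) (r : TB)

/-- What a table entry asserts. -/
def CellOK (a b lo hi s : ℕ) : Prop :=
  ∀ u : ℝ, (a : ℝ) ≤ u * 2 ^ 40 → u * 2 ^ 40 ≤ b →
    (lo : ℝ) ≤ (1 + cos (π * u) / 2) * 2 ^ 48 ∧ (1 + cos (π * u) / 2) * 2 ^ 48 ≤ hi ∧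
      (s : ℝ) ≤ π / 2 * sin (π * u) * 2 ^ 48

/-- The small cells are consecutive from `p` to `e`. -/
def SBok : SB → ℕ → ℕ → Prop
  | .nil, p, e => p = e
  | .cons a b lo hi s r, p, e => a = p ∧ b ≤ 2 ^ 40 ∧ CellOK a b lo hi s ∧ SBok r b e

/-- The grid of the blocks. -/
def gA : TB → ℕ → ℕ
  | .nil, _ => 2 ^ 40
  | .cons a _ _ _ _ _, 0 => a
  | .cons _ _ _ _ _ r, i + 1 => gA r i

/-- The number of blocks. -/
def tlen : TB → ℕ
  | .nil => 0
  | .cons _ _ _ _ _ r => tlen r + 1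

/-- The blocks are consecutive and correct. -/
def TBok : TB → Prop
  | .nil => True
  | .cons a b lo hi sub r => b = gA r 0 ∧ a < b ∧ CellOK a b lo hi 0 ∧
      (∀ u : ℝ, (a : ℝ) ≤ u * 2 ^ 40 → u ≤ 1 → (1 + cos (π * u) / 2) * 2 ^ 48 ≤ hi) ∧
      SBok sub a b ∧ TBok r

/-- Distance to the nearest odd integer, for `x` in `[n, n + 1]`. -/
noncomputable def uu (n : ℕ) (x : ℝ) : ℝ := if n % 2 = 0 then n + 1 - x else x - n

/-- Parity. -/
def od (n : ℕ) : Bool := Nat.beq (Nat.mod n (nat_lit 2)) (nat_lit 1)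

/-- The odd end of `[n, n + 1]`, plus a half, times `2 ^ 40`. -/
def cC (n : ℕ) : ℕ :=
  Nat.add (Nat.mul (cond (od n) n (Nat.succ n)) (nat_lit 1099511627776)) (nat_lit 549755813888)

/-- Lower end of a cell. -/
def zA (o : Bool) (C a b : ℕ) : ℕ := cond o (Nat.add C a) (Nat.sub C b)

/-- Upper end of a cell. -/
def zB (o : Bool) (C a b : ℕ) : ℕ := cond o (Nat.add C b) (Nat.sub C a)

/-- Lower end of the image. -/
def cL (za lo : ℕ) : ℕ := Nat.shiftRight (Nat.mul za lo) (nat_lit 48)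

/-- Upper end of the image. -/
def cH (zb hi : ℕ) : ℕ := Nat.succ (Nat.shiftRight (Nat.mul zb hi) (nat_lit 48))

/-- Lower bound of the slope, times `2 ^ 48`. -/
def cD (o : Bool) (za lo hi s : ℕ) : ℕ :=
  cond o
    (Nat.add (Nat.sub (Nat.sub (Nat.shiftRight (Nat.mul za s) (nat_lit 40)) hi)
      (nat_lit 28147497671065)) (nat_lit 28147497671065))
    (Nat.add lo (Nat.shiftRight (Nat.mul za s) (nat_lit 40)))

/-- Upper bound of the transported weight, times `2 ^ 40`. -/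
def cW (o : Bool) (p za lo hi s : ℕ) : ℕ :=
  Nat.succ (Nat.div (Nat.shiftLeft p (nat_lit 118)) (Nat.mul za (cD o za lo hi s)))

/-- Right trap of `m`. -/
def zr (m : ℕ) : ℕ :=
  cond (Nat.beq m (nat_lit 2)) (nat_lit 439804651110) (Nat.div (nat_lit 549755813888) m)

/-- Left trap of `m + 1`. -/
noncomputable def zl (m d : ℕ) : ℕ :=
  cond (Nat.beq d (nat_lit 0)) (nat_lit 1099511627776)
    (cond (lg (nat_lit 400) (Nat.succ m) d) (Nat.sub (nat_lit 1099511627776) d)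
      (nat_lit 1099511627776))

/-- Lower end of the second left trap. -/
def z2 (m : ℕ) : ℕ :=
  cond (and (od m) (Nat.ble (nat_lit 5) m))
    (Nat.sub (nat_lit 1099511627776)
      (Nat.div (nat_lit 7696581394432) (Nat.mul (nat_lit 10) (Nat.succ m))))
    (nat_lit 2199023255552)

/-- Upper end of the second left trap. -/
def z3 (m : ℕ) : ℕ :=
  Nat.sub (nat_lit 1099511627776)
    (Nat.succ (Nat.div (nat_lit 23089744183296) (Nat.mul (nat_lit 100) (Nat.succ m))))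

/-- Upper bound of `1024 * Phi0 n`. -/
def hiA (n r : ℕ) : ℕ :=
  Nat.add (nat_lit 1025)
    (Nat.div (cond (Nat.beq (Nat.mod n (nat_lit 3)) (nat_lit 1)) (nat_lit 7602176)
      (nat_lit 6291456)) r)

/-- Lower bound of `1024 * Phi0 n`. -/
def loA (n r : ℕ) : ℕ :=
  Nat.add (nat_lit 1024)
    (Nat.div (cond (Nat.beq (Nat.mod n (nat_lit 3)) (nat_lit 1)) (nat_lit 7602176)
      (nat_lit 6291456)) (Nat.succ r))

end Pool.Agent.Lib.MP_2dc536_an.X
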