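import Pool.Agent.Lib.MP_2dc536_an.X.Base

namespace Pool.Agent.Lib.MP_2dc536_an.X

open Real Set MeasureTheory

lemma ce_cos_sin (n : ℕ) (x : ℝ) : cos (π * uu n x) = -cos (π * x) ∧
    sin (π * uu n x) = if n % 2 = 0 then sin (π * x) else -sin (π * x) := by
  unfold uu
  rcases Nat.even_or_odd' n with ⟨m, rfl | rfl⟩
  · rw [if_pos (by omega), if_pos (by omega)]
    have e : π * (((2 * m : ℕ) : ℝ) + 1 - x) = (π - π * x) + m * (2 * π) := by push_cast; ring
    rw [e, cos_add_nat_mul_two_pi, sin_add_nat_mul_two_pi, cos_pi_sub, sin_pi_sub]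
    exact ⟨rfl, rfl⟩
  · rw [if_neg (by omega), if_neg (by omega)]
    have e : π * (x - ((2 * m + 1 : ℕ) : ℝ)) = (π * x - π) - m * (2 * π) := by push_cast; ring
    rw [e, cos_sub_nat_mul_two_pi, sin_sub_nat_mul_two_pi, cos_sub_pi, sin_sub_pi]
    exact ⟨rfl, rfl⟩

lemma ce_deriv_even {n : ℕ} (h : n % 2 = 0) (x : ℝ) : ff' x =
    (1 + cos (π * uu n x) / 2) + (x + 1 / 2) * (π / 2 * sin (π * uu n x)) := by
  obtain ⟨h1, h2⟩ := ce_cos_sin n x
  rw [h1, h2, if_pos h]; unfold ff'; ring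

lemma ce_deriv_odd {n : ℕ} (h : n % 2 = 1) (x : ℝ) : ff' x =
    (1 + cos (π * uu n x) / 2) - (x + 1 / 2) * (π / 2 * sin (π * uu n x)) := by
  obtain ⟨h1, h2⟩ := ce_cos_sin n x
  rw [h1, h2, if_neg (by omega)]; unfold ff'; ring

lemma ce_sin_lo {v : ℝ} (h0 : 0 < v) (h1 : v ≤ 1 / 6) : 9 / 2 * v ≤ π / 2 * sin (π * v) := by
  have p1 := pi_gt_d4
  have p2 := pi_lt_d4
  have t0 : 0 < π * v := by positivity
  have t1 : π * v ≤ 53 / 100 := by nlinarith
  have t2 : 314 / 100 * v ≤ π * v := by nlinarith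
  have h2 := sin_ge_sub_cube t0.le
  have h3 : 29 / 10 * v ≤ sin (π * v) := by
    generalize π * v = t at *
    have : t ^ 3 ≤ 2809 / 10000 * t := by nlinarith [mul_pos t0 t0]
    linarith
  nlinarith

theorem UB_sub {n : ℕ} (hn : 1 ≤ n) : UB n ⊆ Ico (n : ℝ) (n + 1) := by
  have h0 : (0 : ℝ) < n := by exact_mod_cast hn
  unfold UB
  split_ifs
  · exact subset_rfl
  · rintro x ⟨h1, h2⟩
    have a1 : (0 : ℝ) < 2 / (5 * n) := by positivity
    have a2 : (0 : ℝ) < 3 / (20 * n) := by positivity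
    exact ⟨by linarith, by linarith⟩

theorem UA_sub_UB {n : ℕ} (hn : 1 ≤ n) : UA n ⊆ UB n := by
  have h0 : (0 : ℝ) < n := by exact_mod_cast hn
  unfold UA UB
  split_ifs
  · exact subset_rfl
  · have a1 : (2 : ℝ) / (5 * n) ≤ 4 / (5 * n) := by gcongr; norm_num
    have a2 : (3 : ℝ) / (20 * n) ≤ 1 / (4 * n) := by
      rw [div_le_div_iff₀ (by positivity) (by positivity)]; linarith
    exact Icc_subset_Icc (by linarith) (by linarith)

theorem UB_odd {n : ℕ} (hn : 3 ≤ n) (ho : n % 2 = 1) {x : ℝ} (hx : x ∈ UB n) :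
    ff' x ≤ -(1 / 10) := by
  have h3 : (3 : ℝ) ≤ n := by exact_mod_cast hn
  rw [ce_deriv_odd ho]
  unfold UB at hx
  rw [if_neg (by omega)] at hx
  have eu : uu n x = x - n := by unfold uu; rw [if_neg (by omega)]
  obtain ⟨x1, x2⟩ := hx
  obtain ⟨u, rfl⟩ : ∃ u, x = n + u := ⟨x - n, by ring⟩
  rw [eu, add_sub_cancel_left]
  have u1 : 2 / 5 ≤ u * n := by
    have : 2 / (5 * n) ≤ u := by linarith
    rw [div_le_iff₀ (by linarith)] at this
    linarith
  have u2 : 3 / 20 ≤ (1 - u) * n := by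
    have : 3 / (20 * n) ≤ 1 - u := by linarith
    rw [div_le_iff₀ (by linarith)] at this
    linarith
  have u3 : 0 < u := (mul_pos_iff_of_pos_right (show (0 : ℝ) < n by linarith)).1 (by linarith)
  have u4 : 0 < 1 - u :=
    (mul_pos_iff_of_pos_right (show (0 : ℝ) < n by linarith)).1 (by linarith)
  have c1 := cos_le_one (π * u)
  rcases le_total u (1 / 6) with a | a
  · have h := ce_sin_lo u3 a
    have : (n : ℝ) * (9 / 2 * u) ≤ (n + u + 1 / 2) * (π / 2 * sin (π * u)) :=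
      mul_le_mul (by linarith) h (by positivity) (by linarith)
    linarith
  rcases le_total (1 - u) (1 / 6) with b | b
  · have h := ce_sin_lo u4 b
    have c2 := z_c_up (1 - u)
    rw [show π * (1 - u) = π - π * u by ring, sin_pi_sub] at h
    rw [show π * (1 - u) = π - π * u by ring, cos_pi_sub] at c2
    have : ((n : ℝ) + 1) * (9 / 2 * (1 - u)) ≤ (n + u + 1 / 2) * (π / 2 * sin (π * u)) :=
      mul_le_mul (by linarith) h (by positivity) (by linarith)
    nlinarith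
  · have h := abs_sin_ge (n := 0) (d := 1 / 6) (x := u) (by norm_num) (by simpa using a)
      (by push_cast; linarith)
    rw [abs_of_nonneg (sin_nonneg_of_nonneg_of_le_pi (by positivity)
      (by nlinarith [pi_pos]))] at h
    have h2 : 1 / 2 ≤ π / 2 * sin (π * u) := by nlinarith [pi_gt_three]
    have : (7 / 2 : ℝ) * (1 / 2) ≤ (n + u + 1 / 2) * (π / 2 * sin (π * u)) :=
      mul_le_mul (by linarith) h2 (by positivity) (by linarith)
    linarith

lemma ce_even_pos {n : ℕ} (he : n % 2 = 0) {x : ℝ} (hx : x ∈ UB n) : 0 < ff' x := by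
  rw [ce_deriv_even he]
  unfold UB at hx
  rw [if_pos he] at hx
  have eu : uu n x = n + 1 - x := by unfold uu; rw [if_pos he]
  have n0 : (0 : ℝ) ≤ n := Nat.cast_nonneg n
  have h1 : 0 ≤ sin (π * uu n x) := by
    rw [eu]
    exact sin_nonneg_of_nonneg_of_le_pi (mul_nonneg pi_pos.le (by linarith [hx.2]))
      (by nlinarith [pi_pos, hx.1])
  have h2 : 0 ≤ (x + 1 / 2) * (π / 2 * sin (π * uu n x)) :=
    mul_nonneg (by linarith [hx.1]) (by positivity)
  linarith [neg_one_le_cos (π * uu n x)]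

theorem UB_inj {n : ℕ} (hn : 2 ≤ n) : InjOn ff (UB n) ∧ ∀ x ∈ UB n, ff' x ≠ 0 := by
  have hc : Convex ℝ (UB n) := by
    unfold UB
    split_ifs
    · exact convex_Ico _ _
    · exact convex_Icc _ _
  rcases Nat.mod_two_eq_zero_or_one n with h | h
  · refine ⟨(strictMonoOn_of_deriv_pos hc continuous_ff.continuousOn fun x hx => ?_).injOn,
      fun x hx => (ce_even_pos h hx).ne'⟩
    rw [(hasDerivAt_ff x).deriv]
    exact ce_even_pos h (interior_subset hx)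
  · have k : ∀ x ∈ UB n, ff' x < 0 := fun x hx => by
      linarith [UB_odd (by omega) h hx]
    refine ⟨(strictAntiOn_of_deriv_neg hc continuous_ff.continuousOn fun x hx => ?_).injOn,
      fun x hx => (k x hx).ne⟩
    rw [(hasDerivAt_ff x).deriv]
    exact k x (interior_subset hx)

theorem geo_f {n : ℕ} {x : ℝ} : ff x + 1 / 4 = (x + 1 / 2) * (1 + cos (π * uu n x) / 2) := by
  rw [(ce_cos_sin n x).1]; unfold ff; ring

lemma ce_shift_le (k j : ℕ) : ((Nat.shiftRight k j : ℕ) : ℝ) ≤ (k : ℝ) / 2 ^ j := by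
  have e : Nat.shiftRight k j = k / 2 ^ j := Nat.shiftRight_eq_div_pow k j
  rw [e]
  have := Nat.cast_div_le (α := ℝ) (m := k) (n := 2 ^ j)
  simpa using this

lemma ce_le_succ_div (k d : ℕ) (hd : 0 < d) : (k : ℝ) / d ≤ ((k / d + 1 : ℕ) : ℝ) := by
  have h1 : k < d * (k / d + 1) := Nat.lt_mul_div_succ k hd
  have h2 : (k : ℝ) < d * ((k / d + 1 : ℕ) : ℝ) := by exact_mod_cast h1
  rw [div_le_iff₀ (by exact_mod_cast hd)]
  linarith

theorem cL_le {za lo : ℕ} {z m : ℝ} (hz : (za : ℝ) ≤ z * 2 ^ 40) (hm : (lo : ℝ) ≤ m * 2 ^ 48) :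
    (cL za lo : ℝ) ≤ z * m * 2 ^ 40 := by
  have h1 : (cL za lo : ℝ) ≤ ((za * lo : ℕ) : ℝ) / 2 ^ 48 := ce_shift_le (za * lo) 48
  have h2 : (za : ℝ) * lo ≤ (z * 2 ^ 40) * (m * 2 ^ 48) :=
    mul_le_mul hz hm (Nat.cast_nonneg _) (le_trans (Nat.cast_nonneg _) hz)
  refine h1.trans ?_
  rw [div_le_iff₀ (by positivity)]
  push_cast
  linarith

theorem le_cH {zb hi : ℕ} {z m : ℝ} (hz0 : 0 ≤ z) (hm0 : 0 ≤ m) (hz : z * 2 ^ 40 ≤ zb)
    (hm : m * 2 ^ 48 ≤ hi) : z * m * 2 ^ 40 ≤ (cH zb hi : ℝ) := by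
  have e : cH zb hi = zb * hi / 2 ^ 48 + 1 :=
    congrArg Nat.succ (Nat.shiftRight_eq_div_pow (zb * hi) 48)
  have h2 : (z * 2 ^ 40) * (m * 2 ^ 48) ≤ (zb : ℝ) * hi :=
    mul_le_mul hz hm (by positivity) (Nat.cast_nonneg _)
  rw [e]
  refine le_trans ?_ (ce_le_succ_div _ _ (by positivity))
  rw [le_div_iff₀ (by positivity)]
  push_cast
  linarith

lemma ce_od_true {n : ℕ} (h : n % 2 = 1) : od n = true := by
  show Nat.beq (n % 2) 1 = true
  rw [h]; rfl

lemma ce_od_false {n : ℕ} (h : n % 2 = 0) : od n = false := by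
  show Nat.beq (n % 2) 1 = false
  rw [h]; rfl

lemma ce_cC_odd {n : ℕ} (h : n % 2 = 1) : cC n = n * 1099511627776 + 549755813888 := by
  unfold cC; rw [ce_od_true h]; rfl

lemma ce_cC_even {n : ℕ} (h : n % 2 = 0) : cC n = (n + 1) * 1099511627776 + 549755813888 := by
  unfold cC; rw [ce_od_false h]; rfl

theorem z_bounds {n a b : ℕ} {x : ℝ} (hb : b ≤ 2 ^ 40) (ha : a ≤ 2 ^ 40) (hn : 1 ≤ n)
    (h1 : (a : ℝ) ≤ uu n x * 2 ^ 40) (h2 : uu n x * 2 ^ 40 ≤ b) :
    (zA (od n) (cC n) a b : ℝ) ≤ (x + 1 / 2) * 2 ^ 40 ∧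
      (x + 1 / 2) * 2 ^ 40 ≤ (zB (od n) (cC n) a b : ℝ) := by
  have e40 : (2 : ℝ) ^ 40 = 1099511627776 := by norm_num
  have n40 : 2 ^ 40 = 1099511627776 := by norm_num
  rw [e40] at *
  rw [n40] at ha hb
  rcases Nat.mod_two_eq_zero_or_one n with h | h
  · have eu : uu n x = n + 1 - x := by unfold uu; rw [if_pos h]
    have eA : zA (od n) (cC n) a b = cC n - b := by rw [ce_od_false h]; rfl
    have eB : zB (od n) (cC n) a b = cC n - a := by rw [ce_od_false h]; rfl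
    rw [eA, eB, ce_cC_even h, Nat.cast_sub (by omega), Nat.cast_sub (by omega)]
    rw [eu] at h1 h2
    push_cast
    constructor <;> linarith
  · have eu : uu n x = x - n := by unfold uu; rw [if_neg (by omega)]
    have eA : zA (od n) (cC n) a b = cC n + a := by rw [ce_od_true h]; rfl
    have eB : zB (od n) (cC n) a b = cC n + b := by rw [ce_od_true h]; rfl
    rw [eA, eB, ce_cC_odd h]
    rw [eu] at h1 h2
    push_cast
    constructor <;> linarith

lemma ce_zA_pos {n a b : ℕ} (hb : b ≤ 2 ^ 40) : 0 < zA (od n) (cC n) a b := by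
  have n40 : 2 ^ 40 = 1099511627776 := by norm_num
  rw [n40] at hb
  rcases Nat.mod_two_eq_zero_or_one n with h | h
  · have eA : zA (od n) (cC n) a b = cC n - b := by rw [ce_od_false h]; rfl
    rw [eA, ce_cC_even h]; omega
  · have eA : zA (od n) (cC n) a b = cC n + a := by rw [ce_od_true h]; rfl
    rw [eA, ce_cC_odd h]; omega

lemma ce_gen (T hi c : ℕ) : Nat.add (Nat.sub (Nat.sub T hi) c) c = T - hi - c + c := rfl

lemma ce_cD_false (za lo hi s : ℕ) : cD false za lo hi s = lo + Nat.shiftRight (za * s) 40 := by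
  unfold cD
  rw [cond_false, Nat.add_eq, Nat.mul_eq]

lemma ce_cD_true (za lo hi s : ℕ) : ∃ c : ℕ, 0 < c ∧ (c : ℝ) ≤ 1 / 10 * 2 ^ 48 ∧
    cD true za lo hi s = Nat.shiftRight (za * s) 40 - hi - c + c := by
  refine ⟨28147497671065, by norm_num, by norm_num, ?_⟩
  unfold cD
  rw [cond_true, ce_gen, Nat.mul_eq]

lemma ce_cD {n za lo hi s : ℕ} (hn : 2 ≤ n) {x : ℝ} (hx : x ∈ UB n) (hlo : 0 < lo)
    (hz : (za : ℝ) ≤ (x + 1 / 2) * 2 ^ 40)
    (k1 : (lo : ℝ) ≤ (1 + cos (π * uu n x) / 2) * 2 ^ 48)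
    (k2 : (1 + cos (π * uu n x) / 2) * 2 ^ 48 ≤ hi)
    (k3 : (s : ℝ) ≤ π / 2 * sin (π * uu n x) * 2 ^ 48) :
    0 < cD (od n) za lo hi s ∧ (cD (od n) za lo hi s : ℝ) ≤ |ff' x| * 2 ^ 48 := by
  have t1 : ((Nat.shiftRight (za * s) 40 : ℕ) : ℝ) ≤
      (x + 1 / 2) * (π / 2 * sin (π * uu n x)) * 2 ^ 48 := by
    refine (ce_shift_le _ _).trans ?_
    have h2 : (za : ℝ) * s ≤ ((x + 1 / 2) * 2 ^ 40) * (π / 2 * sin (π * uu n x) * 2 ^ 48) :=
      mul_le_mul hz k3 (Nat.cast_nonneg _) (le_trans (Nat.cast_nonneg _) hz)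
    rw [div_le_iff₀ (by positivity)]
    push_cast
    linarith
  rcases Nat.mod_two_eq_zero_or_one n with h | h
  · rw [ce_od_false h, ce_cD_false]
    generalize Nat.shiftRight (za * s) 40 = T at *
    refine ⟨Nat.add_pos_left hlo _, ?_⟩
    have := mul_le_mul_of_nonneg_right (le_abs_self (ff' x)) (show (0 : ℝ) ≤ 2 ^ 48 by positivity)
    refine le_trans ?_ this
    rw [ce_deriv_even h, Nat.cast_add]
    linarith
  · rw [ce_od_true h]
    obtain ⟨c, c0, c1, e⟩ := ce_cD_true za lo hi s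
    rw [e]
    generalize Nat.shiftRight (za * s) 40 = T at *
    refine ⟨by omega, ?_⟩
    have := mul_le_mul_of_nonneg_right (neg_le_abs (ff' x)) (show (0 : ℝ) ≤ 2 ^ 48 by positivity)
    refine le_trans ?_ this
    rcases le_total T (hi + c) with k | k
    · rw [show T - hi - c + c = c by omega]
      have := mul_le_mul_of_nonneg_right (UB_odd (by omega) h hx)
        (show (0 : ℝ) ≤ 2 ^ 48 by positivity)
      linarith
    · rw [show T - hi - c + c = T - hi by omega, Nat.cast_sub (by omega), ce_deriv_odd h]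
      linarith

theorem cell_sound {n a b lo hi s : ℕ} (p : ℕ) (hn : 2 ≤ n) {x : ℝ} (hx : x ∈ UB n)
    (hb : b ≤ 2 ^ 40) (hc : CellOK a b lo hi s) (hlo : 0 < lo)
    (h1 : (a : ℝ) ≤ uu n x * 2 ^ 40) (h2 : uu n x * 2 ^ 40 ≤ b) :
    (cL (zA (od n) (cC n) a b) lo : ℝ) ≤ (ff x + 1 / 4) * 2 ^ 40 ∧
      (ff x + 1 / 4) * 2 ^ 40 ≤ (cH (zB (od n) (cC n) a b) hi : ℝ) ∧
      (p : ℝ) / 1024 / (x + 1 / 2) / |ff' x| * 2 ^ 40 ≤
        (cW (od n) p (zA (od n) (cC n) a b) lo hi s : ℝ) := by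
  have hab : a ≤ b := by exact_mod_cast h1.trans h2
  obtain ⟨z1, z2⟩ := z_bounds hb (hab.trans hb) (by omega) h1 h2
  obtain ⟨k1, k2, k3⟩ := hc _ h1 h2
  have x0 : 0 < x + 1 / 2 := by
    have := (UB_sub (by omega) hx).1
    have n0 : (0 : ℝ) ≤ n := Nat.cast_nonneg n
    linarith
  have m0 : 0 ≤ 1 + cos (π * uu n x) / 2 := by linarith [neg_one_le_cos (π * uu n x)]
  refine ⟨?_, ?_, ?_⟩
  · rw [geo_f (n := n)]; exact cL_le z1 k1
  · rw [geo_f (n := n)]; exact le_cH x0.le m0 z2 k2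
  · have a0 : 0 < zA (od n) (cC n) a b := ce_zA_pos hb
    obtain ⟨d0, d1⟩ := ce_cD hn hx hlo z1 k1 k2 k3
    generalize zA (od n) (cC n) a b = za at *
    have e : cW (od n) p za lo hi s = p * 2 ^ 118 / (za * cD (od n) za lo hi s) + 1 := by
      have : Nat.shiftLeft p 118 = p * 2 ^ 118 := Nat.shiftLeft_eq p 118
      rw [← this]; rfl
    rw [e]
    generalize cD (od n) za lo hi s = D at *
    refine le_trans ?_ (ce_le_succ_div _ _ (Nat.mul_pos a0 d0))
    have a1 : (0 : ℝ) < za := by exact_mod_cast a0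
    have d2 : (0 : ℝ) < D := by exact_mod_cast d0
    have f0 : 0 < |ff' x| :=
      (mul_pos_iff_of_pos_right (show (0 : ℝ) < 2 ^ 48 by positivity)).1 (d2.trans_le d1)
    have h3 : (za : ℝ) * D ≤ ((x + 1 / 2) * 2 ^ 40) * (|ff' x| * 2 ^ 48) :=
      mul_le_mul z1 d1 d2.le (by positivity)
    have e2 : (p : ℝ) / 1024 / (x + 1 / 2) / |ff' x| * 2 ^ 40 =
        (p : ℝ) * 2 ^ 118 / (((x + 1 / 2) * 2 ^ 40) * (|ff' x| * 2 ^ 48)) := by
      field_simp
      norm_num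
    rw [e2, Nat.cast_mul, Nat.cast_mul, Nat.cast_pow, Nat.cast_ofNat]
    exact div_le_div_of_nonneg_left (by positivity) (by positivity) h3

end Pool.Agent.Lib.MP_2dc536_an.X
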