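import Pool.Agent.Lib.MP_2dc536_an.X.Base

/-!
The sweep that bounds the loss at small heights.
-/

namespace Pool.Agent.Lib.MP_2dc536_an.X

/-- Images of cells with their weights. -/
inductive CL
  | nil
  | cons (lo hi w : ℕ) (r : CL)

/-- Lists of laps. -/
inductive LL
  | nil
  | cons (c : CL) (r : LL)

/-- Search tree of data. -/
inductive DTr
  | leaf (D d : ℕ)
  | node (m : ℕ) (l r : DTr)

/-- Evaluate `x`, then continue. -/
noncomputable def sq {α : Type} (x : ℕ) (k : ℕ → α) : α :=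
  Nat.rec (k (nat_lit 0)) (fun m _ => k (Nat.succ m)) x

/-- Lookup of the weights. -/
noncomputable def datD (t : DTr) (n : ℕ) : ℕ :=
  DTr.rec (fun D _ => D) (fun m _ _ a b => cond (Nat.ble m n) b a) t

/-- Lookup of the trap width. -/
noncomputable def datd (t : DTr) (n : ℕ) : ℕ :=
  DTr.rec (fun _ d => d) (fun m _ _ a b => cond (Nat.ble m n) b a) t

/-- Digit in base `2 ^ 16`. -/
def dig (D j : ℕ) : ℕ := Nat.mod (Nat.shiftRight D (Nat.mul (nat_lit 16) j)) (nat_lit 65536)

/-- Newton iteration for a square root. -/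
noncomputable def rt (N : ℕ) : ℕ :=
  Nat.rec (motive := fun _ => ℕ → ℕ) (fun r => r)
    (fun _ ih r => sq (Nat.div (Nat.add r (Nat.div N r)) (nat_lit 2)) ih) (nat_lit 6)
    (nat_lit 65536)

/-- Upper weight of a high lap. -/
noncomputable def hiP (n : ℕ) : ℕ :=
  sq (Nat.pred (rt (Nat.mul n (nat_lit 1048576)))) fun r =>
    cond (and (Nat.ble (nat_lit 1) r) (Nat.ble (Nat.mul r r) (Nat.mul n (nat_lit 1048576))))
      (hiA n r) (nat_lit 65536)

/-- Lower weight of a high lap. -/
noncomputable def loP (n : ℕ) : ℕ :=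
  sq (rt (Nat.mul n (nat_lit 1048576))) fun r =>
    cond (Nat.ble (Nat.mul n (nat_lit 1048576)) (Nat.mul (Nat.succ r) (Nat.succ r)))
      (loA n r) (nat_lit 0)

/-- The small cells of one block. -/
noncomputable def subL (o : Bool) (C p y0 y1 : ℕ) (k : CL → ℕ → CL) (t : SB) : CL → ℕ → CL :=
  SB.rec k (fun a b lo hi s _ ih acc ml =>
    sq (zA o C a b) fun za => sq (cL za lo) fun L => cond (Nat.ble L y1)
      (sq (cH (zB o C a b) hi) fun H => cond (Nat.ble y0 H)
        (sq (cW o p za lo hi s) fun w =>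
          cond (Nat.ble L ml) (ih (CL.cons L H w acc) L) (ih (CL.cons ml H w acc) ml))
        (ih acc ml))
      (ih acc ml)) t

/-- The blocks of one lap. -/
noncomputable def blkL (o : Bool) (C Cm Cp y0 y1 : ℕ) (pf : ℕ → ℕ → ℕ → ℕ) (t : TB) :
    ℕ → CL → ℕ → CL :=
  TB.rec (fun _ acc _ => acc) (fun a b lo hi sub _ ih i acc ml =>
    cond (Nat.ble (cL Cm lo) y1)
      (cond (Nat.ble y0 (cH Cp hi))
        (sq i fun i => sq (pf i a b) fun p =>
          cond (Nat.beq p (nat_lit 0)) (ih (Nat.succ i) acc ml)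
            (subL o C p y0 y1 (ih (Nat.succ i)) sub acc ml))
        acc)
      (ih (Nat.succ i) acc ml)) t

/-- One lap, parity known. -/
noncomputable def lapO (o : Bool) (n y0 y1 : ℕ) (pf : ℕ → ℕ → ℕ → ℕ) (t : TB) : CL :=
  sq (cC n) fun C => sq (Nat.sub C (nat_lit 1099511627776)) fun Cm =>
    sq (Nat.add C (nat_lit 1099511627776)) fun Cp =>
      blkL o C Cm Cp y0 y1 pf t (nat_lit 0) CL.nil y1

/-- One lap. -/
noncomputable def lapB (t : TB) (K1 N1 : ℕ) (dt : DTr) (y0 y1 n : ℕ) : CL :=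
  cond (Nat.ble N1 n)
    (sq (hiP n) fun ph => cond (od n)
      (sq (Nat.div (nat_lit 879609302220) n) fun mL =>
        sq (Nat.sub (nat_lit 1099511627776) (Nat.div (nat_lit 274877906944) n)) fun mR =>
          lapO true n y0 y1
            (fun _ a b => cond (and (Nat.ble mL b) (Nat.ble a mR)) ph (nat_lit 0)) t)
      (lapO false n y0 y1 (fun _ _ _ => ph) t))
    (sq (datD dt n) fun D => cond (od n)
      (lapO true n y0 y1 (fun i _ _ => dig D i) t)
      (lapO false n y0 y1 (fun i _ _ => dig D (Nat.sub K1 i)) t))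

/-- All laps from `n0` on. -/
noncomputable def mkAll (f : ℕ → CL) (n0 cnt : ℕ) : LL → LL :=
  Nat.rec (fun acc => acc) (fun i ih acc =>
    CL.rec (ih acc) (fun lo hi w r _ => ih (LL.cons (CL.cons lo hi w r) acc))
      (sq (Nat.add n0 i) f)) cnt

/-- Drop the cells below `y`. -/
noncomputable def dropK (y kn : ℕ) (kc : ℕ → ℕ → ℕ → CL → ℕ) (l : CL) : ℕ :=
  CL.rec kn (fun lo hi w r ih => cond (Nat.ble y hi) (kc lo hi w r) ih) l

/-- Largest weight up to `e`. -/
noncomputable def scan (e : ℕ) (l : CL) : ℕ → ℕ :=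
  CL.rec (fun a => a) (fun lo _ w _ ih a =>
    cond (Nat.ble lo e) (cond (Nat.ble w a) (ih a) (ih w)) a) l

/-- Smallest weight up to `e`. -/
noncomputable def scanMin (e : ℕ) (l : CL) : ℕ → ℕ → ℕ :=
  CL.rec (fun a ph => cond (Nat.ble e ph) a (nat_lit 0)) (fun lo hi w _ ih a _ =>
    cond (Nat.ble lo e) (cond (Nat.ble a w) (ih a hi) (ih w hi)) a) l

/-- Sort the laps into slowly and quickly varying ones on a window. -/
noncomputable def refr (y1 e thr : ℕ) (k : ℕ → LL → LL → ℕ) (L : LL) : ℕ → LL → LL → ℕ :=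
  LL.rec k (fun c _ ih fs far near =>
    dropK y1 (ih fs far near) (fun lo hi w r =>
      cond (Nat.ble lo e)
        (sq (scan e r w) fun mx =>
          cond (or (Nat.ble mx thr)
              (and (Nat.ble lo y1) (Nat.ble mx (Nat.add thr (scanMin e r w hi)))))
            (ih (Nat.add fs mx) (LL.cons (CL.cons lo hi w r) far) near)
            (ih fs far (LL.cons (CL.cons lo hi w r) near)))
        (ih fs (LL.cons (CL.cons lo hi w r) far) near)) c) L

/-- The quickly varying laps on one cell. -/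
noncomputable def nearL (y1 y2 : ℕ) (k : ℕ → LL → ℕ) (L : LL) : ℕ → LL → ℕ :=
  LL.rec k (fun c _ ih t near =>
    dropK y1 (ih t near) (fun lo hi w r =>
      ih (Nat.add t (cond (Nat.ble lo y2) (scan y2 r w) (nat_lit 0)))
        (LL.cons (CL.cons lo hi w r) near)) c) L

/-- The loss on one cell. -/
noncomputable def step (y1 y2 p c fs : ℕ) (near : LL) (k : ℕ → LL → ℕ) : ℕ :=
  nearL y1 y2 (fun tt near' =>
    sq (Nat.add c (Nat.mul (Nat.sub tt (Nat.div (Nat.shiftLeft p (nat_lit 70))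
      (Nat.add y2 (nat_lit 274877906944)))) (Nat.sub y2 y1))) fun c' => k c' near') near fs LL.nil

/-- The cells of one unit interval. -/
noncomputable def fine (B r l a2 a3 iL iR h thr yE : ℕ) (pj : ℕ → ℕ)
    (k : ℕ → ℕ → ℕ → LL → LL → ℕ) (t : TB) : ℕ → ℕ → ℕ → ℕ → LL → LL → ℕ :=
  TB.rec (fun _ => k) (fun a b _ _ _ _ ih j c fs fe far near =>
    cond (or (Nat.ble b r) (or (Nat.ble l a) (and (Nat.ble a2 a) (Nat.ble b a3))))
      (ih (Nat.succ j) c fs fe far near)
      (sq j fun j => sq (Nat.add B a) fun y1 => sq (Nat.add B b) fun y2 =>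
        cond (Nat.ble y2 fe)
          (step y1 y2 (cond (and (Nat.ble iL a) (Nat.ble b iR)) (pj j) (nat_lit 0)) c fs near
            fun c' near' => ih (Nat.succ j) c' fs fe far near')
          (sq (Nat.add y2 (Nat.sub h (Nat.sub h (Nat.sub yE y2)))) fun e =>
            refr y1 e thr (refr y1 e thr (fun fs far near => sq fs fun fs =>
              step y1 y2 (cond (and (Nat.ble iL a) (Nat.ble b iR)) (pj j) (nat_lit 0)) c fs near
                fun c' near' => ih (Nat.succ j) c' fs e far near') near)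
              far (nat_lit 0) LL.nil LL.nil))) t

/-- Left end of the kept part. -/
def inL (N1 m : ℕ) : ℕ :=
  cond (od m) (Nat.succ (Nat.div (cond (Nat.ble N1 m) (nat_lit 879609302221)
    (nat_lit 439804651111)) m)) (nat_lit 0)

/-- Right end of the kept part. -/
def inR (N1 m : ℕ) : ℕ :=
  cond (od m) (Nat.sub (nat_lit 1099511627775) (Nat.div (cond (Nat.ble N1 m)
    (nat_lit 274877906944) (nat_lit 164926744167)) m)) (nat_lit 1099511627776)

/-- The unit intervals from `m` on. -/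
noncomputable def units (t : TB) (N1 : ℕ) (dt : DTr) (h eta yE cnt : ℕ) :
    ℕ → ℕ → ℕ → ℕ → LL → LL → ℕ :=
  Nat.rec (fun _ c _ _ _ _ => c) (fun _ ih m => sq m fun m =>
    sq (Nat.add (Nat.mul m (nat_lit 1099511627776)) (nat_lit 274877906944)) fun B =>
    sq (zr m) fun r => sq (zl m (datd dt m)) fun l => sq (z2 m) fun a2 => sq (z3 m) fun a3 =>
    sq (inL N1 m) fun iL => sq (inR N1 m) fun iR => sq (Nat.div eta m) fun thr =>
    cond (Nat.ble N1 m)
      (sq (loP m) fun p =>
        fine B r l a2 a3 iL iR h thr yE (fun _ => p) (ih (Nat.succ m)) t (nat_lit 0))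
      (sq (datD dt m) fun D =>
        fine B r l a2 a3 iL iR h thr yE (fun j => dig D j) (ih (Nat.succ m)) t (nat_lit 0))) cnt

/-- The loss on `[m0, m0 + cnt)`, times `2 ^ 80`. -/
noncomputable def run (t : TB) (K1 N1 : ℕ) (dt : DTr) (h eta m0 cnt : ℕ) : ℕ :=
  sq (Nat.add (Nat.mul m0 (nat_lit 1099511627776)) (nat_lit 274877906944)) fun y0 =>
  sq (Nat.add (Nat.mul (Nat.add m0 cnt) (nat_lit 1099511627776)) (nat_lit 274877906944)) fun y1 =>
  sq (Nat.add (nat_lit 2) (Nat.sub (Nat.div (Nat.mul (nat_lit 2) m0) (nat_lit 3)) (nat_lit 4)))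
    fun n0 =>
    units t N1 dt h eta y1 cnt m0 (nat_lit 0) (nat_lit 0) (nat_lit 0)
      (mkAll (lapB t K1 N1 dt y0 y1) n0
        (Nat.sub (Nat.succ (Nat.mul (nat_lit 2) (Nat.add m0 cnt))) n0) LL.nil) LL.nil

end Pool.Agent.Lib.MP_2dc536_an.X
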