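import Pool.Agent.Lib.MP_2dc536_an.X.Chk

/-!
A faster form of the sweep.
-/

namespace Pool.Agent.Lib.MP_2dc536_an.X

/-- Search tree for the first block that can matter. -/
inductive SK
  | leaf (i : ℕ) (t : TB)
  | node (lo : ℕ) (l r : SK)

/-- Fast form. -/
noncomputable def subO (C P y0 y1 : ℕ) (k : CL → ℕ → CL) (t : SB) : CL → ℕ → CL :=
  SB.rec k (fun a b lo hi s _ ih acc ml =>
    sq (Nat.add C a) fun za => sq (Nat.shiftRight (Nat.mul za lo) (nat_lit 48)) fun L =>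
      (@Bool.rec (fun _ => CL) (ih acc ml) (sq (Nat.succ (Nat.shiftRight (Nat.mul (Nat.add C b) hi) (nat_lit 48))) fun H =>
      (@Bool.rec (fun _ => CL) (ih acc ml) (sq (Nat.succ (Nat.div P (Nat.mul za (Nat.add (Nat.sub (Nat.sub (Nat.shiftRight (Nat.mul za s) (nat_lit 40)) hi) (nat_lit 28147497671065)) (nat_lit 28147497671065))))) fun w =>
      (@Bool.rec (fun _ => CL) (ih (CL.cons ml H w acc) ml) (ih (CL.cons L H w acc) L) (Nat.ble L ml))) (Nat.ble y0 H))) (Nat.ble L y1))) t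

/-- Fast form. -/
noncomputable def subE (C P y0 y1 : ℕ) (k : CL → ℕ → CL) (t : SB) : CL → ℕ → CL :=
  SB.rec k (fun a b lo hi s _ ih acc ml =>
    sq (Nat.sub C b) fun za => sq (Nat.shiftRight (Nat.mul za lo) (nat_lit 48)) fun L =>
      (@Bool.rec (fun _ => CL) (ih acc ml) (sq (Nat.succ (Nat.shiftRight (Nat.mul (Nat.sub C a) hi) (nat_lit 48))) fun H =>
      (@Bool.rec (fun _ => CL) (ih acc ml) (sq (Nat.succ (Nat.div P (Nat.mul za (Nat.add lo (Nat.shiftRight (Nat.mul za s) (nat_lit 40)))))) fun w =>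
      (@Bool.rec (fun _ => CL) (ih (CL.cons ml H w acc) ml) (ih (CL.cons L H w acc) L) (Nat.ble L ml))) (Nat.ble y0 H))) (Nat.ble L y1))) t

/-- Fast form. -/
noncomputable def blkO (C Cm Cp y0 y1 : ℕ) (pf : ℕ → ℕ → ℕ → ℕ) (t : TB) : ℕ → CL → ℕ → CL :=
  TB.rec (fun _ acc _ => acc) (fun a b lo hi sub _ ih i acc ml =>
    (@Bool.rec (fun _ => CL) (ih (Nat.succ i) acc ml) (@Bool.rec (fun _ => CL) acc (sq i fun i => sq (pf i a b) fun p =>
      (@Bool.rec (fun _ => CL) (sq (Nat.shiftLeft p (nat_lit 118)) fun P => subO C P y0 y1 (ih (Nat.succ i)) sub acc ml) (ih (Nat.succ i) acc ml) (Nat.beq p (nat_lit 0)))) (Nat.ble y0 (Nat.succ (Nat.shiftRight (Nat.mul Cp hi) (nat_lit 48))))) (Nat.ble (Nat.shiftRight (Nat.mul Cm lo) (nat_lit 48)) y1))) t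

/-- Fast form. -/
noncomputable def blkE (C Cm Cp y0 y1 : ℕ) (pf : ℕ → ℕ → ℕ → ℕ) (t : TB) : ℕ → CL → ℕ → CL :=
  TB.rec (fun _ acc _ => acc) (fun a b lo hi sub _ ih i acc ml =>
    (@Bool.rec (fun _ => CL) (ih (Nat.succ i) acc ml) (@Bool.rec (fun _ => CL) acc (sq i fun i => sq (pf i a b) fun p =>
      (@Bool.rec (fun _ => CL) (sq (Nat.shiftLeft p (nat_lit 118)) fun P => subE C P y0 y1 (ih (Nat.succ i)) sub acc ml) (ih (Nat.succ i) acc ml) (Nat.beq p (nat_lit 0)))) (Nat.ble y0 (Nat.succ (Nat.shiftRight (Nat.mul Cp hi) (nat_lit 48))))) (Nat.ble (Nat.shiftRight (Nat.mul Cm lo) (nat_lit 48)) y1))) t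

/-- Fast form. -/
noncomputable def lapOo (n y0 y1 : ℕ) (pf : ℕ → ℕ → ℕ → ℕ) (sk : SK) : CL :=
  sq (cC n) fun C => sq (Nat.sub C (nat_lit 1099511627776)) fun Cm =>
    sq (Nat.add C (nat_lit 1099511627776)) fun Cp =>
      SK.rec (fun i t => blkO C Cm Cp y0 y1 pf t i CL.nil y1)
        (fun lo _ _ l r => (@Bool.rec (fun _ => CL) r l (Nat.ble (Nat.shiftRight (Nat.mul Cm lo) (nat_lit 48)) y1))) sk

/-- Fast form. -/
noncomputable def lapOe (n y0 y1 : ℕ) (pf : ℕ → ℕ → ℕ → ℕ) (sk : SK) : CL :=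
  sq (cC n) fun C => sq (Nat.sub C (nat_lit 1099511627776)) fun Cm =>
    sq (Nat.add C (nat_lit 1099511627776)) fun Cp =>
      SK.rec (fun i t => blkE C Cm Cp y0 y1 pf t i CL.nil y1)
        (fun lo _ _ l r => (@Bool.rec (fun _ => CL) r l (Nat.ble (Nat.shiftRight (Nat.mul Cm lo) (nat_lit 48)) y1))) sk

/-- Fast form. -/
noncomputable def lapB2 (sk : SK) (K1 N1 : ℕ) (dt : DTr) (y0 y1 n : ℕ) : CL :=
  cond (Nat.ble N1 n)
    (sq (hiP n) fun ph => cond (od n)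
      (sq (Nat.div (nat_lit 879609302220) n) fun mL =>
        sq (Nat.sub (nat_lit 1099511627776) (Nat.div (nat_lit 274877906944) n)) fun mR =>
          lapOo n y0 y1
            (fun _ a b => cond (and (Nat.ble mL b) (Nat.ble a mR)) ph (nat_lit 0)) sk)
      (lapOe n y0 y1 (fun _ _ _ => ph) sk))
    (sq (datD dt n) fun D => cond (od n)
      (lapOo n y0 y1 (fun i _ _ => dig D i) sk)
      (lapOe n y0 y1 (fun i _ _ => dig D (Nat.sub K1 i)) sk))

/-- Fast form. -/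
noncomputable def scan2 (e : ℕ) (l : CL) : ℕ → ℕ :=
  CL.rec (fun a => a) (fun lo _ w _ ih a =>
    (@Bool.rec (fun _ => ℕ) a (@Bool.rec (fun _ => ℕ) (ih w) (ih a) (Nat.ble w a)) (Nat.ble lo e))) l

/-- Fast form. -/
noncomputable def scanMin2 (e : ℕ) (l : CL) : ℕ → ℕ → ℕ :=
  CL.rec (fun a ph => (@Bool.rec (fun _ => ℕ) (nat_lit 0) a (Nat.ble e ph))) (fun lo hi w _ ih a _ =>
    (@Bool.rec (fun _ => ℕ) a (@Bool.rec (fun _ => ℕ) (ih w hi) (ih a hi) (Nat.ble a w)) (Nat.ble lo e))) l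

/-- Fast form. -/
noncomputable def refr2 (y1 e thr : ℕ) (k : ℕ → LL → LL → ℕ) (L : LL) : ℕ → LL → LL → ℕ :=
  LL.rec k (fun c _ ih fs far near =>
    @CL.rec (fun _ => ℕ) (ih fs far near) (fun lo hi w r ih2 =>
      (@Bool.rec (fun _ => ℕ) ih2 (@Bool.rec (fun _ => ℕ) (ih fs (LL.cons (CL.cons lo hi w r) far) near) (sq (scan2 e r w) fun mx =>
        (@Bool.rec (fun _ => ℕ) (ih fs far (LL.cons (CL.cons lo hi w r) near)) (ih (Nat.add fs mx) (LL.cons (CL.cons lo hi w r) far) near) (@Bool.rec (fun _ => Bool) (@Bool.rec (fun _ => Bool) false (Nat.ble mx (Nat.add thr (scanMin2 e r w hi))) (Nat.ble lo y1)) true (Nat.ble mx thr)))) (Nat.ble lo e)) (Nat.ble y1 hi))) c) L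

/-- Fast form. -/
noncomputable def nearL2 (y1 y2 : ℕ) (k : ℕ → LL → ℕ) (L : LL) : ℕ → LL → ℕ :=
  LL.rec k (fun c _ ih t near =>
    @CL.rec (fun _ => ℕ) (ih t near) (fun lo hi w r ih2 =>
      (@Bool.rec (fun _ => ℕ) ih2 (ih (Nat.add t (@Bool.rec (fun _ => ℕ) (nat_lit 0) (scan2 y2 r w) (Nat.ble lo y2))) (LL.cons (CL.cons lo hi w r) near)) (Nat.ble y1 hi))) c) L

/-- Fast form. -/
noncomputable def step2 (y1 y2 p c fs : ℕ) (near : LL) (k : ℕ → LL → ℕ) : ℕ :=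
  nearL2 y1 y2 (fun tt near' =>
    sq (Nat.add c (Nat.mul (Nat.sub tt (Nat.div (Nat.shiftLeft p (nat_lit 70))
      (Nat.add y2 (nat_lit 274877906944)))) (Nat.sub y2 y1))) fun c' => k c' near') near fs LL.nil

/-- Fast form. -/
noncomputable def fine2 (B r l a2 a3 iL iR h thr yE : ℕ) (pj : ℕ → ℕ)
    (k : ℕ → ℕ → ℕ → LL → LL → ℕ) (t : TB) : ℕ → ℕ → ℕ → ℕ → LL → LL → ℕ :=
  TB.rec (fun _ => k) (fun a b _ _ _ _ ih j c fs fe far near =>
    @Bool.rec (fun _ => ℕ)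
      (sq j fun j => sq (Nat.add B a) fun y1 => sq (Nat.add B b) fun y2 =>
        @Bool.rec (fun _ => ℕ)
          (sq (Nat.add y2 (Nat.sub h (Nat.sub h (Nat.sub yE y2)))) fun e =>
            refr2 y1 e thr (refr2 y1 e thr (fun fs far near => sq fs fun fs =>
              step2 y1 y2 (@Bool.rec (fun _ => ℕ) (nat_lit 0) (pj j) (@Bool.rec (fun _ => Bool) false (Nat.ble b iR) (Nat.ble iL a))) c fs near
                fun c' near' => ih (Nat.succ j) c' fs e far near') near)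
              far (nat_lit 0) LL.nil LL.nil)
          (step2 y1 y2 (@Bool.rec (fun _ => ℕ) (nat_lit 0) (pj j) (@Bool.rec (fun _ => Bool) false (Nat.ble b iR) (Nat.ble iL a))) c fs near
            fun c' near' => ih (Nat.succ j) c' fs fe far near')
          (Nat.ble y2 fe))
      (ih (Nat.succ j) c fs fe far near)
      (@Bool.rec (fun _ => Bool) (@Bool.rec (fun _ => Bool) (@Bool.rec (fun _ => Bool) false (Nat.ble b a3) (Nat.ble a2 a)) true (Nat.ble l a)) true (Nat.ble b r))) t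

/-- Fast form. -/
noncomputable def units2 (t : TB) (N1 : ℕ) (dt : DTr) (h eta yE cnt : ℕ) :
    ℕ → ℕ → ℕ → ℕ → LL → LL → ℕ :=
  Nat.rec (fun _ c _ _ _ _ => c) (fun _ ih m => sq m fun m =>
    sq (Nat.add (Nat.mul m (nat_lit 1099511627776)) (nat_lit 274877906944)) fun B =>
    sq (zr m) fun r => sq (zl m (datd dt m)) fun l => sq (z2 m) fun a2 => sq (z3 m) fun a3 =>
    sq (inL N1 m) fun iL => sq (inR N1 m) fun iR => sq (Nat.div eta m) fun thr =>
    cond (Nat.ble N1 m)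
      (sq (loP m) fun p =>
        fine2 B r l a2 a3 iL iR h thr yE (fun _ => p) (ih (Nat.succ m)) t (nat_lit 0))
      (sq (datD dt m) fun D =>
        fine2 B r l a2 a3 iL iR h thr yE (fun j => dig D j) (ih (Nat.succ m)) t (nat_lit 0))) cnt

/-- Fast form. -/
noncomputable def run2 (t : TB) (sk : SK) (K1 N1 : ℕ) (dt : DTr) (h eta m0 cnt : ℕ) : ℕ :=
  sq (Nat.add (Nat.mul m0 (nat_lit 1099511627776)) (nat_lit 274877906944)) fun y0 =>
  sq (Nat.add (Nat.mul (Nat.add m0 cnt) (nat_lit 1099511627776)) (nat_lit 274877906944)) fun y1 =>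
  sq (Nat.add (nat_lit 2) (Nat.sub (Nat.div (Nat.mul (nat_lit 2) m0) (nat_lit 3)) (nat_lit 4)))
    fun n0 =>
    units2 t N1 dt h eta y1 cnt m0 (nat_lit 0) (nat_lit 0) (nat_lit 0)
      (mkAll (lapB2 sk K1 N1 dt y0 y1) n0
        (Nat.sub (Nat.succ (Nat.mul (nat_lit 2) (Nat.add m0 cnt))) n0) LL.nil) LL.nil

/-- The table without its first `i` blocks. -/
def dropT : TB → ℕ → TB
  | t, 0 => t
  | .nil, _ + 1 => .nil
  | .cons _ _ _ _ _ r, i + 1 => dropT r i

/-- The first `i` blocks exist and have lower bound at least `B`. -/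
def loGe (B : ℕ) : TB → ℕ → Bool
  | _, 0 => true
  | .nil, _ + 1 => false
  | .cons _ _ lo _ _ r, i + 1 => and (Nat.ble B lo) (loGe B r i)

/-- The leaves hold tails of the table. -/
def skT (t : TB) : SK → Prop
  | .leaf i u => u = dropT t i
  | .node _ l r => skT t l ∧ skT t r

/-- The tests of the tree justify the jumps. -/
def skB (t : TB) : SK → ℕ → Bool
  | .leaf i _, B => loGe B t i
  | .node lo l r, B => and (skB t l B) (skB t r lo)

/-- The index of the leftmost leaf. -/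
def skL : SK → ℕ
  | .leaf i _ => i
  | .node _ l _ => skL l

end Pool.Agent.Lib.MP_2dc536_an.X
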