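import Pool.Agent.Lib.MP_2dc536_an.X.Base

namespace Pool.Agent.Lib.MP_2dc536_an.X

open Real Set MeasureTheory

lemma cost_floor (Φ : ℕ → ℝ → ℝ) (h : ∀ n, Measurable (Φ n)) :
    Measurable fun y : ℝ => Φ ⌊y⌋₊ y :=
  (measurable_from_prod_countable_left (f := fun p : ℝ × ℕ => Φ p.2 p.1) h).comp
    (measurable_id.prodMk Nat.measurable_floor)

lemma cost_UA (n : ℕ) : MeasurableSet (UA n) := by
  unfold UA
  split_ifs
  · exact measurableSet_Ico
  · exact measurableSet_Icc

theorem measurable_bA : Measurable bA := by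
  classical
  refine cost_floor (fun n y => GA (n % 3) (y - n) / (y * √y) +
    if y ∈ UA n then 0 else 119 / 100 / y) fun n => ?_
  refine Measurable.add ?_ (Measurable.ite (cost_UA n) measurable_const (by fun_prop))
  unfold GA
  fun_prop

lemma cost_GA_nonneg (r : ℕ) (η : ℝ) : 0 ≤ GA r η :=
  add_nonneg (le_max_left _ _) (le_max_left _ _)

theorem bA_nonneg {y : ℝ} (hy : 0 ≤ y) : 0 ≤ bA y := by
  unfold bA
  refine add_nonneg (div_nonneg (cost_GA_nonneg _ _) (by positivity)) ?_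
  split_ifs
  · exact le_rfl
  · positivity

lemma cost_base {a c : ℝ} (ha : 0 ≤ a) (hc : 0 < c) :
    ∫⁻ t : ℝ, ENNReal.ofReal (max 0 (a / √t - c)) ≤ ENNReal.ofReal (a ^ 2 / c) := by
  have hτ : 0 ≤ (a / c) ^ 2 := by positivity
  have h1 : ∀ t : ℝ, ENNReal.ofReal (max 0 (a / √t - c)) ≤
      (Ioc 0 ((a / c) ^ 2)).indicator (fun t => ENNReal.ofReal (a * t ^ (-(1 / 2) : ℝ) - c)) t := by
    intro t
    rcases le_total (a / √t - c) 0 with h | h
    · rw [max_eq_left h]; simp
    · have ht : 0 < t := by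
        by_contra ht
        rw [Real.sqrt_eq_zero_of_nonpos (not_lt.1 ht), div_zero] at h
        linarith
      have hs : 0 < √t := Real.sqrt_pos.2 ht
      have h2 : √t ≤ a / c := by
        rw [le_div_iff₀ hc]
        have : c ≤ a / √t := by linarith
        rw [le_div_iff₀ hs] at this
        linarith
      have h3 : t ≤ (a / c) ^ 2 := by
        rw [← Real.sq_sqrt ht.le]
        exact pow_le_pow_left₀ hs.le h2 2
      rw [max_eq_right h, indicator_of_mem (show t ∈ Ioc 0 ((a / c) ^ 2) from ⟨ht, h3⟩),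
        Real.rpow_neg ht.le, ← Real.sqrt_eq_rpow, div_eq_mul_inv]
  refine (lintegral_mono h1).trans ?_
  have hi : IntervalIntegrable (fun t : ℝ => t ^ (-(1 / 2) : ℝ)) volume 0 ((a / c) ^ 2) :=
    intervalIntegral.intervalIntegrable_rpow' (by norm_num)
  have hi2 : IntervalIntegrable (fun t : ℝ => a * t ^ (-(1 / 2) : ℝ) - c) volume 0 ((a / c) ^ 2) :=
    (hi.const_mul a).sub intervalIntegrable_const
  rw [lintegral_indicator measurableSet_Ioc, ← ofReal_integral_eq_lintegral_ofReal hi2.1,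
    ← intervalIntegral.integral_of_le hτ, intervalIntegral.integral_sub (hi.const_mul a)
      intervalIntegrable_const, intervalIntegral.integral_const_mul,
    integral_rpow (Or.inl (by norm_num)), intervalIntegral.integral_const]
  · refine ENNReal.ofReal_le_ofReal (le_of_eq ?_)
    have e : (-(1 / 2) + 1 : ℝ) = 1 / 2 := by norm_num
    rw [e, ← Real.sqrt_eq_rpow, ← Real.sqrt_eq_rpow, Real.sqrt_sq (by positivity), Real.sqrt_zero]
    simp only [smul_eq_mul]
    field_simp
    ring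
  · refine (ae_restrict_iff' measurableSet_Ioc).2 (ae_of_all _ fun t ht => ?_)
    have hs : 0 < √t := Real.sqrt_pos.2 ht.1
    have h2 : √t ≤ a / c := Real.sqrt_le_iff.2 ⟨by positivity, ht.2⟩
    rw [le_div_iff₀ hc] at h2
    simp only [Pi.zero_apply]
    rw [Real.rpow_neg ht.1.le, ← Real.sqrt_eq_rpow, ← div_eq_mul_inv, sub_nonneg, le_div_iff₀ hs]
    linarith

lemma cost_unit (m : ℝ) {K a c a' c' : ℝ} (hK : 0 ≤ K) (ha : 0 ≤ a) (hc : 0 < c) (ha' : 0 ≤ a')
    (hc' : 0 < c') :
    ∫⁻ y : ℝ, ENNReal.ofReal (K * (max 0 (a / √(y - m) - c) + max 0 (a' / √(m + 1 - y) - c'))) ≤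
      ENNReal.ofReal (K * (a ^ 2 / c + a' ^ 2 / c')) := by
  simp only [ENNReal.ofReal_mul hK, ENNReal.ofReal_add (le_max_left _ _) (le_max_left _ _)]
  rw [lintegral_const_mul' _ _ ENNReal.ofReal_ne_top, lintegral_add_left (by fun_prop),
    ENNReal.ofReal_add (by positivity) (by positivity),
    lintegral_sub_right_eq_self (fun t : ℝ => ENNReal.ofReal (max 0 (a / √t - c))) m,
    lintegral_sub_left_eq_self (fun t : ℝ => ENNReal.ofReal (max 0 (a' / √t - c'))) (m + 1)]
  gcongr
  · exact cost_base ha hc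
  · exact cost_base ha' hc'

lemma cost_tele (N : ℕ) (F : ℝ → ENNReal) (u Ψ : ℕ → ℝ) (hu : ∀ m, N ≤ m → 0 ≤ u m)
    (hΨ : ∀ m, N ≤ m → 0 ≤ Ψ m) (h : ∀ m, N ≤ m → u m + Ψ (m + 1) ≤ Ψ m)
    (hF : ∀ m : ℕ, N ≤ m → ∫⁻ y in Ico (m : ℝ) (m + 1), F y ≤ ENNReal.ofReal (u m)) :
    ∫⁻ y in Ici (N : ℝ), F y ≤ ENNReal.ofReal (Ψ N) := by
  rw [lintegral_Ici]
  refine (ENNReal.tsum_le_tsum fun k => hF (N + k) (by omega)).trans
    (ENNReal.tsum_le_of_sum_range_le fun K => ?_)
  have : ∑ i ∈ Finset.range K, ENNReal.ofReal (u (N + i)) + ENNReal.ofReal (Ψ (N + K)) ≤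
      ENNReal.ofReal (Ψ N) := by
    induction K with
    | zero => simp
    | succ K ih =>
      refine le_trans ?_ ih
      rw [Finset.sum_range_succ, add_assoc, ← ENNReal.ofReal_add (hu _ (by omega))
        (hΨ _ (by omega))]
      gcongr
      exact h (N + K) (by omega)
  exact le_trans le_self_add this

lemma cost_sqrt {m h : ℝ} (h0 : 0 ≤ h) (hm : h < m) :
    h / 2 / (m * √m) + 1 / √m ≤ 1 / √(m - h) := by
  have hA : 0 < √(m - h) := Real.sqrt_pos.2 (by linarith)
  have hB : 0 < √m := Real.sqrt_pos.2 (by linarith)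
  have eA := Real.sq_sqrt (show 0 ≤ m - h by linarith)
  have eB := Real.sq_sqrt (show 0 ≤ m by linarith)
  generalize √(m - h) = A at *
  generalize √m = B at *
  obtain rfl : m = B ^ 2 := eB.symm
  obtain rfl : h = B ^ 2 - A ^ 2 := by linarith
  have : 1 / A - ((B ^ 2 - A ^ 2) / 2 / (B ^ 2 * B) + 1 / B) =
      (B - A) ^ 2 * (2 * B + A) / (2 * A * B ^ 3) := by
    field_simp; ring
  have h2 : 0 ≤ (B - A) ^ 2 * (2 * B + A) / (2 * A * B ^ 3) := by positivity
  linarith

lemma cost_mono {m y : ℝ} (hm : 0 < m) (hy : m ≤ y) : 1 / (y * √y) ≤ 1 / (m * √m) := by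
  have := Real.sqrt_pos.2 hm
  have h0 : 0 ≤ y := by linarith
  gcongr

/-- The integral of the shape over a unit. -/
noncomputable def costC (r : ℕ) : ℝ :=
  if r = 1 then 10116 / 10000 else if r = 0 then 1314 / 10000 else 7 / 100

/-- Parity weight. -/
noncomputable def costD (r : ℕ) : ℝ := if r = 0 then 0 else 5 / 4

lemma cost_unitA (m : ℕ) (hm : 1503 ≤ m) :
    ∫⁻ y in Ico (m : ℝ) (m + 1), ENNReal.ofReal (bA y) ≤
      ENNReal.ofReal (costC (m % 3) / (m * √m) + costD (m % 2) / m ^ 2) := by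
  have hm0 : (0 : ℝ) < m := by exact_mod_cast (by omega : 0 < m)
  have hs := Real.sqrt_pos.2 hm0
  obtain ⟨a', c, c', hc, ha', hc', hG, hsum⟩ : ∃ a' c c' : ℝ, 0 < c ∧ 0 ≤ a' ∧ 0 < c' ∧
      (∀ η, GA (m % 3) η = max 0 (263 / 1000 / √η - c) + max 0 (a' / √(1 - η) - c')) ∧
      (263 / 1000) ^ 2 / c + a' ^ 2 / c' ≤ costC (m % 3) := by
    refine ⟨_, _, _, ?_, ?_, ?_, fun η => rfl, ?_⟩ <;> (try unfold costC) <;> split_ifs <;> norm_num
  let W : Set ℝ := if m % 2 = 0 then ∅ else
    Ico (m : ℝ) (m + 4 / (5 * m)) ∪ Ioo ((m : ℝ) + 1 - 1 / (4 * m)) (m + 1)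
  have hW : MeasurableSet W := by
    simp only [W]
    split_ifs
    · exact MeasurableSet.empty
    · exact measurableSet_Ico.union measurableSet_Ioo
  have h1 : ∀ y ∈ Ico (m : ℝ) (m + 1), ENNReal.ofReal (bA y) ≤
      ENNReal.ofReal (1 / (m * √m) * (max 0 (263 / 1000 / √(y - m) - c) +
        max 0 (a' / √(m + 1 - y) - c'))) +
        W.indicator (fun _ => ENNReal.ofReal (119 / 100 / m)) y := by
    intro y hy
    have hf : ⌊y⌋₊ = m := (Nat.floor_eq_iff (hm0.le.trans hy.1)).2 hy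
    unfold bA
    rw [hf]
    refine ENNReal.ofReal_add_le.trans (add_le_add (ENNReal.ofReal_le_ofReal ?_) ?_)
    · rw [show (m : ℝ) + 1 - y = 1 - (y - m) by ring, ← hG, div_eq_mul_one_div, mul_comm]
      exact mul_le_mul_of_nonneg_right (cost_mono hm0 hy.1) (cost_GA_nonneg _ _)
    · split_ifs with h
      · simp
      · have hyW : y ∈ W := by
          simp only [W]
          unfold UA at h
          split_ifs at h ⊢ with h2
          · exact absurd hy h
          · rw [mem_Icc, not_and_or, not_le, not_le] at h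
            rcases h with h | h
            · exact Or.inl ⟨hy.1, h⟩
            · exact Or.inr ⟨h, hy.2⟩
        rw [indicator_of_mem hyW]
        refine ENNReal.ofReal_le_ofReal ?_
        gcongr
        exact hy.1
  refine (setLIntegral_mono' measurableSet_Ico h1).trans
    ((setLIntegral_le_lintegral _ _).trans ?_)
  have hC0 : 0 ≤ costC (m % 3) := by unfold costC; split_ifs <;> norm_num
  have hD0 : 0 ≤ costD (m % 2) := by unfold costD; split_ifs <;> norm_num
  rw [lintegral_add_right _ (measurable_const.indicator hW), lintegral_indicator_const hW,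
    ENNReal.ofReal_add (by positivity) (by positivity)]
  refine add_le_add ((cost_unit m (by positivity) (by norm_num) hc ha' hc').trans
    (ENNReal.ofReal_le_ofReal ?_)) ?_
  · rw [mul_comm, ← div_eq_mul_one_div]
    gcongr
  · simp only [W]
    unfold costD
    split_ifs
    · simp
    · calc _ ≤ ENNReal.ofReal (119 / 100 / m) *
            (ENNReal.ofReal (4 / (5 * m)) + ENNReal.ofReal (1 / (4 * m))) := by
            gcongr
            refine (measure_union_le _ _).trans (le_of_eq ?_)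
            rw [Real.volume_Ico, Real.volume_Ioo]
            congr 2 <;> ring
        _ ≤ _ := by
            rw [← ENNReal.ofReal_add (by positivity) (by positivity),
              ← ENNReal.ofReal_mul (by positivity)]
            refine ENNReal.ofReal_le_ofReal ?_
            have : (119 / 100 / m * (4 / (5 * m) + 1 / (4 * m)) : ℝ) = 2499 / 2000 / m ^ 2 := by
              field_simp; ring
            rw [this]
            exact div_le_div_of_nonneg_right (by norm_num) (by positivity)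

theorem costA (Y : ℕ) (hY : 1503 ≤ Y) :
    ∫⁻ y in Ici (Y : ℝ), ENNReal.ofReal (bA y) ≤
      ENNReal.ofReal (81 / 100 / √((Y : ℝ) - 3) + 63 / 100 / ((Y : ℝ) - 2)) := by
  have hC0 : ∀ r, 0 ≤ costC r := by intro r; unfold costC; split_ifs <;> norm_num
  have hD0 : ∀ r, 0 ≤ costD r := by intro r; unfold costD; split_ifs <;> norm_num
  let φ : ℕ → ℝ := fun j => costC (j % 3) * (2 / 3 * (1 / √((j : ℝ) - 3)))
  let χ : ℕ → ℝ := fun j => costD (j % 2) * (1 / 2 * (1 / ((j : ℝ) - 2)))
  have hφ : ∀ j, 0 ≤ φ j := fun j => mul_nonneg (hC0 _) (by positivity)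
  have hχ : ∀ j, 1503 ≤ j → 0 ≤ χ j := fun j hj => by
    have : (1503 : ℝ) ≤ j := by exact_mod_cast hj
    have : (0 : ℝ) < j - 2 := by linarith
    exact mul_nonneg (hD0 _) (by positivity)
  refine (cost_tele Y _ (fun m => costC (m % 3) / (m * √m) + costD (m % 2) / m ^ 2)
    (fun m => φ m + φ (m + 1) + φ (m + 2) + (χ m + χ (m + 1))) (fun m _ => ?_) (fun m hm => ?_)
    (fun m hm => ?_) (fun m hm => cost_unitA m (hY.trans hm))).trans
    (ENNReal.ofReal_le_ofReal ?_)
  · have := hC0 (m % 3)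
    have := hD0 (m % 2)
    positivity
  · have := hφ m
    have := hφ (m + 1)
    have := hφ (m + 2)
    have := hχ m (by omega)
    have := hχ (m + 1) (by omega)
    positivity
  · have hm' : (1503 : ℝ) ≤ m := by exact_mod_cast hY.trans hm
    have h1 : costC (m % 3) / (m * √m) + φ (m + 1 + 2) ≤ φ m := by
      simp only [φ]
      rw [show (m + 1 + 2) % 3 = m % 3 by omega,
        show ((m + 1 + 2 : ℕ) : ℝ) - 3 = m by push_cast; ring, div_eq_mul_one_div, ← mul_add]
      refine mul_le_mul_of_nonneg_left ?_ (hC0 _)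
      have := cost_sqrt (m := m) (h := 3) (by norm_num) (by linarith)
      rw [div_eq_mul_one_div (3 / 2 : ℝ)] at this
      linarith
    have h2 : costD (m % 2) / m ^ 2 + χ (m + 1 + 1) ≤ χ m := by
      simp only [χ]
      rw [show (m + 1 + 1) % 2 = m % 2 by omega,
        show ((m + 1 + 1 : ℕ) : ℝ) - 2 = m by push_cast; ring, div_eq_mul_one_div, ← mul_add]
      refine mul_le_mul_of_nonneg_left ?_ (hD0 _)
      have h3 : (0 : ℝ) < m - 2 := by linarith
      have h4 : (0 : ℝ) < m := by linarith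
      have : 1 / 2 * (1 / ((m : ℝ) - 2)) - (1 / (m : ℝ) ^ 2 + 1 / 2 * (1 / m)) =
          2 / (m ^ 2 * (m - 2)) := by
        field_simp; ring
      have h5 : 0 ≤ 2 / ((m : ℝ) ^ 2 * (m - 2)) := by positivity
      linarith
    simp only [show m + 1 + 1 = m + 2 from rfl] at h2 ⊢
    linarith
  · have hY' : (1503 : ℝ) ≤ Y := by exact_mod_cast hY
    have h3 : (0 : ℝ) < Y - 2 := by linarith
    have h4 : 0 < √((Y : ℝ) - 3) := Real.sqrt_pos.2 (by linarith)
    have h1 : ∀ i : ℕ, φ (Y + i) ≤ costC ((Y + i) % 3) * (2 / 3 * (1 / √((Y : ℝ) - 3))) := by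
      intro i
      refine mul_le_mul_of_nonneg_left ?_ (hC0 _)
      have : (0 : ℝ) ≤ i := by positivity
      gcongr
      omega
    have h2 : ∀ i : ℕ, χ (Y + i) ≤ costD ((Y + i) % 2) * (1 / 2 * (1 / ((Y : ℝ) - 2))) := by
      intro i
      refine mul_le_mul_of_nonneg_left ?_ (hD0 _)
      gcongr
      omega
    have h5 : costC ((Y + 0) % 3) + costC ((Y + 1) % 3) + costC ((Y + 2) % 3) ≤ 1215 / 1000 := by
      have : Y % 3 = 0 ∨ Y % 3 = 1 ∨ Y % 3 = 2 := by omega
      rcases this with h | h | h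
      · rw [show (Y + 0) % 3 = 0 by omega, show (Y + 1) % 3 = 1 by omega,
          show (Y + 2) % 3 = 2 by omega]
        norm_num [costC]
      · rw [show (Y + 0) % 3 = 1 by omega, show (Y + 1) % 3 = 2 by omega,
          show (Y + 2) % 3 = 0 by omega]
        norm_num [costC]
      · rw [show (Y + 0) % 3 = 2 by omega, show (Y + 1) % 3 = 0 by omega,
          show (Y + 2) % 3 = 1 by omega]
        norm_num [costC]
    have h6 : costD ((Y + 0) % 2) + costD ((Y + 1) % 2) ≤ 126 / 100 := by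
      have : Y % 2 = 0 ∨ Y % 2 = 1 := by omega
      rcases this with h | h
      · rw [show (Y + 0) % 2 = 0 by omega, show (Y + 1) % 2 = 1 by omega]
        norm_num [costD]
      · rw [show (Y + 0) % 2 = 1 by omega, show (Y + 1) % 2 = 0 by omega]
        norm_num [costD]
    have a0 := h1 0
    have a1 := h1 1
    have a2 := h1 2
    have b0 := h2 0
    have b1 := h2 1
    have h7 := mul_le_mul_of_nonneg_right h5
      (show 0 ≤ 2 / 3 * (1 / √((Y : ℝ) - 3)) by positivity)
    have h8 := mul_le_mul_of_nonneg_right h6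
      (show 0 ≤ 1 / 2 * (1 / ((Y : ℝ) - 2)) by positivity)
    rw [div_eq_mul_one_div (81 / 100 : ℝ), div_eq_mul_one_div (63 / 100 : ℝ)]
    simp only [Nat.add_zero] at a0 b0 h7 h8
    linarith

theorem measurable_bT : Measurable bT := by
  refine cost_floor (fun n y => 2 * (1 + 1 / √(y - n) + 1 / √(n + 1 - y)) / (y * √y)) fun n => ?_
  fun_prop

theorem bT_nonneg {y : ℝ} (hy : 0 ≤ y) : 0 ≤ bT y := by
  unfold bT
  positivity

lemma cost_unitT (m : ℕ) (hm : 2 ≤ m) :
    ∫⁻ y in Ico (m : ℝ) (m + 1), ENNReal.ofReal (bT y) ≤ ENNReal.ofReal (10 / (m * √m)) := by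
  have hm0 : (0 : ℝ) < m := by exact_mod_cast (by omega : 0 < m)
  have hs := Real.sqrt_pos.2 hm0
  have h1 : ∀ y ∈ Ico (m : ℝ) (m + 1), ENNReal.ofReal (bT y) ≤
      ENNReal.ofReal (2 / (m * √m) * (max 0 (1 / √(y - m) - 1) +
        max 0 (1 / √(m + 1 - y) - 1))) + ENNReal.ofReal (6 / (m * √m)) := by
    intro y hy
    have hf : ⌊y⌋₊ = m := (Nat.floor_eq_iff (hm0.le.trans hy.1)).2 hy
    refine le_trans (ENNReal.ofReal_le_ofReal ?_) ENNReal.ofReal_add_le
    unfold bT
    rw [hf]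
    have h2 := cost_mono hm0 hy.1
    have h3 := le_max_right 0 (1 / √(y - m) - 1)
    have h4 := le_max_right 0 (1 / √(m + 1 - y) - 1)
    calc _ = 2 * (1 + 1 / √(y - m) + 1 / √(m + 1 - y)) * (1 / (y * √y)) := by ring
      _ ≤ 2 * (1 + 1 / √(y - m) + 1 / √(m + 1 - y)) * (1 / (m * √m)) :=
        mul_le_mul_of_nonneg_left h2 (by positivity)
      _ ≤ 2 * (3 + max 0 (1 / √(y - m) - 1) + max 0 (1 / √(m + 1 - y) - 1)) * (1 / (m * √m)) :=
        mul_le_mul_of_nonneg_right (by linarith) (by positivity)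
      _ = _ := by ring
  refine (setLIntegral_mono' measurableSet_Ico h1).trans ?_
  rw [lintegral_add_right _ measurable_const, setLIntegral_const, Real.volume_Ico,
    show (10 : ℝ) / (m * √m) = 2 / (m * √m) * (1 ^ 2 / 1 + 1 ^ 2 / 1) + 6 / (m * √m) by ring,
    ENNReal.ofReal_add (by positivity) (by positivity)]
  refine add_le_add ((setLIntegral_le_lintegral _ _).trans
    (cost_unit m (by positivity) zero_le_one one_pos zero_le_one one_pos)) ?_
  simp

theorem costT (Z : ℕ) (hZ : 2 ≤ Z) :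
    ∫⁻ y in Ici (Z : ℝ), ENNReal.ofReal (bT y) ≤ ENNReal.ofReal (20 / √((Z : ℝ) - 1)) := by
  refine cost_tele Z _ (fun m => 10 / (m * √m)) (fun m => 20 / √((m : ℝ) - 1))
    (fun m _ => by positivity) (fun m _ => by positivity) (fun m hm => ?_)
    (fun m hm => cost_unitT m (hZ.trans hm))
  have hm' : (2 : ℝ) ≤ m := by exact_mod_cast hZ.trans hm
  have := cost_sqrt (m := m) (h := 1) (by norm_num) (by linarith)
  rw [show ((m + 1 : ℕ) : ℝ) - 1 = m by push_cast; ring]
  rw [div_eq_mul_one_div (1 / 2 : ℝ)] at this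
  rw [div_eq_mul_one_div (10 : ℝ), div_eq_mul_one_div (20 : ℝ) √m,
    div_eq_mul_one_div (20 : ℝ) √(m - 1)]
  linarith

end Pool.Agent.Lib.MP_2dc536_an.X
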