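import Pool.Agent.Lib.MP_2dc536_an.Step

/-!
Definitions for the explicit density bound.
-/

namespace Pool.Agent.Lib.MP_2dc536_an.X

open Real Set

/-- Points whose orbit stays above `12/5`. -/
def EE : Set ℝ := {x | ∀ k : ℕ, 12 / 5 < ff^[k] x}

/-- For `w = y + 1/4`, the preimages of `y` are the points `t + s` with `t = TT w s` even. -/
noncomputable def TT (w s : ℝ) : ℝ := w / mm s - s - 1 / 2

/-- Minus the derivative of `1 / mm`. -/
noncomputable def kk (s : ℝ) : ℝ := π / 2 * sin (π * s) / mm s ^ 2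

/-- The derivative of `TT w`. -/
noncomputable def DT (w s : ℝ) : ℝ := -(1 + w * kk s)

/-- The part of `[n, n + 1)` kept at large heights. -/
def UA (n : ℕ) : Set ℝ :=
  if n % 2 = 0 then Ico (n : ℝ) (n + 1) else Icc ((n : ℝ) + 4 / (5 * n)) (n + 1 - 1 / (4 * n))

lemma hasDerivAt_mm (s : ℝ) : HasDerivAt mm (π / 2 * sin (π * s)) s := by
  have h1 : HasDerivAt (fun x => cos (π * x)) (-sin (π * s) * (π * 1)) s :=
    ((hasDerivAt_id s).const_mul π).cos
  refine ((h1.div_const 2).const_sub 1).congr_deriv ?_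
  ring

lemma hasDerivAt_TT (w s : ℝ) : HasDerivAt (TT w) (DT w s) s := by
  have h1 := (((hasDerivAt_const s w).div (hasDerivAt_mm s) (mm_pos s).ne').sub
    (hasDerivAt_id s)).sub_const (1 / 2)
  refine h1.congr_deriv ?_
  simp only [DT, kk]; ring

lemma continuous_TT (w : ℝ) : Continuous (TT w) :=
  continuous_iff_continuousAt.2 fun s => (hasDerivAt_TT w s).continuousAt

lemma ff_eq (x : ℝ) : ff x = (x + 1 / 2) * mm x - 1 / 4 := by unfold ff mm; ring

lemma EE_map {x : ℝ} (hx : x ∈ EE) : ff x ∈ EE := fun k => by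
  have := hx (k + 1)
  rwa [Function.iterate_succ_apply] at this

lemma measurableSet_EE : MeasurableSet EE := by
  have : EE = ⋂ k : ℕ, ff^[k] ⁻¹' Ioi (12 / 5) := by ext x; simp [EE]
  rw [this]
  exact MeasurableSet.iInter fun k => (measurable_ff.iterate k) measurableSet_Ioi

end Pool.Agent.Lib.MP_2dc536_an.X
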