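import Pool.Agent.Lib.MP_2dc536_an.X.Defs

/-!
Estimates near the ends of the arcs, second half.
-/

namespace Pool.Agent.Lib.MP_2dc536_an.X

open Real Set

lemma e2_mm_zero : mm 0 = 1 / 2 := by simp [mm]; norm_num

lemma e2_mm_nat (n : ℕ) (s : ℝ) : mm (n + s) = 1 - (-1) ^ n * cos (π * s) / 2 := by
  unfold mm
  rw [show π * (n + s) = π * s + n * π by ring, cos_add_nat_mul_pi]

lemma e2_sin_nat (n : ℕ) (s : ℝ) : sin (π * (n + s)) = (-1) ^ n * sin (π * s) := by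
  rw [show π * (n + s) = π * s + n * π by ring, sin_add_nat_mul_pi]

lemma e2_mm_neg (s : ℝ) : mm (-s) = mm s := by unfold mm; rw [mul_neg, cos_neg]

lemma e2_mm_one_add (s : ℝ) : mm (1 + s) = 2 - mm s := by
  have := e2_mm_nat 1 s
  rw [Nat.cast_one] at this
  rw [this]; unfold mm; ring

lemma e2_mm_one_sub (s : ℝ) : mm (1 - s) = 2 - mm s := by
  rw [sub_eq_add_neg, e2_mm_one_add, e2_mm_neg]

lemma e2_mm_two_sub (s : ℝ) : mm (2 - s) = mm s := by
  rw [show 2 - s = 1 + (1 - s) by ring, e2_mm_one_add, e2_mm_one_sub]; ring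

lemma e2_mm_one : mm 1 = 3 / 2 := by
  have := e2_mm_one_add 0
  rw [add_zero, e2_mm_zero] at this
  linarith

lemma e2_mm_two : mm 2 = 1 / 2 := by
  have := e2_mm_two_sub 0
  rwa [sub_zero, e2_mm_zero] at this

lemma e2_mm_le_sq (s : ℝ) : mm s ≤ 1 / 2 + (π * s) ^ 2 / 4 := by
  unfold mm
  linarith [one_sub_sq_div_two_le_cos (x := π * s)]

lemma e2_lo {w : ℝ} (hw : 0 ≤ w) (s : ℝ) : w / (1 / 2) - w / mm s ≤ w * (π * s) ^ 2 := by
  have h1 := e2_mm_le_sq s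
  have h2 := mm_ge s
  have h3 := mm_pos s
  have h4 : 2 - 1 / mm s ≤ (π * s) ^ 2 := by
    rw [sub_le_iff_le_add', ← sub_le_iff_le_add, le_div_iff₀ h3]
    nlinarith [sq_nonneg (π * s)]
  calc w / (1 / 2) - w / mm s = w * (2 - 1 / mm s) := by ring
    _ ≤ _ := by gcongr

lemma e2_hi {w : ℝ} (hw : 0 ≤ w) {s e : ℝ} (he : (π * s) ^ 2 ≤ e) (he1 : e ≤ 1) :
    (w / (2 - mm s) - w / (3 / 2)) * (9 - 3 / 2 * e) ≤ w * (π * s) ^ 2 := by
  have h1 := e2_mm_le_sq s
  have h2 := mm_ge s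
  have h3 := mm_le s
  have h0 := sq_nonneg (π * s)
  generalize (π * s) ^ 2 = q at *
  generalize mm s = m at *
  have h5 : 0 < 2 - m := by linarith
  have h6 : 0 < 9 - 3 / 2 * e := by linarith
  have h4 : 1 / (2 - m) - 2 / 3 ≤ q / (9 - 3 / 2 * e) := by
    rw [div_sub_div _ _ h5.ne' (by norm_num), div_le_div_iff₀ (by positivity) h6]
    nlinarith [mul_nonneg h0 (sub_nonneg.2 he), mul_nonneg (sub_nonneg.2 h1) h6.le,
      mul_nonneg (sub_nonneg.2 h1) h0]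
  rw [← le_div_iff₀ h6]
  calc w / (2 - m) - w / (3 / 2) = w * (1 / (2 - m) - 2 / 3) := by ring
    _ ≤ w * (q / (9 - 3 / 2 * e)) := by gcongr
    _ = _ := by ring

lemma e2_sq {w a c ξ : ℝ} (hw : 0 < w) (ha : 0 ≤ a) (hξ0 : 0 ≤ ξ)
    (hξ : ξ ≤ c * √(a / w) / π) : w * (π * ξ) ^ 2 ≤ c ^ 2 * a := by
  have hp := pi_pos
  rw [le_div_iff₀ hp] at hξ
  have h1 : (ξ * π) ^ 2 ≤ (c * √(a / w)) ^ 2 := by gcongr
  rw [mul_pow c, sq_sqrt (by positivity)] at h1
  calc w * (π * ξ) ^ 2 = w * (ξ * π) ^ 2 := by ring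
    _ ≤ w * (c ^ 2 * (a / w)) := by gcongr
    _ = _ := by field_simp

lemma e2_xi {a b ξ : ℝ} (ha : 1 ≤ a) (hb : 0 ≤ b) (h : (π * ξ) ^ 2 ≤ (3.14 * b) ^ 2 * a) :
    ξ ≤ b * a := by
  have hp := pi_gt_d2
  by_contra hc
  push Not at hc
  have h0 : 0 ≤ b * a := by positivity
  have h1 : 3.14 * (b * a) < π * ξ := by nlinarith
  have h2 : (3.14 * (b * a)) ^ 2 < (π * ξ) ^ 2 := by gcongr
  nlinarith [mul_nonneg (sq_nonneg (3.14 * b)) (mul_nonneg (by linarith : 0 ≤ a)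
    (sub_nonneg.2 ha))]

variable {w : ℝ} (hw : 1000 ≤ w)
include hw

theorem def0 {τ ξ : ℝ} (h0 : 0 ≤ τ) (h2 : τ ≤ 2) (hξ0 : 0 ≤ ξ)
    (hξ : ξ ≤ 99 / 100 * √((τ + 1) / w) / π) :
    TT w 0 - TT w ξ < τ + 1 ∧ TT w 2 - TT w (2 - ξ) < τ + 1 := by
  have h1 := e2_sq (by linarith) (by linarith) hξ0 hξ
  have h3 := e2_lo (w := w) (by linarith) ξ
  have h4 : ξ ≤ 11 / 1000 * (τ + 1) :=
    e2_xi (by linarith) (by norm_num) (by nlinarith [sq_nonneg (π * ξ)])
  unfold TT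
  rw [e2_mm_zero, e2_mm_two, e2_mm_two_sub]
  constructor <;> linarith

theorem def1 {σ ξ : ℝ} (h0 : 0 ≤ σ) (h2 : σ ≤ 2) (hξ0 : 0 ≤ ξ)
    (hξ : ξ ≤ 3 * (98 / 100 * √((σ + 1) / w) / π)) :
    TT w (1 - ξ) - TT w 1 < σ + 1 ∧ TT w (1 + ξ) - TT w 1 < σ + 1 := by
  have h1 := e2_sq (c := 294 / 100) (a := σ + 1) (w := w) (by linarith) (by linarith) hξ0
    (hξ.trans_eq (by ring))
  have h5 : (π * ξ) ^ 2 ≤ 27 / 1000 := by nlinarith [sq_nonneg (π * ξ)]
  have h3 := e2_hi (w := w) (by linarith) h5 (by norm_num)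
  have h4 : ξ ≤ 3 / 100 * (σ + 1) :=
    e2_xi (by linarith) (by norm_num) (by nlinarith [sq_nonneg (π * ξ)])
  unfold TT
  rw [e2_mm_one, e2_mm_one_sub, e2_mm_one_add]
  constructor <;> linarith

theorem arc0 {s : ℝ} (hs : s ∈ Icc (0 : ℝ) 1) : DT w s < 0 := by
  have hp := pi_pos
  have h1 : 0 ≤ sin (π * s) :=
    sin_nonneg_of_nonneg_of_le_pi (mul_nonneg hp.le hs.1) (by nlinarith [hs.2])
  have h2 : 0 ≤ kk s := by unfold kk; positivity
  unfold DT
  nlinarith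

theorem arc1 {s : ℝ} (hs : s ∈ Icc (1 + 4 / (5 * w)) (2 - 3 / (40 * w))) : 0 < DT w s := by
  have hp := pi_gt_d2
  have hp' := pi_lt_d2
  have hw0 : 0 < w := by linarith
  obtain ⟨v, hv⟩ : ∃ v, v = 1 / w := ⟨_, rfl⟩
  have hv0 : 0 < v := by rw [hv]; positivity
  have hwv : w * v = 1 := by rw [hv]; field_simp
  have hv1 : v ≤ 1 / 1000 := by rw [hv]; gcongr
  have e1 : 4 / (5 * w) = 4 / 5 * v := by rw [hv]; field_simp
  have e2 : 3 / (40 * w) = 3 / 40 * v := by rw [hv]; field_simp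
  rw [e1, e2] at hs
  obtain ⟨δ, rfl⟩ : ∃ δ, s = 2 - δ := ⟨2 - s, by ring⟩
  have hd1 : 3 / 40 * v ≤ δ := by linarith [hs.2]
  have hd2 : δ ≤ 1 - 4 / 5 * v := by linarith [hs.1]
  have hsin : sin (π * (2 - δ)) = -sin (π * δ) := by
    have := e2_sin_nat 2 (-δ)
    rw [mul_neg, sin_neg] at this
    rw [sub_eq_add_neg]
    norm_num at this ⊢
    exact this
  have hm := mm_pos δ
  have key : mm δ ^ 2 < w * (π / 2 * sin (π * δ)) := by
    rcases le_total (4 / 5 * v) δ with h | h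
    · have h1 := abs_sin_ge (n := 0) (d := 4 / 5 * v) (x := δ) (by positivity) (by simpa using h)
        (by simpa using hd2)
      rw [abs_of_nonneg (sin_nonneg_of_nonneg_of_le_pi (by nlinarith) (by nlinarith))] at h1
      have h2 : mm δ ^ 2 ≤ (3 / 2) ^ 2 := by gcongr; exact mm_le δ
      have h3 : w * (π / 2 * (2 * (4 / 5 * v))) ≤ w * (π / 2 * sin (π * δ)) := by gcongr
      have h4 : w * (π / 2 * (2 * (4 / 5 * v))) = 4 / 5 * π * (w * v) := by ring
      rw [hwv] at h4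
      linarith
    · have hd0 : 0 < δ := by linarith
      have hq0 : 0 < π * δ := by positivity
      have hq1 : π * δ ≤ 3 / 1000 := by nlinarith
      have h1 := sin_gt_sub_cube hq0
      have h2 := e2_mm_le_sq δ
      have hq2 : (π * δ) ^ 2 ≤ 1 / 10000 := by nlinarith
      have h3 : mm δ ^ 2 ≤ (51 / 100) ^ 2 := by gcongr; linarith
      have h4 : 99 / 100 * (π * δ) ≤ sin (π * δ) := by nlinarith
      have h5 : 99 / 100 * (π * (3 / 40 * v)) ≤ sin (π * δ) := by nlinarith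
      have h6 : w * (π / 2 * (99 / 100 * (π * (3 / 40 * v)))) ≤ w * (π / 2 * sin (π * δ)) := by
        gcongr
      have h7 : w * (π / 2 * (99 / 100 * (π * (3 / 40 * v)))) =
          297 / 8000 * (π * π) * (w * v) := by ring
      rw [hwv] at h7
      nlinarith
  unfold DT kk
  rw [hsin, e2_mm_two_sub]
  have h8 : 1 < w * (π / 2 * sin (π * δ)) / mm δ ^ 2 := by
    rw [lt_div_iff₀ (by positivity)]; linarith
  have h9 : w * (π / 2 * -sin (π * δ) / mm δ ^ 2) = -(w * (π / 2 * sin (π * δ)) / mm δ ^ 2) := by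
    ring
  linarith

theorem arc1_ends : TT w (1 + 4 / (5 * w)) ≤ TT w 1 ∧ TT w 2 ≤ TT w (2 - 3 / (40 * w)) := by
  have hp := pi_gt_d2
  have hp' := pi_lt_d2
  have hpp : π ^ 2 ≤ 10 := by nlinarith
  have hw0 : 0 < w := by linarith
  obtain ⟨v, hv⟩ : ∃ v, v = 1 / w := ⟨_, rfl⟩
  have hv0 : 0 < v := by rw [hv]; positivity
  have hwv : w * v = 1 := by rw [hv]; field_simp
  have hv1 : v ≤ 1 / 1000 := by rw [hv]; gcongr
  have e1 : 4 / (5 * w) = 4 / 5 * v := by rw [hv]; field_simp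
  have e2 : 3 / (40 * w) = 3 / 40 * v := by rw [hv]; field_simp
  rw [e1, e2]
  have hpv : π ^ 2 * v ≤ 10 * v := by gcongr
  unfold TT
  rw [e2_mm_one, e2_mm_two, e2_mm_two_sub, e2_mm_one_add]
  constructor
  · have h1 : (π * (4 / 5 * v)) ^ 2 ≤ 1 / 10 := by nlinarith
    have h2 := e2_hi hw0.le h1 (by norm_num)
    have h3 : w * (π * (4 / 5 * v)) ^ 2 = 16 / 25 * (π ^ 2 * v) * (w * v) := by ring
    rw [hwv] at h3
    rw [h3] at h2
    linarith
  · have h2 := e2_lo hw0.le (3 / 40 * v)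
    have h3 : w * (π * (3 / 40 * v)) ^ 2 = 9 / 1600 * (π ^ 2 * v) * (w * v) := by ring
    rw [hwv] at h3
    linarith

omit hw in
lemma e2_ne {n : ℕ} (hn : 100 ≤ n) {x : ℝ} (hx : x ∈ UA n) : ff' x ≠ 0 := by
  have hp := pi_gt_d2
  have hp' := pi_lt_d2
  have hN : (100 : ℝ) ≤ n := by exact_mod_cast hn
  obtain ⟨δ, rfl⟩ : ∃ δ, x = n + δ := ⟨x - n, by ring⟩
  have hff : ff' (n + δ) = mm (n + δ) + ((n + δ) / 2 + 1 / 4) * (π * ((-1) ^ n * sin (π * δ))) := by
    rw [← e2_sin_nat]; rfl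
  unfold UA at hx
  split_ifs at hx with h
  · have hd0 : 0 ≤ δ := by linarith [hx.1]
    have hd1 : δ ≤ 1 := by linarith [hx.2]
    have h1 : 0 ≤ sin (π * δ) := sin_nonneg_of_nonneg_of_le_pi (by positivity) (by nlinarith)
    rw [hff, (Nat.even_iff.2 h).neg_one_pow]
    have := mm_pos (n + δ)
    positivity
  · have ho : Odd n := Nat.odd_iff.2 (by omega)
    obtain ⟨v, hv⟩ : ∃ v : ℝ, v = 1 / n := ⟨_, rfl⟩
    have hv0 : 0 < v := by rw [hv]; positivity
    have hnv : n * v = 1 := by rw [hv]; field_simp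
    have hv1 : v ≤ 1 / 100 := by rw [hv]; gcongr
    have e1 : 4 / (5 * (n : ℝ)) = 4 / 5 * v := by rw [hv]; field_simp
    have e2 : 1 / (4 * (n : ℝ)) = 1 / 4 * v := by rw [hv]; field_simp
    rw [e1, e2] at hx
    have hd0 : 4 / 5 * v ≤ δ := by linarith [hx.1]
    have hd1 : δ ≤ 1 - 1 / 4 * v := by linarith [hx.2]
    have h1 : 0 ≤ sin (π * δ) := sin_nonneg_of_nonneg_of_le_pi (by nlinarith) (by nlinarith)
    rw [hff, ho.neg_one_pow]
    have key : ∀ d : ℝ, 0 ≤ d → 2 * (d * v) ≤ sin (π * δ) →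
        d * π ≤ ((n + δ) / 2 + 1 / 4) * (π * sin (π * δ)) := by
      intro d hd h2
      calc d * π = (n / 2) * (π * (2 * (d * v))) := by
            rw [show (n / 2 : ℝ) * (π * (2 * (d * v))) = d * π * (n * v) by ring, hnv, mul_one]
        _ ≤ _ := by gcongr <;> linarith
    refine ne_of_lt ?_
    rcases le_total δ (1 - 1 / 2 * v) with h3 | h3
    · have h2 := abs_sin_ge (n := 0) (d := 1 / 2 * v) (x := δ) (by positivity)
        (by simp only [Nat.cast_zero]; linarith) (by simp only [Nat.cast_zero]; linarith)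
      rw [abs_of_nonneg h1] at h2
      have h4 := key _ (by norm_num) h2
      have h5 := mm_le (n + δ)
      linarith
    · have h2 := abs_sin_ge (n := 0) (d := 1 / 4 * v) (x := δ) (by positivity)
        (by simp only [Nat.cast_zero]; linarith) (by simp only [Nat.cast_zero]; linarith)
      rw [abs_of_nonneg h1] at h2
      have h4 := key _ (by norm_num) h2
      have h5 : mm (n + δ) = mm (1 - δ) := by
        rw [e2_mm_nat, ho.neg_one_pow, e2_mm_one_sub]; unfold mm; ring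
      have h6 := e2_mm_le_sq (1 - δ)
      have h7 : 0 ≤ π * (1 - δ) := by nlinarith
      have h8 : π * (1 - δ) ≤ 1 / 10 := by nlinarith
      have h9 : (π * (1 - δ)) ^ 2 ≤ 1 / 100 := by nlinarith
      linarith

omit hw in
theorem UA_inj {n : ℕ} (hn : 100 ≤ n) : InjOn ff (UA n) ∧ ∀ x ∈ UA n, ff' x ≠ 0 := by
  refine ⟨?_, fun x hx => e2_ne hn hx⟩
  have hc : OrdConnected (UA n) := by
    unfold UA
    split_ifs
    · exact ordConnected_Ico
    · exact ordConnected_Icc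
  have key : ∀ x ∈ UA n, ∀ y ∈ UA n, x < y → ff x ≠ ff y := by
    intro x hx y hy hxy e
    obtain ⟨c, hc1, hc0⟩ := exists_hasDerivAt_eq_zero hxy continuous_ff.continuousOn e
      (fun z _ => hasDerivAt_ff z)
    exact e2_ne hn (hc.out hx hy (Ioo_subset_Icc_self hc1)) hc0
  intro x hx y hy h
  rcases lt_trichotomy x y with h1 | h1 | h1
  · exact absurd h (key x hx y hy h1)
  · exact h1
  · exact absurd h.symm (key y hy x hx h1)

omit hw in
theorem pre_even {j : ℕ} {s y : ℝ} (hs : 0 ≤ s) (h : ff (2 * j + s) = y) :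
    TT (y + 1 / 4) s = 2 * j ∧
      (2 * j + s + 1 / 2) * |ff' (2 * j + s)| = (y + 1 / 4) * |DT (y + 1 / 4) s| := by
  have hm := mm_pos s
  have he : Even (2 * j) := even_two_mul j
  have h1 : mm (2 * j + s) = mm s := by
    have := e2_mm_nat (2 * j) s
    rw [he.neg_one_pow] at this
    push_cast at this
    rw [this]; unfold mm; ring
  have h2 : sin (π * (2 * j + s)) = sin (π * s) := by
    have := e2_sin_nat (2 * j) s
    rw [he.neg_one_pow] at this
    push_cast at this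
    rw [this, one_mul]
  have h3 : y + 1 / 4 = (2 * j + s + 1 / 2) * mm s := by rw [← h, ff_eq, h1]; ring
  have h4 : ff' (2 * j + s) = mm s + ((2 * j + s) / 2 + 1 / 4) * (π * sin (π * s)) := by
    rw [← h1, ← h2]; rfl
  have h5 : DT (y + 1 / 4) s = -(ff' (2 * j + s) / mm s) := by
    rw [h4, h3]; unfold DT kk; field_simp; ring
  constructor
  · rw [h3]; unfold TT; field_simp; ring
  · rw [h5, abs_neg, abs_div, abs_of_pos hm, h3]; field_simp

theorem pre_odd {n : ℕ} (hn : n % 2 = 1) {x : ℝ} (hx : x ∈ UA n) (h : ff x + 1 / 4 = w) :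
    x - (n - 1) ∈ Icc (1 + 23 / (20 * w)) (2 - 1 / (8 * w)) := by
  have hp := pi_gt_d2
  have hp' := pi_lt_d2
  have hw0 : 0 < w := by linarith
  have ho : Odd n := Nat.odd_iff.2 hn
  have hN : (0 : ℝ) < n := by exact_mod_cast ho.pos
  unfold UA at hx
  rw [if_neg (by omega)] at hx
  obtain ⟨δ, rfl⟩ : ∃ δ, x = n + δ := ⟨x - n, by ring⟩
  have hd0 : 4 / (5 * (n : ℝ)) ≤ δ := by linarith [hx.1]
  have hd1 : δ ≤ 1 - 1 / (4 * (n : ℝ)) := by linarith [hx.2]
  have hd : 0 < δ := lt_of_lt_of_le (by positivity) hd0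
  have h1 : w = (n + δ + 1 / 2) * (2 - mm δ) := by
    rw [← h, ff_eq, e2_mm_nat, ho.neg_one_pow]; unfold mm; ring
  constructor
  · by_contra hc
    have h2 : δ < 23 / (20 * w) := by linarith
    rw [lt_div_iff₀ (by positivity)] at h2
    rw [div_le_iff₀ (by positivity)] at hd0
    have h3 : δ ≤ 1 / 100 := by nlinarith
    have h4 : 0 ≤ π * δ := by positivity
    have h5 : π * δ ≤ 1 / 10 := by nlinarith
    have h6 : (π * δ) ^ 2 ≤ 1 / 100 := by nlinarith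
    have h7 := e2_mm_le_sq δ
    have h8 : n * (149 / 100) ≤ w := by rw [h1]; gcongr <;> linarith
    nlinarith
  · have h2 : n * (1 / 2) ≤ w := by rw [h1]; gcongr <;> linarith [mm_le δ]
    have h3 : 1 / (8 * w) ≤ 1 / (4 * (n : ℝ)) := by gcongr ?_ / ?_ <;> linarith
    linarith

end Pool.Agent.Lib.MP_2dc536_an.X
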