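import Pool.Agent.Lib.MP_2dc536_an.X.End1
import Pool.Agent.Lib.MP_2dc536_an.X.End2

/-!
Estimates near the ends of the arcs: both halves.
-/
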