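import Pool.Agent.Lib.MP_2dc536_an.X.Defs

/-!
Estimates near the ends of the arcs, first part.
-/

namespace Pool.Agent.Lib.MP_2dc536_an.X

open Real Set

lemma e1_sq {q z D : ℝ} (hz : 0 ≤ z) (h : q ^ 2 * z ≤ 10609 / 10000 * D ^ 2) :
    q * √z ≤ 103 / 100 * |D| := by
  refine le_trans (le_abs_self _) (abs_le_of_sq_le_sq' ?_ (by positivity)).2 |>.trans le_rfl
  rw [sq_abs, mul_pow, mul_pow, sq_sqrt hz, sq_abs]
  linarith

lemma e1_plus {Q B t K : ℝ} (hQ : 0 ≤ Q) (hB : 0 ≤ B) (h1 : 985 / 1000 * (Q * B) ≤ K ^ 2)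
    (h2 : Q * t ≤ 10609 / 10000 * (2 * K)) :
    Q * (B + t) ≤ 10609 / 10000 * (-(1 + K)) ^ 2 := by
  have := mul_nonneg hQ hB
  nlinarith

lemma e1_minus {Q B t K a : ℝ} (hQ : 0 ≤ Q) (ha : Q ≤ 44 / 10 * a) (hB : a * t ^ 2 ≤ B)
    (ht : 0 ≤ t) (h1 : 985 / 1000 * (Q * B) ≤ K ^ 2) (h2 : 2 * K ≤ 1022 / 1000 * (Q * t)) :
    Q * (B - t) ≤ 10609 / 10000 * (-(1 + -K)) ^ 2 := by
  have ha0 : 0 ≤ a := by linarith
  have h3 : Q * (a * t ^ 2) ≤ Q * B := mul_le_mul_of_nonneg_left hB hQ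
  have h4 : Q * (85 / 1000 * t - 44 / 1000 * (a * t ^ 2)) ≤ 1 := by
    rcases le_total (85 / 1000 * t - 44 / 1000 * (a * t ^ 2)) 0 with h | h
    · nlinarith
    · have h5 := mul_le_mul_of_nonneg_right ha h
      nlinarith [sq_nonneg (a * t - 1)]
  have h5 : 0 ≤ Q * t := mul_nonneg hQ ht
  have h6 : 0 ≤ Q * (a * t ^ 2) := by positivity
  nlinarith

lemma e1_trig {x : ℝ} (h0 : 0 ≤ x) (h1 : x ≤ 1) (hu : 1 - cos (π * x) ≤ 315 / 10000) :
    0 ≤ sin (π * x) ∧ sin (π * x) ≤ π * x ∧ 96 / 100 * (π * x) ≤ sin (π * x) ∧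
      48 / 10 * x ^ 2 ≤ 1 - cos (π * x) := by
  have hp := pi_pos
  have hp1 := pi_gt_d2
  have hp2 := pi_lt_d2
  have hy0 : 0 ≤ π * x := by positivity
  have hy1 : π * x ≤ π := by nlinarith
  have h2 : 2 * x ^ 2 ≤ 1 - cos (π * x) := by
    have h := cos_le_one_sub_mul_cos_sq (x := π * x) (by rw [abs_of_nonneg hy0]; exact hy1)
    have h' : 2 / π ^ 2 * (π * x) ^ 2 = 2 * x ^ 2 := by field_simp
    linarith
  have hx : x ≤ 126 / 1000 := by nlinarith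
  have hy : π * x ≤ 397 / 1000 := by nlinarith
  have hy2 : (π * x) ^ 2 ≤ 158 / 1000 := by nlinarith
  refine ⟨sin_nonneg_of_nonneg_of_le_pi hy0 hy1, sin_le hy0, ?_, ?_⟩
  · rcases hy0.eq_or_lt with h | h
    · rw [← h]; simp
    · have := sin_gt_sub_cube h
      nlinarith
  · have h := cos_bound (x := π * x) (by rw [abs_of_nonneg hy0]; linarith)
    rw [abs_of_nonneg hy0] at h
    have h' := (abs_le.1 h).2
    have h3 : (π * x) ^ 4 ≤ 158 / 1000 * (π * x) ^ 2 := by nlinarith [sq_nonneg (π * x)]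
    have h4 : 98596 / 10000 * x ^ 2 ≤ (π * x) ^ 2 := by
      rw [mul_pow]; exact mul_le_mul_of_nonneg_right (by nlinarith) (sq_nonneg x)
    nlinarith

lemma e1_sinsq (y : ℝ) : sin y ^ 2 = (1 - cos y) * (2 - (1 - cos y)) := by
  rw [sin_sq]; ring

lemma e1_main0 {w u m σ : ℝ} (hu0 : 0 ≤ u) (hu : u ≤ 36 / 10000) (hm : m = (1 + u) / 2)
    (hσ : σ ^ 2 = u * (2 - u)) :
    985 / 1000 * ((2 * π) ^ 2 * (w * (w * u / m))) ≤ (w * (π / 2 * σ / m ^ 2)) ^ 2 := by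
  have hm0 : 0 < m := by linarith
  have h3 : 0 ≤ 2 - u - 985 / 1000 * 16 * m ^ 3 := by
    rw [hm]; nlinarith [mul_nonneg hu0 hu0, mul_nonneg hu0 (mul_nonneg hu0 hu0)]
  have e : (w * (π / 2 * σ / m ^ 2)) ^ 2 - 985 / 1000 * ((2 * π) ^ 2 * (w * (w * u / m))) =
      π ^ 2 * w ^ 2 * u * (2 - u - 985 / 1000 * 16 * m ^ 3) / (4 * m ^ 4) := by
    rw [mul_pow, div_pow, mul_pow, hσ]; field_simp; ring
  have : 0 ≤ π ^ 2 * w ^ 2 * u * (2 - u - 985 / 1000 * 16 * m ^ 3) / (4 * m ^ 4) := by positivity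
  linarith

lemma e1_main1 {w u m σ : ℝ} (hu0 : 0 ≤ u) (hu : u ≤ 315 / 10000) (hm : m = (3 - u) / 2)
    (hσ : σ ^ 2 = u * (2 - u)) :
    985 / 1000 * ((2 * π / 3) ^ 2 * (w * (w * u / (3 * m)))) ≤
      (w * (π / 2 * σ / m ^ 2)) ^ 2 := by
  have hm0 : 0 < m := by linarith
  have h3 : 0 ≤ 27 * (2 - u) - 985 / 1000 * 16 * m ^ 3 := by
    rw [hm]; nlinarith [mul_nonneg hu0 hu0, mul_nonneg hu0 (mul_nonneg hu0 hu0)]
  have e : (w * (π / 2 * σ / m ^ 2)) ^ 2 -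
      985 / 1000 * ((2 * π / 3) ^ 2 * (w * (w * u / (3 * m)))) =
      π ^ 2 * w ^ 2 * u * (27 * (2 - u) - 985 / 1000 * 16 * m ^ 3) / (108 * m ^ 4) := by
    rw [mul_pow, div_pow, mul_pow, hσ]; field_simp; ring
  have : 0 ≤ π ^ 2 * w ^ 2 * u * (27 * (2 - u) - 985 / 1000 * 16 * m ^ 3) / (108 * m ^ 4) := by
    positivity
  linarith

lemma e1_low {w m σ x c : ℝ} (hw : 0 ≤ w) (hx : 0 ≤ x) (hm : 0 < m)
    (hσ : 96 / 100 * (π * x) ≤ σ) (hc : c * m ^ 2 ≤ 1018 / 1000) :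
    c * π ^ 2 * (w * x) ≤ 10609 / 10000 * (2 * (w * (π / 2 * σ / m ^ 2))) := by
  have hp := pi_pos
  have e : 10609 / 10000 * (2 * (w * (π / 2 * σ / m ^ 2))) = 10609 / 10000 * (w * π * σ) / m ^ 2 := by
    field_simp
  rw [e, le_div_iff₀ (by positivity)]
  have h1 : w * π * (96 / 100 * (π * x)) ≤ w * π * σ := mul_le_mul_of_nonneg_left hσ (by positivity)
  have h2 : 0 ≤ π ^ 2 * (w * x) := by positivity
  have h3 := mul_le_mul_of_nonneg_right hc h2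
  nlinarith

lemma e1_up {w m σ x c : ℝ} (hw : 0 ≤ w) (hx : 0 ≤ x) (hm : 0 < m)
    (hσ : σ ≤ π * x) (hc : 1 ≤ 1022 / 1000 * (c * m ^ 2)) :
    2 * (w * (π / 2 * σ / m ^ 2)) ≤ 1022 / 1000 * (c * π ^ 2 * (w * x)) := by
  have hp := pi_pos
  have e : 2 * (w * (π / 2 * σ / m ^ 2)) = (w * π * σ) / m ^ 2 := by field_simp
  rw [e, div_le_iff₀ (by positivity)]
  have h1 : w * π * σ ≤ w * π * (π * x) := mul_le_mul_of_nonneg_left hσ (by positivity)
  have h2 : 0 ≤ π ^ 2 * (w * x) := by positivity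
  have h3 := mul_le_mul_of_nonneg_right hc h2
  nlinarith

lemma e1_T0 (w : ℝ) : TT w 0 = 2 * w - 1 / 2 := by
  simp only [TT, mm, mul_zero, cos_zero]; ring

lemma e1_T2 (w : ℝ) : TT w 2 = 2 * w - 5 / 2 := by
  have : cos (π * 2) = 1 := by rw [mul_comm]; exact cos_two_pi
  simp only [TT, mm, this]; ring

lemma e1_T1 (w : ℝ) : TT w 1 = 2 * w / 3 - 3 / 2 := by
  simp only [TT, mm, mul_one, cos_pi]; ring

variable {w : ℝ} (hw : 1000 ≤ w)
include hw

theorem end0 {s : ℝ} (hs : s ∈ Icc (0 : ℝ) 1) (h6 : TT w 0 - TT w s < 6) :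
    2 * π * √(w * (TT w 0 - TT w s)) ≤ 103 / 100 * |DT w s| := by
  obtain ⟨h0, h1⟩ := hs
  have hm0 := mm_pos s
  have hw0 : 0 ≤ w := by linarith
  obtain ⟨u, hu⟩ : ∃ u, u = 1 - cos (π * s) := ⟨_, rfl⟩
  have hu0 : 0 ≤ u := by rw [hu]; linarith [cos_le_one (π * s)]
  have hm : mm s = (1 + u) / 2 := by rw [hu]; unfold mm; ring
  have e : TT w 0 - TT w s = w * u / mm s + s := by
    have : u = 2 * mm s - 1 := by linarith
    rw [e1_T0, TT, this]; field_simp; ring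
  rw [e] at h6 ⊢
  have hA : w * u / mm s < 6 := by linarith
  rw [div_lt_iff₀ hm0, hm] at hA
  have hu1 : u ≤ 36 / 10000 := by nlinarith
  obtain ⟨t1, t2, t3, t4⟩ := e1_trig h0 h1 (by linarith)
  have hσ : sin (π * s) ^ 2 = u * (2 - u) := by rw [hu]; exact e1_sinsq _
  have k1 := e1_main0 (w := w) hu0 hu1 hm hσ
  have k2 := e1_low (c := 4) hw0 h0 hm0 t3 (by rw [hm]; nlinarith)
  refine e1_sq (by positivity) ?_
  have k3 := e1_plus (Q := (2 * π) ^ 2) (t := w * s) (by positivity) (by positivity) k1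
    (by linarith [show (2 * π) ^ 2 * (w * s) = 4 * π ^ 2 * (w * s) by ring])
  simp only [DT, kk]
  rw [mul_add w]; exact k3

theorem end2 {s : ℝ} (hs : s ∈ Icc (1 : ℝ) (2 - 1 / (8 * w))) (h6 : TT w 2 - TT w s < 6) :
    0 < TT w 2 - TT w s ∧ 2 * π * √(w * (TT w 2 - TT w s)) ≤ 103 / 100 * |DT w s| := by
  obtain ⟨x, rfl⟩ : ∃ x, s = 2 - x := ⟨2 - s, by ring⟩
  have hw0 : 0 < w := by linarith
  have hx : 1 / (8 * w) ≤ x := by linarith [hs.2]
  have h1 : x ≤ 1 := by linarith [hs.1]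
  have h0 : 0 < x := lt_of_lt_of_le (by positivity) hx
  have ht : 1 / 8 ≤ w * x := by rw [div_le_iff₀ (by positivity)] at hx; linarith
  have hm0 := mm_pos (2 - x)
  have hc : cos (π * (2 - x)) = cos (π * x) := by
    rw [show π * (2 - x) = 2 * π - π * x by ring, cos_two_pi_sub]
  have hsn : sin (π * (2 - x)) = -sin (π * x) := by
    rw [show π * (2 - x) = 2 * π - π * x by ring, sin_two_pi_sub]
  obtain ⟨u, hu⟩ : ∃ u, u = 1 - cos (π * x) := ⟨_, rfl⟩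
  have hu0 : 0 ≤ u := by rw [hu]; linarith [cos_le_one (π * x)]
  have hm : mm (2 - x) = (1 + u) / 2 := by rw [hu]; unfold mm; rw [hc]; ring
  have e : TT w 2 - TT w (2 - x) = w * u / mm (2 - x) - x := by
    have : u = 2 * mm (2 - x) - 1 := by linarith
    rw [e1_T2, TT, this]; field_simp; ring
  rw [e] at h6 ⊢
  have hA : w * u / mm (2 - x) < 7 := by linarith
  rw [div_lt_iff₀ hm0, hm] at hA
  have hu1 : u ≤ 36 / 10000 := by nlinarith
  obtain ⟨t1, t2, t3, t4⟩ := e1_trig h0.le h1 (by linarith)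
  rw [← hu] at t4
  have hσ : sin (π * x) ^ 2 = u * (2 - u) := by rw [hu]; exact e1_sinsq _
  have k1 := e1_main0 (w := w) hu0 hu1 hm hσ
  have k2 := e1_up (c := 4) hw0.le h0.le hm0 t2 (by rw [hm]; nlinarith)
  have hB : 95 / 10 * (w * x ^ 2) ≤ w * u / mm (2 - x) := by
    rw [le_div_iff₀ hm0, hm]
    have a1 : 0 ≤ w * x ^ 2 := by positivity
    have a2 := mul_le_mul_of_nonneg_left t4 hw0.le
    nlinarith
  have hpos : 0 < w * u / mm (2 - x) - x := by nlinarith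
  refine ⟨hpos, e1_sq (by positivity) ?_⟩
  have hp2 := pi_lt_d2
  have hp := pi_pos
  have k3 := e1_minus (Q := (2 * π) ^ 2) (t := w * x) (a := 95 / 10) (by positivity)
    (by nlinarith) (by nlinarith [mul_le_mul_of_nonneg_left hB hw0.le]) (by positivity) k1
    (by linarith [show (2 * π) ^ 2 * (w * x) = 4 * π ^ 2 * (w * x) by ring])
  simp only [DT, kk, hsn]
  rw [mul_sub w]
  convert k3 using 5
  ring

theorem end1m {s : ℝ} (hs : s ∈ Icc (0 : ℝ) 1) (h6 : TT w s - TT w 1 < 6) :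
    2 * π / 3 * √(w * (TT w s - TT w 1)) ≤ 103 / 100 * |DT w s| := by
  obtain ⟨x, rfl⟩ : ∃ x, s = 1 - x := ⟨1 - s, by ring⟩
  have hw0 : 0 ≤ w := by linarith
  have h0 : 0 ≤ x := by linarith [hs.2]
  have h1 : x ≤ 1 := by linarith [hs.1]
  have hm0 := mm_pos (1 - x)
  have hc : cos (π * (1 - x)) = -cos (π * x) := by
    rw [show π * (1 - x) = π - π * x by ring, cos_pi_sub]
  have hsn : sin (π * (1 - x)) = sin (π * x) := by
    rw [show π * (1 - x) = π - π * x by ring, sin_pi_sub]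
  obtain ⟨u, hu⟩ : ∃ u, u = 1 - cos (π * x) := ⟨_, rfl⟩
  have hu0 : 0 ≤ u := by rw [hu]; linarith [cos_le_one (π * x)]
  have hm : mm (1 - x) = (3 - u) / 2 := by rw [hu]; unfold mm; rw [hc]; ring
  have e : TT w (1 - x) - TT w 1 = w * u / (3 * mm (1 - x)) + x := by
    have : u = 3 - 2 * mm (1 - x) := by linarith
    rw [e1_T1, TT, this]; field_simp; ring
  rw [e] at h6 ⊢
  have hA : w * u / (3 * mm (1 - x)) < 6 := by linarith
  rw [div_lt_iff₀ (by positivity), hm] at hA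
  have hu1 : u ≤ 315 / 10000 := by nlinarith
  obtain ⟨t1, t2, t3, t4⟩ := e1_trig h0 h1 (by linarith)
  have hσ : sin (π * x) ^ 2 = u * (2 - u) := by rw [hu]; exact e1_sinsq _
  have k1 := e1_main1 (w := w) hu0 hu1 hm hσ
  have k2 := e1_low (c := 4 / 9) hw0 h0 hm0 t3 (by rw [hm]; nlinarith)
  refine e1_sq (by positivity) ?_
  have k3 := e1_plus (Q := (2 * π / 3) ^ 2) (t := w * x) (by positivity) (by positivity) k1
    (by linarith [show (2 * π / 3) ^ 2 * (w * x) = 4 / 9 * π ^ 2 * (w * x) by ring])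
  simp only [DT, kk, hsn]
  rw [mul_add w]; exact k3

theorem end1p {s : ℝ} (hs : s ∈ Icc (1 + 23 / (20 * w)) 2) (h6 : TT w s - TT w 1 < 6) :
    0 < TT w s - TT w 1 ∧ 2 * π / 3 * √(w * (TT w s - TT w 1)) ≤ 103 / 100 * |DT w s| := by
  obtain ⟨x, rfl⟩ : ∃ x, s = 1 + x := ⟨s - 1, by ring⟩
  have hw0 : 0 < w := by linarith
  have hx : 23 / (20 * w) ≤ x := by linarith [hs.1]
  have h1 : x ≤ 1 := by linarith [hs.2]
  have h0 : 0 < x := lt_of_lt_of_le (by positivity) hx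
  have ht : 23 / 20 ≤ w * x := by rw [div_le_iff₀ (by positivity)] at hx; linarith
  have hm0 := mm_pos (1 + x)
  have hc : cos (π * (1 + x)) = -cos (π * x) := by
    rw [show π * (1 + x) = π * x + π by ring, cos_add_pi]
  have hsn : sin (π * (1 + x)) = -sin (π * x) := by
    rw [show π * (1 + x) = π * x + π by ring, sin_add_pi]
  obtain ⟨u, hu⟩ : ∃ u, u = 1 - cos (π * x) := ⟨_, rfl⟩
  have hu0 : 0 ≤ u := by rw [hu]; linarith [cos_le_one (π * x)]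
  have hm : mm (1 + x) = (3 - u) / 2 := by rw [hu]; unfold mm; rw [hc]; ring
  have e : TT w (1 + x) - TT w 1 = w * u / (3 * mm (1 + x)) - x := by
    have : u = 3 - 2 * mm (1 + x) := by linarith
    rw [e1_T1, TT, this]; field_simp; ring
  rw [e] at h6 ⊢
  have hA : w * u / (3 * mm (1 + x)) < 7 := by linarith
  rw [div_lt_iff₀ (by positivity), hm] at hA
  have hu1 : u ≤ 315 / 10000 := by nlinarith
  obtain ⟨t1, t2, t3, t4⟩ := e1_trig h0.le h1 (by linarith)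
  rw [← hu] at t4
  have hσ : sin (π * x) ^ 2 = u * (2 - u) := by rw [hu]; exact e1_sinsq _
  have k1 := e1_main1 (w := w) hu0 hu1 hm hσ
  have k2 := e1_up (c := 4 / 9) hw0.le h0.le hm0 t2 (by rw [hm]; nlinarith)
  have hB : 1066 / 1000 * (w * x ^ 2) ≤ w * u / (3 * mm (1 + x)) := by
    rw [le_div_iff₀ (by positivity), hm]
    have a1 : 0 ≤ w * x ^ 2 := by positivity
    have a2 := mul_le_mul_of_nonneg_left t4 hw0.le
    nlinarith
  have hpos : 0 < w * u / (3 * mm (1 + x)) - x := by nlinarith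
  refine ⟨hpos, e1_sq (by positivity) ?_⟩
  have hp2 := pi_lt_d2
  have hp := pi_pos
  have k3 := e1_minus (Q := (2 * π / 3) ^ 2) (t := w * x) (a := 1066 / 1000) (by positivity)
    (by nlinarith) (by nlinarith [mul_le_mul_of_nonneg_left hB hw0.le]) (by positivity) k1
    (by linarith [show (2 * π / 3) ^ 2 * (w * x) = 4 / 9 * π ^ 2 * (w * x) by ring])
  simp only [DT, kk, hsn]
  rw [mul_sub w]
  convert k3 using 5
  ring

end Pool.Agent.Lib.MP_2dc536_an.X
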