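import Pool.Agent.Lib.MP_2dc536_an.X.Spec

namespace Pool.Agent.Lib.MP_2dc536_an.X

open Real Set MeasureTheory

theorem s3_val_cons (lo hi w : ℕ) (r : CL) (Y : ℝ) :
    val (.cons lo hi w r) Y ≤ max w (val r Y) := by
  conv_lhs => unfold val
  split_ifs <;> omega

theorem s3_val_lt {lo hi w : ℕ} {r : CL} {Y : ℝ} (h : Y < lo) : val (.cons lo hi w r) Y = 0 := by
  unfold val
  rw [if_pos h]

theorem s3_val_gt {lo hi w : ℕ} {r : CL} {Y : ℝ} (h : (hi : ℝ) < Y) :
    val (.cons lo hi w r) Y ≤ val r Y := by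
  conv_lhs => unfold val
  rw [if_neg (not_le.2 h)]
  split_ifs <;> omega

theorem s3_dropK_cons (y kn : ℕ) (kc : ℕ → ℕ → ℕ → CL → ℕ) (lo hi w : ℕ) (r : CL) :
    dropK y kn kc (.cons lo hi w r) = cond (Nat.ble y hi) (kc lo hi w r) (dropK y kn kc r) := rfl

theorem s3_dropK (y kn : ℕ) (kc : ℕ → ℕ → ℕ → CL → ℕ) (R : ℕ → Prop) (l : CL)
    (h0 : (∀ Y : ℝ, (y : ℝ) ≤ Y → val l Y = 0) → R kn)
    (h1 : ∀ lo hi w r, (∀ Y : ℝ, (y : ℝ) ≤ Y → val l Y ≤ val (.cons lo hi w r) Y) →
      R (kc lo hi w r)) : R (dropK y kn kc l) := by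
  induction l with
  | nil => exact h0 fun _ _ => rfl
  | cons lo hi w r ih =>
    rw [s3_dropK_cons]
    cases h : Nat.ble y hi with
    | true => exact h1 lo hi w r fun _ _ => le_rfl
    | false =>
      have h2 : hi < y := by
        by_contra h3
        rw [Nat.ble_eq_true_of_le (not_lt.1 h3)] at h
        exact Bool.noConfusion h
      have h3 : ∀ Y : ℝ, (y : ℝ) ≤ Y → val (.cons lo hi w r) Y ≤ val r Y := fun Y hY =>
        s3_val_gt (lt_of_lt_of_le (by exact_mod_cast h2) hY)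
      exact ih (fun h4 => h0 fun Y hY => Nat.le_zero.1 ((h3 Y hY).trans (h4 Y hY).le))
        fun lo' hi' w' r' h4 => h1 lo' hi' w' r' fun Y hY => (h3 Y hY).trans (h4 Y hY)

theorem s3_lt_of_ble {a b : ℕ} (h : Nat.ble a b = false) : b < a := by
  by_contra h3
  rw [Nat.ble_eq_true_of_le (not_lt.1 h3)] at h
  exact Bool.noConfusion h

theorem s3_scan_cons (e lo hi w : ℕ) (r : CL) (a : ℕ) :
    scan e (.cons lo hi w r) a =
      cond (Nat.ble lo e) (cond (Nat.ble w a) (scan e r a) (scan e r w)) a := rfl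

theorem s3_scan (e : ℕ) (l : CL) (a : ℕ) :
    a ≤ scan e l a ∧ ∀ Y : ℝ, Y ≤ e → val l Y ≤ scan e l a := by
  induction l generalizing a with
  | nil => exact ⟨le_rfl, fun _ _ => Nat.zero_le _⟩
  | cons lo hi w r ih =>
    rw [s3_scan_cons]
    cases h : Nat.ble lo e with
    | false =>
      refine ⟨le_rfl, fun Y hY => ?_⟩
      rw [s3_val_lt (lt_of_le_of_lt hY (by exact_mod_cast s3_lt_of_ble h))]
      exact Nat.zero_le _
    | true =>
      cases h' : Nat.ble w a with
      | true =>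
        have h1 := Nat.le_of_ble_eq_true h'
        exact ⟨(ih a).1, fun Y hY => (s3_val_cons lo hi w r Y).trans
          (max_le (h1.trans (ih a).1) ((ih a).2 Y hY))⟩
      | false =>
        have h1 := s3_lt_of_ble h'
        exact ⟨h1.le.trans (ih w).1, fun Y hY => (s3_val_cons lo hi w r Y).trans
          (max_le (ih w).1 ((ih w).2 Y hY))⟩

theorem s3_val_scan (e lo hi w : ℕ) (r : CL) {Y : ℝ} (hY : Y ≤ e) :
    val (.cons lo hi w r) Y ≤ scan e r w :=
  (s3_val_cons lo hi w r Y).trans (max_le (s3_scan e r w).1 ((s3_scan e r w).2 Y hY))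

theorem s3_tot_cons (c : CL) (r : LL) (Y : ℝ) : tot (.cons c r) Y = val c Y + tot r Y := rfl

theorem s3_tot_nil (Y : ℝ) : tot .nil Y = 0 := rfl

theorem s3_refr_cons (y1 e thr : ℕ) (k : ℕ → LL → LL → ℕ) (c : CL) (L : LL) (fs : ℕ)
    (far near : LL) : refr y1 e thr k (.cons c L) fs far near =
    dropK y1 (refr y1 e thr k L fs far near) (fun lo hi w r =>
      cond (Nat.ble lo e)
        (sq (scan e r w) fun mx =>
          cond (or (Nat.ble mx thr)
              (and (Nat.ble lo y1) (Nat.ble mx (Nat.add thr (scanMin e r w hi)))))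
            (refr y1 e thr k L (fs + mx) (LL.cons (CL.cons lo hi w r) far) near)
            (refr y1 e thr k L fs far (LL.cons (CL.cons lo hi w r) near)))
        (refr y1 e thr k L fs (LL.cons (CL.cons lo hi w r) far) near)) c := rfl

theorem refr_sound (y1 e thr : ℕ) (k : ℕ → LL → LL → ℕ) (R : ℕ → Prop) (T : ℝ → ℕ)
    (L : LL) (fs : ℕ) (far near : LL)
    (hI : ∀ Y : ℝ, (y1 : ℝ) ≤ Y → T Y ≤ tot L Y + tot far Y + tot near Y ∧
      (Y ≤ e → tot far Y ≤ fs))
    (hk : ∀ fs far near, Inv T y1 fs e far near → R (k fs far near)) :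
    R (refr y1 e thr k L fs far near) := by
  induction L generalizing fs far near with
  | nil =>
    refine hk fs far near fun Y hY => ⟨?_, (hI Y hY).2⟩
    have := (hI Y hY).1
    rw [s3_tot_nil] at this
    omega
  | cons c L ih =>
    rw [s3_refr_cons]
    refine s3_dropK _ _ _ R c (fun h0 => ih _ _ _ fun Y hY => ⟨?_, (hI Y hY).2⟩)
      fun lo hi w r h1 => ?_
    · have := (hI Y hY).1
      rw [s3_tot_cons, h0 Y hY] at this
      omega
    have h2 : ∀ Y : ℝ, (y1 : ℝ) ≤ Y →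
        T Y ≤ val (.cons lo hi w r) Y + tot L Y + tot far Y + tot near Y := fun Y hY => by
      have h3 := (hI Y hY).1
      have h4 := h1 Y hY
      rw [s3_tot_cons] at h3
      omega
    cases h : Nat.ble lo e with
    | false =>
      refine ih _ _ _ fun Y hY => ⟨?_, fun hYe => ?_⟩
      · have := h2 Y hY
        rw [s3_tot_cons]
        omega
      · rw [s3_tot_cons, s3_val_lt (lt_of_le_of_lt hYe (by exact_mod_cast s3_lt_of_ble h)),
          Nat.zero_add]
        exact (hI Y hY).2 hYe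
    | true =>
      rw [cond_true, sq_eq]
      cases (or (Nat.ble (scan e r w) thr) (and (Nat.ble lo y1)
        (Nat.ble (scan e r w) (Nat.add thr (scanMin e r w hi))))) with
      | true =>
        refine ih _ _ _ fun Y hY => ⟨?_, fun hYe => ?_⟩
        · have := h2 Y hY
          rw [s3_tot_cons]
          omega
        · have h3 := (hI Y hY).2 hYe
          have h4 := s3_val_scan e lo hi w r hYe
          rw [s3_tot_cons]
          omega
      | false =>
        refine ih _ _ _ fun Y hY => ⟨?_, (hI Y hY).2⟩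
        have := h2 Y hY
        rw [s3_tot_cons]
        omega

theorem s3_nearL_cons (y1 y2 : ℕ) (k : ℕ → LL → ℕ) (c : CL) (L : LL) (t : ℕ) (near : LL) :
    nearL y1 y2 k (.cons c L) t near =
    dropK y1 (nearL y1 y2 k L t near) (fun lo hi w r =>
      nearL y1 y2 k L (t + cond (Nat.ble lo y2) (scan y2 r w) 0)
        (LL.cons (CL.cons lo hi w r) near)) c := rfl

theorem nearL_sound (y1 y2 : ℕ) (k : ℕ → LL → ℕ) (R : ℕ → Prop) (T : ℝ → ℕ) (s : ℕ)
    (L : LL) (t : ℕ) (near : LL)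
    (hI : ∀ Y : ℝ, (y1 : ℝ) ≤ Y → T Y ≤ tot L Y + tot near Y ∧
      (Y ≤ y2 → s + tot near Y ≤ t))
    (hk : ∀ t near, (∀ Y : ℝ, (y1 : ℝ) ≤ Y → T Y ≤ tot near Y ∧ (Y ≤ y2 → s + tot near Y ≤ t)) →
      R (k t near)) :
    R (nearL y1 y2 k L t near) := by
  induction L generalizing t near with
  | nil =>
    refine hk t near fun Y hY => ⟨?_, (hI Y hY).2⟩
    have := (hI Y hY).1
    rw [s3_tot_nil] at this
    omega
  | cons c L ih =>
    rw [s3_nearL_cons]
    refine s3_dropK _ _ _ R c (fun h0 => ih _ _ fun Y hY => ⟨?_, (hI Y hY).2⟩)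
      fun lo hi w r h1 => ih _ _ fun Y hY => ⟨?_, fun hYe => ?_⟩
    · have := (hI Y hY).1
      rw [s3_tot_cons, h0 Y hY] at this
      omega
    · have h3 := (hI Y hY).1
      have h4 := h1 Y hY
      rw [s3_tot_cons] at h3 ⊢
      omega
    · have h3 := (hI Y hY).2 hYe
      have h4 : val (.cons lo hi w r) Y ≤ cond (Nat.ble lo y2) (scan y2 r w) 0 := by
        cases h : Nat.ble lo y2 with
        | true => exact s3_val_scan y2 lo hi w r hYe
        | false => exact (s3_val_lt (lt_of_le_of_lt hYe (by exact_mod_cast s3_lt_of_ble h))).le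
      rw [s3_tot_cons]
      omega

theorem Good_step {T : ℝ → ℕ} {H : ℝ → ℝ} {m0 y1 y2 c : ℕ} (q : ℕ) (h12 : y1 ≤ y2)
    (hG : Good T H m0 y1 c)
    (hq : ∀ y ∈ EE, (∀ m : ℕ, y ≠ m) → (y1 : ℝ) ≤ (y + 1 / 4) * 2 ^ 40 →
      (y + 1 / 4) * 2 ^ 40 < y2 → (T ((y + 1 / 4) * 2 ^ 40) : ℝ) / 2 ^ 40 ≤ H y + q / 2 ^ 40) :
    Good T H m0 y2 (c + q * (y2 - y1)) := by
  obtain ⟨b, hb, hb0, hbi, hbb⟩ := hG
  set I : Set ℝ := Ico ((y1 : ℝ) / 2 ^ 40 - 1 / 4) ((y2 : ℝ) / 2 ^ 40 - 1 / 4) with hI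
  have hq0 : (0 : ℝ) ≤ (q : ℝ) / 2 ^ 40 := by positivity
  have hi0 : ∀ y, 0 ≤ I.indicator (fun _ => (q : ℝ) / 2 ^ 40) y := fun y =>
    indicator_nonneg (fun _ _ => hq0) y
  have h12' : (y1 : ℝ) ≤ y2 := by exact_mod_cast h12
  refine ⟨fun y => b y + I.indicator (fun _ => (q : ℝ) / 2 ^ 40) y,
    hb.add (measurable_const.indicator measurableSet_Ico), fun y => add_nonneg (hb0 y) (hi0 y),
    ?_, fun y hy hm h0 h2 => ?_⟩
  · have e1 : ∀ y, ENNReal.ofReal (b y + I.indicator (fun _ => (q : ℝ) / 2 ^ 40) y) =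
        ENNReal.ofReal (b y) + I.indicator (fun _ => ENNReal.ofReal ((q : ℝ) / 2 ^ 40)) y := by
      intro y
      rw [ENNReal.ofReal_add (hb0 y) (hi0 y)]
      by_cases h : y ∈ I
      · rw [indicator_of_mem h, indicator_of_mem h]
      · rw [indicator_of_notMem h, indicator_of_notMem h, ENNReal.ofReal_zero]
    simp only [e1]
    rw [lintegral_add_left hb.ennreal_ofReal, lintegral_indicator_const measurableSet_Ico,
      Real.volume_Ico, ← ENNReal.ofReal_mul hq0]
    refine (add_le_add hbi le_rfl).trans (le_of_eq ?_)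
    rw [← ENNReal.ofReal_add (by positivity) (mul_nonneg hq0 (by
      have : (y1 : ℝ) / 2 ^ 40 ≤ y2 / 2 ^ 40 := by gcongr
      linarith))]
    congr 1
    rw [Nat.cast_add, Nat.cast_mul, Nat.cast_sub h12]
    ring
  · by_cases h1 : (y + 1 / 4) * 2 ^ 40 < (y1 : ℝ)
    · have := hbb y hy hm h0 h1
      have := hi0 y
      show _ ≤ H y + (b y + _)
      linarith
    · have h3 := not_lt.1 h1
      have h4 : y ∈ I := by
        constructor
        · rw [sub_le_iff_le_add, div_le_iff₀ (by positivity)]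
          exact h3
        · rw [lt_sub_iff_add_lt, lt_div_iff₀ (by positivity)]
          exact h2
      have := hq y hy hm h3 h2
      have := hb0 y
      show _ ≤ H y + (b y + _)
      rw [indicator_of_mem h4]
      linarith

theorem s3_step_eq (y1 y2 p c fs : ℕ) (near : LL) (k : ℕ → LL → ℕ) :
    step y1 y2 p c fs near k = nearL y1 y2 (fun tt near' =>
      sq (c + (tt - (p <<< 70) / (y2 + 274877906944)) * (y2 - y1)) fun c' => k c' near')
      near fs LL.nil := rfl

theorem s3_step {T : ℝ → ℕ} {H : ℝ → ℝ} {m0 y1 y2 p c fs e : ℕ} {far near : LL}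
    (k : ℕ → LL → ℕ) (R : ℕ → Prop) (h12 : y1 ≤ y2) (h2e : y2 ≤ e)
    (hI : Inv T y1 fs e far near) (hG : Good T H m0 y1 c)
    (hp : ∀ y : ℝ, (y1 : ℝ) ≤ (y + 1 / 4) * 2 ^ 40 → (y + 1 / 4) * 2 ^ 40 < y2 →
      (p : ℝ) / 1024 / (y + 1 / 2) ≤ H y)
    (hk : ∀ c' near', Inv T y2 fs e far near' → Good T H m0 y2 c' → R (k c' near')) :
    R (step y1 y2 p c fs near k) := by
  rw [s3_step_eq]
  have h12' : (y1 : ℝ) ≤ y2 := by exact_mod_cast h12
  have h2e' : (y2 : ℝ) ≤ e := by exact_mod_cast h2e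
  refine nearL_sound y1 y2 _ R (tot near) fs near fs LL.nil
    (fun Y _ => ⟨Nat.le_add_right _ _, fun _ => le_rfl⟩) fun tt near' h => ?_
  rw [sq_eq]
  refine hk _ _ (fun Y hY => ⟨?_, (hI Y (h12'.trans hY)).2⟩)
    (Good_step _ h12 hG fun y _ _ h1 h2 => ?_)
  · have h3 := (hI Y (h12'.trans hY)).1
    have h4 := (h Y (h12'.trans hY)).1
    omega
  · have h3 := hI _ h1
    have h4 := h _ h1
    have h5 : T ((y + 1 / 4) * 2 ^ 40) ≤ tt := by
      have := h3.2 (h2.le.trans h2e')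
      have := h4.2 h2.le
      have := h3.1
      have := h4.1
      omega
    set D := (p <<< 70) / (y2 + 274877906944) with hD
    have h6 : (T ((y + 1 / 4) * 2 ^ 40) : ℝ) ≤ (D : ℝ) + ((tt - D : ℕ) : ℝ) := by
      exact_mod_cast (by omega : T ((y + 1 / 4) * 2 ^ 40) ≤ D + (tt - D))
    have h0 : (0 : ℝ) ≤ y1 := Nat.cast_nonneg _
    have hy : 0 < y + 1 / 2 := by nlinarith
    have h7 : (D : ℝ) ≤ (p : ℝ) * 2 ^ 70 / ((y + 1 / 2) * 2 ^ 40) := by
      refine (Nat.cast_div_le (α := ℝ)).trans ?_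
      rw [Nat.shiftLeft_eq]
      push_cast
      rw [show (1180591620717411303424 : ℝ) = 2 ^ 70 by norm_num]
      refine div_le_div_of_nonneg_left (by positivity) (by positivity) ?_
      linarith
    have h8 : (D : ℝ) / 2 ^ 40 ≤ (p : ℝ) / 1024 / (y + 1 / 2) := by
      refine (div_le_div_of_nonneg_right h7 (by positivity)).trans (le_of_eq ?_)
      field_simp
      norm_num
    have h9 := hp y h1 h2
    have h10 : (T ((y + 1 / 4) * 2 ^ 40) : ℝ) / 2 ^ 40 ≤
        (D : ℝ) / 2 ^ 40 + ((tt - D : ℕ) : ℝ) / 2 ^ 40 := by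
      rw [← add_div]
      exact div_le_div_of_nonneg_right h6 (by positivity)
    linarith

theorem s3_gA_le {t : TB} (ht : TBok t) : gA t 0 ≤ 2 ^ 40 := by
  induction t with
  | nil => exact le_rfl
  | cons a b lo hi sub r ih =>
    obtain ⟨h1, h2, -, -, -, h3⟩ := ht
    have := ih h3
    show a ≤ 2 ^ 40
    omega

theorem s3_fine_cons (B r l a2 a3 iL iR h thr yE : ℕ) (pj : ℕ → ℕ)
    (k : ℕ → ℕ → ℕ → LL → LL → ℕ) (a b lo hi : ℕ) (sub : SB) (t : TB) (j c fs fe : ℕ)
    (far near : LL) :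
    fine B r l a2 a3 iL iR h thr yE pj k (.cons a b lo hi sub t) j c fs fe far near =
    cond (or (Nat.ble b r) (or (Nat.ble l a) (and (Nat.ble a2 a) (Nat.ble b a3))))
      (fine B r l a2 a3 iL iR h thr yE pj k t (j + 1) c fs fe far near)
      (sq j fun j => sq (B + a) fun y1 => sq (B + b) fun y2 =>
        cond (Nat.ble y2 fe)
          (step y1 y2 (cond (and (Nat.ble iL a) (Nat.ble b iR)) (pj j) 0) c fs near
            fun c' near' => fine B r l a2 a3 iL iR h thr yE pj k t (j + 1) c' fs fe far near')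
          (sq (y2 + (h - (h - (yE - y2)))) fun e =>
            refr y1 e thr (refr y1 e thr (fun fs far near => sq fs fun fs =>
              step y1 y2 (cond (and (Nat.ble iL a) (Nat.ble b iR)) (pj j) 0) c fs near
                fun c' near' => fine B r l a2 a3 iL iR h thr yE pj k t (j + 1) c' fs e far near')
                near) far 0 LL.nil LL.nil)) := rfl

theorem fine_sound (T : ℝ → ℕ) (H : ℝ → ℝ) (m0 : ℕ) (hH : ∀ y, 0 ≤ H y)
    (B r l a2 a3 iL iR h thr yE : ℕ) (pj : ℕ → ℕ) (k : ℕ → ℕ → ℕ → LL → LL → ℕ)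
    (R : ℕ → Prop) (t : TB) (ht : TBok t) (j c fs fe : ℕ) (far near : LL)
    (hz : ∀ y ∈ EE, (∀ m : ℕ, y ≠ m) → (B : ℝ) ≤ (y + 1 / 4) * 2 ^ 40 →
      (y + 1 / 4) * 2 ^ 40 < B + 2 ^ 40 →
        (r : ℝ) < (y + 1 / 4) * 2 ^ 40 - B ∧ (y + 1 / 4) * 2 ^ 40 - B < l ∧
          ¬((a2 : ℝ) ≤ (y + 1 / 4) * 2 ^ 40 - B ∧ (y + 1 / 4) * 2 ^ 40 - B ≤ a3))
    (hp : ∀ e, e < tlen t → ∀ y : ℝ, (B : ℝ) + gA t e ≤ (y + 1 / 4) * 2 ^ 40 →
      (y + 1 / 4) * 2 ^ 40 < B + gA t (e + 1) → iL ≤ gA t e → gA t (e + 1) ≤ iR →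
        (pj (j + e) : ℝ) / 1024 / (y + 1 / 2) ≤ H y)
    (hI : Inv T (B + gA t 0) fs fe far near) (hG : Good T H m0 (B + gA t 0) c)
    (hk : ∀ c fs fe far near, Inv T (B + 2 ^ 40) fs fe far near → Good T H m0 (B + 2 ^ 40) c →
      R (k c fs fe far near)) :
    R (fine B r l a2 a3 iL iR h thr yE pj k t j c fs fe far near) := by
  induction t generalizing j c fs fe far near with
  | nil => exact hk c fs fe far near hI hG
  | cons a b lo hi sub t ih =>
    obtain ⟨hb, hab, -, -, -, ht'⟩ := ht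
    have hb40 : b ≤ 2 ^ 40 := hb ▸ s3_gA_le ht'
    have hI' : Inv T (B + a) fs fe far near := hI
    have hG' : Good T H m0 (B + a) c := hG
    have h12 : B + a ≤ B + b := by omega
    have h12' : ((B + a : ℕ) : ℝ) ≤ ((B + b : ℕ) : ℝ) := by exact_mod_cast h12
    have next : ∀ c fs fe far near, Inv T (B + b) fs fe far near → Good T H m0 (B + b) c →
        R (fine B r l a2 a3 iL iR h thr yE pj k t (j + 1) c fs fe far near) := by
      intro c fs fe far near h1 h2
      refine ih ht' (j + 1) c fs fe far near (fun e he y h3 h4 h5 h6 => ?_) (hb ▸ h1) (hb ▸ h2)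
      have := hp (e + 1) (Nat.succ_lt_succ he) y h3 h4 h5 h6
      rwa [show j + (e + 1) = j + 1 + e by omega] at this
    rw [s3_fine_cons]
    cases hc : (or (Nat.ble b r) (or (Nat.ble l a) (and (Nat.ble a2 a) (Nat.ble b a3)))) with
    | true =>
      refine next c fs fe far near (fun Y hY => hI' Y (h12'.trans hY)) ?_
      have key := Good_step 0 h12 hG' fun y hy hm h1 h2 => by
        exfalso
        push_cast at h1 h2
        have ha0 : (0 : ℝ) ≤ a := Nat.cast_nonneg _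
        have hb' : (b : ℝ) ≤ 2 ^ 40 := by exact_mod_cast hb40
        obtain ⟨h3, h4, h5⟩ := hz y hy hm (by linarith) (by linarith)
        simp only [Bool.or_eq_true, Bool.and_eq_true, Nat.ble_eq] at hc
        rcases hc with h6 | h6 | ⟨h6, h7⟩
        · have : (b : ℝ) ≤ r := by exact_mod_cast h6
          linarith
        · have : (l : ℝ) ≤ a := by exact_mod_cast h6
          linarith
        · have h8 : (a2 : ℝ) ≤ a := by exact_mod_cast h6
          have h9 : (b : ℝ) ≤ a3 := by exact_mod_cast h7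
          exact h5 ⟨by linarith, by linarith⟩
      rwa [Nat.zero_mul, Nat.add_zero] at key
    | false =>
      rw [cond_false, sq_eq, sq_eq, sq_eq]
      have hp' : ∀ y : ℝ, ((B + a : ℕ) : ℝ) ≤ (y + 1 / 4) * 2 ^ 40 →
          (y + 1 / 4) * 2 ^ 40 < ((B + b : ℕ) : ℝ) →
          ((cond (and (Nat.ble iL a) (Nat.ble b iR)) (pj j) 0 : ℕ) : ℝ) / 1024 / (y + 1 / 2) ≤
            H y := by
        intro y h1 h2
        cases hd : (and (Nat.ble iL a) (Nat.ble b iR)) with
        | false => simpa using hH y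
        | true =>
          simp only [Bool.and_eq_true, Nat.ble_eq] at hd
          push_cast at h1 h2
          exact hp 0 (Nat.succ_pos _) y h1 (by rw [hb] at h2; exact h2) hd.1
            (by have := hd.2; rw [hb] at this; exact this)
      cases hf : Nat.ble (B + b) fe with
      | true =>
        exact s3_step _ R h12 (Nat.le_of_ble_eq_true hf) hI' hG' hp'
          fun c' near' h1 h2 => next c' fs fe far near' h1 h2
      | false =>
        rw [cond_false, sq_eq]
        refine refr_sound _ _ _ _ R (tot far) far 0 LL.nil LL.nil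
          (fun Y _ => ⟨le_rfl, fun _ => le_rfl⟩) fun fs1 far1 near1 h1 => ?_
        refine refr_sound _ _ _ _ R T near fs1 far1 near1 (fun Y hY => ⟨?_, (h1 Y hY).2⟩)
          fun fs2 far2 near2 h2 => ?_
        · have h3 := (hI' Y hY).1
          have h4 := (h1 Y hY).1
          omega
        · rw [sq_eq]
          exact s3_step _ R h12 (Nat.le_add_right _ _) h2 hG' hp'
            fun c' near' h3 h4 => next c' fs2 _ far2 near' h3 h4

end Pool.Agent.Lib.MP_2dc536_an.X
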