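import Pool.Agent.Lib.MP_2dc536_an.X.S2
import Pool.Agent.Lib.MP_2dc536_an.X.S3

namespace Pool.Agent.Lib.MP_2dc536_an.X

open Real Set MeasureTheory

theorem s4_Phi0_nonneg (n : ℕ) : 0 ≤ Phi0 n := by
  unfold Phi0
  split_ifs <;> positivity

theorem HH_nonneg (t : TB) (N1 : ℕ) (dt : DTr) (x : ℝ) : 0 ≤ HH t N1 dt x := by
  unfold HH HA
  split_ifs with h1 h2 h3
  · have h4 : ¬ ⌊x⌋₊ < 2 := fun h => by simp [UU, h] at h2
    have h5 : 1 ≤ x := Nat.floor_pos.1 (by omega)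
    positivity
  · exact le_rfl
  · have h4 : 0 ≤ x := by
      unfold UA at h3
      split_ifs at h3
      · exact le_trans (by positivity) h3.1
      · exact le_trans (by positivity) h3.1
    have := s4_Phi0_nonneg ⌊x⌋₊
    positivity
  · exact le_rfl

theorem s4_am (m a b : ℕ) : Nat.add (Nat.mul m a) b = m * a + b := rfl

theorem s4_e0 (m : ℕ) :
    Nat.add (Nat.mul m (nat_lit 1099511627776)) (nat_lit 274877906944) = m * 2 ^ 40 + 2 ^ 38 :=
  (s4_am m _ _).trans (congrArg₂ (fun a b => m * a + b)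
    (show nat_lit 1099511627776 = 2 ^ 40 by decide) (show nat_lit 274877906944 = 2 ^ 38 by decide))

theorem s4_units_succ0 (t : TB) (N1 : ℕ) (dt : DTr) (h eta yE cnt m : ℕ) :
    units t N1 dt h eta yE (cnt + 1) m = sq m fun m =>
      sq (Nat.add (Nat.mul m (nat_lit 1099511627776)) (nat_lit 274877906944)) fun B =>
      sq (zr m) fun r => sq (zl m (datd dt m)) fun l => sq (z2 m) fun a2 => sq (z3 m) fun a3 =>
      sq (inL N1 m) fun iL => sq (inR N1 m) fun iR => sq (Nat.div eta m) fun thr =>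
      cond (Nat.ble N1 m)
        (sq (loP m) fun p => fine B r l a2 a3 iL iR h thr yE (fun _ => p)
          (units t N1 dt h eta yE cnt (Nat.succ m)) t (nat_lit 0))
        (sq (datD dt m) fun D => fine B r l a2 a3 iL iR h thr yE (fun j => dig D j)
          (units t N1 dt h eta yE cnt (Nat.succ m)) t (nat_lit 0)) := rfl

theorem s4_units_succ (t : TB) (N1 : ℕ) (dt : DTr) (h eta yE cnt m : ℕ) {B : ℕ}
    (hB : B = m * 2 ^ 40 + 2 ^ 38) :
    units t N1 dt h eta yE (cnt + 1) m =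
      fine B (zr m) (zl m (datd dt m)) (z2 m) (z3 m) (inL N1 m) (inR N1 m) h (Nat.div eta m) yE
        (cond (Nat.ble N1 m) (fun _ => loP m) (fun j => dig (datD dt m) j))
        (units t N1 dt h eta yE cnt (Nat.succ m)) t (nat_lit 0) := by
  rw [s4_units_succ0, hB, ← s4_e0]
  simp only [sq_eq]
  cases Nat.ble N1 m
  · simp only [cond_false]
  · simp only [cond_true]

theorem s4_cond_le {b : Bool} {u v : ℕ} {z : ℝ} (h1 : b = true → (u : ℝ) ≤ z) (h2 : (v : ℝ) ≤ z) :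
    ((cond b u v : ℕ) : ℝ) ≤ z := by
  cases b
  · exact h2
  · exact h1 rfl

theorem s4_sq_le {x : ℕ} {k : ℕ → ℕ} {z : ℝ} (h : ∀ r, (k r : ℝ) ≤ z) : ((sq x k : ℕ) : ℝ) ≤ z := by
  rw [sq_eq]; exact h x

theorem s4_loP {n : ℕ} (hn : 1 ≤ n) : (loP n : ℝ) ≤ Phi0 n * 1024 := by
  unfold loP
  refine s4_sq_le fun r => s4_cond_le (fun h => ?_) ?_
  · have h' := Nat.le_of_ble_eq_true h
    rw [Nat.mul_eq, Nat.mul_eq, show nat_lit 1048576 = 2 ^ 20 by decide] at h'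
    exact loA_le_Phi0 hn h'
  · have := s4_Phi0_nonneg n
    show ((0 : ℕ) : ℝ) ≤ _
    push_cast
    positivity

theorem s4_div (c m : ℕ) (hm : 1 ≤ m) : (c : ℝ) / m ≤ ((c / m : ℕ) : ℝ) + 1 := by
  have h0 : (0 : ℝ) < m := by exact_mod_cast hm
  rw [div_le_iff₀ h0]
  have h1 : c < (c / m + 1) * m := by
    rw [mul_comm]; exact Nat.lt_mul_div_succ c (by omega)
  exact_mod_cast h1.le

theorem s4_odd {m c d : ℕ} (hm : 1 ≤ m) (hd : d ≤ 1099511627775) {θ p q : ℝ}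
    (hp : p * 2 ^ 40 ≤ c) (hq : q * 2 ^ 40 ≤ d) (h0 : ((c / m + 1 : ℕ) : ℝ) ≤ θ * 2 ^ 40)
    (h1 : θ * 2 ^ 40 < ((1099511627775 - d / m : ℕ) : ℝ)) : p / m ≤ θ ∧ θ ≤ 1 - q / m := by
  have m0 : (0 : ℝ) < m := by exact_mod_cast hm
  have a1 := s4_div c m hm
  have a2 := s4_div d m hm
  have a3 : d / m ≤ 1099511627775 := (Nat.div_le_self _ _).trans hd
  rw [Nat.cast_sub a3] at h1
  push_cast at h0 h1
  have b1 : p / m * 2 ^ 40 ≤ c / m := by
    rw [div_mul_eq_mul_div]; exact div_le_div_of_nonneg_right hp m0.le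
  have b2 : q / m * 2 ^ 40 ≤ d / m := by
    rw [div_mul_eq_mul_div]; exact div_le_div_of_nonneg_right hq m0.le
  constructor <;> nlinarith

theorem s4_mem {N1 m : ℕ} (h2 : 2 ≤ m) {y : ℝ} (h0 : (inL N1 m : ℝ) ≤ (y - m) * 2 ^ 40)
    (h1 : (y - m) * 2 ^ 40 < inR N1 m) : y ∈ Ico (m : ℝ) (m + 1) ∧ y ∈ UU N1 m := by
  have eL : inL N1 m = cond (Nat.beq (m % 2) 1)
    (cond (Nat.ble N1 m) 879609302221 439804651111 / m + 1) 0 := rfl
  have eR : inR N1 m = cond (Nat.beq (m % 2) 1)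
    (1099511627775 - cond (Nat.ble N1 m) 274877906944 164926744167 / m) 1099511627776 := rfl
  have hI : y ∈ Ico (m : ℝ) (m + 1) := by
    have a0 : (0 : ℝ) ≤ inL N1 m := Nat.cast_nonneg _
    have a1 : inR N1 m ≤ 1099511627776 := by
      rw [eR]
      cases Nat.beq (m % 2) 1
      · exact le_rfl
      · exact (Nat.sub_le _ _).trans (by norm_num)
    have a2 : (inR N1 m : ℝ) ≤ 1099511627776 := by exact_mod_cast a1
    constructor <;> nlinarith
  refine ⟨hI, ?_⟩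
  have m0 : (0 : ℝ) < m := by exact_mod_cast (by omega : 0 < m)
  rw [eL] at h0
  rw [eR] at h1
  unfold UU UA UB
  rw [if_neg (by omega)]
  by_cases hp : m % 2 = 0
  · simp only [if_pos hp, ite_self]
    exact hI
  · have hb : Nat.beq (m % 2) 1 = true := Nat.beq_eq.mpr (by omega)
    rw [hb, cond_true] at h0 h1
    simp only [if_neg hp]
    by_cases hN : m < N1
    · have hc : Nat.ble N1 m = false := by
        cases hc : Nat.ble N1 m
        · rfl
        · have := Nat.le_of_ble_eq_true hc; omega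
      rw [hc, cond_false] at h0 h1
      obtain ⟨u, v⟩ := s4_odd (p := 2 / 5) (q := 3 / 20) (by omega) (by norm_num) (by norm_num)
        (by norm_num) h0 h1
      rw [if_pos hN]
      rw [div_div] at u v
      constructor <;> linarith
    · have hc : Nat.ble N1 m = true := Nat.ble_eq.mpr (by omega)
      rw [hc, cond_true] at h0 h1
      obtain ⟨u, v⟩ := s4_odd (p := 4 / 5) (q := 1 / 4) (by omega) (by norm_num) (by norm_num)
        (by norm_num) h0 h1
      rw [if_neg hN]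
      rw [div_div] at u v
      constructor <;> linarith

theorem s4_weight {t : TB} {K1 N1 : ℕ} (ht : TabOK t K1) (dt : DTr) {m e : ℕ} (h2 : 2 ≤ m)
    (he : e < tlen t) {y : ℝ} (h0 : (gA t e : ℝ) ≤ (y - m) * 2 ^ 40)
    (h1 : (y - m) * 2 ^ 40 < gA t (e + 1)) (hL : inL N1 m ≤ gA t e)
    (hR : gA t (e + 1) ≤ inR N1 m) :
    ((cond (Nat.ble N1 m) (fun _ => loP m) (fun j => dig (datD dt m) j) e : ℕ) : ℝ) / 1024 /
      (y + 1 / 2) ≤ HH t N1 dt y := by
  obtain ⟨hI, hU⟩ := s4_mem (N1 := N1) h2 (le_trans (by exact_mod_cast hL) h0)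
    (lt_of_lt_of_le h1 (by exact_mod_cast hR))
  have m0 : (0 : ℝ) ≤ m := Nat.cast_nonneg _
  have hf : ⌊y⌋₊ = m := (Nat.floor_eq_iff (m0.trans hI.1)).2 hI
  unfold HH HA
  rw [hf]
  cases hc : Nat.ble N1 m
  · have hN : m < N1 := by
      by_contra hh
      rw [Nat.ble_eq.mpr (by omega : N1 ≤ m)] at hc
      exact Bool.noConfusion hc
    rw [if_pos hN, if_pos hU, jx_eq ht he h0 h1, cond_false]
  · have hN : ¬ m < N1 := by have := Nat.le_of_ble_eq_true hc; omega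
    have hA : y ∈ UA m := by
      unfold UU at hU
      rwa [if_neg (by omega), if_neg hN] at hU
    rw [if_neg hN, if_pos hA, cond_true]
    have a := s4_loP (n := m) (by omega)
    have y0 : 0 ≤ y + 1 / 2 := by linarith [hI.1]
    refine div_le_div_of_nonneg_right ?_ y0
    linarith

theorem units_sound {t : TB} {K1 N1 : ℕ} (ht : TabOK t K1) (hN : 1000 ≤ N1) (dt : DTr)
    (T : ℝ → ℕ) (m0 h eta yE cnt m c fs fe : ℕ) (far near : LL) (h2 : 2 ≤ m)
    (hm : m + cnt ≤ 2400) (hI : Inv T (m * 2 ^ 40 + 2 ^ 38) fs fe far near)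
    (hG : Good T (HH t N1 dt) m0 (m * 2 ^ 40 + 2 ^ 38) c) :
    Good T (HH t N1 dt) m0 ((m + cnt) * 2 ^ 40 + 2 ^ 38)
      (units t N1 dt h eta yE cnt m c fs fe far near) := by
  induction cnt generalizing m c fs fe far near with
  | zero => exact hG
  | succ cnt ih =>
    have g0 : gA t 0 = 0 := ht.2.2.2.1
    obtain ⟨B, hB⟩ : ∃ B, B = m * 2 ^ 40 + 2 ^ 38 := ⟨_, rfl⟩
    obtain ⟨E, hE⟩ : ∃ E, E = (m + (cnt + 1)) * 2 ^ 40 + 2 ^ 38 := ⟨_, rfl⟩
    have eB : ∀ y : ℝ, (y + 1 / 4) * 2 ^ 40 - (B : ℝ) = (y - m) * 2 ^ 40 := fun y => by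
      rw [hB]; push_cast; ring
    have e1 : (m + 1) * 2 ^ 40 + 2 ^ 38 = B + 2 ^ 40 := by
      rw [hB, Nat.add_mul, Nat.one_mul, Nat.add_right_comm]
    have e2 : (m + 1 + cnt) * 2 ^ 40 + 2 ^ 38 = E := by
      rw [hE, Nat.add_assoc m 1 cnt, Nat.add_comm 1 cnt]
    have e3 : B = B + gA t 0 := by omega
    have ih' := fun c fs fe far near => ih (m + 1) c fs fe far near (by omega) (by omega)
    rw [e1, e2] at ih'
    rw [← hB, e3] at hI hG
    rw [← hE, s4_units_succ t N1 dt h eta yE cnt m hB]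
    refine fine_sound T _ m0 (HH_nonneg t N1 dt) B _ _ _ _ _ _ _ _ _ _ _
      (fun c' => Good T (HH t N1 dt) m0 E c') t ht.1 _ c fs fe far near ?_ ?_ hI hG ?_
    · intro y hy hne a b
      have a' : 0 ≤ (y - m) * 2 ^ 40 := by rw [← eB]; linarith
      have b' : (y - m) * 2 ^ 40 < 2 ^ 40 := by rw [← eB]; linarith
      rw [eB]
      refine zone_sound _ h2 (by omega) hy (lt_of_le_of_ne ?_ (hne m).symm) ?_ <;> linarith
    · intro e he y a b hL hR
      rw [show nat_lit 0 + e = e from Nat.zero_add e]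
      refine s4_weight ht dt h2 he ?_ ?_ hL hR
      · rw [← eB]; exact le_sub_iff_add_le'.2 a
      · rw [← eB]; exact sub_lt_iff_lt_add'.2 b
    · intro c' fs' fe' far' near' u v
      exact ih' c' fs' fe' far' near' u v

theorem run_sound {t : TB} {K1 N1 : ℕ} (ht : TabOK t K1) (hN : 1000 ≤ N1) (dt : DTr)
    (h eta m0 cnt c : ℕ) (h2 : 2 ≤ m0) (hm : m0 + cnt ≤ 2400)
    (hc : Nat.ble (run t K1 N1 dt h eta m0 cnt) c = true) : GoodK t N1 dt m0 (m0 + cnt) c := by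
  obtain ⟨A, hA⟩ : ∃ A, A = m0 * 2 ^ 40 + 2 ^ 38 := ⟨_, rfl⟩
  obtain ⟨E, hE⟩ : ∃ E, E = (m0 + cnt) * 2 ^ 40 + 2 ^ 38 := ⟨_, rfl⟩
  obtain ⟨L, hL⟩ : ∃ L, mkAll (lapB t K1 N1 dt A E) (2 + (2 * m0 / 3 - 4))
    (2 * (m0 + cnt) + 1 - (2 + (2 * m0 / 3 - 4))) LL.nil = L := ⟨_, rfl⟩
  have e : run t K1 N1 dt h eta m0 cnt = units t N1 dt h eta E cnt m0 0 0 0 L LL.nil := by
    unfold run
    rw [sq_eq, sq_eq, sq_eq, s4_e0, s4_e0, Nat.add_eq (x := m0), ← hA, ← hE, ← hL]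
    rfl
  have hle := Nat.le_of_ble_eq_true hc
  rw [e] at hle
  have hI : Inv (tot L) (m0 * 2 ^ 40 + 2 ^ 38) 0 0 L LL.nil := fun Y hY =>
    ⟨Nat.le_add_right _ _, fun h0 => by
      have : (0 : ℝ) < ((m0 * 2 ^ 40 + 2 ^ 38 : ℕ) : ℝ) := by positivity
      push_cast at h0
      linarith⟩
  have hG : Good (tot L) (HH t N1 dt) m0 (m0 * 2 ^ 40 + 2 ^ 38) 0 :=
    ⟨fun _ => 0, measurable_const, fun _ => le_rfl, by simp, fun y _ _ a b => by
      push_cast at b
      nlinarith⟩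
  obtain ⟨b, b1, b2, b3, b4⟩ := units_sound ht hN dt (tot L) m0 h eta
    E cnt m0 0 0 0 L LL.nil h2 hm hI hG
  refine ⟨b, b1, b2, b3.trans (ENNReal.ofReal_le_ofReal ?_), fun y hy hne a a' S x hx => ?_⟩
  · exact div_le_div_of_nonneg_right (by exact_mod_cast hle) (by positivity)
  · have u := all_sound ht hN dt m0 (m0 + cnt) A E _ hA hE rfl a a'.le S x hx
    rw [hL] at u
    refine u.trans (b4 y hy hne a ?_)
    push_cast at a' ⊢
    nlinarith

theorem GoodK_add {t : TB} {N1 : ℕ} {dt : DTr} {m0 m1 m2 c1 c2 : ℕ}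
    (h1 : GoodK t N1 dt m0 m1 c1) (h2 : GoodK t N1 dt m1 m2 c2) :
    GoodK t N1 dt m0 m2 (c1 + c2) := by
  obtain ⟨a, a1, a2, a3, a4⟩ := h1
  obtain ⟨b, b1, b2, b3, b4⟩ := h2
  refine ⟨fun y => a y + b y, a1.add b1, fun y => add_nonneg (a2 y) (b2 y), ?_,
    fun y hy hne u v S x hx => ?_⟩
  · simp only [fun y => ENNReal.ofReal_add (a2 y) (b2 y)]
    rw [lintegral_add_left a1.ennreal_ofReal, Nat.cast_add, add_div,
      ENNReal.ofReal_add (by positivity) (by positivity)]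
    exact add_le_add a3 b3
  · rcases lt_or_ge y m1 with w | w
    · have := a4 y hy hne u w S x hx
      have := b2 y
      show _ ≤ _ + (a y + b y)
      linarith
    · have := b4 y hy hne w v S x hx
      have := a2 y
      show _ ≤ _ + (a y + b y)
      linarith

end Pool.Agent.Lib.MP_2dc536_an.X
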