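import Pool.Agent.Lib.MP_2dc536_an.X.FastT
import Pool.Agent.Lib.MP_2dc536_an.X.S4

/-!
The faster sweep computes the same number.
-/

namespace Pool.Agent.Lib.MP_2dc536_an.X

theorem fa_cond {α : Type} (b : Bool) (x y : α) :
    cond b x y = @Bool.rec (fun _ => α) y x b := by cases b <;> rfl

theorem fa_or (a b : Bool) : or a b = @Bool.rec (fun _ => Bool) b true a := by cases a <;> rfl

theorem fa_and (a b : Bool) : and a b = @Bool.rec (fun _ => Bool) false b a := by cases a <;> rfl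

theorem fa_scan : scan2 = scan := by
  funext e l
  unfold scan2 scan
  simp only [fa_cond]

theorem fa_scanMin : scanMin2 = scanMin := by
  funext e l
  unfold scanMin2 scanMin
  simp only [fa_cond]

theorem fa_refr : refr2 = refr := by
  funext y1 e thr k L
  unfold refr2 refr dropK
  simp only [fa_cond, fa_or, fa_and, fa_scan, fa_scanMin]

theorem fa_nearL : nearL2 = nearL := by
  funext y1 y2 k L
  unfold nearL2 nearL dropK
  simp only [fa_cond, fa_scan]

theorem fa_step : step2 = step := by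
  funext y1 y2 p c fs near k
  unfold step2 step
  rw [fa_nearL]

theorem fa_fine : fine2 = fine := by
  funext B r l a2 a3 iL iR h thr yE pj k t
  unfold fine2 fine
  simp only [fa_cond, fa_or, fa_and, fa_refr, fa_step]

theorem fa_units : units2 = units := by
  funext t N1 dt h eta yE cnt
  unfold units2 units
  rw [fa_fine]

theorem fa_ct {α : Type} (x y : α) : cond true x y = x := (fa_cond true x y).trans rfl

theorem fa_cf {α : Type} (x y : α) : cond false x y = y := (fa_cond false x y).trans rfl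

theorem fa_subO (C p : ℕ) : subO C (Nat.shiftLeft p (nat_lit 118)) = subL true C p := by
  funext y0 y1 k t
  unfold subO subL zA zB cL cH cW cD
  simp only [fa_ct]
  simp only [fa_cond]

theorem fa_subE (C p : ℕ) : subE C (Nat.shiftLeft p (nat_lit 118)) = subL false C p := by
  funext y0 y1 k t
  unfold subE subL zA zB cL cH cW cD
  simp only [fa_cf]
  simp only [fa_cond]

theorem fa_blkO : blkO = blkL true := by
  funext C Cm Cp y0 y1 pf t
  unfold blkO blkL cL cH
  simp only [fa_cond, sq_eq, fa_subO]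

theorem fa_blkE : blkE = blkL false := by
  funext C Cm Cp y0 y1 pf t
  unfold blkE blkL cL cH
  simp only [fa_cond, sq_eq, fa_subE]

theorem fa_cL {Cm B lo : ℕ} (h : B ≤ lo) : cL Cm B ≤ cL Cm lo := by
  unfold cL
  simp only [Nat.shiftRight_eq, Nat.mul_eq, Nat.shiftRight_eq_div_pow]
  exact Nat.div_le_div_right (Nat.mul_le_mul_left _ h)

theorem fa_blk_cons (o : Bool) (C Cm Cp y0 y1 : ℕ) (pf : ℕ → ℕ → ℕ → ℕ) (a b lo hi : ℕ) (sub : SB)
    (r : TB) (j : ℕ) (acc : CL) (ml : ℕ) (h : Nat.ble (cL Cm lo) y1 = false) :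
    blkL o C Cm Cp y0 y1 pf (.cons a b lo hi sub r) j acc ml =
      blkL o C Cm Cp y0 y1 pf r (Nat.succ j) acc ml := by
  have e : ∀ u : CL, cond (Nat.ble (cL Cm lo) y1) u (blkL o C Cm Cp y0 y1 pf r (Nat.succ j) acc ml) =
      blkL o C Cm Cp y0 y1 pf r (Nat.succ j) acc ml := fun u => by rw [h, cond_false]
  exact e _

theorem fa_jump (o : Bool) (C Cm Cp y0 y1 : ℕ) (pf : ℕ → ℕ → ℕ → ℕ) {B : ℕ}
    (hy : y1 < cL Cm B) (acc : CL) (ml : ℕ) (i : ℕ) : ∀ (t : TB) (j : ℕ), loGe B t i = true →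
    blkL o C Cm Cp y0 y1 pf (dropT t i) (j + i) acc ml = blkL o C Cm Cp y0 y1 pf t j acc ml := by
  induction i with
  | zero => intro t j _; cases t <;> rfl
  | succ i ih =>
    intro t j h
    cases t with
    | nil => exact absurd h (by simp [loGe])
    | cons a b lo hi sub r =>
      simp only [loGe, Bool.and_eq_true] at h
      have h1 : cL Cm B ≤ cL Cm lo := fa_cL (Nat.le_of_ble_eq_true h.1)
      have h2 : Nat.ble (cL Cm lo) y1 = false := by
        rw [← Bool.not_eq_true, Nat.ble_eq]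
        omega
      rw [fa_blk_cons o C Cm Cp y0 y1 pf a b lo hi sub r j acc ml h2, ← ih r (Nat.succ j) h.2,
        show Nat.succ j + i = j + (i + 1) by omega]
      rfl

theorem fa_tree (o : Bool) (C Cm Cp y0 y1 : ℕ) (pf : ℕ → ℕ → ℕ → ℕ) (t : TB) (sk : SK) :
    ∀ B, skT t sk → skB t sk B = true → (y1 < cL Cm B ∨ skL sk = 0) →
    @SK.rec (fun _ => CL) (fun i u => blkL o C Cm Cp y0 y1 pf u i CL.nil y1)
      (fun lo _ _ l r => @Bool.rec (fun _ => CL) r l (Nat.ble (cL Cm lo) y1)) sk =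
      blkL o C Cm Cp y0 y1 pf t (nat_lit 0) CL.nil y1 := by
  induction sk with
  | leaf i u =>
    intro B hT hB h
    have hu : u = dropT t i := hT
    show blkL o C Cm Cp y0 y1 pf u i CL.nil y1 = _
    rw [hu]
    rcases h with h | h
    · have := fa_jump o C Cm Cp y0 y1 pf h CL.nil y1 i t 0 hB
      rwa [Nat.zero_add] at this
    · have hi : i = 0 := h
      subst hi
      cases t <;> rfl
  | node lo l r ihl ihr =>
    intro B hT hB h
    simp only [skB, Bool.and_eq_true] at hB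
    have h1 := ihl B hT.1 hB.1 h
    cases h2 : Nat.ble (cL Cm lo) y1 with
    | true =>
      refine Eq.trans ?_ h1
      show @Bool.rec (fun _ => CL) _ _ (Nat.ble (cL Cm lo) y1) = _
      rw [h2]
    | false =>
      have h3 : y1 < cL Cm lo := by
        rw [← Bool.not_eq_true, Nat.ble_eq] at h2
        omega
      refine Eq.trans ?_ (ihr lo hT.2 hB.2 (Or.inl h3))
      show @Bool.rec (fun _ => CL) _ _ (Nat.ble (cL Cm lo) y1) = _
      rw [h2]

theorem fa_sq3 {α : Type} (x : ℕ) (f g : ℕ → α) (h : ∀ y, f y = g y) : sq x f = sq x g := by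
  rw [funext h]

theorem fa_lapOo {t : TB} {sk : SK} (hT : skT t sk) (hB : skB t sk 0 = true) (hL : skL sk = 0)
    (n y0 y1 : ℕ) (pf : ℕ → ℕ → ℕ → ℕ) : lapOo n y0 y1 pf sk = lapO true n y0 y1 pf t := by
  unfold lapOo lapO
  refine fa_sq3 _ _ _ fun C => fa_sq3 _ _ _ fun Cm => fa_sq3 _ _ _ fun Cp => ?_
  rw [fa_blkO]
  exact fa_tree true C Cm Cp y0 y1 pf t sk 0 hT hB (Or.inr hL)

theorem fa_lapOe {t : TB} {sk : SK} (hT : skT t sk) (hB : skB t sk 0 = true) (hL : skL sk = 0)
    (n y0 y1 : ℕ) (pf : ℕ → ℕ → ℕ → ℕ) : lapOe n y0 y1 pf sk = lapO false n y0 y1 pf t := by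
  unfold lapOe lapO
  refine fa_sq3 _ _ _ fun C => fa_sq3 _ _ _ fun Cm => fa_sq3 _ _ _ fun Cp => ?_
  rw [fa_blkE]
  exact fa_tree false C Cm Cp y0 y1 pf t sk 0 hT hB (Or.inr hL)

theorem fa_lapB {t : TB} {sk : SK} (hT : skT t sk) (hB : skB t sk 0 = true) (hL : skL sk = 0)
    (K1 N1 : ℕ) (dt : DTr) (y0 y1 : ℕ) : lapB2 sk K1 N1 dt y0 y1 = lapB t K1 N1 dt y0 y1 := by
  funext n
  unfold lapB2 lapB
  simp only [fa_lapOo hT hB hL, fa_lapOe hT hB hL]

theorem run2_eq {t : TB} {sk : SK} (hT : skT t sk) (hB : skB t sk 0 = true) (hL : skL sk = 0)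
    (K1 N1 : ℕ) (dt : DTr) (h eta m0 cnt : ℕ) :
    run2 t sk K1 N1 dt h eta m0 cnt = run t K1 N1 dt h eta m0 cnt := by
  unfold run2 run
  simp only [fa_lapB hT hB hL, fa_units]

theorem run2_sound (dt : DTr) (h eta m0 cnt c : ℕ) (h2 : 2 ≤ m0) (hm : m0 + cnt ≤ 2400)
    (hc : Nat.ble (run2 tb0 skA 167 1000 dt h eta m0 cnt) c = true) :
    GoodK tb0 1000 dt m0 (m0 + cnt) c :=
  run_sound tab_ok le_rfl dt h eta m0 cnt c h2 hm (run2_eq sk_T sk_B sk_L 167 1000 dt h eta m0 cnt ▸ hc)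

end Pool.Agent.Lib.MP_2dc536_an.X
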