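import Pool.Agent.Lib.MP_2dc536_an.X.Chk

/-!
The meaning of the lists used by the sweep.
-/

namespace Pool.Agent.Lib.MP_2dc536_an.X

open Real Set MeasureTheory

open Classical in
/-- The weight a list of cells gives to `y`. -/
noncomputable def val : CL → ℝ → ℕ
  | .nil, _ => 0
  | .cons lo hi w r, y => if y < lo then 0 else max (if y ≤ hi then w else 0) (val r y)

/-- The total weight of a list of laps. -/
noncomputable def tot : LL → ℝ → ℕ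
  | .nil, _ => 0
  | .cons c r, y => val c y + tot r y

/-- All lower bounds of small cells are positive. -/
def sbP : SB → Bool
  | .nil => true
  | .cons _ _ lo _ _ r => and (Nat.ble 1 lo) (sbP r)

/-- All lower bounds of small cells are positive. -/
def tbP : TB → Bool
  | .nil => true
  | .cons _ _ _ _ sub r => and (sbP sub) (tbP r)

open Classical in
/-- The block that holds `θ`. -/
noncomputable def jx (t : TB) (θ : ℝ) : ℕ :=
  Nat.findGreatest (fun j => (gA t j : ℝ) ≤ θ * 2 ^ 40) (tlen t - 1)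

/-- The kept part of `[n, n + 1)`. -/
def UU (N1 n : ℕ) : Set ℝ := if n < 2 then ∅ else if n < N1 then UB n else UA n

open Classical in
/-- The weight. -/
noncomputable def HH (t : TB) (N1 : ℕ) (dt : DTr) (x : ℝ) : ℝ :=
  if ⌊x⌋₊ < N1 then
    (if x ∈ UU N1 ⌊x⌋₊ then (dig (datD dt ⌊x⌋₊) (jx t (x - ⌊x⌋₊)) : ℝ) / 1024 / (x + 1 / 2) else 0)
  else HA x

/-- The table is correct, symmetric, and has `K1 + 1` blocks. -/
def TabOK (t : TB) (K1 : ℕ) : Prop :=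
  TBok t ∧ tbP t = true ∧ tlen t = K1 + 1 ∧ gA t 0 = 0 ∧
    ∀ j, j ≤ tlen t → gA t j + gA t (tlen t - j) = 2 ^ 40

/-- The loss up to position `pos` is at most `c / 2 ^ 80`. -/
def Good (T : ℝ → ℕ) (H : ℝ → ℝ) (m0 pos c : ℕ) : Prop :=
  ∃ b : ℝ → ℝ, Measurable b ∧ (∀ y, 0 ≤ b y) ∧
    ∫⁻ y, ENNReal.ofReal (b y) ≤ ENNReal.ofReal ((c : ℝ) / 2 ^ 80) ∧
    ∀ y ∈ EE, (∀ m : ℕ, y ≠ m) → (m0 : ℝ) ≤ y → (y + 1 / 4) * 2 ^ 40 < pos →
      (T ((y + 1 / 4) * 2 ^ 40) : ℝ) / 2 ^ 40 ≤ H y + b y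

/-- The invariant of the sweep. -/
def Inv (T : ℝ → ℕ) (pos fs fe : ℕ) (far near : LL) : Prop :=
  ∀ Y : ℝ, (pos : ℝ) ≤ Y → T Y ≤ tot far Y + tot near Y ∧ (Y ≤ fe → tot far Y ≤ fs)

/-- The loss on `[m0, m1)` is at most `c / 2 ^ 80`. -/
def GoodK (t : TB) (N1 : ℕ) (dt : DTr) (m0 m1 c : ℕ) : Prop :=
  ∃ b : ℝ → ℝ, Measurable b ∧ (∀ y, 0 ≤ b y) ∧
    ∫⁻ y, ENNReal.ofReal (b y) ≤ ENNReal.ofReal ((c : ℝ) / 2 ^ 80) ∧
    ∀ y ∈ EE, (∀ m : ℕ, y ≠ m) → (m0 : ℝ) ≤ y → y < m1 → Key (UU N1) (HH t N1 dt) b y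

theorem sq_eq {α : Type} (x : ℕ) (k : ℕ → α) : sq x k = k x := by cases x <;> rfl

theorem val_once : True := by
  have := @val.eq_def
  have := @val.eq_1
  have := @val.eq_2
  trivial

end Pool.Agent.Lib.MP_2dc536_an.X
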