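import Pool.Agent.Lib.MP_2dc536_an.X.Base

/-!
The table checker and its soundness.
-/

namespace Pool.Agent.Lib.MP_2dc536_an.X

open Real Set MeasureTheory

/-- Positive terms of the scaled Taylor sum of the cosine at `q / D`. -/
def tbE (q D : ℕ) : ℕ :=
  (Nat.add (Nat.mul (nat_lit 620448401733239439360000)
      (Nat.mul (Nat.pow q (nat_lit 0)) (Nat.pow D (nat_lit 24))))
    (Nat.add (Nat.mul (nat_lit 25852016738884976640000)
      (Nat.mul (Nat.pow q (nat_lit 4)) (Nat.pow D (nat_lit 20))))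
    (Nat.add (Nat.mul (nat_lit 15388105201717248000)
      (Nat.mul (Nat.pow q (nat_lit 8)) (Nat.pow D (nat_lit 16))))
    (Nat.add (Nat.mul (nat_lit 1295295050649600)
      (Nat.mul (Nat.pow q (nat_lit 12)) (Nat.pow D (nat_lit 12))))
    (Nat.add (Nat.mul (nat_lit 29654190720)
      (Nat.mul (Nat.pow q (nat_lit 16)) (Nat.pow D (nat_lit 8))))
    (Nat.add (Nat.mul (nat_lit 255024)
      (Nat.mul (Nat.pow q (nat_lit 20)) (Nat.pow D (nat_lit 4))))
    (Nat.mul (nat_lit 1)
      (Nat.mul (Nat.pow q (nat_lit 24)) (Nat.pow D (nat_lit 0))))))))))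

/-- Negative terms of the scaled Taylor sum of the cosine at `q / D`. -/
def tbO (q D : ℕ) : ℕ :=
  (Nat.add (Nat.mul (nat_lit 310224200866619719680000)
      (Nat.mul (Nat.pow q (nat_lit 2)) (Nat.pow D (nat_lit 22))))
    (Nat.add (Nat.mul (nat_lit 861733891296165888000)
      (Nat.mul (Nat.pow q (nat_lit 6)) (Nat.pow D (nat_lit 18))))
    (Nat.add (Nat.mul (nat_lit 170978946685747200)
      (Nat.mul (Nat.pow q (nat_lit 10)) (Nat.pow D (nat_lit 14))))
    (Nat.add (Nat.mul (nat_lit 7117005772800)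
      (Nat.mul (Nat.pow q (nat_lit 14)) (Nat.pow D (nat_lit 10))))
    (Nat.add (Nat.mul (nat_lit 96909120)
      (Nat.mul (Nat.pow q (nat_lit 18)) (Nat.pow D (nat_lit 6))))
    (Nat.mul (nat_lit 552)
      (Nat.mul (Nat.pow q (nat_lit 22)) (Nat.pow D (nat_lit 2)))))))))

/-- The scale. -/
def tbS (D : ℕ) : ℕ := Nat.mul (nat_lit 620448401733239439360000) (Nat.pow D (nat_lit 24))

/-- Numerator of the rational approximation of the angle. -/
def tbQ (n : ℕ) : ℕ := Nat.mul (nat_lit 314159265358979323846) n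

/-- Denominator of the rational approximation of the angle. -/
def tbD : ℕ := nat_lit 109951162777600000000000000000000

/-- Check of a lower bound. -/
def tbLo (b lo : ℕ) : Bool :=
  cond (Nat.ble lo (nat_lit 140737488355328)) true
    (Nat.ble
      (Nat.add (Nat.mul (Nat.add lo (nat_lit 15)) (tbS tbD))
        (Nat.mul (tbO (tbQ b) tbD) (nat_lit 140737488355328)))
      (Nat.add (Nat.mul (nat_lit 281474976710656) (tbS tbD))
        (Nat.mul (tbE (tbQ b) tbD) (nat_lit 140737488355328))))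

/-- Check of an upper bound. -/
def tbHi (a hi : ℕ) : Bool :=
  cond (Nat.ble (nat_lit 422212465065984) hi) true
    (Nat.ble
      (Nat.add (Nat.mul (nat_lit 281474976710671) (tbS tbD))
        (Nat.mul (tbE (tbQ a) tbD) (nat_lit 140737488355328)))
      (Nat.add (Nat.mul hi (tbS tbD))
        (Nat.mul (tbO (tbQ a) tbD) (nat_lit 140737488355328))))

/-- Distance to `2 ^ 48`. -/
def tbA (x : ℕ) : ℕ :=
  Nat.add (Nat.sub x (nat_lit 281474976710656)) (Nat.sub (nat_lit 281474976710656) x)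

/-- Check of the slope bound against one end. -/
def tbS1 (x s : ℕ) : Bool :=
  Nat.ble
    (Nat.add (Nat.mul (Nat.mul s s) (nat_lit 100000000000000))
      (Nat.mul (nat_lit 986960406437476) (Nat.mul (tbA x) (tbA x))))
    (nat_lit 19548764869093182761683876388883907408297984)

/-- Check of the slope bound. -/
def tbSl (lo hi s : ℕ) : Bool :=
  cond (Nat.beq s (nat_lit 0)) true (and (tbS1 lo s) (tbS1 hi s))

/-- Check of one cell. -/
def tbCell (a b lo hi s : ℕ) : Bool :=
  and (Nat.ble b (nat_lit 1099511627776))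
    (and (Nat.ble (nat_lit 1) lo) (and (tbLo b lo) (and (tbHi a hi) (tbSl lo hi s))))

/-- Check of the small cells. -/
noncomputable def tbSub (x : SB) : ℕ → ℕ → Bool :=
  SB.rec (motive := fun _ => ℕ → ℕ → Bool) (fun p e => Nat.beq p e)
    (fun a b lo hi s _ ih p e => and (Nat.beq a p) (and (tbCell a b lo hi s) (ih b e))) x

/-- The grid, by recursors. -/
noncomputable def tbG (t : TB) : ℕ → ℕ :=
  TB.rec (motive := fun _ => ℕ → ℕ) (fun _ => nat_lit 1099511627776)
    (fun a _ _ _ _ _ ih i => Nat.rec (motive := fun _ => ℕ) a (fun k _ => ih k) i) t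

/-- The length, by recursors. -/
noncomputable def tbN (t : TB) : ℕ :=
  TB.rec (motive := fun _ => ℕ) (nat_lit 0) (fun _ _ _ _ _ _ ih => Nat.succ ih) t

/-- The table checker (recursors and kernel `Nat` operations only). -/
noncomputable def tbChk (t : TB) : Bool :=
  TB.rec (motive := fun _ => Bool) true
    (fun a b lo hi sub r ih => and (Nat.beq b (tbG r (nat_lit 0)))
      (and (Nat.ble (Nat.succ a) b) (and (tbCell a b lo hi (nat_lit 0))
        (and (tbSub sub a b) ih)))) t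

/-- All lower bounds of the small cells are positive. -/
def SBpos : SB → Prop
  | .nil => True
  | .cons _ _ lo _ _ r => 0 < lo ∧ SBpos r

/-- All lower bounds of the table are positive. -/
def TBpos : TB → Prop
  | .nil => True
  | .cons _ _ lo _ sub r => 0 < lo ∧ SBpos sub ∧ TBpos r

theorem tb_re (x : ℝ) (n : ℕ) :
    (∑ m ∈ Finset.range (2 * n), ((x : ℂ) * Complex.I) ^ m / (m.factorial : ℂ)).re =
      ∑ k ∈ Finset.range n, (-1 : ℝ) ^ k * x ^ (2 * k) / ((2 * k).factorial : ℝ) := by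
  induction n with
  | zero => simp
  | succ n ih =>
    have h2 : 2 * (n + 1) = 2 * n + 1 + 1 := by ring
    have hp : ((x : ℂ) * Complex.I) ^ (2 * n) = (((-1 : ℝ) ^ n * x ^ (2 * n) : ℝ) : ℂ) := by
      rw [mul_pow, pow_mul Complex.I, Complex.I_sq]; push_cast; ring
    have e1 : (((x : ℂ) * Complex.I) ^ (2 * n) / ((2 * n).factorial : ℂ)).re =
        (-1 : ℝ) ^ n * x ^ (2 * n) / ((2 * n).factorial : ℝ) := by
      rw [hp, ← Complex.ofReal_natCast, ← Complex.ofReal_div, Complex.ofReal_re]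
    have e2 : (((x : ℂ) * Complex.I) ^ (2 * n + 1) / ((2 * n + 1).factorial : ℂ)).re = 0 := by
      have : ((x : ℂ) * Complex.I) ^ (2 * n + 1) / ((2 * n + 1).factorial : ℂ) =
          (((-1 : ℝ) ^ n * x ^ (2 * n) * x / ((2 * n + 1).factorial : ℝ) : ℝ) : ℂ) *
            Complex.I := by
        rw [pow_succ, hp]; push_cast; ring
      rw [this, Complex.re_ofReal_mul, Complex.I_re, mul_zero]
    rw [h2, Finset.sum_range_succ, Finset.sum_range_succ, Complex.add_re, Complex.add_re, ih,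
      e1, e2, Finset.sum_range_succ, add_zero]

theorem tb_taylor {x : ℝ} (h0 : 0 ≤ x) (h1 : x ≤ 63 / 20) :
    |cos x - ∑ k ∈ Finset.range 13, (-1 : ℝ) ^ k * x ^ (2 * k) / ((2 * k).factorial : ℝ)| ≤
      5 / 10 ^ 14 := by
  have hn : ‖(x : ℂ) * Complex.I‖ = x := by
    rw [norm_mul, Complex.norm_I, mul_one, Complex.norm_real, Real.norm_eq_abs, abs_of_nonneg h0]
  have hb := Complex.exp_bound' (x := (x : ℂ) * Complex.I) (n := 2 * 13)
    (by rw [hn]; push_cast; linarith)
  have hr := (Complex.abs_re_le_norm _).trans hb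
  rw [Complex.sub_re, Complex.exp_ofReal_mul_I_re, tb_re, hn] at hr
  refine hr.trans ?_
  have hx : x ^ (2 * 13) ≤ (63 / 20) ^ (2 * 13) := pow_le_pow_left₀ h0 h1 _
  have hf : (((2 * 13).factorial : ℕ) : ℝ) = 403291461126605635584000000 := by
    norm_num [Nat.factorial]
  rw [hf]
  have : ((63 : ℝ) / 20) ^ (2 * 13) ≤ 10 ^ 13 := by norm_num
  have h3 : x ^ (2 * 13) ≤ 10 ^ 13 := hx.trans this
  have h4 : x ^ (2 * 13) / 403291461126605635584000000 ≤ 10 ^ 13 / 403291461126605635584000000 :=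
    div_le_div_of_nonneg_right h3 (by norm_num)
  have h5 : (10 : ℝ) ^ 13 / 403291461126605635584000000 * 2 ≤ 5 / 10 ^ 14 := by norm_num
  linarith

theorem tb_sum (q D : ℕ) (hD : 0 < D) :
    (∑ k ∈ Finset.range 13, (-1 : ℝ) ^ k * ((q : ℝ) / D) ^ (2 * k) / ((2 * k).factorial : ℝ)) *
      (tbS D : ℝ) = (tbE q D : ℝ) - tbO q D := by
  have hD' : (D : ℝ) ≠ 0 := by positivity
  simp only [tbE, tbO, tbS, Nat.add_eq, Nat.mul_eq, Nat.pow_eq, Finset.sum_range_succ,
    Finset.sum_range_zero]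
  norm_num [Nat.factorial]
  field_simp
  ring

theorem tb_cos {n : ℕ} (hn : (n : ℝ) ≤ 2 ^ 40) :
    |cos (π * (n / 2 ^ 40)) * (tbS tbD : ℝ) - ((tbE (tbQ n) tbD : ℝ) - tbO (tbQ n) tbD)| ≤
      1 / 10 ^ 13 * (tbS tbD : ℝ) := by
  have hD : 0 < tbD := by decide
  have hq : ((tbQ n : ℕ) : ℝ) / tbD = 3.14159265358979323846 * (n / 2 ^ 40) := by
    simp only [tbQ, tbD, Nat.mul_eq]
    push_cast
    ring
  have hu0 : (0 : ℝ) ≤ n / 2 ^ 40 := by positivity
  have hu1 : (n : ℝ) / 2 ^ 40 ≤ 1 := by rw [div_le_one (by positivity)]; exact hn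
  have ht := tb_taylor (x := ((tbQ n : ℕ) : ℝ) / tbD) (by positivity) (by rw [hq]; nlinarith)
  have hc : |cos (π * (n / 2 ^ 40)) - cos (((tbQ n : ℕ) : ℝ) / tbD)| ≤ 5 / 10 ^ 14 := by
    refine (abs_cos_sub_cos_le _ _).trans ?_
    rw [hq, abs_le]
    have := pi_gt_d20
    have := pi_lt_d20
    constructor <;> nlinarith
  rw [← tb_sum _ _ hD, ← sub_mul, abs_mul, abs_of_nonneg (Nat.cast_nonneg (α := ℝ) (tbS tbD))]
  refine mul_le_mul_of_nonneg_right ?_ (Nat.cast_nonneg _)
  rw [abs_le] at *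
  constructor <;> linarith [ht.1, ht.2, hc.1, hc.2]

theorem tbS_pos : (0 : ℝ) < tbS tbD := by
  have : 0 < tbS tbD := by
    simp only [tbS, Nat.mul_eq, Nat.pow_eq]
    exact Nat.mul_pos (by decide) (Nat.pow_pos (by decide))
  exact_mod_cast this

theorem tb_anti {u v : ℝ} (h0 : 0 ≤ u) (h : u ≤ v) (h1 : v ≤ 1) : cos (π * v) ≤ cos (π * u) := by
  have := pi_pos
  exact cos_le_cos_of_nonneg_of_le_pi (by positivity) (by nlinarith) (by nlinarith)

theorem tbLo_sound {b lo : ℕ} (h : tbLo b lo = true) (hb : (b : ℝ) ≤ 2 ^ 40) {u : ℝ}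
    (h0 : 0 ≤ u) (hu : u * 2 ^ 40 ≤ b) : (lo : ℝ) ≤ (1 + cos (π * u) / 2) * 2 ^ 48 := by
  unfold tbLo at h
  cases hc : Nat.ble lo (nat_lit 140737488355328) with
  | true =>
    have h1 : (lo : ℝ) ≤ 140737488355328 := by exact_mod_cast Nat.le_of_ble_eq_true hc
    have := neg_one_le_cos (π * u)
    linarith
  | false =>
    rw [hc, cond_false] at h
    have h1 := Nat.le_of_ble_eq_true h
    simp only [Nat.add_eq, Nat.mul_eq] at h1
    have h2 : ((lo : ℝ) + 15) * tbS tbD + tbO (tbQ b) tbD * 140737488355328 ≤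
        281474976710656 * tbS tbD + tbE (tbQ b) tbD * 140737488355328 := by exact_mod_cast h1
    have h3 := (abs_le.1 (tb_cos hb)).1
    have h4 : cos (π * (b / 2 ^ 40)) ≤ cos (π * u) :=
      tb_anti h0 (by rw [le_div_iff₀ (by positivity)]; exact hu)
        (by rw [div_le_one (by positivity)]; exact hb)
    have hS := tbS_pos
    have h5 : (lo : ℝ) * tbS tbD ≤ ((1 + cos (π * (b / 2 ^ 40)) / 2) * 2 ^ 48) * tbS tbD := by
      nlinarith
    have h6 := le_of_mul_le_mul_right h5 hS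
    linarith

theorem tbHi_sound {a hi : ℕ} (h : tbHi a hi = true) {u : ℝ}
    (h0 : (a : ℝ) ≤ u * 2 ^ 40) (hu : u ≤ 1) : (1 + cos (π * u) / 2) * 2 ^ 48 ≤ hi := by
  unfold tbHi at h
  cases hc : Nat.ble (nat_lit 422212465065984) hi with
  | true =>
    have h1 : (422212465065984 : ℝ) ≤ hi := by exact_mod_cast Nat.le_of_ble_eq_true hc
    have := cos_le_one (π * u)
    linarith
  | false =>
    rw [hc, cond_false] at h
    have h1 := Nat.le_of_ble_eq_true h
    simp only [Nat.add_eq, Nat.mul_eq] at h1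
    have h2 : (281474976710671 : ℝ) * tbS tbD + tbE (tbQ a) tbD * 140737488355328 ≤
        hi * tbS tbD + tbO (tbQ a) tbD * 140737488355328 := by exact_mod_cast h1
    have ha : (a : ℝ) ≤ 2 ^ 40 := by linarith
    have h3 := (abs_le.1 (tb_cos ha)).2
    have h4 : cos (π * u) ≤ cos (π * (a / 2 ^ 40)) :=
      tb_anti (by positivity) (by rw [div_le_iff₀ (by positivity)]; exact h0) hu
    have hS := tbS_pos
    have h5 : ((1 + cos (π * (a / 2 ^ 40)) / 2) * 2 ^ 48) * tbS tbD ≤ (hi : ℝ) * tbS tbD := by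
      nlinarith
    have h6 := le_of_mul_le_mul_right h5 hS
    linarith

theorem tbA_sq (x : ℕ) : ((tbA x : ℕ) : ℝ) * tbA x = ((x : ℝ) - 281474976710656) ^ 2 := by
  simp only [tbA, Nat.add_eq, Nat.sub_eq]
  rcases le_total x 281474976710656 with h | h
  · rw [Nat.sub_eq_zero_of_le h, zero_add, Nat.cast_sub h]; push_cast; ring
  · rw [Nat.sub_eq_zero_of_le h, add_zero, Nat.cast_sub h]; push_cast; ring

theorem tbS1_sound {x s : ℕ} (h : tbS1 x s = true) :
    (s : ℝ) * s * 100000000000000 + 986960406437476 * ((x : ℝ) - 281474976710656) ^ 2 ≤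
      19548764869093182761683876388883907408297984 := by
  have h1 := Nat.le_of_ble_eq_true h
  simp only [Nat.add_eq, Nat.mul_eq] at h1
  rw [← tbA_sq]
  exact_mod_cast h1

theorem tbSl_sound {lo hi s : ℕ} (h : tbSl lo hi s = true) {u : ℝ} (h0 : 0 ≤ u) (h1 : u ≤ 1)
    (hl : (lo : ℝ) ≤ (1 + cos (π * u) / 2) * 2 ^ 48)
    (hh : (1 + cos (π * u) / 2) * 2 ^ 48 ≤ hi) : (s : ℝ) ≤ π / 2 * sin (π * u) * 2 ^ 48 := by
  have hpi := pi_gt_d20
  have hs : 0 ≤ sin (π * u) :=
    sin_nonneg_of_nonneg_of_le_pi (by positivity) (by nlinarith)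
  unfold tbSl at h
  cases hc : Nat.beq s (nat_lit 0) with
  | true =>
    have : s = 0 := Nat.eq_of_beq_eq_true hc
    rw [this, Nat.cast_zero]
    positivity
  | false =>
    rw [hc, cond_false, Bool.and_eq_true] at h
    have a1 := tbS1_sound h.1
    have a2 := tbS1_sound h.2
    have hw : ∃ w : ℝ, w = (1 + cos (π * u) / 2) * 2 ^ 48 - 281474976710656 := ⟨_, rfl⟩
    obtain ⟨w, hw⟩ := hw
    have a3 : (s : ℝ) * s * 100000000000000 + 986960406437476 * w ^ 2 ≤
        19548764869093182761683876388883907408297984 := by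
      rcases le_total 0 w with g | g
      · have : w ^ 2 ≤ ((hi : ℝ) - 281474976710656) ^ 2 := pow_le_pow_left₀ g (by linarith) 2
        linarith
      · have : (-w) ^ 2 ≤ (-((lo : ℝ) - 281474976710656)) ^ 2 :=
          pow_le_pow_left₀ (by linarith) (by linarith) 2
        rw [neg_sq, neg_sq] at this
        linarith
    have hw2 : w = cos (π * u) * 140737488355328 := by rw [hw]; ring
    have hsc := sin_sq_add_cos_sq (π * u)
    have a4 : (s : ℝ) ^ 2 ≤ (15707963 / 10000000 * sin (π * u) * 2 ^ 48) ^ 2 := by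
      rw [hw2] at a3
      nlinarith
    have a5 : (s : ℝ) ≤ 15707963 / 10000000 * sin (π * u) * 2 ^ 48 :=
      le_of_sq_le_sq a4 (by positivity)
    have a6 : 15707963 / 10000000 * sin (π * u) ≤ π / 2 * sin (π * u) :=
      mul_le_mul_of_nonneg_right (by linarith) hs
    linarith

theorem tbCell_sound {a b lo hi s : ℕ} (h : tbCell a b lo hi s = true) :
    b ≤ 2 ^ 40 ∧ 0 < lo ∧ CellOK a b lo hi s ∧
      ∀ u : ℝ, (a : ℝ) ≤ u * 2 ^ 40 → u ≤ 1 → (1 + cos (π * u) / 2) * 2 ^ 48 ≤ hi := by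
  simp only [tbCell, Bool.and_eq_true] at h
  obtain ⟨h1, h2, h3, h4, h5⟩ := h
  have hb : b ≤ 2 ^ 40 := Nat.le_of_ble_eq_true h1
  have hb' : (b : ℝ) ≤ 2 ^ 40 := by exact_mod_cast hb
  refine ⟨hb, Nat.le_of_ble_eq_true h2, fun u ha hu => ?_, fun u ha hu => tbHi_sound h4 ha hu⟩
  have h0 : 0 ≤ u := by
    have : (0 : ℝ) ≤ a := Nat.cast_nonneg a
    linarith
  have hu1 : u ≤ 1 := by linarith
  have hl := tbLo_sound h3 hb' h0 hu
  have hh := tbHi_sound h4 ha hu1
  exact ⟨hl, hh, tbSl_sound h5 h0 hu1 hl hh⟩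

theorem tbSub_sound (x : SB) : ∀ p e, tbSub x p e = true → SBok x p e ∧ SBpos x := by
  induction x with
  | nil => exact fun p e h => ⟨Nat.eq_of_beq_eq_true h, trivial⟩
  | cons a b lo hi s r ih =>
    intro p e h
    have h' : (and (Nat.beq a p) (and (tbCell a b lo hi s) (tbSub r b e))) = true := h
    simp only [Bool.and_eq_true] at h'
    obtain ⟨h1, h2, h3⟩ := h'
    have hc := tbCell_sound h2
    exact ⟨⟨Nat.eq_of_beq_eq_true h1, hc.1, hc.2.2.1, (ih b e h3).1⟩, hc.2.1, (ih b e h3).2⟩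

theorem tbG_eq (t : TB) : ∀ i, tbG t i = gA t i := by
  induction t with
  | nil =>
    intro i
    have h1 : gA TB.nil i = 2 ^ 40 := by rw [gA]
    have h2 : tbG TB.nil i = 1099511627776 := rfl
    rw [h1, h2]
    norm_num
  | cons a b lo hi sub r ih =>
    intro i
    cases i with
    | zero =>
      rw [gA]
      rfl
    | succ k =>
      rw [gA]
      exact ih k

theorem tbN_eq (t : TB) : tbN t = tlen t := by
  induction t with
  | nil => rfl
  | cons a b lo hi sub r ih => exact congrArg Nat.succ ih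

theorem tbChk_both (t : TB) : tbChk t = true → TBok t ∧ TBpos t := by
  induction t with
  | nil => exact fun _ => ⟨trivial, trivial⟩
  | cons a b lo hi sub r ih =>
    intro h
    have h' : (and (Nat.beq b (tbG r (nat_lit 0)))
      (and (Nat.ble (Nat.succ a) b) (and (tbCell a b lo hi (nat_lit 0))
        (and (tbSub sub a b) (tbChk r))))) = true := h
    simp only [Bool.and_eq_true] at h'
    obtain ⟨h1, h2, h3, h4, h5⟩ := h'
    have hc := tbCell_sound h3
    have hs := tbSub_sound sub a b h4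
    exact ⟨⟨(Nat.eq_of_beq_eq_true h1).trans (tbG_eq r 0), Nat.le_of_ble_eq_true h2, hc.2.2.1,
      hc.2.2.2, hs.1, (ih h5).1⟩, hc.2.1, hs.2, (ih h5).2⟩

theorem tbChk_sound {t : TB} (h : tbChk t = true) : TBok t :=
  (tbChk_both t h).1

theorem tbChk_pos {t : TB} (h : tbChk t = true) : TBpos t :=
  (tbChk_both t h).2

theorem gA_mono {t : TB} (h : TBok t) : Monotone (gA t) := by
  induction t with
  | nil => exact fun _ _ _ => le_rfl
  | cons a b lo hi sub r ih =>
    refine monotone_nat_of_le_succ fun i => ?_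
    cases i with
    | zero =>
      show a ≤ gA r 0
      rw [← h.1]
      exact h.2.1.le
    | succ k => exact ih h.2.2.2.2.2 (Nat.le_succ k)

theorem gA_tlen (t : TB) {i : ℕ} (hi : tlen t ≤ i) : gA t i = 2 ^ 40 := by
  induction t generalizing i with
  | nil => rfl
  | cons a b lo hi' sub r ih =>
    cases i with
    | zero => exact absurd hi (Nat.not_succ_le_zero _)
    | succ k => exact ih (Nat.le_of_succ_le_succ hi)

/-- The loop of the symmetry checker. -/
noncomputable def tbSym (t : TB) (n m : ℕ) : Bool :=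
  Nat.rec (motive := fun _ => Bool) true
    (fun j ih => and (Nat.beq (Nat.add (tbG t j) (tbG t (Nat.sub n j))) (nat_lit 1099511627776)) ih)
    m

theorem tbSym_sound (t : TB) (n m : ℕ) :
    tbSym t n m = true → ∀ j, j < m → gA t j + gA t (n - j) = 2 ^ 40 := by
  induction m with
  | zero => exact fun _ j hj => absurd hj (Nat.not_lt_zero _)
  | succ m ih =>
    intro h j hj
    have h' : (and (Nat.beq (Nat.add (tbG t m) (tbG t (Nat.sub n m))) (nat_lit 1099511627776))
      (tbSym t n m)) = true := h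
    rw [Bool.and_eq_true] at h'
    rcases Nat.lt_succ_iff_lt_or_eq.1 hj with g | g
    · exact ih h'.2 j g
    · have := Nat.eq_of_beq_eq_true h'.1
      rw [tbG_eq, tbG_eq] at this
      rw [g]
      exact this

/-- Symmetry checker. -/
noncomputable def symChk (t : TB) : Bool :=
  and (Nat.beq (tbG t (nat_lit 0)) (nat_lit 0)) (tbSym t (tbN t) (Nat.succ (tbN t)))

theorem symChk_sound {t : TB} (h : symChk t = true) :
    gA t 0 = 0 ∧ ∀ j, j ≤ tlen t → gA t j + gA t (tlen t - j) = 2 ^ 40 := by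
  unfold symChk at h
  rw [Bool.and_eq_true, tbN_eq] at h
  exact ⟨(tbG_eq t 0).symm.trans (Nat.eq_of_beq_eq_true h.1),
    fun j hj => tbSym_sound t _ _ h.2 j (Nat.lt_succ_of_le hj)⟩

end Pool.Agent.Lib.MP_2dc536_an.X
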