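import Pool.Agent.Lib.MP_2dc536_an.X.Sk
import Pool.Agent.Lib.MP_2dc536_an.X.Tab
import Pool.Agent.Lib.MP_2dc536_an.X.Spec

/-!
The table and the search tree pass their checks.
-/

namespace Pool.Agent.Lib.MP_2dc536_an.X

theorem ft_chk : tbChk tb0 = true := by decide +kernel

theorem ft_sym : symChk tb0 = true := by decide +kernel

theorem ft_pos : tbP tb0 = true := by decide +kernel

theorem ft_len : tbN tb0 = 168 := by decide +kernel

theorem tab_ok : TabOK tb0 167 :=
  ⟨tbChk_sound ft_chk, ft_pos, (tbN_eq tb0).symm.trans ft_len, (symChk_sound ft_sym).1,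
    (symChk_sound ft_sym).2⟩

theorem sk_B : skB tb0 skA 0 = true := by decide +kernel

theorem sk_L : skL skA = 0 := by decide +kernel

theorem sk_T : skT tb0 skA := by
  unfold skA
  repeat' constructor

end Pool.Agent.Lib.MP_2dc536_an.X
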