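import Pool.Agent.Lib.MP_2dc536_an.X.Defs

/-!
The transfer inequality, and two averages of the multiplier.
-/

namespace Pool.Agent.Lib.MP_2dc536_an.X

open Real Set MeasureTheory

lemma sum_lintegral_le (μ : Measure ℝ) (G : ℕ → ℝ → ENNReal) (S : Finset ℕ) :
    ∑ n ∈ S, ∫⁻ y, G n y ∂μ ≤ ∫⁻ y, ∑ n ∈ S, G n y ∂μ := by
  classical
  induction S using Finset.induction_on with
  | empty => simp
  | insert a S ha ih =>
    simp only [Finset.sum_insert ha]
    exact (add_le_add le_rfl ih).trans (le_lintegral_add _ _)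

lemma piece_eq (H : ℝ → ℝ) {U : Set ℝ} (hU : MeasurableSet U) (hinj : InjOn ff U)
    (hd : ∀ x ∈ U, ff' x ≠ 0) :
    ∫⁻ x in U ∩ EE, ENNReal.ofReal (H x) = ∫⁻ y in EE, (ff '' (U ∩ EE)).indicator
      (fun y => ENNReal.ofReal (H (Function.invFunOn ff U y) /
        |ff' (Function.invFunOn ff U y)|)) y := by
  have hV : MeasurableSet (U ∩ EE) := hU.inter measurableSet_EE
  have hi : InjOn ff (U ∩ EE) := hinj.mono inter_subset_left
  have hW : MeasurableSet (ff '' (U ∩ EE)) :=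
    hV.image_of_continuousOn_injOn continuous_ff.continuousOn hi
  have hs : ff '' (U ∩ EE) ⊆ EE := by
    rintro _ ⟨x, hx, rfl⟩
    exact EE_map hx.2
  rw [lintegral_indicator hW, Measure.restrict_restrict hW, inter_eq_left.2 hs,
    lintegral_image_eq_lintegral_abs_deriv_mul hV
      (fun x _ => (hasDerivAt_ff x).hasDerivWithinAt) hi]
  refine setLIntegral_congr_fun hV (fun x hx => ?_)
  have h1 : Function.invFunOn ff U (ff x) = x := hinj.leftInvOn_invFunOn hx.1
  have h2 : |ff' x| ≠ 0 := abs_ne_zero.2 (hd x hx.1)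
  simp only [h1]
  rw [← ENNReal.ofReal_mul (abs_nonneg _), mul_div_cancel₀ _ h2]

theorem frame (H src b : ℝ → ℝ) (U : ℕ → Set ℝ) (hUm : ∀ n, MeasurableSet (U n))
    (hUs : ∀ n, U n ⊆ Ico (n : ℝ) (n + 1)) (hinj : ∀ n, InjOn ff (U n))
    (hd : ∀ n, ∀ x ∈ U n, ff' x ≠ 0) (hH0 : ∀ x, 0 ≤ H x) (hH : ∀ x, H x ≠ 0 → ∃ n, x ∈ U n)
    (hfin : ∫⁻ x, ENNReal.ofReal (H x) ≠ ⊤) (hsrc : Measurable src) (hsrc0 : ∀ y, 0 ≤ src y)
    (hb : Measurable b) (hb0 : ∀ y, 0 ≤ b y)
    (key : ∀ y ∈ EE, (∀ m : ℕ, y ≠ m) → ∀ (S : Finset ℕ) (x : ℕ → ℝ),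
      (∀ n ∈ S, x n ∈ U n ∧ ff (x n) = y) →
        ∑ n ∈ S, H (x n) / |ff' (x n)| + src y ≤ H y + b y) :
    ∫⁻ y in EE, ENNReal.ofReal (src y) ≤ ∫⁻ y in EE, ENNReal.ofReal (b y) := by
  classical
  have hI : ∫⁻ x in EE, ENNReal.ofReal (H x) ≠ ⊤ :=
    ne_top_of_le_ne_top hfin (setLIntegral_le_lintegral _ _)
  have hUU : MeasurableSet (⋃ n, U n) := MeasurableSet.iUnion hUm
  have h1 : ∫⁻ x in EE, ENNReal.ofReal (H x) ≤ ∑' n, ∫⁻ x in U n ∩ EE, ENNReal.ofReal (H x) := by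
    have e : (fun x => ENNReal.ofReal (H x)) =
        (⋃ n, U n).indicator (fun x => ENNReal.ofReal (H x)) := by
      funext x
      by_cases h : x ∈ ⋃ n, U n
      · rw [indicator_of_mem h]
      · rw [indicator_of_notMem h]
        by_contra h2
        refine h (mem_iUnion.2 (hH x fun h3 => h2 ?_))
        rw [h3, ENNReal.ofReal_zero]
    calc ∫⁻ x in EE, ENNReal.ofReal (H x)
        = ∫⁻ x in EE, (⋃ n, U n).indicator (fun x => ENNReal.ofReal (H x)) x := by rw [← e]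
      _ = ∫⁻ x in ⋃ n, U n ∩ EE, ENNReal.ofReal (H x) := by
          rw [lintegral_indicator hUU, Measure.restrict_restrict hUU, iUnion_inter]
      _ ≤ _ := lintegral_iUnion_le _ _
  have hN : ∀ᵐ y : ℝ, y ∉ range (Nat.cast : ℕ → ℝ) :=
    (countable_range _).ae_notMem volume
  have h2 : ∀ S : Finset ℕ, (∑ n ∈ S, ∫⁻ x in U n ∩ EE, ENNReal.ofReal (H x)) +
      ∫⁻ y in EE, ENNReal.ofReal (src y) ≤
      (∫⁻ x in EE, ENNReal.ofReal (H x)) + ∫⁻ y in EE, ENNReal.ofReal (b y) := by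
    intro S
    rw [Finset.sum_congr rfl (fun n _ => piece_eq H (hUm n) (hinj n) (hd n)),
      ← lintegral_add_right _ hb.ennreal_ofReal]
    refine (add_le_add (sum_lintegral_le _ _ S) le_rfl).trans
      ((le_lintegral_add _ _).trans ?_)
    refine setLIntegral_mono_ae' measurableSet_EE ?_
    filter_upwards [hN] with y hy hE
    have h3 := key y hE (fun m h => hy ⟨m, h.symm⟩) (S.filter fun n => y ∈ ff '' (U n ∩ EE))
      (fun n => Function.invFunOn ff (U n) y) (fun n hn => by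
        obtain ⟨x, hx, rfl⟩ := (Finset.mem_filter.1 hn).2
        rw [(hinj n).leftInvOn_invFunOn hx.1]
        exact ⟨hx.1, rfl⟩)
    have h4 : ∀ n, 0 ≤ H (Function.invFunOn ff (U n) y) / |ff' (Function.invFunOn ff (U n) y)| :=
      fun n => div_nonneg (hH0 _) (abs_nonneg _)
    simp only [indicator_apply]
    rw [← Finset.sum_filter, ← ENNReal.ofReal_sum_of_nonneg (fun n _ => h4 n),
      ← ENNReal.ofReal_add (Finset.sum_nonneg fun n _ => h4 n) (hsrc0 y),
      ← ENNReal.ofReal_add (hH0 y) (hb0 y)]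
    exact ENNReal.ofReal_le_ofReal h3
  refine (ENNReal.add_le_add_iff_left hI).1 ((add_le_add h1 le_rfl).trans ?_)
  rw [ENNReal.tsum_eq_iSup_sum, ENNReal.iSup_add]
  exact iSup_le h2

lemma cos_pow_step (k : ℕ) : ∫ t in (0 : ℝ)..2, cos (π * t) ^ (k + 2) =
    (k + 1) / (k + 2) * ∫ t in (0 : ℝ)..2, cos (π * t) ^ k := by
  rw [intervalIntegral.integral_comp_mul_left (fun x => cos x ^ (k + 2)) pi_ne_zero,
    intervalIntegral.integral_comp_mul_left (fun x => cos x ^ k) pi_ne_zero, integral_cos_pow,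
    mul_zero, mul_comm π 2, sin_two_pi, sin_zero]
  simp only [smul_eq_mul]
  ring

lemma cos_pow_one : ∫ t in (0 : ℝ)..2, cos (π * t) ^ 1 = 0 := by
  rw [intervalIntegral.integral_comp_mul_left (fun x => cos x ^ 1) pi_ne_zero, mul_zero,
    mul_comm π 2]
  simp

lemma integral_poly (a0 a1 a2 a3 a4 a5 : ℝ) :
    ∫ t in (0 : ℝ)..2, (a0 * cos (π * t) ^ 0 + a1 * cos (π * t) ^ 1 + a2 * cos (π * t) ^ 2 +
      a3 * cos (π * t) ^ 3 + a4 * cos (π * t) ^ 4 + a5 * cos (π * t) ^ 5) =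
      2 * a0 + a2 + 3 / 4 * a4 := by
  have h0 : ∫ t in (0 : ℝ)..2, cos (π * t) ^ 0 = 2 := by simp
  have h1 := cos_pow_one
  have h2 := cos_pow_step 0
  have h3 := cos_pow_step 1
  have h4 := cos_pow_step 2
  have h5 := cos_pow_step 3
  rw [h0] at h2
  rw [h1] at h3
  rw [h2] at h4
  rw [h3] at h5
  rw [intervalIntegral.integral_add, intervalIntegral.integral_add, intervalIntegral.integral_add,
    intervalIntegral.integral_add, intervalIntegral.integral_add]
  · simp only [intervalIntegral.integral_const_mul]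
    rw [h0, h1, h2, h3, h4, h5]
    push_cast
    ring
  all_goals exact Continuous.intervalIntegrable (by fun_prop) _ _

theorem avg_sqrt : ∫ t in (0 : ℝ)..2, √(mm t) ≤ 2 * (63 / 64) := by
  have h := integral_poly 1 (-1 / 4) (-1 / 32) (-1 / 128) 0 0
  refine le_trans (intervalIntegral.integral_mono_on (by norm_num)
    (continuous_mm.sqrt.intervalIntegrable _ _)
    (Continuous.intervalIntegrable (by fun_prop) _ _) (fun t _ => ?_)) (h.le.trans (by norm_num))
  unfold mm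
  have h1 := cos_le_one (π * t)
  have h2 := neg_one_le_cos (π * t)
  generalize cos (π * t) = c at h1 h2 ⊢
  have h3 : c ^ 2 ≤ 1 := by nlinarith
  have h4 : c ^ 3 ≤ 1 := by nlinarith
  refine sqrt_le_iff.2 ⟨by nlinarith, ?_⟩
  have h5 : 0 ≤ c ^ 4 * (5 / 1024 + c / 2048 + c ^ 2 / 16384) :=
    mul_nonneg (by positivity) (by nlinarith [sq_nonneg c])
  nlinarith

lemma log_le_five {x : ℝ} (hx : -1 < x) :
    log (1 + x) ≤ x - x ^ 2 / 2 + x ^ 3 / 3 - x ^ 4 / 4 + x ^ 5 / 5 := by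
  have hd : ∀ y : ℝ, -1 < y → HasDerivAt
      (fun y : ℝ => y - y ^ 2 / 2 + y ^ 3 / 3 - y ^ 4 / 4 + y ^ 5 / 5 - log (1 + y))
      (y ^ 5 / (1 + y)) y := by
    intro y hy
    have h0 : 1 + y ≠ 0 := by linarith
    have h1 := (((((hasDerivAt_id' y).sub ((hasDerivAt_pow 2 y).div_const 2)).add
      ((hasDerivAt_pow 3 y).div_const 3)).sub ((hasDerivAt_pow 4 y).div_const 4)).add
      ((hasDerivAt_pow 5 y).div_const 5)).sub (((hasDerivAt_id' y).const_add 1).log h0)
    refine h1.congr_deriv ?_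
    push_cast
    field_simp
    ring
  rcases lt_trichotomy x 0 with h | rfl | h
  · obtain ⟨c, hc, h1⟩ := exists_hasDerivAt_eq_slope _ _ h
      (fun y hy => (hd y (hx.trans_le hy.1)).continuousAt.continuousWithinAt)
      (fun y hy => hd y (hx.trans hy.1))
    have h2 : c ^ 5 / (1 + c) ≤ 0 :=
      div_nonpos_of_nonpos_of_nonneg (Odd.pow_nonpos (by decide) hc.2.le) (by linarith [hc.1])
    rw [h1, div_nonpos_iff] at h2
    rcases h2 with h2 | h2
    · linarith [h2.2]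
    · have h3 := h2.1
      norm_num at h3
      linarith
  · simp
  · obtain ⟨c, hc, h1⟩ := exists_hasDerivAt_eq_slope _ _ h
      (fun y hy => (hd y (by linarith [hy.1])).continuousAt.continuousWithinAt)
      (fun y hy => hd y (by linarith [hy.1]))
    have h2 : 0 ≤ c ^ 5 / (1 + c) := div_nonneg (pow_nonneg hc.1.le _) (by linarith [hc.1])
    rw [h1, div_nonneg_iff] at h2
    rcases h2 with h2 | h2
    · have h3 := h2.1
      norm_num at h3
      linarith
    · linarith [h2.2]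

theorem avg_log : ∫ t in (0 : ℝ)..2, log (mm t) ≤ -(2 * (683 / 10000)) := by
  have h := integral_poly 0 (-1 / 2) (-1 / 8) (-1 / 24) (-1 / 64) (-1 / 160)
  refine le_trans (intervalIntegral.integral_mono_on (by norm_num)
    ((continuous_mm.log fun s => (mm_pos s).ne').intervalIntegrable _ _)
    (Continuous.intervalIntegrable (by fun_prop) _ _) (fun t _ => ?_)) (h.le.trans (by norm_num))
  have h1 := log_le_five (x := -(cos (π * t) / 2)) (by linarith [cos_le_one (π * t)])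
  rw [← sub_eq_add_neg] at h1
  unfold mm
  refine h1.trans (le_of_eq ?_)
  ring

end Pool.Agent.Lib.MP_2dc536_an.X
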