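import Pool.Agent.Lib.MP_2dc536_an.X.Mid
import Pool.Agent.Lib.MP_2dc536_an.X.End

/-!
The sum over all laps at large height.
-/

namespace Pool.Agent.Lib.MP_2dc536_an.X

open Real Set MeasureTheory

lemma TT_zero (w : ℝ) : TT w 0 = 2 * w - 1 / 2 := by
  simp only [TT, mm, mul_zero, cos_zero]; ring

lemma TT_one (w : ℝ) : TT w 1 = 2 * w / 3 - 3 / 2 := by
  simp only [TT, mm, mul_one, cos_pi]; ring

lemma TT_two (w : ℝ) : TT w 2 = 2 * w - 5 / 2 := by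
  have : cos (π * 2) = 1 := by rw [mul_comm]; exact cos_two_pi
  simp only [TT, mm, this]; ring

lemma div_mm_eq (w s : ℝ) : w / mm s = TT w s + s + 1 / 2 := by unfold TT; ring

lemma div_mm_ge {w : ℝ} (hw : 0 ≤ w) (s : ℝ) : 2 * w / 3 ≤ w / mm s := by
  rw [le_div_iff₀ (mm_pos s)]; nlinarith [mm_le s]

lemma div_mm_le {w : ℝ} (hw : 0 ≤ w) (s : ℝ) : w / mm s ≤ 2 * w := by
  rw [div_le_iff₀ (mm_pos s)]; nlinarith [mm_ge s]

lemma sum_one_le (S : Finset ℕ) (g : ℕ → ℝ) (p : ℕ → Prop) [DecidablePred p] {C : ℝ}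
    (hC : 0 ≤ C) (h1 : ∀ n ∈ S, p n → g n ≤ C)
    (h2 : ∀ n ∈ S, ∀ n' ∈ S, p n → p n' → n = n') : ∑ n ∈ S.filter p, g n ≤ C := by
  rcases (S.filter p).eq_empty_or_nonempty with h | ⟨a, ha⟩
  · rw [h]; simpa using hC
  · have ha' := Finset.mem_filter.1 ha
    have : S.filter p = {a} := Finset.eq_singleton_iff_unique_mem.2 ⟨ha, fun b hb =>
      h2 b (Finset.mem_filter.1 hb).1 a ha'.1 (Finset.mem_filter.1 hb).2 ha'.2⟩
    rw [this, Finset.sum_singleton]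
    exact h1 a ha'.1 ha'.2

lemma arc_sum {w e1 e2 h A B Cu Cl : ℝ} (hw : 100 ≤ w) (hh : 0 < h) (he : e1 ≤ e2)
    (hne : ∀ s ∈ Icc e1 e2, DT w s ≠ 0) (S : Finset ℕ) (θ φ : ℕ → ℝ)
    (hθ : ∀ n ∈ S, θ n ∈ Icc e1 e2)
    (hsep : ∀ n ∈ S, ∀ n' ∈ S, n ≠ n' → 2 * h ≤ |TT w (θ n) - TT w (θ n')|)
    (hA : ∀ n ∈ S, A - h ≤ TT w (θ n) ∧ TT w (θ n) ≤ B + h)
    (hA1 : min (TT w e1) (TT w e2) ≤ A) (hB1 : B ≤ max (TT w e1) (TT w e2))
    (G : ℝ → ℝ) (hG : ContinuousOn G (Icc e1 e2)) (hG0 : ∀ s ∈ Icc e1 e2, 0 ≤ G s)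
    (hφ0 : ∀ n ∈ S, 0 ≤ φ n)
    (hφ : ∀ n ∈ S, ∀ s ∈ Icc e1 e2, |TT w s - TT w (θ n)| ≤ h → φ n ≤ G s)
    (hCu : 0 ≤ Cu) (hCl : 0 ≤ Cl)
    (hu : ∀ n ∈ S, B < TT w (θ n) + h → φ n / |DT w (θ n)| ≤ Cu)
    (hl : ∀ n ∈ S, TT w (θ n) - h < A → φ n / |DT w (θ n)| ≤ Cl) :
    ∑ n ∈ S, φ n / |DT w (θ n)| ≤
      1 / (2 * h) * (∫ s in {s | s ∈ Icc e1 e2 ∧ A ≤ TT w s ∧ TT w s ≤ B}, G s) + Cu + Cl := by
  classical
  set g : ℕ → ℝ := fun n => φ n / |DT w (θ n)| with hg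
  have g0 : ∀ n ∈ S, 0 ≤ g n := fun n hn => div_nonneg (hφ0 n hn) (abs_nonneg _)
  have hm := win_sum hw hh he hne
    (S.filter fun n => A ≤ TT w (θ n) - h ∧ TT w (θ n) + h ≤ B) θ φ
    (fun n hn => hθ n (Finset.mem_filter.1 hn).1)
    (fun n hn n' hn' => hsep n (Finset.mem_filter.1 hn).1 n' (Finset.mem_filter.1 hn').1)
    (fun n hn => (Finset.mem_filter.1 hn).2) hA1 hB1 G hG hG0
    (fun n hn => hφ0 n (Finset.mem_filter.1 hn).1)
    (fun n hn => hφ n (Finset.mem_filter.1 hn).1)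
  have hU := sum_one_le S g (fun n => B < TT w (θ n) + h) hCu hu fun n hn n' hn' p p' => by
    by_contra hc
    have := hsep n hn n' hn' hc
    have a := (hA n hn).2
    have b := (hA n' hn').2
    rcases le_abs.1 this with c | c <;> linarith
  have hL := sum_one_le S g (fun n => TT w (θ n) - h < A) hCl hl fun n hn n' hn' p p' => by
    by_contra hc
    have := hsep n hn n' hn' hc
    have a := (hA n hn).1
    have b := (hA n' hn').1
    rcases le_abs.1 this with c | c <;> linarith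
  have hM : ∑ n ∈ S.filter (fun n => A ≤ TT w (θ n) - h ∧ TT w (θ n) + h ≤ B), g n ≤
      1 / (2 * h) * ∫ s in {s | s ∈ Icc e1 e2 ∧ A ≤ TT w s ∧ TT w s ≤ B}, G s := by
    refine le_trans (le_of_eq ?_) (mul_le_mul_of_nonneg_left hm (by positivity))
    rw [Finset.mul_sum]
    refine Finset.sum_congr rfl fun n _ => ?_
    simp only [hg]
    field_simp
  refine le_trans ?_ (add_le_add (add_le_add hM hU) hL)
  simp only [Finset.sum_filter, ← Finset.sum_add_distrib]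
  refine Finset.sum_le_sum fun n hn => ?_
  have := g0 n hn
  by_cases a : B < TT w (θ n) + h <;> by_cases b : TT w (θ n) - h < A
  · simp only [a, b, if_true]; split_ifs <;> linarith
  · simp only [a, b, if_true, if_false]; split_ifs <;> linarith
  · simp only [a, b, if_true, if_false]; split_ifs <;> linarith
  · simp only [a, b, if_false, if_pos (And.intro (not_lt.1 b) (not_lt.1 a))]; linarith

lemma endb {c c' d f P : ℝ} (hc : 0 < c) (hcc : c ≤ c') (hd : c' ≤ 103 / 100 * d) (h0 : 0 ≤ f)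
    (hP : f ≤ P) : f / d ≤ P * (103 / 100) / c := by
  have hd0 : 0 < d := by linarith
  rw [div_le_div_iff₀ hd0 hc]
  nlinarith [mul_le_mul_of_nonneg_left (hcc.trans hd) h0,
    mul_le_mul_of_nonneg_right hP hd0.le]

lemma anti0 {w : ℝ} (hw : 1000 ≤ w) : AntitoneOn (TT w) (Icc 0 1) :=
  antitoneOn_of_deriv_nonpos (convex_Icc 0 1) (continuous_TT w).continuousOn
    (fun s _ => (hasDerivAt_TT w s).differentiableAt.differentiableWithinAt) fun s hs => by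
      rw [(hasDerivAt_TT w s).deriv]
      exact (arc0 hw (interior_subset hs)).le

lemma F_nonneg {y r : ℝ} (hy : 1000 ≤ y) (hr : 1 ≤ r) (F : ℝ → ℝ) (φ : ℕ → ℝ)
    (hφ0 : ∀ n, 0 ≤ φ n)
    (hφ : ∀ n : ℕ, ∀ z : ℝ, 2 * y / 3 ≤ z → z ≤ 2 * y + 1 → |z - (n + 1)| ≤ r → φ n ≤ F z)
    (s : ℝ) : 0 ≤ F ((y + 1 / 4) / mm s) := by
  have a := div_mm_ge (w := y + 1 / 4) (by linarith) s
  have b := div_mm_le (w := y + 1 / 4) (by linarith) s
  set z := (y + 1 / 4) / mm s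
  have c := Nat.floor_le (a := z) (by linarith)
  have d := Nat.lt_floor_add_one z
  exact (hφ0 ⌊z⌋₊).trans (hφ _ z (by linarith) (by linarith) (abs_le.2 ⟨by linarith, by linarith⟩))

lemma G_cont {y : ℝ} (hy : 1000 ≤ y) (F : ℝ → ℝ) (hF : ContinuousOn F (Ici 600)) :
    Continuous fun s => F ((y + 1 / 4) / mm s) :=
  hF.comp_continuous (continuous_const.div continuous_mm fun s => (mm_pos s).ne') fun s => by
    have a := div_mm_ge (w := y + 1 / 4) (by linarith) s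
    show (600 : ℝ) ≤ _
    linarith

lemma set_le {G : ℝ → ℝ} (hG : Continuous G) (h0 : ∀ s, 0 ≤ G s) {a b : ℝ} (hab : a ≤ b)
    {X : Set ℝ} (hX : X ⊆ Icc a b) : ∫ s in X, G s ≤ ∫ s in a..b, G s := by
  rw [intervalIntegral.integral_of_le hab, ← integral_Icc_eq_integral_Ioc]
  exact setIntegral_mono_set hG.integrableOn_Icc (Filter.Eventually.of_forall h0)
    hX.eventuallyLE

lemma low_le {G : ℝ → ℝ} (hG : Continuous G) {a b L : ℝ} (hab : a ≤ b)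
    (h : ∀ s ∈ Icc a b, L ≤ G s) : (b - a) * L ≤ ∫ s in a..b, G s := by
  have := intervalIntegral.integral_mono_on (μ := volume) hab
    (continuous_const.intervalIntegrable a b) (hG.intervalIntegrable a b) h
  simpa using this

theorem core {y : ℝ} (hy : 1000 ≤ y) {m q : ℕ} (hm1 : (m : ℝ) < y) (hm2 : y < m + 1)
    (hq1 : y < 3 * q + 2) (hq2 : 3 * (q : ℝ) + 2 < y + 3)
    (F : ℝ → ℝ) (hF : ContinuousOn F (Ici 600)) (φ : ℕ → ℝ) (hφ0 : ∀ n, 0 ≤ φ n)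
    {h A B0 B1 : ℝ} (hh : 0 < h) (h3 : h ≤ 3)
    (hφ : ∀ n : ℕ, ∀ z : ℝ, 2 * y / 3 ≤ z → z ≤ 2 * y + 1 → |z - (n + 1)| ≤ h + 1 → φ n ≤ F z)
    {Pu Pl : ℝ} (hPu : ∀ n : ℕ, |n - 2 * y| ≤ 8 → φ n ≤ Pu)
    (hPl : ∀ n : ℕ, |n - 2 * y / 3| ≤ 8 → φ n ≤ Pl)
    (a1 : 2 * y / 3 - 4 / 3 ≤ A) (a2 : A ≤ 2 * q + h) (a3 : A ≤ 2 * y / 3 - 4 / 3 + 3)
    (b1 : 2 * m ≤ B0 + h) (b2 : B0 ≤ 2 * y) (b3 : 2 * y - 3 ≤ B0)
    (c1 : 2 * m - 2 ≤ B1 + h) (c2 : B1 ≤ 2 * y - 2) (c3 : 2 * y - 5 ≤ B1)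
    (S : Finset ℕ) (hS : ∀ n ∈ S, ∀ n' ∈ S, n ≠ n' → n % 2 = n' % 2 → 2 * h ≤ |(n : ℝ) - n'|)
    (x : ℕ → ℝ) (hx : ∀ n ∈ S, x n ∈ UA n ∧ ff (x n) = y) :
    (y + 1 / 4) * ∑ n ∈ S, φ n / ((x n + 1 / 2) * |ff' (x n)|) ≤
      1 / (2 * h) * ((∫ s in {s | s ∈ Icc (0 : ℝ) 1 ∧ A ≤ TT (y + 1 / 4) s ∧
          TT (y + 1 / 4) s ≤ B0}, F ((y + 1 / 4) / mm s)) +
        ∫ s in {s | s ∈ Icc (1 + 4 / (5 * (y + 1 / 4))) (2 - 3 / (40 * (y + 1 / 4))) ∧
          A ≤ TT (y + 1 / 4) s ∧ TT (y + 1 / 4) s ≤ B1}, F ((y + 1 / 4) / mm s)) +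
      Pu * (103 / 100) / √(2 * (y - m)) / (π * √(y + 1 / 4)) +
      3 * (Pl * (103 / 100) / √(2 * (3 * q + 2 - y) / 3)) / (π * √(y + 1 / 4)) := by
  classical
  have G0 := F_nonneg hy (by linarith : (1 : ℝ) ≤ h + 1) F φ hφ0 hφ
  have GC := G_cont hy F hF
  obtain ⟨w, hw⟩ : ∃ w, w = y + 1 / 4 := ⟨_, rfl⟩
  rw [← hw] at G0 GC ⊢
  have w1 : 1000 ≤ w := by linarith
  have w0 : 0 < w := by linarith
  have T0 : TT w 0 = 2 * y := by rw [TT_zero, hw]; ring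
  have T1 : TT w 1 = 2 * y / 3 - 4 / 3 := by rw [TT_one, hw]; ring
  have T2 : TT w 2 = 2 * y - 2 := by rw [TT_two, hw]; ring
  obtain ⟨τ, hτ⟩ : ∃ τ, τ = 2 * (y - m) := ⟨_, rfl⟩
  obtain ⟨σ, hσ⟩ : ∃ σ, σ = 2 * (3 * (q : ℝ) + 2 - y) / 3 := ⟨_, rfl⟩
  rw [← hτ, ← hσ]
  have τ0 : 0 < τ := by linarith
  have σ0 : 0 < σ := by linarith
  have Pu0 : 0 ≤ Pu := (hφ0 (2 * m)).trans (hPu _ (by
    push_cast; exact abs_le.2 ⟨by linarith, by linarith⟩))
  have Pl0 : 0 ≤ Pl := (hφ0 (2 * q)).trans (hPl _ (by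
    push_cast; exact abs_le.2 ⟨by linarith, by linarith⟩))
  obtain ⟨θ, hθ⟩ : ∃ θ : ℕ → ℝ, θ = fun n => x n - 2 * ((n / 2 : ℕ) : ℝ) := ⟨_, rfl⟩
  have ev : ∀ n : ℕ, n % 2 = 0 → 2 * ((n / 2 : ℕ) : ℝ) = n := fun n hn => by
    have : 2 * (n / 2) = n := by omega
    exact_mod_cast this
  have od : ∀ n : ℕ, ¬ n % 2 = 0 → 2 * ((n / 2 : ℕ) : ℝ) = n - 1 := fun n hn => by
    have : 2 * (n / 2) + 1 = n := by omega
    have : 2 * ((n / 2 : ℕ) : ℝ) + 1 = n := by exact_mod_cast this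
    linarith
  have θe : ∀ n ∈ S, n % 2 = 0 → θ n ∈ Icc (0 : ℝ) 1 := fun n hn h2 => by
    have := (hx n hn).1
    rw [UA, if_pos h2] at this
    simp only [hθ, ev n h2]
    exact ⟨by linarith [this.1], by linarith [this.2]⟩
  have θo : ∀ n ∈ S, ¬ n % 2 = 0 → θ n ∈ Icc (1 + 23 / (20 * w)) (2 - 1 / (8 * w)) :=
    fun n hn h2 => by
      simp only [hθ, od n h2]
      exact pre_odd w1 (by omega) (hx n hn).1 (by rw [(hx n hn).2, hw])
  have p23 : 0 < 23 / (20 * w) := by positivity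
  have p8 : 0 < 1 / (8 * w) := by positivity
  have pre : ∀ n ∈ S, TT w (θ n) = 2 * ((n / 2 : ℕ) : ℝ) ∧
      (x n + 1 / 2) * |ff' (x n)| = w * |DT w (θ n)| := fun n hn => by
    have e : 2 * ((n / 2 : ℕ) : ℝ) + θ n = x n := by simp only [hθ]; ring
    have s0 : 0 ≤ θ n := by
      by_cases h2 : n % 2 = 0
      · exact (θe n hn h2).1
      · linarith [(θo n hn h2).1]
    have := pre_even (j := n / 2) (y := y) s0 (by rw [e]; exact (hx n hn).2)
    rwa [e, ← hw] at this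
  have int1 : ∀ j : ℕ, 2 * y / 3 - 4 / 3 ≤ 2 * (j : ℝ) → 2 * (q : ℝ) ≤ 2 * j := fun j hj => by
    have : (q : ℝ) < j + 1 := by linarith
    have : q < j + 1 := by exact_mod_cast this
    have : (q : ℝ) ≤ j := by exact_mod_cast Nat.lt_succ_iff.1 this
    linarith
  have int2 : ∀ j : ℕ, (j : ℝ) ≤ y → 2 * (j : ℝ) ≤ 2 * m := fun j hj => by
    have : (j : ℝ) < m + 1 := by linarith
    have : j < m + 1 := by exact_mod_cast this
    have : (j : ℝ) ≤ m := by exact_mod_cast Nat.lt_succ_iff.1 this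
    linarith
  have re : ∀ n ∈ S, n % 2 = 0 → 2 * (q : ℝ) ≤ TT w (θ n) ∧ TT w (θ n) ≤ 2 * m :=
    fun n hn h2 => by
      have t := θe n hn h2
      have u := anti0 w1 (left_mem_Icc.2 zero_le_one) t t.1
      have v := anti0 w1 t (right_mem_Icc.2 zero_le_one) t.2
      rw [(pre n hn).1] at u v ⊢
      exact ⟨int1 _ (by linarith), int2 _ (by linarith)⟩
  have ro : ∀ n ∈ S, ¬ n % 2 = 0 → 2 * (q : ℝ) ≤ TT w (θ n) ∧ TT w (θ n) ≤ 2 * m - 2 :=
    fun n hn h2 => by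
      have t := θo n hn h2
      have u : TT w (θ n) ≤ TT w 2 := by
        by_contra hc
        have := (end2 w1 ⟨by linarith [t.1], t.2⟩ (by linarith)).1
        linarith
      have v : TT w 1 ≤ TT w (θ n) := by
        by_contra hc
        have := (end1p w1 ⟨t.1, by linarith [t.2]⟩ (by linarith)).1
        linarith
      rw [(pre n hn).1] at u v ⊢
      have := int2 (n / 2 + 1) (by push_cast; linarith)
      push_cast at this
      exact ⟨int1 _ (by linarith), by linarith⟩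
  have cu0 : 0 < 2 * π * √(w * τ) := by positivity
  have cl0 : 0 < 2 * π / 3 * √(w * σ) := by positivity
  have cu : ∀ t, τ ≤ t → 2 * π * √(w * τ) ≤ 2 * π * √(w * t) := fun t ht => by gcongr
  have cl : ∀ t, σ ≤ t → 2 * π / 3 * √(w * σ) ≤ 2 * π / 3 * √(w * t) := fun t ht => by gcongr
  have zz : ∀ s, 2 * y / 3 ≤ w / mm s ∧ w / mm s ≤ 2 * y + 1 := fun s =>
    ⟨by linarith [div_mm_ge w0.le s], by linarith [div_mm_le w0.le s]⟩
  have E := arc_sum (w := w) (e1 := 0) (e2 := 1) (h := h) (A := A) (B := B0)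
    (Cu := Pu * (103 / 100) / (2 * π * √(w * τ)))
    (Cl := Pl * (103 / 100) / (2 * π / 3 * √(w * σ))) (by linarith) hh zero_le_one
    (fun s hs => (arc0 w1 hs).ne) (S.filter fun n => n % 2 = 0) θ φ
    (fun n hn => θe n (Finset.mem_filter.1 hn).1 (Finset.mem_filter.1 hn).2)
    (fun n hn n' hn' hne => by
      obtain ⟨h1, h2⟩ := Finset.mem_filter.1 hn
      obtain ⟨h1', h2'⟩ := Finset.mem_filter.1 hn'
      rw [(pre n h1).1, (pre n' h1').1, ev n h2, ev n' h2']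
      exact hS n h1 n' h1' hne (by omega))
    (fun n hn => by
      have := re n (Finset.mem_filter.1 hn).1 (Finset.mem_filter.1 hn).2
      exact ⟨by linarith [this.1], by linarith [this.2]⟩)
    ((min_le_right _ _).trans (by linarith)) (le_trans (by linarith) (le_max_left _ _))
    (fun s => F (w / mm s)) GC.continuousOn (fun s _ => G0 s) (fun n _ => hφ0 n)
    (fun n hn s hs hd => by
      obtain ⟨h1, h2⟩ := Finset.mem_filter.1 hn
      rw [(pre n h1).1, ev n h2, abs_le] at hd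
      refine hφ n _ (zz s).1 (zz s).2 ?_
      rw [div_mm_eq]
      exact abs_le.2 ⟨by linarith [hd.1, hs.1], by linarith [hd.2, hs.2]⟩)
    (by positivity) (by positivity)
    (fun n hn hb => by
      obtain ⟨h1, h2⟩ := Finset.mem_filter.1 hn
      have r := re n h1 h2
      refine endb cu0 (cu _ (by linarith [r.2])) (end0 w1 (θe n h1 h2) (by linarith)) (hφ0 n)
        (hPu n ?_)
      rw [(pre n h1).1, ev n h2] at hb r
      exact abs_le.2 ⟨by linarith, by linarith [r.2]⟩)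
    (fun n hn hb => by
      obtain ⟨h1, h2⟩ := Finset.mem_filter.1 hn
      have r := re n h1 h2
      refine endb cl0 (cl _ (by linarith [r.1])) (end1m w1 (θe n h1 h2) (by linarith)) (hφ0 n)
        (hPl n ?_)
      rw [(pre n h1).1, ev n h2] at hb r
      exact abs_le.2 ⟨by linarith [r.1], by linarith⟩)
  have i1 : 4 / (5 * w) ≤ 23 / (20 * w) := by
    rw [div_le_div_iff₀ (by positivity) (by positivity)]; nlinarith
  have i2 : 3 / (40 * w) ≤ 1 / (8 * w) := by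
    rw [div_le_div_iff₀ (by positivity) (by positivity)]; nlinarith
  have i3 : 4 / (5 * w) ≤ 1 / 4 := by
    rw [div_le_div_iff₀ (by positivity) (by positivity)]; nlinarith
  have i4 : 3 / (40 * w) ≤ 1 / 4 := by
    rw [div_le_div_iff₀ (by positivity) (by positivity)]; nlinarith
  have i5 : 0 < 4 / (5 * w) := by positivity
  have i6 : 0 < 3 / (40 * w) := by positivity
  have O := arc_sum (w := w) (e1 := 1 + 4 / (5 * w)) (e2 := 2 - 3 / (40 * w)) (h := h) (A := A)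
    (B := B1) (Cu := Pu * (103 / 100) / (2 * π * √(w * τ)))
    (Cl := Pl * (103 / 100) / (2 * π / 3 * √(w * σ))) (by linarith) hh (by linarith)
    (fun s hs => (arc1 w1 hs).ne') (S.filter fun n => ¬ n % 2 = 0) θ φ
    (fun n hn => by
      have := θo n (Finset.mem_filter.1 hn).1 (Finset.mem_filter.1 hn).2
      exact ⟨by linarith [this.1], by linarith [this.2]⟩)
    (fun n hn n' hn' hne => by
      obtain ⟨h1, h2⟩ := Finset.mem_filter.1 hn
      obtain ⟨h1', h2'⟩ := Finset.mem_filter.1 hn'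
      rw [(pre n h1).1, (pre n' h1').1, od n h2, od n' h2', sub_sub_sub_cancel_right]
      exact hS n h1 n' h1' hne (by omega))
    (fun n hn => by
      have := ro n (Finset.mem_filter.1 hn).1 (Finset.mem_filter.1 hn).2
      exact ⟨by linarith [this.1], by linarith [this.2]⟩)
    ((min_le_left _ _).trans (by linarith [(arc1_ends w1).1]))
    (le_trans (by linarith [(arc1_ends w1).2]) (le_max_right _ _))
    (fun s => F (w / mm s)) GC.continuousOn (fun s _ => G0 s) (fun n _ => hφ0 n)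
    (fun n hn s hs hd => by
      obtain ⟨h1, h2⟩ := Finset.mem_filter.1 hn
      rw [(pre n h1).1, od n h2, abs_le] at hd
      refine hφ n _ (zz s).1 (zz s).2 ?_
      rw [div_mm_eq]
      exact abs_le.2 ⟨by linarith [hd.1, hs.1], by linarith [hd.2, hs.2]⟩)
    (by positivity) (by positivity)
    (fun n hn hb => by
      obtain ⟨h1, h2⟩ := Finset.mem_filter.1 hn
      have r := ro n h1 h2
      have t := θo n h1 h2
      refine endb cu0 (cu _ (by linarith [r.2]))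
        (end2 w1 ⟨by linarith [t.1], t.2⟩ (by linarith)).2 (hφ0 n) (hPu n ?_)
      rw [(pre n h1).1, od n h2] at hb r
      exact abs_le.2 ⟨by linarith, by linarith [r.2]⟩)
    (fun n hn hb => by
      obtain ⟨h1, h2⟩ := Finset.mem_filter.1 hn
      have r := ro n h1 h2
      have t := θo n h1 h2
      refine endb cl0 (cl _ (by linarith [r.1]))
        (end1p w1 ⟨t.1, by linarith [t.2]⟩ (by linarith)).2 (hφ0 n) (hPl n ?_)
      rw [(pre n h1).1, od n h2] at hb r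
      exact abs_le.2 ⟨by linarith [r.1], by linarith⟩)
  have e0 : w * ∑ n ∈ S, φ n / ((x n + 1 / 2) * |ff' (x n)|) = ∑ n ∈ S, φ n / |DT w (θ n)| := by
    rw [Finset.mul_sum]
    refine Finset.sum_congr rfl fun n hn => ?_
    rw [(pre n hn).2, ← mul_div_assoc, mul_div_mul_left _ _ w0.ne']
  have sτ : 0 < √τ := sqrt_pos.2 τ0
  have sσ : 0 < √σ := sqrt_pos.2 σ0
  have sw : 0 < √w := sqrt_pos.2 w0
  have eu : Pu * (103 / 100) / √τ / (π * √w) = 2 * (Pu * (103 / 100) / (2 * π * √(w * τ))) := by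
    rw [sqrt_mul w0.le]; field_simp
  have el : 3 * (Pl * (103 / 100) / √σ) / (π * √w) =
      2 * (Pl * (103 / 100) / (2 * π / 3 * √(w * σ))) := by
    rw [sqrt_mul w0.le]; field_simp
  rw [e0, ← Finset.sum_filter_add_sum_filter_not S (fun n => n % 2 = 0), eu, el, mul_add]
  linarith

theorem lapsum {y : ℝ} (hy : 1000 ≤ y) {m M : ℕ} (hm1 : (m : ℝ) < y) (hm2 : y < m + 1)
    (hM : M % 3 = 2) (hM1 : y < M) (hM2 : (M : ℝ) < y + 3)
    (F : ℝ → ℝ) (hF : ContinuousOn F (Ici 600)) (φ : ℕ → ℝ) (hφ0 : ∀ n, 0 ≤ φ n)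
    (hφ : ∀ n : ℕ, ∀ z : ℝ, 2 * y / 3 ≤ z → z ≤ 2 * y + 1 → |z - (n + 1)| ≤ 4 → φ n ≤ F z)
    {Pu Pl Lu Ll : ℝ} (hPu : ∀ n : ℕ, |n - 2 * y| ≤ 8 → φ n ≤ Pu)
    (hPl : ∀ n : ℕ, |n - 2 * y / 3| ≤ 8 → φ n ≤ Pl)
    (hLu : ∀ z : ℝ, |z - 2 * y| ≤ 8 → Lu ≤ F z) (hLl : ∀ z : ℝ, |z - 2 * y / 3| ≤ 8 → Ll ≤ F z)
    (S : Finset ℕ) (x : ℕ → ℝ) (hx : ∀ n ∈ S, x n ∈ UA n ∧ ff (x n) = y) :
    (y + 1 / 4) * ∑ n ∈ S, φ n / ((x n + 1 / 2) * |ff' (x n)|) ≤
      1 / 2 * (∫ t in (0 : ℝ)..2, F ((y + 1 / 4) / mm t)) +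
      (Pu * (103 / 100) / √(2 * (y - m)) - Lu * (99 / 100) * √(2 * (y - m) + 1)) /
        (π * √(y + 1 / 4)) +
      3 * (Pl * (103 / 100) / √(2 * (M - y) / 3) - Ll * (98 / 100) * √(2 * (M - y) / 3 + 1)) /
        (π * √(y + 1 / 4)) := by
  obtain ⟨q, rfl⟩ : ∃ q, M = 3 * q + 2 := ⟨M / 3, by omega⟩
  push_cast at hM1 hM2 ⊢
  have C := core hy hm1 hm2 hM1 hM2 F hF φ hφ0 (h := 1) (A := 2 * q + 1) (B0 := 2 * m - 1)
    (B1 := 2 * m - 3) one_pos (by norm_num)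
    (fun n z a b c => hφ n z a b (by linarith)) hPu hPl (by linarith) le_rfl (by linarith)
    (by linarith) (by linarith) (by linarith) (by linarith) (by linarith) (by linarith) S
    (fun n _ n' _ hne h2 => by
      rcases (by omega : n + 2 ≤ n' ∨ n' + 2 ≤ n) with c | c
      · have : (n : ℝ) + 2 ≤ n' := by exact_mod_cast c
        exact le_abs.2 (Or.inr (by linarith))
      · have : (n' : ℝ) + 2 ≤ n := by exact_mod_cast c
        exact le_abs.2 (Or.inl (by linarith))) x hx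
  have G0 := F_nonneg hy (by norm_num : (1 : ℝ) ≤ 4) F φ hφ0 hφ
  have GC := G_cont hy F hF
  obtain ⟨w, hw⟩ : ∃ w, w = y + 1 / 4 := ⟨_, rfl⟩
  rw [← hw] at G0 GC C ⊢
  have w1 : 1000 ≤ w := by linarith
  have w0 : 0 < w := by linarith
  have T0 : TT w 0 = 2 * y := by rw [TT_zero, hw]; ring
  have T1 : TT w 1 = 2 * y / 3 - 4 / 3 := by rw [TT_one, hw]; ring
  have T2 : TT w 2 = 2 * y - 2 := by rw [TT_two, hw]; ring
  obtain ⟨τ, hτ⟩ : ∃ τ, τ = 2 * (y - m) := ⟨_, rfl⟩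
  obtain ⟨σ, hσ⟩ : ∃ σ, σ = 2 * (3 * (q : ℝ) + 2 - y) / 3 := ⟨_, rfl⟩
  rw [← hτ, ← hσ] at C ⊢
  have τ0 : 0 ≤ τ := by linarith
  have τ2 : τ ≤ 2 := by linarith
  have σ0 : 0 ≤ σ := by linarith
  have σ2 : σ ≤ 2 := by linarith
  have small : ∀ t : ℝ, 0 ≤ t → t ≤ 2 →
      0 ≤ 99 / 100 * √((t + 1) / w) / π ∧ 99 / 100 * √((t + 1) / w) / π ≤ 1 / 10 := fun t a b => by
    refine ⟨by positivity, ?_⟩
    have : √((t + 1) / w) ≤ 1 / 10 :=
      sqrt_le_iff.2 ⟨by norm_num, by rw [div_le_iff₀ w0]; linarith⟩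
    rw [div_le_iff₀ pi_pos]
    linarith [pi_gt_three]
  obtain ⟨u, hu⟩ : ∃ u, u = 99 / 100 * √((τ + 1) / w) / π := ⟨_, rfl⟩
  obtain ⟨l, hl⟩ : ∃ l, l = 3 * (98 / 100 * √((σ + 1) / w) / π) := ⟨_, rfl⟩
  have u0 : 0 ≤ u := hu ▸ (small τ τ0 τ2).1
  have u1 : u ≤ 1 / 10 := hu ▸ (small τ τ0 τ2).2
  have l0 : 0 ≤ l := by rw [hl]; positivity
  have l1 : l ≤ 3 / 10 := by
    have : 98 / 100 * √((σ + 1) / w) / π ≤ 99 / 100 * √((σ + 1) / w) / π := by
      gcongr; norm_num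
    linarith [(small σ σ0 σ2).2]
  have d0 : ∀ s, 0 ≤ s → s ≤ u → 2 * m - 1 < TT w s := fun s a b => by
    linarith [(def0 w1 τ0 τ2 a (hu ▸ b)).1]
  have d2 : ∀ s, 2 - u ≤ s → s ≤ 2 → 2 * m - 3 < TT w s := fun s a b => by
    have := (def0 w1 τ0 τ2 (ξ := 2 - s) (by linarith) (by linarith)).2
    rw [sub_sub_cancel] at this
    linarith
  have d1 : ∀ s, 1 - l ≤ s → s ≤ 1 + l → TT w s < 2 * q + 1 := fun s a b => by
    rcases le_total s 1 with c | c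
    · have := (def1 w1 σ0 σ2 (ξ := 1 - s) (by linarith) (by linarith)).1
      rw [sub_sub_cancel] at this
      linarith
    · have := (def1 w1 σ0 σ2 (ξ := s - 1) (by linarith) (by linarith)).2
      rw [add_sub_cancel] at this
      linarith
  have i5 : 0 < 4 / (5 * w) := by positivity
  have i6 : 0 < 3 / (40 * w) := by positivity
  have I0 := set_le GC G0 (a := u) (b := 1 - l) (by linarith)
    (X := {s | s ∈ Icc (0 : ℝ) 1 ∧ 2 * (q : ℝ) + 1 ≤ TT w s ∧ TT w s ≤ 2 * m - 1})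
    fun s ⟨h1, h2, h3⟩ => by
      constructor
      · by_contra hc
        linarith [d0 s h1.1 (not_le.1 hc).le]
      · by_contra hc
        linarith [d1 s (not_le.1 hc).le (by linarith [h1.2])]
  have I1 := set_le GC G0 (a := 1 + l) (b := 2 - u) (by linarith)
    (X := {s | s ∈ Icc (1 + 4 / (5 * w)) (2 - 3 / (40 * w)) ∧ 2 * (q : ℝ) + 1 ≤ TT w s ∧
      TT w s ≤ 2 * m - 3})
    fun s ⟨h1, h2, h3⟩ => by
      constructor
      · by_contra hc
        linarith [d1 s (by linarith [h1.1]) (not_le.1 hc).le]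
      · by_contra hc
        linarith [d2 s (not_le.1 hc).le (by linarith [h1.2])]
  have J0 := low_le GC (a := 0) (b := u) (L := Lu) u0 fun s hs => hLu _ (by
    have := d0 s hs.1 hs.2
    have e := div_mm_eq w s
    exact abs_le.2 ⟨by linarith [hs.1], by linarith [div_mm_le w0.le s]⟩)
  have J2 := low_le GC (a := 2 - u) (b := 2) (L := Lu) (by linarith) fun s hs => hLu _ (by
    have := d2 s hs.1 hs.2
    have e := div_mm_eq w s
    exact abs_le.2 ⟨by linarith [hs.1], by linarith [div_mm_le w0.le s]⟩)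
  have J1 := low_le GC (a := 1 - l) (b := 1 + l) (L := Ll) (by linarith) fun s hs => hLl _ (by
    have := d1 s hs.1 hs.2
    have e := div_mm_eq w s
    exact abs_le.2 ⟨by linarith [div_mm_ge w0.le s], by linarith [hs.2]⟩)
  have add := fun a b c : ℝ => intervalIntegral.integral_add_adjacent_intervals (μ := volume)
    (GC.intervalIntegrable a b) (GC.intervalIntegrable b c)
  have k1 := add 0 u (1 - l)
  have k2 := add 0 (1 - l) (1 + l)
  have k3 := add 0 (1 + l) (2 - u)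
  have k4 := add 0 (2 - u) 2
  have sw : 0 < √w := sqrt_pos.2 w0
  have eu : Lu * (99 / 100) * √(τ + 1) / (π * √w) = u * Lu := by
    rw [hu, sqrt_div (by linarith)]; field_simp
  have el : 3 * (Ll * (98 / 100) * √(σ + 1)) / (π * √w) = l * Ll := by
    rw [hl, sqrt_div (by linarith)]; field_simp
  rw [sub_div, mul_sub, sub_div, eu, el]
  linarith

theorem lapsum3 {y : ℝ} (hy : 1000 ≤ y) {m M : ℕ} (hm1 : (m : ℝ) < y) (hm2 : y < m + 1)
    (hM : M % 3 = 2) (hM1 : y < M) (hM2 : (M : ℝ) < y + 3)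
    (F : ℝ → ℝ) (hF : ContinuousOn F (Ici 600)) (φ : ℕ → ℝ) (hφ0 : ∀ n, 0 ≤ φ n)
    (hφ : ∀ n : ℕ, ∀ z : ℝ, 2 * y / 3 ≤ z → z ≤ 2 * y + 1 → |z - (n + 1)| ≤ 6 → φ n ≤ F z)
    {Pu Pl : ℝ} (hPu : ∀ n : ℕ, |n - 2 * y| ≤ 8 → φ n ≤ Pu)
    (hPl : ∀ n : ℕ, |n - 2 * y / 3| ≤ 8 → φ n ≤ Pl)
    (S : Finset ℕ) (hS : ∀ n ∈ S, n % 3 = 1) (x : ℕ → ℝ)
    (hx : ∀ n ∈ S, x n ∈ UA n ∧ ff (x n) = y) :
    (y + 1 / 4) * ∑ n ∈ S, φ n / ((x n + 1 / 2) * |ff' (x n)|) ≤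
      1 / 6 * (∫ t in (0 : ℝ)..2, F ((y + 1 / 4) / mm t)) +
      Pu * (103 / 100) / √(2 * (y - m)) / (π * √(y + 1 / 4)) +
      3 * (Pl * (103 / 100) / √(2 * (M - y) / 3)) / (π * √(y + 1 / 4)) := by
  obtain ⟨q, rfl⟩ : ∃ q, M = 3 * q + 2 := ⟨M / 3, by omega⟩
  push_cast at hM1 hM2 ⊢
  have C := core hy hm1 hm2 hM1 hM2 F hF φ hφ0 (h := 3) (A := 2 * y / 3 - 4 / 3) (B0 := 2 * y)
    (B1 := 2 * y - 2) (by norm_num) le_rfl
    (fun n z a b c => hφ n z a b (by linarith)) hPu hPl le_rfl (by linarith) (by linarith)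
    (by linarith) le_rfl (by linarith) (by linarith) le_rfl (by linarith) S
    (fun n hn n' hn' hne h2 => by
      have := hS n hn
      have := hS n' hn'
      rcases (by omega : n + 6 ≤ n' ∨ n' + 6 ≤ n) with c | c
      · have : (n : ℝ) + 6 ≤ n' := by exact_mod_cast c
        exact le_abs.2 (Or.inr (by linarith))
      · have : (n' : ℝ) + 6 ≤ n := by exact_mod_cast c
        exact le_abs.2 (Or.inl (by linarith))) x hx
  have G0 := F_nonneg hy (by norm_num : (1 : ℝ) ≤ 6) F φ hφ0 hφ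
  have GC := G_cont hy F hF
  obtain ⟨w, hw⟩ : ∃ w, w = y + 1 / 4 := ⟨_, rfl⟩
  rw [← hw] at G0 GC C ⊢
  have w0 : 0 < w := by linarith
  have i5 : 0 < 4 / (5 * w) := by positivity
  have i6 : 0 < 3 / (40 * w) := by positivity
  have I0 := set_le GC G0 (a := 0) (b := 1) zero_le_one
    (X := {s | s ∈ Icc (0 : ℝ) 1 ∧ 2 * y / 3 - 4 / 3 ≤ TT w s ∧ TT w s ≤ 2 * y})
    fun s hs => hs.1
  have I1 := set_le GC G0 (a := 1) (b := 2) one_le_two
    (X := {s | s ∈ Icc (1 + 4 / (5 * w)) (2 - 3 / (40 * w)) ∧ 2 * y / 3 - 4 / 3 ≤ TT w s ∧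
      TT w s ≤ 2 * y - 2})
    fun s hs => ⟨by linarith [hs.1.1], by linarith [hs.1.2]⟩
  have k1 := intervalIntegral.integral_add_adjacent_intervals (μ := volume)
    (GC.intervalIntegrable 0 1) (GC.intervalIntegrable 1 2)
  linarith

end Pool.Agent.Lib.MP_2dc536_an.X
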