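import Pool.Agent.Lib.MP_2dc536_an.X.Base
import Pool.Agent.Lib.MP_2dc536_an.X.Lap
import Pool.Agent.Lib.MP_2dc536_an.X.Frame

/-!
The transfer inequality at large heights.
-/

namespace Pool.Agent.Lib.MP_2dc536_an.X

open Real Set MeasureTheory

lemma ka_inv_le {x c e : ℝ} (hc : 0 < c) (he0 : 0 < e) (he : e ≤ x) (h : 1 ≤ c ^ 2 * e) :
    1 / √x ≤ c := by
  have hx : 0 < x := he0.trans_le he
  rw [div_le_iff₀ (sqrt_pos.2 hx)]
  have h2 : 1 ≤ (c * √x) ^ 2 := by
    rw [mul_pow, sq_sqrt hx.le]
    exact h.trans (mul_le_mul_of_nonneg_left he (sq_nonneg c))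
  by_contra hlt
  push Not at hlt
  have h0 : 0 ≤ c * √x := by positivity
  nlinarith

lemma ka_le_inv {x c e : ℝ} (hx : 0 < x) (he : x ≤ e) (h : c ^ 2 * e ≤ 1) : c ≤ 1 / √x := by
  rw [le_div_iff₀ (sqrt_pos.2 hx)]
  have h2 : (c * √x) ^ 2 ≤ 1 := by
    rw [mul_pow, sq_sqrt hx.le]
    exact (mul_le_mul_of_nonneg_left he (sq_nonneg c)).trans h
  nlinarith

lemma ka_le_sqrt {x c e : ℝ} (he : e ≤ x) (h : c ^ 2 ≤ e) : c ≤ √x :=
  le_sqrt_of_sq_le (h.trans he)

lemma ka_cmp {n w c : ℝ} (hw : 0 < w) (hc : 0 < c) (h : w ≤ c ^ 2 * n) :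
    1 / √n ≤ c * (1 / √w) := by
  have hn : 0 < n := by
    by_contra hn
    push Not at hn
    nlinarith [mul_nonneg (sq_nonneg c) (neg_nonneg.2 hn)]
  refine ka_inv_le (e := n) (by have := sqrt_pos.2 hw; positivity) hn le_rfl ?_
  rw [mul_pow, div_pow, sq_sqrt hw.le, one_pow, mul_right_comm, mul_one_div, le_div_iff₀ hw]
  linarith

lemma ka_cmp' {z w c : ℝ} (hw : 0 < w) (hz : 0 < z) (h : c ^ 2 * z ≤ w) :
    c * (1 / √w) ≤ 1 / √z := by
  refine ka_le_inv (e := z) hz le_rfl ?_
  rw [mul_pow, div_pow, sq_sqrt hw.le, one_pow, mul_right_comm, mul_one_div, div_le_iff₀ hw]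
  linarith

/-- The excess, with rounded constants. -/
noncomputable def kaE (t a b p q : ℝ) : ℝ :=
  23184 / 100000 * (1 + 51345 / 10000 * t) * a + 120464 / 100000 * (1 + 89161 / 10000 * t) * b -
    31512 / 100000 * (1 + 42408 / 10000 * t) * p - 93582 / 100000 * (1 + 7338 / 1000 * t) * q +
    634168 / 100000 + 3 / 10 * t

lemma ka_GA1 (η : ℝ) : GA 1 η = max 0 (263 / 1000 * (1 / √η) - 114 / 100) +
    max 0 (1482 / 1000 * (1 / √(1 - η)) - 231 / 100) := by
  simp only [GA, ↓reduceIte]
  congr 2 <;> ring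

lemma ka_GA0 (η : ℝ) : GA 0 η = max 0 (263 / 1000 * (1 / √η) - 57 / 100) +
    max 0 (2 / 100 * (1 / √(1 - η)) - 4 / 100) := by
  simp only [GA, zero_ne_one, ↓reduceIte]
  congr 2 <;> ring

lemma ka_GA2 (η : ℝ) : GA 2 η = max 0 (263 / 1000 * (1 / √η) - 99 / 100) +
    max 0 (0 * (1 / √(1 - η)) - 4 / 100) := by
  simp only [GA, Nat.reduceEqDiff, OfNat.ofNat_ne_zero, ↓reduceIte]
  congr 2 <;> ring

lemma ka_GA_nonneg (r : ℕ) (η : ℝ) : 0 ≤ GA r η :=
  add_nonneg (le_max_left _ _) (le_max_left _ _)

lemma ka_interp {t a b p q β G : ℝ} (h0 : 0 ≤ t) (h1 : t ≤ 258 / 10000)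
    (h : kaE 0 a b p q - β ≤ G ∧ kaE (258 / 10000) a b p q - β ≤ G) : kaE t a b p q - β ≤ G := by
  have k1 := mul_le_mul_of_nonneg_left h.1 (sub_nonneg.2 h1)
  have k2 := mul_le_mul_of_nonneg_left h.2 h0
  unfold kaE at *
  linarith

lemma ka_case1 {η : ℝ} (h0 : 0 < η) (h1 : η < 1) :
    kaE 0 (1 / √η) (1 / √(1 - η)) √(2 * η + 1) √(2 * (1 - η) / 3 + 1) - 29 / 4 ≤ GA 1 η ∧
    kaE (258 / 10000) (1 / √η) (1 / √(1 - η)) √(2 * η + 1) √(2 * (1 - η) / 3 + 1) - 29 / 4 ≤
      GA 1 η := by
  rw [ka_GA1]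
  unfold kaE
  have g1 := le_max_left 0 (263 / 1000 * (1 / √η) - 114 / 100)
  have g2 := le_max_right 0 (263 / 1000 * (1 / √η) - 114 / 100)
  have g3 := le_max_left 0 (1482 / 1000 * (1 / √(1 - η)) - 231 / 100)
  have g4 := le_max_right 0 (1482 / 1000 * (1 / √(1 - η)) - 231 / 100)
  rcases le_total η (3 / 50) with c0 | c0
  · have a1 := ka_le_inv (x := η) (c := (5103 / 1250)) (e := (3 / 50)) h0 (by linarith) (by norm_num)
    have a3 := ka_le_inv (x := 1 - η) (c := (1)) (e := (1)) (by linarith) (by linarith)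
      (by norm_num)
    have a4 := ka_inv_le (x := 1 - η) (c := (2063 / 2000)) (e := (47 / 50)) (by norm_num) (by norm_num)
      (by linarith) (by norm_num)
    have a5 := ka_le_sqrt (x := 2 * η + 1) (c := (1)) (e := (1)) (by linarith) (by norm_num)
    have a6 := ka_le_sqrt (x := 2 * (1 - η) / 3 + 1) (c := (6377 / 5000)) (e := (122 / 75))
      (by linarith) (by norm_num)
    constructor <;> linarith
  rcases le_total η (13 / 100) with c1 | c1
  · have a1 := ka_le_inv (x := η) (c := (5547 / 2000)) (e := (13 / 100)) h0 (by linarith) (by norm_num)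
    have a2 := ka_inv_le (x := η) (c := (1633 / 400)) (e := (3 / 50)) (by norm_num) (by norm_num)
      (by linarith) (by norm_num)
    have a3 := ka_le_inv (x := 1 - η) (c := (5157 / 5000)) (e := (47 / 50)) (by linarith) (by linarith)
      (by norm_num)
    have a4 := ka_inv_le (x := 1 - η) (c := (5361 / 5000)) (e := (87 / 100)) (by norm_num) (by norm_num)
      (by linarith) (by norm_num)
    have a5 := ka_le_sqrt (x := 2 * η + 1) (c := (10583 / 10000)) (e := (28 / 25)) (by linarith) (by norm_num)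
    have a6 := ka_le_sqrt (x := 2 * (1 - η) / 3 + 1) (c := (12569 / 10000)) (e := (79 / 50))
      (by linarith) (by norm_num)
    constructor <;> linarith
  rcases le_total η (19 / 50) with c2 | c2
  · have a1 := ka_le_inv (x := η) (c := (8111 / 5000)) (e := (19 / 50)) h0 (by linarith) (by norm_num)
    have a2 := ka_inv_le (x := η) (c := (3467 / 1250)) (e := (13 / 100)) (by norm_num) (by norm_num)
      (by linarith) (by norm_num)
    have a3 := ka_le_inv (x := 1 - η) (c := (10721 / 10000)) (e := (87 / 100)) (by linarith) (by linarith)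
      (by norm_num)
    have a4 := ka_inv_le (x := 1 - η) (c := (12701 / 10000)) (e := (31 / 50)) (by norm_num) (by norm_num)
      (by linarith) (by norm_num)
    have a5 := ka_le_sqrt (x := 2 * η + 1) (c := (1403 / 1250)) (e := (63 / 50)) (by linarith) (by norm_num)
    have a6 := ka_le_sqrt (x := 2 * (1 - η) / 3 + 1) (c := (743 / 625)) (e := (106 / 75))
      (by linarith) (by norm_num)
    constructor <;> linarith
  rcases le_total η (27 / 50) with c3 | c3
  · have a1 := ka_le_inv (x := η) (c := (1701 / 1250)) (e := (27 / 50)) h0 (by linarith) (by norm_num)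
    have a2 := ka_inv_le (x := η) (c := (16223 / 10000)) (e := (19 / 50)) (by norm_num) (by norm_num)
      (by linarith) (by norm_num)
    have a3 := ka_le_inv (x := 1 - η) (c := (127 / 100)) (e := (31 / 50)) (by linarith) (by linarith)
      (by norm_num)
    have a4 := ka_inv_le (x := 1 - η) (c := (2949 / 2000)) (e := (23 / 50)) (by norm_num) (by norm_num)
      (by linarith) (by norm_num)
    have a5 := ka_le_sqrt (x := 2 * η + 1) (c := (6633 / 5000)) (e := (44 / 25)) (by linarith) (by norm_num)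
    have a6 := ka_le_sqrt (x := 2 * (1 - η) / 3 + 1) (c := (1143 / 1000)) (e := (98 / 75))
      (by linarith) (by norm_num)
    constructor <;> linarith
  rcases le_total η (29 / 50) with c4 | c4
  · have a1 := ka_le_inv (x := η) (c := (1313 / 1000)) (e := (29 / 50)) h0 (by linarith) (by norm_num)
    have a2 := ka_inv_le (x := η) (c := (13609 / 10000)) (e := (27 / 50)) (by norm_num) (by norm_num)
      (by linarith) (by norm_num)
    have a3 := ka_le_inv (x := 1 - η) (c := (1843 / 1250)) (e := (23 / 50)) (by linarith) (by linarith)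
      (by norm_num)
    have a4 := ka_inv_le (x := 1 - η) (c := (15431 / 10000)) (e := (21 / 50)) (by norm_num) (by norm_num)
      (by linarith) (by norm_num)
    have a5 := ka_le_sqrt (x := 2 * η + 1) (c := (7211 / 5000)) (e := (52 / 25)) (by linarith) (by norm_num)
    have a6 := ka_le_sqrt (x := 2 * (1 - η) / 3 + 1) (c := (11313 / 10000)) (e := (32 / 25))
      (by linarith) (by norm_num)
    constructor <;> linarith
  rcases le_total η (63 / 100) with c5 | c5
  · have a1 := ka_le_inv (x := η) (c := (6299 / 5000)) (e := (63 / 100)) h0 (by linarith) (by norm_num)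
    have a2 := ka_inv_le (x := η) (c := (13131 / 10000)) (e := (29 / 50)) (by norm_num) (by norm_num)
      (by linarith) (by norm_num)
    have a3 := ka_le_inv (x := 1 - η) (c := (1543 / 1000)) (e := (21 / 50)) (by linarith) (by linarith)
      (by norm_num)
    have a4 := ka_inv_le (x := 1 - η) (c := (411 / 250)) (e := (37 / 100)) (by norm_num) (by norm_num)
      (by linarith) (by norm_num)
    have a5 := ka_le_sqrt (x := 2 * η + 1) (c := (1837 / 1250)) (e := (54 / 25)) (by linarith) (by norm_num)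
    have a6 := ka_le_sqrt (x := 2 * (1 - η) / 3 + 1) (c := (2233 / 2000)) (e := (187 / 150))
      (by linarith) (by norm_num)
    constructor <;> linarith
  rcases le_total η (71 / 100) with c6 | c6
  · have a1 := ka_le_inv (x := η) (c := (11867 / 10000)) (e := (71 / 100)) h0 (by linarith) (by norm_num)
    have a2 := ka_inv_le (x := η) (c := (12599 / 10000)) (e := (63 / 100)) (by norm_num) (by norm_num)
      (by linarith) (by norm_num)
    have a3 := ka_le_inv (x := 1 - η) (c := (16439 / 10000)) (e := (37 / 100)) (by linarith) (by linarith)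
      (by norm_num)
    have a4 := ka_inv_le (x := 1 - η) (c := (1857 / 1000)) (e := (29 / 100)) (by norm_num) (by norm_num)
      (by linarith) (by norm_num)
    have a5 := ka_le_sqrt (x := 2 * η + 1) (c := (15033 / 10000)) (e := (113 / 50)) (by linarith) (by norm_num)
    have a6 := ka_le_sqrt (x := 2 * (1 - η) / 3 + 1) (c := (10923 / 10000)) (e := (179 / 150))
      (by linarith) (by norm_num)
    constructor <;> linarith
  rcases le_total η (41 / 50) with c7 | c7
  · have a1 := ka_le_inv (x := η) (c := (11043 / 10000)) (e := (41 / 50)) h0 (by linarith) (by norm_num)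
    have a2 := ka_inv_le (x := η) (c := (2967 / 2500)) (e := (71 / 100)) (by norm_num) (by norm_num)
      (by linarith) (by norm_num)
    have a3 := ka_le_inv (x := 1 - η) (c := (18569 / 10000)) (e := (29 / 100)) (by linarith) (by linarith)
      (by norm_num)
    have a4 := ka_inv_le (x := 1 - η) (c := (23571 / 10000)) (e := (9 / 50)) (by norm_num) (by norm_num)
      (by linarith) (by norm_num)
    have a5 := ka_le_sqrt (x := 2 * η + 1) (c := (3889 / 2500)) (e := (121 / 50)) (by linarith) (by norm_num)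
    have a6 := ka_le_sqrt (x := 2 * (1 - η) / 3 + 1) (c := (10583 / 10000)) (e := (28 / 25))
      (by linarith) (by norm_num)
    constructor <;> linarith
  rcases le_total η (19 / 20) with c8 | c8
  · have a1 := ka_le_inv (x := η) (c := (10259 / 10000)) (e := (19 / 20)) h0 (by linarith) (by norm_num)
    have a2 := ka_inv_le (x := η) (c := (2761 / 2500)) (e := (41 / 50)) (by norm_num) (by norm_num)
      (by linarith) (by norm_num)
    have a3 := ka_le_inv (x := 1 - η) (c := (2357 / 1000)) (e := (9 / 50)) (by linarith) (by linarith)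
      (by norm_num)
    have a4 := ka_inv_le (x := 1 - η) (c := (22361 / 5000)) (e := (1 / 20)) (by norm_num) (by norm_num)
      (by linarith) (by norm_num)
    have a5 := ka_le_sqrt (x := 2 * η + 1) (c := (2031 / 1250)) (e := (66 / 25)) (by linarith) (by norm_num)
    have a6 := ka_le_sqrt (x := 2 * (1 - η) / 3 + 1) (c := (2033 / 2000)) (e := (31 / 30))
      (by linarith) (by norm_num)
    constructor <;> linarith
  have a1 := ka_le_inv (x := η) (c := (1)) (e := (1)) h0 (by linarith) (by norm_num)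
  have a2 := ka_inv_le (x := η) (c := (513 / 500)) (e := (19 / 20)) (by norm_num) (by norm_num)
    (by linarith) (by norm_num)
  have a3 := ka_le_inv (x := 1 - η) (c := (44721 / 10000)) (e := (1 / 20)) (by linarith) (by linarith)
    (by norm_num)
  have a5 := ka_le_sqrt (x := 2 * η + 1) (c := (17029 / 10000)) (e := (29 / 10)) (by linarith) (by norm_num)
  have a6 := ka_le_sqrt (x := 2 * (1 - η) / 3 + 1) (c := (1)) (e := (1))
    (by linarith) (by norm_num)
  constructor <;> linarith

lemma ka_case2 {η : ℝ} (h0 : 0 < η) (h1 : η < 1) :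
    kaE 0 (1 / √η) (1 / √(2 - η)) √(2 * η + 1) √(2 * (2 - η) / 3 + 1) - 6 ≤ GA 0 η ∧
    kaE (258 / 10000) (1 / √η) (1 / √(2 - η)) √(2 * η + 1) √(2 * (2 - η) / 3 + 1) - 6 ≤
      GA 0 η := by
  rw [ka_GA0]
  unfold kaE
  have g1 := le_max_left 0 (263 / 1000 * (1 / √η) - 57 / 100)
  have g2 := le_max_right 0 (263 / 1000 * (1 / √η) - 57 / 100)
  have g3 := le_max_left 0 (2 / 100 * (1 / √(1 - η)) - 4 / 100)
  have g4 := le_max_right 0 (2 / 100 * (1 / √(1 - η)) - 4 / 100)
  rcases le_total η (7 / 50) with c0 | c0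
  · have a1 := ka_le_inv (x := η) (c := (13363 / 5000)) (e := (7 / 50)) h0 (by linarith) (by norm_num)
    have a4 := ka_inv_le (x := 2 - η) (c := (7333 / 10000)) (e := (93 / 50)) (by norm_num) (by norm_num)
      (by linarith) (by norm_num)
    have a5 := ka_le_sqrt (x := 2 * η + 1) (c := (1)) (e := (1)) (by linarith) (by norm_num)
    have a6 := ka_le_sqrt (x := 2 * (2 - η) / 3 + 1) (c := (7483 / 5000)) (e := (56 / 25))
      (by linarith) (by norm_num)
    constructor <;> linarith
  rcases le_total η (1 / 5) with c1 | c1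
  · have a1 := ka_le_inv (x := η) (c := (559 / 250)) (e := (1 / 5)) h0 (by linarith) (by norm_num)
    have a2 := ka_inv_le (x := η) (c := (26727 / 10000)) (e := (7 / 50)) (by norm_num) (by norm_num)
      (by linarith) (by norm_num)
    have a4 := ka_inv_le (x := 2 - η) (c := (3727 / 5000)) (e := (9 / 5)) (by norm_num) (by norm_num)
      (by linarith) (by norm_num)
    have a5 := ka_le_sqrt (x := 2 * η + 1) (c := (11313 / 10000)) (e := (32 / 25)) (by linarith) (by norm_num)
    have a6 := ka_le_sqrt (x := 2 * (2 - η) / 3 + 1) (c := (927 / 625)) (e := (11 / 5))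
      (by linarith) (by norm_num)
    constructor <;> linarith
  rcases le_total η (23 / 100) with c2 | c2
  · have a1 := ka_le_inv (x := η) (c := (20851 / 10000)) (e := (23 / 100)) h0 (by linarith) (by norm_num)
    have a2 := ka_inv_le (x := η) (c := (22361 / 10000)) (e := (1 / 5)) (by norm_num) (by norm_num)
      (by linarith) (by norm_num)
    have a4 := ka_inv_le (x := 2 - η) (c := (7517 / 10000)) (e := (177 / 100)) (by norm_num) (by norm_num)
      (by linarith) (by norm_num)
    have a5 := ka_le_sqrt (x := 2 * η + 1) (c := (1479 / 1250)) (e := (7 / 5)) (by linarith) (by norm_num)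
    have a6 := ka_le_sqrt (x := 2 * (2 - η) / 3 + 1) (c := (3691 / 2500)) (e := (109 / 50))
      (by linarith) (by norm_num)
    constructor <;> linarith
  rcases le_total η (29 / 100) with c3 | c3
  · have a1 := ka_le_inv (x := η) (c := (18569 / 10000)) (e := (29 / 100)) h0 (by linarith) (by norm_num)
    have a2 := ka_inv_le (x := η) (c := (5213 / 2500)) (e := (23 / 100)) (by norm_num) (by norm_num)
      (by linarith) (by norm_num)
    have a4 := ka_inv_le (x := 2 - η) (c := (478 / 625)) (e := (171 / 100)) (by norm_num) (by norm_num)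
      (by linarith) (by norm_num)
    have a5 := ka_le_sqrt (x := 2 * η + 1) (c := (12083 / 10000)) (e := (73 / 50)) (by linarith) (by norm_num)
    have a6 := ka_le_sqrt (x := 2 * (2 - η) / 3 + 1) (c := (3657 / 2500)) (e := (107 / 50))
      (by linarith) (by norm_num)
    constructor <;> linarith
  rcases le_total η (43 / 100) with c4 | c4
  · have a1 := ka_le_inv (x := η) (c := (15249 / 10000)) (e := (43 / 100)) h0 (by linarith) (by norm_num)
    have a2 := ka_inv_le (x := η) (c := (1857 / 1000)) (e := (29 / 100)) (by norm_num) (by norm_num)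
      (by linarith) (by norm_num)
    have a4 := ka_inv_le (x := 2 - η) (c := (7981 / 10000)) (e := (157 / 100)) (by norm_num) (by norm_num)
      (by linarith) (by norm_num)
    have a5 := ka_le_sqrt (x := 2 * η + 1) (c := (12569 / 10000)) (e := (79 / 50)) (by linarith) (by norm_num)
    have a6 := ka_le_sqrt (x := 2 * (2 - η) / 3 + 1) (c := (7153 / 5000)) (e := (307 / 150))
      (by linarith) (by norm_num)
    constructor <;> linarith
  rcases le_total η (31 / 50) with c5 | c5
  · have a1 := ka_le_inv (x := η) (c := (127 / 100)) (e := (31 / 50)) h0 (by linarith) (by norm_num)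
    have a2 := ka_inv_le (x := η) (c := (61 / 40)) (e := (43 / 100)) (by norm_num) (by norm_num)
      (by linarith) (by norm_num)
    have a4 := ka_inv_le (x := 2 - η) (c := (8513 / 10000)) (e := (69 / 50)) (by norm_num) (by norm_num)
      (by linarith) (by norm_num)
    have a5 := ka_le_sqrt (x := 2 * η + 1) (c := (6819 / 5000)) (e := (93 / 50)) (by linarith) (by norm_num)
    have a6 := ka_le_sqrt (x := 2 * (2 - η) / 3 + 1) (c := (866 / 625)) (e := (48 / 25))
      (by linarith) (by norm_num)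
    constructor <;> linarith
  rcases le_total η (77 / 100) with c6 | c6
  · have a1 := ka_le_inv (x := η) (c := (2849 / 2500)) (e := (77 / 100)) h0 (by linarith) (by norm_num)
    have a2 := ka_inv_le (x := η) (c := (12701 / 10000)) (e := (31 / 50)) (by norm_num) (by norm_num)
      (by linarith) (by norm_num)
    have a4 := ka_inv_le (x := 2 - η) (c := (9017 / 10000)) (e := (123 / 100)) (by norm_num) (by norm_num)
      (by linarith) (by norm_num)
    have a5 := ka_le_sqrt (x := 2 * η + 1) (c := (7483 / 5000)) (e := (56 / 25)) (by linarith) (by norm_num)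
    have a6 := ka_le_sqrt (x := 2 * (2 - η) / 3 + 1) (c := (1349 / 1000)) (e := (91 / 50))
      (by linarith) (by norm_num)
    constructor <;> linarith
  rcases le_total η (17 / 20) with c7 | c7
  · have a1 := ka_le_inv (x := η) (c := (5423 / 5000)) (e := (17 / 20)) h0 (by linarith) (by norm_num)
    have a2 := ka_inv_le (x := η) (c := (11397 / 10000)) (e := (77 / 100)) (by norm_num) (by norm_num)
      (by linarith) (by norm_num)
    have a3 := ka_le_inv (x := 1 - η) (c := (20851 / 10000)) (e := (23 / 100)) (by linarith) (by linarith)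
      (by norm_num)
    have a4 := ka_inv_le (x := 2 - η) (c := (4663 / 5000)) (e := (23 / 20)) (by norm_num) (by norm_num)
      (by linarith) (by norm_num)
    have a5 := ka_le_sqrt (x := 2 * η + 1) (c := (15937 / 10000)) (e := (127 / 50)) (by linarith) (by norm_num)
    have a6 := ka_le_sqrt (x := 2 * (2 - η) / 3 + 1) (c := (13291 / 10000)) (e := (53 / 30))
      (by linarith) (by norm_num)
    constructor <;> linarith
  rcases le_total η (9 / 10) with c8 | c8
  · have a1 := ka_le_inv (x := η) (c := (527 / 500)) (e := (9 / 10)) h0 (by linarith) (by norm_num)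
    have a2 := ka_inv_le (x := η) (c := (10847 / 10000)) (e := (17 / 20)) (by norm_num) (by norm_num)
      (by linarith) (by norm_num)
    have a3 := ka_le_inv (x := 1 - η) (c := (25819 / 10000)) (e := (3 / 20)) (by linarith) (by linarith)
      (by norm_num)
    have a4 := ka_inv_le (x := 2 - η) (c := (1907 / 2000)) (e := (11 / 10)) (by norm_num) (by norm_num)
      (by linarith) (by norm_num)
    have a5 := ka_le_sqrt (x := 2 * η + 1) (c := (16431 / 10000)) (e := (27 / 10)) (by linarith) (by norm_num)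
    have a6 := ka_le_sqrt (x := 2 * (2 - η) / 3 + 1) (c := (2633 / 2000)) (e := (26 / 15))
      (by linarith) (by norm_num)
    constructor <;> linarith
  rcases le_total η (93 / 100) with c9 | c9
  · have a1 := ka_le_inv (x := η) (c := (10369 / 10000)) (e := (93 / 100)) h0 (by linarith) (by norm_num)
    have a2 := ka_inv_le (x := η) (c := (10541 / 10000)) (e := (9 / 10)) (by norm_num) (by norm_num)
      (by linarith) (by norm_num)
    have a3 := ka_le_inv (x := 1 - η) (c := (15811 / 5000)) (e := (1 / 10)) (by linarith) (by linarith)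
      (by norm_num)
    have a4 := ka_inv_le (x := 2 - η) (c := (2417 / 2500)) (e := (107 / 100)) (by norm_num) (by norm_num)
      (by linarith) (by norm_num)
    have a5 := ka_le_sqrt (x := 2 * η + 1) (c := (16733 / 10000)) (e := (14 / 5)) (by linarith) (by norm_num)
    have a6 := ka_le_sqrt (x := 2 * (2 - η) / 3 + 1) (c := (13089 / 10000)) (e := (257 / 150))
      (by linarith) (by norm_num)
    constructor <;> linarith
  rcases le_total η (24 / 25) with c10 | c10
  · have a1 := ka_le_inv (x := η) (c := (5103 / 5000)) (e := (24 / 25)) h0 (by linarith) (by norm_num)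
    have a2 := ka_inv_le (x := η) (c := (1037 / 1000)) (e := (93 / 100)) (by norm_num) (by norm_num)
      (by linarith) (by norm_num)
    have a3 := ka_le_inv (x := 1 - η) (c := (9449 / 2500)) (e := (7 / 100)) (by linarith) (by linarith)
      (by norm_num)
    have a4 := ka_inv_le (x := 2 - η) (c := (4903 / 5000)) (e := (26 / 25)) (by norm_num) (by norm_num)
      (by linarith) (by norm_num)
    have a5 := ka_le_sqrt (x := 2 * η + 1) (c := (16911 / 10000)) (e := (143 / 50)) (by linarith) (by norm_num)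
    have a6 := ka_le_sqrt (x := 2 * (2 - η) / 3 + 1) (c := (3253 / 2500)) (e := (127 / 75))
      (by linarith) (by norm_num)
    constructor <;> linarith
  rcases le_total η (99 / 100) with c11 | c11
  · have a1 := ka_le_inv (x := η) (c := (201 / 200)) (e := (99 / 100)) h0 (by linarith) (by norm_num)
    have a2 := ka_inv_le (x := η) (c := (10207 / 10000)) (e := (24 / 25)) (by norm_num) (by norm_num)
      (by linarith) (by norm_num)
    have a3 := ka_le_inv (x := 1 - η) (c := (5)) (e := (1 / 25)) (by linarith) (by linarith)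
      (by norm_num)
    have a4 := ka_inv_le (x := 2 - η) (c := (9951 / 10000)) (e := (101 / 100)) (by norm_num) (by norm_num)
      (by linarith) (by norm_num)
    have a5 := ka_le_sqrt (x := 2 * η + 1) (c := (1068 / 625)) (e := (73 / 25)) (by linarith) (by norm_num)
    have a6 := ka_le_sqrt (x := 2 * (2 - η) / 3 + 1) (c := (2587 / 2000)) (e := (251 / 150))
      (by linarith) (by norm_num)
    constructor <;> linarith
  have a1 := ka_le_inv (x := η) (c := (1)) (e := (1)) h0 (by linarith) (by norm_num)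
  have a2 := ka_inv_le (x := η) (c := (10051 / 10000)) (e := (99 / 100)) (by norm_num) (by norm_num)
    (by linarith) (by norm_num)
  have a3 := ka_le_inv (x := 1 - η) (c := (10)) (e := (1 / 100)) (by linarith) (by linarith)
    (by norm_num)
  have a4 := ka_inv_le (x := 2 - η) (c := (1)) (e := (1)) (by norm_num) (by norm_num)
    (by linarith) (by norm_num)
  have a5 := ka_le_sqrt (x := 2 * η + 1) (c := (8631 / 5000)) (e := (149 / 50)) (by linarith) (by norm_num)
  have a6 := ka_le_sqrt (x := 2 * (2 - η) / 3 + 1) (c := (12909 / 10000)) (e := (5 / 3))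
    (by linarith) (by norm_num)
  constructor <;> linarith

lemma ka_case3 {η : ℝ} (h0 : 0 < η) (h1 : η < 1) :
    kaE 0 (1 / √η) (1 / √(3 - η)) √(2 * η + 1) √(2 * (3 - η) / 3 + 1) - 6 ≤ GA 2 η ∧
    kaE (258 / 10000) (1 / √η) (1 / √(3 - η)) √(2 * η + 1) √(2 * (3 - η) / 3 + 1) - 6 ≤
      GA 2 η := by
  rw [ka_GA2]
  unfold kaE
  have g1 := le_max_left 0 (263 / 1000 * (1 / √η) - 99 / 100)
  have g2 := le_max_right 0 (263 / 1000 * (1 / √η) - 99 / 100)
  have g3 := le_max_left 0 (0 * (1 / √(1 - η)) - 4 / 100)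
  have g4 := le_max_right 0 (0 * (1 / √(1 - η)) - 4 / 100)
  rcases le_total η (7 / 100) with c0 | c0
  · have a1 := ka_le_inv (x := η) (c := (9449 / 2500)) (e := (7 / 100)) h0 (by linarith) (by norm_num)
    have a4 := ka_inv_le (x := 3 - η) (c := (5843 / 10000)) (e := (293 / 100)) (by norm_num) (by norm_num)
      (by linarith) (by norm_num)
    have a5 := ka_le_sqrt (x := 2 * η + 1) (c := (1)) (e := (1)) (by linarith) (by norm_num)
    have a6 := ka_le_sqrt (x := 2 * (3 - η) / 3 + 1) (c := (3437 / 2000)) (e := (443 / 150))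
      (by linarith) (by norm_num)
    constructor <;> linarith
  rcases le_total η (7 / 50) with c1 | c1
  · have a1 := ka_le_inv (x := η) (c := (13363 / 5000)) (e := (7 / 50)) h0 (by linarith) (by norm_num)
    have a2 := ka_inv_le (x := η) (c := (37797 / 10000)) (e := (7 / 100)) (by norm_num) (by norm_num)
      (by linarith) (by norm_num)
    have a4 := ka_inv_le (x := 3 - η) (c := (2957 / 5000)) (e := (143 / 50)) (by norm_num) (by norm_num)
      (by linarith) (by norm_num)
    have a5 := ka_le_sqrt (x := 2 * η + 1) (c := (10677 / 10000)) (e := (57 / 50)) (by linarith) (by norm_num)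
    have a6 := ka_le_sqrt (x := 2 * (3 - η) / 3 + 1) (c := (2131 / 1250)) (e := (218 / 75))
      (by linarith) (by norm_num)
    constructor <;> linarith
  rcases le_total η (93 / 100) with c2 | c2
  · have a1 := ka_le_inv (x := η) (c := (10369 / 10000)) (e := (93 / 100)) h0 (by linarith) (by norm_num)
    have a2 := ka_inv_le (x := η) (c := (26727 / 10000)) (e := (7 / 50)) (by norm_num) (by norm_num)
      (by linarith) (by norm_num)
    have a4 := ka_inv_le (x := 3 - η) (c := (6951 / 10000)) (e := (207 / 100)) (by norm_num) (by norm_num)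
      (by linarith) (by norm_num)
    have a5 := ka_le_sqrt (x := 2 * η + 1) (c := (11313 / 10000)) (e := (32 / 25)) (by linarith) (by norm_num)
    have a6 := ka_le_sqrt (x := 2 * (3 - η) / 3 + 1) (c := (15427 / 10000)) (e := (119 / 50))
      (by linarith) (by norm_num)
    constructor <;> linarith
  have a1 := ka_le_inv (x := η) (c := (1)) (e := (1)) h0 (by linarith) (by norm_num)
  have a2 := ka_inv_le (x := η) (c := (1037 / 1000)) (e := (93 / 100)) (by norm_num) (by norm_num)
    (by linarith) (by norm_num)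
  have a4 := ka_inv_le (x := 3 - η) (c := (442 / 625)) (e := (2)) (by norm_num) (by norm_num)
    (by linarith) (by norm_num)
  have a5 := ka_le_sqrt (x := 2 * η + 1) (c := (16911 / 10000)) (e := (143 / 50)) (by linarith) (by norm_num)
  have a6 := ka_le_sqrt (x := 2 * (3 - η) / 3 + 1) (c := (611 / 400)) (e := (7 / 3))
    (by linarith) (by norm_num)
  constructor <;> linarith

lemma ka_alg {t a b p q a' b' u : ℝ} (ht : 0 ≤ t) (ha : 0 ≤ a) (hb : 0 ≤ b) (hp : 0 ≤ p)
    (hq : 0 ≤ q) (ha' : a' ≤ 70711 / 100000 * a) (hb' : b' ≤ 122475 / 100000 * b)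
    (hu1 : 318309 / 1000000 ≤ u) (hu2 : u ≤ 31831 / 100000) :
    ((1 + 6 * (7082 / 10000 * t)) * (103 / 100) * a' -
        (1 + 6 * (7068 / 10000 * t)) * (99 / 100) * p) * u +
      3 * ((1 + 6 * (12298 / 10000 * t)) * (103 / 100) * b' -
        (1 + 6 * (1223 / 1000 * t)) * (98 / 100) * q) * u +
      (0 + 5 / 4 * (7082 / 10000 * t)) * (103 / 100) * a' * u +
      3 * ((0 + 5 / 4 * (12298 / 10000 * t)) * (103 / 100) * b') * u +
      77 / 12 * (1004 / 1000 * (63 / 64)) ≤ kaE t a b p q - 3 / 10 * t := by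
  have hu0 : 0 ≤ u := by linarith
  have h1 : a' * u ≤ 225081 / 1000000 * a := by
    have := mul_le_mul ha' hu2 hu0 (by positivity)
    linarith
  have h2 : b' * u ≤ 389851 / 1000000 * b := by
    have := mul_le_mul hb' hu2 hu0 (by positivity)
    linarith
  have h3 := mul_le_mul_of_nonneg_left hu1 hp
  have h4 := mul_le_mul_of_nonneg_left hu1 hq
  have k1 := mul_le_mul_of_nonneg_left h1 ht
  have k2 := mul_le_mul_of_nonneg_left h2 ht
  have k3 := mul_le_mul_of_nonneg_left h3 ht
  have k4 := mul_le_mul_of_nonneg_left h4 ht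
  have m1 := mul_nonneg ht ha
  have m2 := mul_nonneg ht hb
  have m3 := mul_nonneg ht hp
  have m4 := mul_nonneg ht hq
  unfold kaE
  linarith

lemma ka_cont (α β : ℝ) {c : ℝ} (hc : c ≤ 7) :
    ContinuousOn (fun z : ℝ => α + β * (1 / √(z - c))) (Ici 600) := by
  refine continuousOn_const.add (continuousOn_const.mul (continuousOn_const.div
    (by fun_prop) fun z hz => (sqrt_pos.2 ?_).ne'))
  have : (600 : ℝ) ≤ z := hz
  linarith

lemma ka_int {y α β c : ℝ} (hy : 1503 ≤ y) (hβ : 0 ≤ β) (hc : c ≤ 7) :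
    ∫ s in (0 : ℝ)..2, (α + β * (1 / √((y + 1 / 4) / mm s - c))) ≤
      2 * α + β * (1004 / 1000 * (1 / √(y + 1 / 4))) * (2 * (63 / 64)) := by
  have hw : 0 < y + 1 / 4 := by linarith
  have hG := G_cont (y := y) (by linarith) _ (ka_cont α β hc)
  have hs : Continuous fun s => √(mm s) := continuous_mm.sqrt
  have hk : 0 ≤ β * (1004 / 1000 * (1 / √(y + 1 / 4))) := by positivity
  have h1 : ∫ s in (0 : ℝ)..2, (α + β * (1 / √((y + 1 / 4) / mm s - c))) ≤
      ∫ s in (0 : ℝ)..2, (α + β * (1004 / 1000 * (1 / √(y + 1 / 4))) * √(mm s)) := by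
    refine intervalIntegral.integral_mono_on (by norm_num) (hG.intervalIntegrable _ _)
      (Continuous.intervalIntegrable (by fun_prop) _ _) fun s _ => ?_
    have a := div_mm_ge hw.le s
    have hz : 0 < (y + 1 / 4) / mm s := by linarith
    have b := ka_cmp (n := (y + 1 / 4) / mm s - c) (c := 1004 / 1000) hz (by norm_num)
      (by linarith)
    have e : 1 / √((y + 1 / 4) / mm s) = 1 / √(y + 1 / 4) * √(mm s) := by
      rw [sqrt_div hw.le, one_div_div]; ring
    rw [e] at b
    have := mul_le_mul_of_nonneg_left b hβ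
    linarith
  have h3 : ∀ k : ℝ, ∫ s in (0 : ℝ)..2, (α + k * √(mm s)) =
      2 * α + k * ∫ s in (0 : ℝ)..2, √(mm s) := fun k => by
    rw [intervalIntegral.integral_add (by simp) (Continuous.intervalIntegrable (by fun_prop) _ _),
      intervalIntegral.integral_const_mul, intervalIntegral.integral_const]
    simp only [smul_eq_mul, sub_zero]
  have h2 := mul_le_mul_of_nonneg_left avg_sqrt hk
  rw [h3] at h1
  linarith

lemma ka_floor {n : ℕ} {x : ℝ} (hx : x ∈ UA n) : ⌊x⌋₊ = n := by
  unfold UA at hx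
  have hn : (0 : ℝ) ≤ n := n.cast_nonneg
  split_ifs at hx with h
  · exact (Nat.floor_eq_iff (hn.trans hx.1)).2 ⟨hx.1, hx.2⟩
  · have h1 : (1 : ℝ) ≤ n := by exact_mod_cast (by omega : 1 ≤ n)
    have h2 : (0 : ℝ) < 4 / (5 * n) := by positivity
    have h3 : (0 : ℝ) < 1 / (4 * n) := by positivity
    exact (Nat.floor_eq_iff (by linarith [hx.1])).2 ⟨by linarith [hx.1], by linarith [hx.2]⟩

lemma ka_mono {n z : ℝ} (hz : 0 < z) (h : z ≤ n) : 1 / √n ≤ 1 / √z :=
  one_div_le_one_div_of_le (sqrt_pos.2 hz) (sqrt_le_sqrt h)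

lemma ka_sum {y : ℝ} (hy : 1503 ≤ y) {m M : ℕ} (hm1 : (m : ℝ) < y) (hm2 : y < m + 1)
    (hM : M % 3 = 2) (hM1 : y < M) (hM2 : (M : ℝ) < y + 3) (S : Finset ℕ) (x : ℕ → ℝ)
    (hx : ∀ n ∈ S, x n ∈ UA n ∧ ff (x n) = y) :
    (y + 1 / 4) * ∑ n ∈ S, HA (x n) / |ff' (x n)| ≤ 1 + 1 / √(y + 1 / 4) *
      (kaE (1 / √(y + 1 / 4)) (1 / √(y - m)) (1 / √(M - y)) √(2 * (y - m) + 1)
        √(2 * (M - y) / 3 + 1) - 3 / 10 * (1 / √(y + 1 / 4))) := by
  have hw : 0 < y + 1 / 4 := by linarith
  have up : ∀ n : ℕ, |n - 2 * y| ≤ 8 → 1 / √(n : ℝ) ≤ 7082 / 10000 * (1 / √(y + 1 / 4)) :=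
    fun n h => ka_cmp hw (by norm_num) (by linarith [(abs_le.1 h).1])
  have up' : ∀ n : ℕ, |n - 2 * y / 3| ≤ 8 →
      1 / √(n : ℝ) ≤ 12298 / 10000 * (1 / √(y + 1 / 4)) :=
    fun n h => ka_cmp hw (by norm_num) (by linarith [(abs_le.1 h).1])
  have L1 := lapsum (y := y) (by linarith) hm1 hm2 hM hM1 hM2
    (fun z : ℝ => 1 + 6 * (1 / √(z - 5))) (ka_cont 1 6 (by norm_num))
    (fun n => 1 + 6 * (1 / √(n : ℝ))) (fun n => by positivity)
    (fun n z a b c => by
      have := ka_mono (n := n) (z := z - 5) (by linarith) (by linarith [(abs_le.1 c).2])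
      linarith)
    (Pu := 1 + 6 * (7082 / 10000 * (1 / √(y + 1 / 4))))
    (Pl := 1 + 6 * (12298 / 10000 * (1 / √(y + 1 / 4))))
    (Lu := 1 + 6 * (7068 / 10000 * (1 / √(y + 1 / 4))))
    (Ll := 1 + 6 * (1223 / 1000 * (1 / √(y + 1 / 4))))
    (fun n h => by linarith [up n h]) (fun n h => by linarith [up' n h])
    (fun z h => by
      have := ka_cmp' (z := z - 5) (c := 7068 / 10000) hw (by linarith [(abs_le.1 h).1])
        (by linarith [(abs_le.1 h).2])
      linarith)
    (fun z h => by
      have := ka_cmp' (z := z - 5) (c := 1223 / 1000) hw (by linarith [(abs_le.1 h).1])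
        (by linarith [(abs_le.1 h).2])
      linarith) S x hx
  have L2 := lapsum3 (y := y) (by linarith) hm1 hm2 hM hM1 hM2
    (fun z : ℝ => 0 + 5 / 4 * (1 / √(z - 7))) (ka_cont 0 (5 / 4) le_rfl)
    (fun n => 0 + 5 / 4 * (1 / √(n : ℝ))) (fun n => by positivity)
    (fun n z a b c => by
      have := ka_mono (n := n) (z := z - 7) (by linarith) (by linarith [(abs_le.1 c).2])
      linarith)
    (Pu := 0 + 5 / 4 * (7082 / 10000 * (1 / √(y + 1 / 4))))
    (Pl := 0 + 5 / 4 * (12298 / 10000 * (1 / √(y + 1 / 4))))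
    (fun n h => by linarith [up n h]) (fun n h => by linarith [up' n h])
    (S.filter fun n => n % 3 = 1) (fun n h => (Finset.mem_filter.1 h).2) x
    (fun n h => hx n (Finset.mem_filter.1 h).1)
  have I1 := ka_int (α := 1) (β := 6) (c := 5) hy (by norm_num) (by norm_num)
  have I2 := ka_int (α := 0) (β := 5 / 4) (c := 7) hy (by norm_num) le_rfl
  have e : ∑ n ∈ S, HA (x n) / |ff' (x n)| =
      ∑ n ∈ S, (1 + 6 * (1 / √(n : ℝ))) / ((x n + 1 / 2) * |ff' (x n)|) +
      ∑ n ∈ S.filter fun n => n % 3 = 1,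
        (0 + 5 / 4 * (1 / √(n : ℝ))) / ((x n + 1 / 2) * |ff' (x n)|) := by
    rw [Finset.sum_filter, ← Finset.sum_add_distrib]
    refine Finset.sum_congr rfl fun n hn => ?_
    have h := (hx n hn).1
    unfold HA
    rw [ka_floor h, if_pos h, div_div]
    unfold Phi0
    split_ifs <;> ring
  have hη : 0 < y - m := by linarith
  have hd : 0 < M - y := by linarith
  have hπ : 0 < π := pi_pos
  have A := ka_alg (t := 1 / √(y + 1 / 4)) (a := 1 / √(y - m)) (b := 1 / √(M - y))
    (p := √(2 * (y - m) + 1)) (q := √(2 * (M - y) / 3 + 1)) (a' := 1 / √(2 * (y - m)))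
    (b' := 1 / √(2 * (M - y) / 3)) (u := 1 / π) (by positivity) (by positivity) (by positivity)
    (by positivity) (by positivity) (ka_cmp hη (by norm_num) (by linarith))
    (ka_cmp hd (by norm_num) (by linarith))
    (by rw [le_div_iff₀ hπ]; linarith [pi_lt_d6]) (by rw [div_le_iff₀ hπ]; linarith [pi_gt_d6])
  have ht : 0 ≤ 1 / √(y + 1 / 4) := by positivity
  have B := mul_le_mul_of_nonneg_left A ht
  have r1 : ∀ v : ℝ, v / (π * √(y + 1 / 4)) = 1 / √(y + 1 / 4) * (v * (1 / π)) := fun v => by ring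
  have r2 : ∀ v : ℝ, v / √(2 * (y - m)) = v * (1 / √(2 * (y - m))) := fun v => by ring
  have r3 : ∀ v : ℝ, v / √(2 * (M - y) / 3) = v * (1 / √(2 * (M - y) / 3)) := fun v => by ring
  rw [r1, r1, r2, r3] at L1 L2
  rw [e, mul_add]
  generalize 1 / √(y + 1 / 4) = t at *
  generalize 1 / √(2 * (y - m)) = a' at *
  generalize 1 / √(2 * (M - y) / 3) = b' at *
  generalize 1 / π = u at *
  linarith

theorem keyA {y : ℝ} (hy : 1503 ≤ y) (hn : ∀ m : ℕ, y ≠ m) : Key UA HA bA y := by
  intro S x hx
  have hw : 0 < y + 1 / 4 := by linarith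
  have hy0 : 0 < y := by linarith
  unfold bA
  have hH1 : y ∈ UA ⌊y⌋₊ → HA y = Phi0 ⌊y⌋₊ / (y + 1 / 2) := fun h => by
    unfold HA; rw [if_pos h]
  have hH2 : y ∉ UA ⌊y⌋₊ → HA y = 0 := fun h => by unfold HA; rw [if_neg h]
  have hm1 : (⌊y⌋₊ : ℝ) < y := lt_of_le_of_ne (Nat.floor_le hy0.le) (hn _).symm
  have hm2 : y < ⌊y⌋₊ + 1 := Nat.lt_floor_add_one y
  have hm0 : (1503 : ℝ) ≤ ⌊y⌋₊ := by exact_mod_cast Nat.le_floor (n := 1503) (by exact_mod_cast hy)
  generalize ⌊y⌋₊ = m at *
  have ht0 : 0 ≤ 1 / √(y + 1 / 4) := by positivity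
  have ht1 : 1 / √(y + 1 / 4) ≤ 258 / 10000 :=
    ka_inv_le (e := 1503) (by norm_num) (by norm_num) (by linarith) (by norm_num)
  have hη : 0 < y - m := by linarith
  have hη1 : y - m < 1 := by linarith
  have main : (y + 1 / 4) * ∑ n ∈ S, HA (x n) / |ff' (x n)| ≤ 1 + 1 / √(y + 1 / 4) *
      ((6 + if m % 3 = 1 then 5 / 4 else 0) + GA (m % 3) (y - m) -
        3 / 10 * (1 / √(y + 1 / 4))) := by
    obtain h | h | h : m % 3 = 1 ∨ m % 3 = 0 ∨ m % 3 = 2 := by omega
    · have k := ka_sum hy hm1 hm2 (M := m + 1) (by omega) (by push_cast; linarith)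
        (by push_cast; linarith) S x hx
      rw [show ((m + 1 : ℕ) : ℝ) - y = 1 - (y - m) by push_cast; ring] at k
      have j := mul_le_mul_of_nonneg_left (ka_interp ht0 ht1 (ka_case1 hη hη1)) ht0
      rw [h, if_pos rfl]
      linarith
    · have k := ka_sum hy hm1 hm2 (M := m + 2) (by omega) (by push_cast; linarith)
        (by push_cast; linarith) S x hx
      rw [show ((m + 2 : ℕ) : ℝ) - y = 2 - (y - m) by push_cast; ring] at k
      have j := mul_le_mul_of_nonneg_left (ka_interp ht0 ht1 (ka_case2 hη hη1)) ht0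
      rw [h, if_neg (by omega)]
      linarith
    · have k := ka_sum hy hm1 hm2 (M := m + 3) (by omega) (by push_cast; linarith)
        (by push_cast; linarith) S x hx
      rw [show ((m + 3 : ℕ) : ℝ) - y = 3 - (y - m) by push_cast; ring] at k
      have j := mul_le_mul_of_nonneg_left (ka_interp ht0 ht1 (ka_case3 hη hη1)) ht0
      rw [h, if_neg (by omega)]
      linarith
  have hG := ka_GA_nonneg (m % 3) (y - m)
  generalize GA (m % 3) (y - m) = G at *
  have hβ : (0 : ℝ) ≤ (6 + if m % 3 = 1 then 5 / 4 else 0) ∧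
      (6 + if m % 3 = 1 then 5 / 4 else 0 : ℝ) ≤ 29 / 4 := by
    split_ifs <;> norm_num
  have hP : Phi0 m = 1 + (6 + if m % 3 = 1 then 5 / 4 else 0) * (1 / √(m : ℝ)) := by
    unfold Phi0; ring
  generalize (6 + if m % 3 = 1 then 5 / 4 else 0 : ℝ) = β at *
  have g1 : 1 / √(y + 1 / 4) * G ≤ (y + 1 / 4) * (G / (y * √y)) := by
    have a := ka_mono (n := y + 1 / 4) hy0 (by linarith)
    have b : (y + 1 / 4) * (G / (y * √y)) = (y + 1 / 4) / y * (1 / √y * G) := by ring
    have c : 1 ≤ (y + 1 / 4) / y := by rw [le_div_iff₀ hy0]; linarith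
    have d := mul_le_mul_of_nonneg_right a hG
    have e : 0 ≤ 1 / √y * G := by positivity
    rw [b]
    nlinarith
  have tt : 1 / √(y + 1 / 4) * (1 / √(y + 1 / 4)) = 1 / (y + 1 / 4) := by
    rw [div_mul_div_comm, mul_self_sqrt hw.le, one_mul]
  refine le_of_mul_le_mul_left (main.trans ?_) hw
  split_ifs with h
  · rw [hH1 h]
    have a := ka_mono (n := y + 1 / 4) (z := m) (by linarith) (by linarith)
    have b : 1 / √(m : ℝ) ≤ 258 / 10000 :=
      ka_inv_le (e := 1503) (by norm_num) (by norm_num) hm0 (by norm_num)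
    have c := mul_le_mul_of_nonneg_left a hβ.1
    have d := mul_le_mul hβ.2 b (by positivity) (by norm_num)
    have e : (y + 1 / 4) * (Phi0 m / (y + 1 / 2)) = Phi0 m - Phi0 m / 4 * (1 / (y + 1 / 2)) := by
      field_simp
      ring
    have f : 1 / (y + 1 / 2) ≤ 1 / (y + 1 / 4) := one_div_le_one_div_of_le hw (by linarith)
    have g : Phi0 m / 4 * (1 / (y + 1 / 2)) ≤ 3 / 10 * (1 / (y + 1 / 4)) :=
      mul_le_mul (by linarith) f (by positivity) (by norm_num)
    linarith
  · rw [hH2 h]
    have c := mul_le_mul hβ.2 ht1 ht0 (by norm_num)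
    have e : 119 / 100 ≤ (y + 1 / 4) * (119 / 100 / y) := by
      rw [← mul_div_assoc, le_div_iff₀ hy0]; linarith
    have f : 0 ≤ 1 / (y + 1 / 4) := by positivity
    linarith

end Pool.Agent.Lib.MP_2dc536_an.X
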