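import Pool.Agent.Lib.MP_2dc536_an.X.KeyT
import Pool.Agent.Lib.MP_2dc536_an.X.Cost

/-!
The ramp is glued to the weight, and the density bound follows.
-/

namespace Pool.Agent.Lib.MP_2dc536_an.X

open Real Set MeasureTheory

lemma tp_top0 {B X : ℝ} (hB : 0 ≤ B) (n : ℕ) : 0 ≤ top B X n := by
  unfold top
  split_ifs with h
  · rcases Nat.eq_zero_or_pos n with h0 | h0
    · subst h0
      simp
    · have h1 : (0 : ℝ) < n := by exact_mod_cast h0
      have h2 : 0 ≤ log (X / n) := log_nonneg ((one_le_div h1).2 h)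
      positivity
  · positivity

lemma tp_Phi1 (n : ℕ) : 1 ≤ Phi0 n := by
  unfold Phi0
  have : (0 : ℝ) ≤ (6 + if n % 3 = 1 then (5 : ℝ) / 4 else 0) / √(n : ℝ) := by
    refine div_nonneg ?_ (sqrt_nonneg _)
    split_ifs <;> norm_num
  linarith

lemma tp_Phi2 {Z n : ℕ} (hZ : 1 ≤ Z) (h : Z ≤ n) : Phi0 n ≤ 1 + 8 / √(Z : ℝ) := by
  unfold Phi0
  have h0 : (0 : ℝ) < Z := by exact_mod_cast hZ
  have h1 : √(Z : ℝ) ≤ √(n : ℝ) := sqrt_le_sqrt (by exact_mod_cast h)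
  have h2 : (6 + if n % 3 = 1 then (5 : ℝ) / 4 else 0) / √(n : ℝ) ≤ 8 / √(Z : ℝ) := by
    refine div_le_div₀ (by norm_num) ?_ (sqrt_pos.2 h0) h1
    split_ifs <;> norm_num
  linarith

lemma tp_GA0 (r : ℕ) (η : ℝ) : 0 ≤ GA r η := add_nonneg (le_max_left _ _) (le_max_left _ _)

lemma tp_bA {y : ℝ} (hy : 0 < y) (h : y ∉ UA ⌊y⌋₊) : 1 / y ≤ bA y := by
  unfold bA
  rw [if_neg h]
  have h1 : 0 ≤ GA (⌊y⌋₊ % 3) (y - ⌊y⌋₊) / (y * √y) := div_nonneg (tp_GA0 _ _) (by positivity)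
  have h2 : 1 / y ≤ 119 / 100 / y := div_le_div_of_nonneg_right (by norm_num) hy.le
  linarith

open Classical in
/-- The glued weight. -/
noncomputable def tpH (H : ℝ → ℝ) (Z : ℕ) (B X C x : ℝ) : ℝ :=
  if x < Z then C * H x else
    if x ∈ UA ⌊x⌋₊ then min (top B X ⌊x⌋₊) (C * Phi0 ⌊x⌋₊) / (x + 1 / 2) else 0

lemma tp_H0 {H : ℝ → ℝ} {Z : ℕ} {B X C : ℝ} (hH0 : ∀ x, 0 ≤ H x) (hB : 0 ≤ B) (hC : 0 ≤ C)
    (x : ℝ) : 0 ≤ tpH H Z B X C x := by
  unfold tpH
  split_ifs with h1 h2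
  · exact mul_nonneg hC (hH0 x)
  · have h3 : (0 : ℝ) ≤ Z := Nat.cast_nonneg Z
    exact div_nonneg (le_min (tp_top0 hB _) (mul_nonneg hC (by linarith [tp_Phi1 ⌊x⌋₊])))
      (by linarith [not_lt.1 h1])
  · exact le_rfl

lemma tp_Hle {H : ℝ → ℝ} {Z : ℕ} {B X C : ℝ} (hZ : 3000 ≤ Z)
    (hHA : ∀ x, 3000 ≤ x → H x = HA x) (x : ℝ) : tpH H Z B X C x ≤ C * H x := by
  have h3 : (3000 : ℝ) ≤ Z := by exact_mod_cast hZ
  unfold tpH
  split_ifs with h1 h2
  · exact le_rfl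
  · rw [hHA x (by linarith [not_lt.1 h1])]
    unfold HA
    rw [if_pos h2, ← mul_div_assoc]
    exact div_le_div_of_nonneg_right (min_le_right _ _) (by linarith [not_lt.1 h1])
  · rw [hHA x (by linarith [not_lt.1 h1])]
    unfold HA
    rw [if_neg h2, mul_zero]

lemma tp_Heq {H : ℝ → ℝ} {Z : ℕ} {B X C : ℝ} (hZ : 3000 ≤ Z)
    (hHA : ∀ x, 3000 ≤ x → H x = HA x) {x : ℝ}
    (h : (Z : ℝ) ≤ x → x ∈ UA ⌊x⌋₊ → C * Phi0 ⌊x⌋₊ ≤ top B X ⌊x⌋₊) :
    tpH H Z B X C x = C * H x := by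
  have h3 : (3000 : ℝ) ≤ Z := by exact_mod_cast hZ
  unfold tpH
  split_ifs with h1 h2
  · rfl
  · rw [hHA x (by linarith [not_lt.1 h1])]
    unfold HA
    rw [if_pos h2, ← mul_div_assoc, min_eq_right (h (not_lt.1 h1) h2)]
  · rw [hHA x (by linarith [not_lt.1 h1])]
    unfold HA
    rw [if_neg h2, mul_zero]

lemma tp_fin {H : ℝ → ℝ} {Z : ℕ} {B X C : ℝ} (hZ : 3000 ≤ Z) (hC : 0 ≤ C) (hX : (Z : ℝ) ≤ X)
    (hneg : ∀ x, x < 0 → H x = 0) (hHb : ∀ x, H x ≤ 64)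
    (hHA : ∀ x, 3000 ≤ x → H x = HA x) :
    ∫⁻ x, ENNReal.ofReal (tpH H Z B X C x) ≠ ⊤ := by
  have h3 : (3000 : ℝ) ≤ Z := by exact_mod_cast hZ
  have hI : IntegrableOn (fun x : ℝ => 60 * √(2 * X) * x ^ (-(3 / 2) : ℝ)) (Ioi (X + 2)) :=
    (integrableOn_Ioi_rpow_of_lt (by norm_num) (by linarith)).const_mul _
  have hle : ∀ x, ENNReal.ofReal (tpH H Z B X C x) ≤
      (Icc 0 (X + 2)).indicator (fun _ => ENNReal.ofReal (C * 64)) x +
      (Ioi (X + 2)).indicator (fun x => ENNReal.ofReal (60 * √(2 * X) * x ^ (-(3 / 2) : ℝ))) x := by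
    intro x
    rcases lt_or_ge x 0 with h | h
    · have := tp_Hle (B := B) (X := X) (C := C) hZ hHA x
      rw [hneg x h, mul_zero] at this
      rw [ENNReal.ofReal_of_nonpos this]
      exact zero_le
    rcases le_or_gt x (X + 2) with h' | h'
    · rw [indicator_of_mem (show x ∈ Icc 0 (X + 2) from ⟨h, h'⟩)]
      refine le_trans (ENNReal.ofReal_le_ofReal ?_) le_self_add
      exact (tp_Hle hZ hHA x).trans (mul_le_mul_of_nonneg_left (hHb x) hC)
    · rw [indicator_of_mem (show x ∈ Ioi (X + 2) from h')]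
      refine le_trans (ENNReal.ofReal_le_ofReal ?_) le_add_self
      have hx : 0 < x := by linarith
      have e : x ^ (-(3 / 2) : ℝ) = 1 / (x * √x) := by
        rw [rpow_neg hx.le, show (3 / 2 : ℝ) = 1 + 1 / 2 by norm_num, rpow_add hx, rpow_one,
          ← sqrt_eq_rpow, one_div]
      have h5 : x < ⌊x⌋₊ + 1 := Nat.lt_floor_add_one x
      have hs : 0 < √x := sqrt_pos.2 hx
      rw [e]
      unfold tpH
      rw [if_neg (by linarith)]
      split_ifs with h2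
      · have h6 : top B X ⌊x⌋₊ ≤ 60 * (√(2 * X) / √x) := by
          unfold top
          rw [if_neg (by linarith), ← sqrt_div (by linarith)]
          refine mul_le_mul_of_nonneg_left (sqrt_le_sqrt ?_) (by norm_num)
          rw [div_le_div_iff₀ (by linarith) hx]
          nlinarith
        have h7 : 0 ≤ 60 * (√(2 * X) / √x) := by positivity
        calc min (top B X ⌊x⌋₊) (C * Phi0 ⌊x⌋₊) / (x + 1 / 2)
            ≤ 60 * (√(2 * X) / √x) / x :=
              div_le_div₀ h7 ((min_le_left _ _).trans h6) hx (by linarith)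
          _ = 60 * √(2 * X) * (1 / (x * √x)) := by field_simp
      · positivity
  refine ne_top_of_le_ne_top ?_ (lintegral_mono hle)
  rw [lintegral_add_left (measurable_const.indicator measurableSet_Icc),
    lintegral_indicator measurableSet_Icc, lintegral_indicator measurableSet_Ioi]
  refine ENNReal.add_ne_top.2 ⟨?_, hI.lintegral_lt_top.ne⟩
  rw [setLIntegral_const, Real.volume_Icc]
  exact ENNReal.mul_ne_top ENNReal.ofReal_ne_top ENNReal.ofReal_ne_top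

lemma tp_log {V : ℝ} (hV : 1 ≤ V) :
    ∫⁻ y in Icc 1 V, ENNReal.ofReal (1 / y) = ENNReal.ofReal (log V) := by
  have h1 : ContinuousOn (fun y : ℝ => 1 / y) (Icc 1 V) :=
    continuousOn_const.div continuousOn_id (fun y hy => by linarith [hy.1])
  rw [← ofReal_integral_eq_lintegral_ofReal h1.integrableOn_Icc
    ((ae_restrict_iff' measurableSet_Icc).2 (Filter.Eventually.of_forall fun y hy => by
      have : (0 : ℝ) < y := by linarith [hy.1]
      positivity)),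
    integral_Icc_eq_integral_Ioc, ← intervalIntegral.integral_of_le hV,
    integral_one_div_of_pos one_pos (by linarith), div_one]

lemma tp_key {U : ℕ → Set ℝ} {H b : ℝ → ℝ} {Z : ℕ} {B X C W : ℝ}
    (hUs : ∀ n, U n ⊆ Ico (n : ℝ) (n + 1))
    (hUA : ∀ n, 3000 ≤ n → U n = UA n) (hHA : ∀ x, 3000 ≤ x → H x = HA x)
    (hb0 : ∀ y, 0 ≤ b y) (hZ : 3000 ≤ Z) (hB0 : 0 ≤ B) (hB1 : B ≤ 20)
    (hB : 1 + 200 / (2 * (Z : ℝ)) ≤ B * (683 / 10000)) (hX : 2 * (Z : ℝ) + 1 ≤ X) (hC0 : 0 ≤ C)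
    (hC1 : ∀ m : ℕ, Z ≤ m → m ≤ 2 * Z → C * Phi0 m ≤ top B X m) (hW : 2 * (Z : ℝ) ≤ W)
    (hC2 : ∀ m : ℕ, W ≤ m → (m : ℝ) ≤ X → top B X m ≤ C * Phi0 m)
    {y : ℝ} (hn : ∀ m : ℕ, y ≠ m) (key : Key U H b y) (S : Finset ℕ) (x : ℕ → ℝ)
    (hx : ∀ n ∈ S, x n ∈ U n ∧ ff (x n) = y) :
    ∑ n ∈ S, tpH H Z B X C (x n) / |ff' (x n)| + (Icc (W + 1) X).indicator (fun y => 1 / y) y ≤
      tpH H Z B X C y + (C * b y + ((60 + B * log X) * (Ici ((2 * Z : ℕ) : ℝ)).indicator bT y +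
        (Ici ((2 * Z : ℕ) : ℝ)).indicator bA y)) := by
  have h3 : (3000 : ℝ) ≤ Z := by exact_mod_cast hZ
  have hT : 0 ≤ 60 + B * log X := by
    have : 0 ≤ log X := log_nonneg (by linarith)
    positivity
  have hgen : ∑ n ∈ S, tpH H Z B X C (x n) / |ff' (x n)| ≤ C * H y + C * b y := by
    rw [← mul_add]
    refine le_trans ?_ (mul_le_mul_of_nonneg_left (key S x hx) hC0)
    rw [Finset.mul_sum]
    refine Finset.sum_le_sum fun n _ => ?_
    rw [← mul_div_assoc]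
    exact div_le_div_of_nonneg_right (tp_Hle hZ hHA _) (abs_nonneg _)
  rcases lt_or_ge y (2 * Z) with h | h
  · have e1 : y ∉ Icc (W + 1) X := fun h' => by linarith [h'.1]
    have e2 : y ∉ Ici ((2 * Z : ℕ) : ℝ) := fun h' => by
      have : ((2 * Z : ℕ) : ℝ) ≤ y := h'
      push_cast at this
      linarith
    rw [indicator_of_notMem e1, indicator_of_notMem e2, indicator_of_notMem e2,
      tp_Heq hZ hHA (fun h1 _ => hC1 _ (Nat.le_floor h1) (Nat.floor_le_of_le (by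
        push_cast; exact h.le)))]
    linarith
  have hy0 : 0 < y := by linarith
  have e2 : y ∈ Ici ((2 * Z : ℕ) : ℝ) := by
    show ((2 * Z : ℕ) : ℝ) ≤ y
    push_cast
    exact h
  have hbT : 0 ≤ (60 + B * log X) * bT y := mul_nonneg hT (bT_nonneg hy0.le)
  have hbA := bA_nonneg hy0.le
  have hsrc : (Icc (W + 1) X).indicator (fun y => 1 / y) y ≤ if y ≤ X then 1 / y else 0 := by
    by_cases h1 : y ∈ Icc (W + 1) X
    · rw [indicator_of_mem h1, if_pos h1.2]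
    · rw [indicator_of_notMem h1]
      split_ifs
      · positivity
      · exact le_rfl
  rw [indicator_of_mem e2, indicator_of_mem e2]
  by_cases hU : y ∈ UA ⌊y⌋₊
  · rcases le_or_gt (top B X ⌊y⌋₊) (C * Phi0 ⌊y⌋₊) with h1 | h1
    · have h2 : ∀ n ∈ S, (Z : ℝ) + 1 ≤ x n ∧ Z ≤ n := by
        intro n hn
        obtain ⟨h2, h4⟩ := hx n hn
        have h5 : (0 : ℝ) ≤ x n := le_trans (Nat.cast_nonneg n) (hUs n h2).1
        have h6 : (x n + 1 / 2) * mm (x n) ≤ (x n + 1 / 2) * (3 / 2) :=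
          mul_le_mul_of_nonneg_left (mm_le _) (by linarith)
        rw [ff_eq] at h4
        have h7 : (Z : ℝ) + 1 ≤ x n := by linarith
        have h8 : (Z : ℝ) < n := by linarith [(hUs n h2).2]
        exact ⟨h7, by exact_mod_cast h8.le⟩
      have h4 : ∀ n ∈ S, x n ∈ UA n ∧ ff (x n) = y := fun n hn => by
        rw [← hUA n (hZ.trans (h2 n hn).2)]
        exact hx n hn
      have h5 := keyT (B := B) (X := X) (y := y) hB0 hB1 (by linarith) (by linarith) hn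
        (le_trans (by
          have : 200 / y ≤ 200 / (2 * (Z : ℝ)) :=
            div_le_div_of_nonneg_left (by norm_num) (by linarith) h
          linarith) hB)
        (fun n => min (top B X n) (C * Phi0 n))
        (fun n => le_min (tp_top0 hB0 n) (mul_nonneg hC0 (by linarith [tp_Phi1 n])))
        (fun n _ => min_le_left _ _) S x h4
      have h6 : ∀ n ∈ S, tpH H Z B X C (x n) / |ff' (x n)| =
          min (top B X n) (C * Phi0 n) / ((x n + 1 / 2) * |ff' (x n)|) := by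
        intro n hn
        have h7 : ⌊x n⌋₊ = n :=
          (Nat.floor_eq_iff (by linarith [(h2 n hn).1])).2 (hUs n (hx n hn).1)
        unfold tpH
        rw [if_neg (by linarith [(h2 n hn).1]), h7, if_pos (h4 n hn).1, div_div]
      have h7 : tpH H Z B X C y = top B X ⌊y⌋₊ / (y + 1 / 2) := by
        unfold tpH
        rw [if_neg (by linarith), if_pos hU, min_eq_left h1]
      rw [Finset.sum_congr rfl h6, h7]
      have h8 := mul_nonneg hC0 (hb0 y)
      linarith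
    · have e1 : y ∉ Icc (W + 1) X := fun h' => by
        have h5 : y < ⌊y⌋₊ + 1 := Nat.lt_floor_add_one y
        have h6 : (⌊y⌋₊ : ℝ) ≤ y := Nat.floor_le hy0.le
        exact absurd (hC2 ⌊y⌋₊ (by linarith [h'.1]) (by linarith [h'.2])) (not_le.2 h1)
      rw [indicator_of_notMem e1, tp_Heq hZ hHA (fun _ _ => h1.le)]
      linarith
  · rw [tp_Heq hZ hHA (fun _ h' => absurd h' hU)]
    have h1 := tp_bA hy0 hU
    have h2 : (if y ≤ X then 1 / y else 0) ≤ 1 / y := by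
      split_ifs
      · exact le_rfl
      · positivity
    linarith

lemma tp_core {U : ℕ → Set ℝ} {H b : ℝ → ℝ} {κ : ℝ} (hκ : 0 ≤ κ)
    (hUm : ∀ n, MeasurableSet (U n)) (hUs : ∀ n, U n ⊆ Ico (n : ℝ) (n + 1))
    (hinj : ∀ n, InjOn ff (U n)) (hd : ∀ n, ∀ x ∈ U n, ff' x ≠ 0)
    (hH0 : ∀ x, 0 ≤ H x) (hH : ∀ x, H x ≠ 0 → ∃ n, x ∈ U n) (hHb : ∀ x, H x ≤ 64)
    (hUA : ∀ n, 3000 ≤ n → U n = UA n) (hHA : ∀ x, 3000 ≤ x → H x = HA x)
    (hb : Measurable b) (hb0 : ∀ y, 0 ≤ b y)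
    (hbκ : ∫⁻ y, ENNReal.ofReal (b y) ≤ ENNReal.ofReal κ)
    (key : ∀ y ∈ EE, (∀ m : ℕ, y ≠ m) → Key U H b y) {Z : ℕ} {B X C W : ℝ}
    (hZ : 3000 ≤ Z) (hB0 : 0 ≤ B) (hB1 : B ≤ 20)
    (hB : 1 + 200 / (2 * (Z : ℝ)) ≤ B * (683 / 10000)) (hX : 2 * (Z : ℝ) + 1 ≤ X) (hC0 : 0 ≤ C)
    (hC1 : ∀ m : ℕ, Z ≤ m → m ≤ 2 * Z → C * Phi0 m ≤ top B X m) (hW : 2 * (Z : ℝ) ≤ W)
    (hC2 : ∀ m : ℕ, W ≤ m → (m : ℝ) ≤ X → top B X m ≤ C * Phi0 m) :
    ∫⁻ y in EE ∩ Icc 1 X, ENNReal.ofReal (1 / y) ≤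
      ENNReal.ofReal (log (W + 1) + (C * κ + ((60 + B * log X) * (20 / √(Z : ℝ)) + 1))) := by
  have h3 : (3000 : ℝ) ≤ Z := by exact_mod_cast hZ
  have hT : 0 ≤ 60 + B * log X := by
    have : 0 ≤ log X := log_nonneg (by linarith)
    positivity
  have hi : ∀ f : ℝ → ℝ, (∀ y, 0 ≤ y → 0 ≤ f y) →
      ∀ y, 0 ≤ (Ici ((2 * Z : ℕ) : ℝ)).indicator f y := fun f hf y =>
    indicator_nonneg (fun z hz => hf z (le_trans (Nat.cast_nonneg _) hz)) y
  have hiT := hi bT (fun _ => bT_nonneg)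
  have hiA := hi bA (fun _ => bA_nonneg)
  have hind : ∀ (f : ℝ → ℝ) (s : Set ℝ) (y : ℝ), ENNReal.ofReal (s.indicator f y) =
      s.indicator (fun y => ENNReal.ofReal (f y)) y := by
    intro f s y
    by_cases h : y ∈ s
    · rw [indicator_of_mem h, indicator_of_mem h]
    · rw [indicator_of_notMem h, indicator_of_notMem h, ENNReal.ofReal_zero]
  have hmT : Measurable ((Ici ((2 * Z : ℕ) : ℝ)).indicator bT) :=
    measurable_bT.indicator measurableSet_Ici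
  have hmA : Measurable ((Ici ((2 * Z : ℕ) : ℝ)).indicator bA) :=
    measurable_bA.indicator measurableSet_Ici
  have h1 := frame (tpH H Z B X C) ((Icc (W + 1) X).indicator (fun y => 1 / y))
    (fun y => C * b y + ((60 + B * log X) * (Ici ((2 * Z : ℕ) : ℝ)).indicator bT y +
        (Ici ((2 * Z : ℕ) : ℝ)).indicator bA y)) U hUm hUs hinj hd (tp_H0 hH0 hB0 hC0)
    (fun x hx => hH x fun h => hx (le_antisymm (by
      have := tp_Hle (B := B) (X := X) (C := C) hZ hHA x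
      rwa [h, mul_zero] at this) (tp_H0 hH0 hB0 hC0 x)))
    (tp_fin hZ hC0 (by linarith) (fun x hx => by
      by_contra h
      obtain ⟨n, hn⟩ := hH x h
      linarith [(hUs n hn).1, (Nat.cast_nonneg n : (0 : ℝ) ≤ n)]) hHb hHA)
    ((measurable_const.div measurable_id).indicator measurableSet_Icc)
    (fun y => indicator_nonneg (fun z hz => by
      have : 0 < z := by linarith [hz.1]
      positivity) y)
    ((hb.const_mul C).add ((hmT.const_mul _).add hmA))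
    (fun y => add_nonneg (mul_nonneg hC0 (hb0 y)) (add_nonneg (mul_nonneg hT (hiT y)) (hiA y)))
    (fun y hy hn S x hx => tp_key hUs hUA hHA hb0 hZ hB0 hB1 hB hX hC0 hC1 hW hC2 hn
      (key y hy hn) S x hx)
  have hs : 0 < √(Z : ℝ) := sqrt_pos.2 (by linarith)
  have h20 : 0 ≤ 20 / √(Z : ℝ) := by positivity
  have h2 : ∫⁻ y, ENNReal.ofReal (C * b y +
      ((60 + B * log X) * (Ici ((2 * Z : ℕ) : ℝ)).indicator bT y +
        (Ici ((2 * Z : ℕ) : ℝ)).indicator bA y)) ≤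
      ENNReal.ofReal (C * κ + ((60 + B * log X) * (20 / √(Z : ℝ)) + 1)) := by
    have e : ∀ y, ENNReal.ofReal (C * b y +
        ((60 + B * log X) * (Ici ((2 * Z : ℕ) : ℝ)).indicator bT y +
          (Ici ((2 * Z : ℕ) : ℝ)).indicator bA y)) =
        ENNReal.ofReal C * ENNReal.ofReal (b y) + (ENNReal.ofReal (60 + B * log X) *
          (Ici ((2 * Z : ℕ) : ℝ)).indicator (fun y => ENNReal.ofReal (bT y)) y +
          (Ici ((2 * Z : ℕ) : ℝ)).indicator (fun y => ENNReal.ofReal (bA y)) y) := by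
      intro y
      rw [ENNReal.ofReal_add (mul_nonneg hC0 (hb0 y)) (add_nonneg (mul_nonneg hT (hiT y)) (hiA y)),
        ENNReal.ofReal_add (mul_nonneg hT (hiT y)) (hiA y), ENNReal.ofReal_mul hC0,
        ENNReal.ofReal_mul hT, hind, hind]
    have m1 : Measurable ((Ici ((2 * Z : ℕ) : ℝ)).indicator fun y => ENNReal.ofReal (bT y)) :=
      measurable_bT.ennreal_ofReal.indicator measurableSet_Ici
    simp only [e]
    rw [lintegral_add_left (hb.ennreal_ofReal.const_mul _), lintegral_add_left (m1.const_mul _),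
      lintegral_const_mul _ hb.ennreal_ofReal, lintegral_const_mul _ m1,
      lintegral_indicator measurableSet_Ici, lintegral_indicator measurableSet_Ici,
      ENNReal.ofReal_add (mul_nonneg hC0 hκ) (add_nonneg (mul_nonneg hT h20) zero_le_one),
      ENNReal.ofReal_add (mul_nonneg hT h20) zero_le_one, ENNReal.ofReal_mul hC0,
      ENNReal.ofReal_mul hT]
    refine add_le_add (mul_le_mul_right hbκ _) (add_le_add (mul_le_mul_right
      ((costT (2 * Z) (by omega)).trans (ENNReal.ofReal_le_ofReal ?_)) _)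
      ((costA (2 * Z) (by omega)).trans (ENNReal.ofReal_le_ofReal ?_)))
    · refine div_le_div_of_nonneg_left (by norm_num) hs (sqrt_le_sqrt ?_)
      push_cast
      linarith
    · push_cast
      have a1 : (2 : ℝ) ≤ √(2 * (Z : ℝ) - 3) := le_sqrt_of_sq_le (by linarith)
      have a2 : 81 / 100 / √(2 * (Z : ℝ) - 3) ≤ 1 / 2 := by
        rw [div_le_iff₀ (by linarith)]
        linarith
      have a3 : 63 / 100 / (2 * (Z : ℝ) - 2) ≤ 1 / 2 := by
        rw [div_le_iff₀ (by linarith)]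
        linarith
      linarith
  have h4 : ∫⁻ y in EE ∩ Icc (W + 1) X, ENNReal.ofReal (1 / y) =
      ∫⁻ y in EE, ENNReal.ofReal ((Icc (W + 1) X).indicator (fun y => 1 / y) y) := by
    simp only [hind]
    rw [lintegral_indicator measurableSet_Icc, Measure.restrict_restrict measurableSet_Icc,
      inter_comm]
  have h5 : EE ∩ Icc 1 X ⊆ Icc 1 (W + 1) ∪ EE ∩ Icc (W + 1) X := by
    intro y hy
    rcases le_total y (W + 1) with h | h
    · exact Or.inl ⟨hy.2.1, h⟩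
    · exact Or.inr ⟨hy.1, h, hy.2.2⟩
  refine (lintegral_mono_set h5).trans ((lintegral_union_le _ _ _).trans ?_)
  rw [tp_log (by linarith), h4, ENNReal.ofReal_add (log_nonneg (by linarith))
    (add_nonneg (mul_nonneg hC0 hκ) (add_nonneg (mul_nonneg hT h20) zero_le_one))]
  exact add_le_add le_rfl (h1.trans ((setLIntegral_le_lintegral _ _).trans h2))

theorem top_final (U : ℕ → Set ℝ) (H b : ℝ → ℝ) (κ δ : ℝ) (hκ : 0 ≤ κ)
    (hUm : ∀ n, MeasurableSet (U n)) (hUs : ∀ n, U n ⊆ Ico (n : ℝ) (n + 1))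
    (hinj : ∀ n, InjOn ff (U n)) (hd : ∀ n, ∀ x ∈ U n, ff' x ≠ 0)
    (hH0 : ∀ x, 0 ≤ H x) (hH : ∀ x, H x ≠ 0 → ∃ n, x ∈ U n) (hHb : ∀ x, H x ≤ 64)
    (hUA : ∀ n, 3000 ≤ n → U n = UA n) (hHA : ∀ x, 3000 ≤ x → H x = HA x)
    (hb : Measurable b) (hb0 : ∀ y, 0 ≤ b y)
    (hbκ : ∫⁻ y, ENNReal.ofReal (b y) ≤ ENNReal.ofReal κ)
    (key : ∀ y ∈ EE, (∀ m : ℕ, y ≠ m) → Key U H b y) (hδ : κ / (683 / 10000) < δ) :
    ∃ X₀ : ℝ, ∀ X : ℝ, X₀ ≤ X →
      ∫⁻ y in EE ∩ Icc 1 X, ENNReal.ofReal (1 / y) ≤ ENNReal.ofReal (δ * log X) := by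
  obtain ⟨g, hg, hδg⟩ : ∃ g : ℝ, 0 < g ∧ δ = κ * (10000 / 683) + g :=
    ⟨δ - κ / (683 / 10000), by linarith, by ring⟩
  obtain ⟨e, he0, he1, he2⟩ : ∃ e : ℝ, 0 < e ∧ e ≤ 1 ∧ e * κ ≤ g / 4 := by
    refine ⟨min 1 (g / (4 * (κ + 1))), lt_min one_pos (by positivity), min_le_left _ _, ?_⟩
    have h1 : min 1 (g / (4 * (κ + 1))) * κ ≤ g / (4 * (κ + 1)) * (κ + 1) :=
      mul_le_mul (min_le_right _ _) (by linarith) hκ (by positivity)
    have h2 : g / (4 * (κ + 1)) * (κ + 1) = g / 4 := by field_simp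
    linarith
  obtain ⟨Z, hZ⟩ := exists_nat_ge (3000 + 2000 / e + (1636 / g) ^ 2)
  have p1 : 0 < 2000 / e := by positivity
  have p2 : 0 ≤ (1636 / g) ^ 2 := sq_nonneg _
  have h3 : (3000 : ℝ) ≤ Z := by linarith
  have hZ3 : 3000 ≤ Z := by exact_mod_cast h3
  have hs1 : (1 : ℝ) ≤ √(Z : ℝ) := one_le_sqrt.2 (by linarith)
  have hs2 : 1636 / g ≤ √(Z : ℝ) := le_sqrt_of_sq_le (by linarith)
  obtain ⟨u, hu0, hu1, hu⟩ : ∃ u : ℝ, 0 < u ∧ u * √(Z : ℝ) = 1 ∧ ∀ a : ℝ, a / √(Z : ℝ) = a * u :=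
    ⟨(√(Z : ℝ))⁻¹, by positivity, inv_mul_cancel₀ (by linarith), fun a => div_eq_mul_inv _ _⟩
  have hu2 : 409 * u ≤ g / 4 := by
    rw [div_le_iff₀ hg] at hs2
    have : 1636 * u ≤ √(Z : ℝ) * g * u := mul_le_mul_of_nonneg_right hs2 hu0.le
    have e1 : √(Z : ℝ) * g * u = g * (u * √(Z : ℝ)) := by ring
    rw [e1, hu1] at this
    linarith
  have p3 : 0 ≤ 2 * (1202 + 60 * κ) / g := by positivity
  have p4 : 0 ≤ (480 + 2 * (Z : ℝ)) * √(Z : ℝ) := by positivity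
  refine ⟨exp (2 * (1202 + 60 * κ) / g + (480 + 2 * Z) * √(Z : ℝ) + 2 * Z), fun X hX => ?_⟩
  have hX0 : 0 < X := (exp_pos _).trans_le hX
  have hL : 2 * (1202 + 60 * κ) / g + (480 + 2 * Z) * √(Z : ℝ) + 2 * Z ≤ log X :=
    (le_log_iff_exp_le hX0).2 hX
  have hX1 : 2 * (Z : ℝ) + 1 ≤ X := by linarith [log_le_sub_one_of_pos hX0]
  have hl0 : log (2 * (Z : ℝ) + 1) ≤ 2 * Z := by
    linarith [log_le_sub_one_of_pos (show 0 < 2 * (Z : ℝ) + 1 by linarith)]
  have hl1 : 0 ≤ log (2 * (Z : ℝ) + 1) := log_nonneg (by linarith)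
  have hLu : 480 + 2 * (Z : ℝ) ≤ log X * u := by
    have h1 : (480 + 2 * (Z : ℝ)) * √(Z : ℝ) * u ≤ log X * u :=
      mul_le_mul_of_nonneg_right (by linarith) hu0.le
    have e1 : (480 + 2 * (Z : ℝ)) * √(Z : ℝ) * u = (480 + 2 * (Z : ℝ)) * (u * √(Z : ℝ)) := by ring
    rw [e1, hu1] at h1
    linarith
  have hu3 : u ≤ 1 := by nlinarith
  have hL0 : 0 ≤ log X := by linarith
  obtain ⟨B, hB⟩ : ∃ B : ℝ, B = 10000 / 683 + e := ⟨_, rfl⟩
  have hB0 : 1 ≤ B := by rw [hB]; linarith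
  have hB1 : B ≤ 20 := by rw [hB]; linarith
  obtain ⟨C, hC⟩ : ∃ C : ℝ, C * (1 + 8 * u) = 60 + B * (log X - log (2 * (Z : ℝ) + 1)) :=
    ⟨_, div_mul_cancel₀ _ (by positivity)⟩
  have q1 : 0 ≤ B * (log X - log (2 * (Z : ℝ) + 1)) := mul_nonneg (by linarith) (by linarith)
  have hC0 : 0 ≤ C := by
    by_contra h
    have := mul_neg_of_neg_of_pos (not_le.1 h) (show 0 < 1 + 8 * u by positivity)
    linarith
  have hCT : C ≤ 60 + B * log X := by
    have := mul_nonneg hC0 hu0.le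
    have := mul_nonneg (show 0 ≤ B by linarith) hl1
    linarith
  have hW0 : 0 ≤ 9 * (log X * u) := by positivity
  have hW : 9 * (log X * u) + 1 ≤ exp (9 * (log X * u)) := add_one_le_exp _
  refine (tp_core hκ hUm hUs hinj hd hH0 hH hHb hUA hHA hb hb0 hbκ key (Z := Z) (B := B) (X := X)
    (C := C) (W := exp (9 * (log X * u))) hZ3 (by linarith) hB1 ?_ hX1 hC0 ?_ (by linarith)
    ?_).trans (ENNReal.ofReal_le_ofReal ?_)
  · have h1 : 2000 / e ≤ Z := by linarith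
    rw [div_le_iff₀ he0] at h1
    have h2 : 200 / (2 * (Z : ℝ)) ≤ e / 20 := by
      rw [div_le_iff₀ (by linarith)]
      linarith
    rw [hB]
    linarith
  · intro m h1 h2
    have h4 : (Z : ℝ) ≤ m := by exact_mod_cast h1
    have h5 : (m : ℝ) ≤ 2 * Z := by exact_mod_cast h2
    have h6 := tp_Phi2 (by omega) h1
    rw [hu] at h6
    have h7 : log (m : ℝ) ≤ log (2 * (Z : ℝ) + 1) := log_le_log (by linarith) (by linarith)
    unfold top
    rw [if_pos (by linarith), log_div hX0.ne' (by linarith)]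
    have h8 := mul_le_mul_of_nonneg_left h6 hC0
    have h9 := mul_le_mul_of_nonneg_left h7 (show 0 ≤ B by linarith)
    linarith
  · intro m h1 h2
    have h4 : (0 : ℝ) < m := (exp_pos _).trans_le h1
    have h5 : 9 * (log X * u) ≤ log (m : ℝ) := (le_log_iff_exp_le h4).2 h1
    unfold top
    rw [if_pos h2, log_div hX0.ne' h4.ne']
    have h6 : C ≤ C * Phi0 m := le_mul_of_one_le_right hC0 (tp_Phi1 m)
    have h7 := mul_le_mul_of_nonneg_left h5 (show 0 ≤ B by linarith)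
    have h8 : 60 + B * (log X - 9 * (log X * u)) ≤ C := by
      refine le_of_mul_le_mul_right ?_ (show 0 < 1 + 8 * u by positivity)
      rw [hC]
      have a1 : B * (480 + log (2 * (Z : ℝ) + 1)) ≤ B * (log X * u) :=
        mul_le_mul_of_nonneg_left (by linarith) (by linarith)
      have a2 : 0 ≤ B * (log X * u) * u := by positivity
      nlinarith
    linarith
  · have h1 : log (exp (9 * (log X * u)) + 1) ≤ 9 * (log X * u) + 1 := by
      rw [log_le_iff_le_exp (by positivity), exp_add]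
      have := add_one_le_exp (1 : ℝ)
      nlinarith
    have h2 : C * κ ≤ (60 + B * log X) * κ := mul_le_mul_of_nonneg_right hCT hκ
    have h4 : 2 * (1202 + 60 * κ) / g ≤ log X := by linarith
    rw [div_le_iff₀ hg] at h4
    have h5 : B * (log X * u) ≤ 20 * (log X * u) :=
      mul_le_mul_of_nonneg_right hB1 (by positivity)
    have h6 : log X * (409 * u) ≤ log X * (g / 4) := mul_le_mul_of_nonneg_left hu2 hL0
    have h7 : log X * (e * κ) ≤ log X * (g / 4) := mul_le_mul_of_nonneg_left he2 hL0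
    rw [hu, hδg]
    rw [hB] at h2 h5 ⊢
    nlinarith

end Pool.Agent.Lib.MP_2dc536_an.X
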