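import Pool.Agent.Lib.MP_2dc536_an.X.S4
import Pool.Agent.Lib.MP_2dc536_an.X.Top
import Pool.Agent.Lib.MP_2dc536_an.X.KeyA

/-!
The two ranges of heights are joined.
-/

namespace Pool.Agent.Lib.MP_2dc536_an.X

open Real Set MeasureTheory

lemma gl_sub {N1 n : ℕ} : UU N1 n ⊆ UB n ∩ {_x | 2 ≤ n} := by
  unfold UU
  split_ifs with h1 h2
  · exact empty_subset _
  · exact fun x hx => ⟨hx, not_lt.1 h1⟩
  · exact fun x hx => ⟨UA_sub_UB (by omega) hx, not_lt.1 h1⟩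

lemma gl_ico {N1 n : ℕ} : UU N1 n ⊆ Ico (n : ℝ) (n + 1) := fun _ hx =>
  UB_sub (le_trans one_le_two (gl_sub hx).2) (gl_sub hx).1

lemma gl_meas (N1 n : ℕ) : MeasurableSet (UU N1 n) := by
  unfold UU UB UA
  split_ifs
  all_goals first
    | exact MeasurableSet.empty
    | exact measurableSet_Ico
    | exact measurableSet_Icc

lemma gl_UA {N1 n : ℕ} (hN : 2 ≤ N1) (hn : N1 ≤ n) : UU N1 n = UA n := by
  unfold UU
  rw [if_neg (by omega), if_neg (by omega)]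

lemma gl_HA {t : TB} {N1 : ℕ} {dt : DTr} {x : ℝ} (hx : (N1 : ℝ) ≤ x) : HH t N1 dt x = HA x := by
  unfold HH
  rw [if_neg (not_lt.2 (Nat.le_floor hx))]

lemma gl_supp {t : TB} {N1 : ℕ} {dt : DTr} (hN : 2 ≤ N1) (x : ℝ) (h : HH t N1 dt x ≠ 0) :
    ∃ n, x ∈ UU N1 n := by
  refine ⟨⌊x⌋₊, ?_⟩
  by_contra hx
  apply h
  unfold HH
  split_ifs with h1
  · rfl
  · unfold HA
    rw [gl_UA hN (not_lt.1 h1)] at hx
    rw [if_neg hx]

lemma gl_le {t : TB} {N1 : ℕ} {dt : DTr} (hN : 2 ≤ N1) (x : ℝ) : HH t N1 dt x ≤ 64 := by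
  unfold HH
  split_ifs with h1 h2
  · have h3 : (2 : ℝ) ≤ ⌊x⌋₊ := by exact_mod_cast (gl_sub h2).2
    have h4 : (⌊x⌋₊ : ℝ) ≤ x := (gl_ico h2).1
    have h5 : dig (datD dt ⌊x⌋₊) (jx t (x - ⌊x⌋₊)) < 65536 := Nat.mod_lt _ (by norm_num)
    have h6 : (dig (datD dt ⌊x⌋₊) (jx t (x - ⌊x⌋₊)) : ℝ) ≤ 65536 := by exact_mod_cast h5.le
    rw [div_le_iff₀ (by linarith)]
    linarith
  · norm_num
  · unfold HA
    split_ifs with h2
    · have h7 : 2 ≤ ⌊x⌋₊ := le_trans hN (not_lt.1 h1)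
      have h3 : (2 : ℝ) ≤ ⌊x⌋₊ := by exact_mod_cast h7
      have h4 : (⌊x⌋₊ : ℝ) ≤ x := (UB_sub (by omega) (UA_sub_UB (by omega) h2)).1
      have h5 : (1 : ℝ) ≤ √(⌊x⌋₊ : ℝ) := one_le_sqrt.2 (by linarith)
      have h6 : Phi0 ⌊x⌋₊ ≤ 9 := by
        unfold Phi0
        have : (6 + if ⌊x⌋₊ % 3 = 1 then (5 : ℝ) / 4 else 0) / √(⌊x⌋₊ : ℝ) ≤ 8 := by
          rw [div_le_iff₀ (by linarith)]
          split_ifs <;> linarith
        linarith
      rw [div_le_iff₀ (by linarith)]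
      linarith
    · norm_num

lemma gl_mono {U : ℕ → Set ℝ} {H b b' : ℝ → ℝ} {y : ℝ} (h : Key U H b y) (hb : b y ≤ b' y) :
    Key U H b' y := fun S x hx => (h S x hx).trans (by linarith)

lemma gl_high {t : TB} {N1 : ℕ} {dt : DTr} (hN : 1000 ≤ N1) {y : ℝ}
    (hy : 3 * (N1 : ℝ) + 6 ≤ 2 * y) (hn : ∀ m : ℕ, y ≠ m) :
    Key (UU N1) (HH t N1 dt) bA y := by
  have hN' : (1000 : ℝ) ≤ N1 := by exact_mod_cast hN
  intro S x hx
  have h1 : ∀ n ∈ S, (N1 : ℝ) + 1 ≤ x n := by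
    intro n hn
    obtain ⟨h2, h3⟩ := hx n hn
    have h4 : (0 : ℝ) ≤ x n := le_trans (Nat.cast_nonneg n) (gl_ico h2).1
    have h5 : (x n + 1 / 2) * mm (x n) ≤ (x n + 1 / 2) * (3 / 2) :=
      mul_le_mul_of_nonneg_left (mm_le _) (by linarith)
    rw [ff_eq] at h3
    linarith
  have h2 := keyA (y := y) (by linarith) hn S x (fun n hn => by
    have h3 : (N1 : ℝ) < n := by linarith [h1 n hn, (gl_ico (hx n hn).1).2]
    have h4 : N1 ≤ n := by exact_mod_cast h3.le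
    rw [← gl_UA (N1 := N1) (by omega) h4]
    exact hx n hn)
  rw [gl_HA (x := y) (by linarith),
    Finset.sum_congr rfl (fun n hn => by rw [gl_HA (x := x n) (by linarith [h1 n hn])])]
  exact h2

lemma gl_EE {X x : ℝ} (h1 : x ∈ Icc 1 X) (h2 : ∀ k : ℕ, ff^[k] x ∉ Icc (1 : ℝ) (12 / 5)) :
    x ∈ EE := by
  intro k
  induction k with
  | zero =>
    by_contra h
    exact h2 0 ⟨h1.1, not_lt.1 h⟩
  | succ k ih =>
    by_contra h
    refine h2 (k + 1) ⟨?_, not_lt.1 h⟩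
    rw [Function.iterate_succ_apply', ff_eq]
    have h5 : (ff^[k] x + 1 / 2) * (1 / 2) ≤ (ff^[k] x + 1 / 2) * mm (ff^[k] x) :=
      mul_le_mul_of_nonneg_left (mm_ge _) (by linarith)
    linarith

theorem glue {t : TB} {N1 : ℕ} {dt : DTr} {Y c : ℕ} {δ : ℝ} (hN : 1000 ≤ N1) (hN2 : N1 ≤ 1590)
    (hY : 3 * N1 + 6 ≤ 2 * Y) (hG : GoodK t N1 dt 2 Y c)
    (hδ : ((c : ℝ) / 2 ^ 80 + (81 / 100 / √((Y : ℝ) - 3) + 63 / 100 / ((Y : ℝ) - 2))) /
      (683 / 10000) < δ) :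
    ∃ X₀ : ℝ, ∀ X : ℝ, X₀ ≤ X →
      ∫⁻ y in {x : ℝ | x ∈ Icc 1 X ∧ ∀ k : ℕ, ff^[k] x ∉ Icc (1 : ℝ) (12 / 5)},
        ENNReal.ofReal (1 / y) ≤ ENNReal.ofReal (δ * log X) := by
  obtain ⟨b, hbm, hb0, hbc, hbk⟩ := hG
  have hY1 : 1503 ≤ Y := by omega
  have hY2 : (1503 : ℝ) ≤ Y := by exact_mod_cast hY1
  have hY3 : 3 * (N1 : ℝ) + 6 ≤ 2 * Y := by exact_mod_cast hY
  have hN3 : (N1 : ℝ) ≤ 1590 := by exact_mod_cast hN2
  have hc0 : (0 : ℝ) ≤ (c : ℝ) / 2 ^ 80 := by positivity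
  have hc1 : (0 : ℝ) ≤ 81 / 100 / √((Y : ℝ) - 3) + 63 / 100 / ((Y : ℝ) - 2) :=
    add_nonneg (div_nonneg (by norm_num) (sqrt_nonneg _))
      (div_nonneg (by norm_num) (by linarith))
  have hi0 : ∀ y, 0 ≤ (Ici (Y : ℝ)).indicator bA y := fun y =>
    indicator_nonneg (fun z hz => bA_nonneg (le_trans (Nat.cast_nonneg Y) hz)) y
  obtain ⟨X₀, hX⟩ := top_final (UU N1) (HH t N1 dt)
    (fun y => b y + (Ici (Y : ℝ)).indicator bA y) _ δ (add_nonneg hc0 hc1) (gl_meas N1)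
    (fun _ => gl_ico)
    (fun n => by
      by_cases h : 2 ≤ n
      · exact (UB_inj h).1.mono (fun x hx => (gl_sub hx).1)
      · exact fun x hx => absurd (gl_sub hx).2 h)
    (fun n x hx => (UB_inj (gl_sub hx).2).2 x (gl_sub hx).1)
    (HH_nonneg t N1 dt) (gl_supp (by omega)) (gl_le (by omega))
    (fun n hn => gl_UA (by omega) (by omega)) (fun x hx => gl_HA (by linarith))
    (hbm.add (measurable_bA.indicator measurableSet_Ici))
    (fun y => add_nonneg (hb0 y) (hi0 y))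
    (by
      have e : ∀ y, ENNReal.ofReal (b y + (Ici (Y : ℝ)).indicator bA y) =
          ENNReal.ofReal (b y) + (Ici (Y : ℝ)).indicator (fun y => ENNReal.ofReal (bA y)) y := by
        intro y
        rw [ENNReal.ofReal_add (hb0 y) (hi0 y)]
        by_cases h : y ∈ Ici (Y : ℝ)
        · rw [indicator_of_mem h, indicator_of_mem h]
        · rw [indicator_of_notMem h, indicator_of_notMem h, ENNReal.ofReal_zero]
      simp only [e]
      rw [lintegral_add_left hbm.ennreal_ofReal, lintegral_indicator measurableSet_Ici,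
        ENNReal.ofReal_add hc0 hc1]
      exact add_le_add hbc (costA Y hY1))
    (fun y hy hn => by
      rcases lt_or_ge y Y with h | h
      · have h0 : (12 : ℝ) / 5 < y := hy 0
        exact gl_mono (hbk y hy hn (by push_cast; linarith) h) (by linarith [hi0 y])
      · refine gl_mono (gl_high hN (by linarith) hn) ?_
        rw [indicator_of_mem (show y ∈ Ici (Y : ℝ) from h)]
        linarith [hb0 y])
    hδ
  refine ⟨X₀, fun X h => le_trans (lintegral_mono_set ?_) (hX X h)⟩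
  exact fun x hx => ⟨gl_EE hx.1 hx.2, hx.1⟩

end Pool.Agent.Lib.MP_2dc536_an.X
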