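import Pool.Agent.Lib.MP_2dc536_an.X.N1
import Pool.Agent.Lib.MP_2dc536_an.X.Frame

namespace Pool.Agent.Lib.MP_2dc536_an.X

open Real Set MeasureTheory

theorem avg_inv : 2 * (1148 / 1000) ≤ ∫ t in (0 : ℝ)..2, 1 / mm t := by
  have h := integral_poly 1 (1 / 2) (1 / 4) (1 / 8) (1 / 16) (1 / 32)
  refine le_trans (le_trans (by norm_num) h.ge) (intervalIntegral.integral_mono_on (by norm_num)
    (Continuous.intervalIntegrable (by fun_prop) _ _)
    ((continuous_const.div continuous_mm fun s => (mm_pos s).ne').intervalIntegrable _ _)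
    (fun t _ => ?_))
  rw [le_div_iff₀ (mm_pos t)]
  unfold mm
  generalize cos (π * t) = c
  have : 0 ≤ c ^ 6 := by positivity
  nlinarith

theorem avg_mm : ∫ t in (0 : ℝ)..2, mm t = 2 := by
  have h := integral_poly 1 (-1 / 2) 0 0 0 0
  refine Eq.trans (intervalIntegral.integral_congr fun t _ => ?_) (h.trans (by norm_num))
  unfold mm
  ring

/-- The side conditions in plain form. -/
structure N2Side (D C A M : ℕ) : Prop where
  s1 : ∀ i, 128 ≤ i → i + 1 < M → dig D (i + 1) ≤ dig D i
  s2 : A ≤ M * dig D (M - 1)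
  s3 : ∀ i, 2 * M / 3 - 3 ≤ i → i < M → dig D i * (i + 1) ≤ A
  s4 : ∀ i, 128 ≤ i → i < 260 → 5 * dig D i + 68 * (i + 1) ≤ 5 * C
  s6 : A ≤ 5767168
  s7 : 1024 ≤ M
  s8 : dig D 512 * M ≤ 10485760

lemma n2_side {D C A M : ℕ} (hs : nside D C A M = true) : N2Side D C A M := by
  unfold nside at hs
  simp only [Bool.and_eq_true] at hs
  obtain ⟨h1, h2, h3, h4, -, h6, h7, h8⟩ := hs
  have m7 : 1024 ≤ M := Nat.le_of_ble_eq_true h7
  exact ⟨fun i a b => Nat.le_of_ble_eq_true (allB_sound h1 a (by omega)),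
    Nat.le_of_ble_eq_true h2, fun i a b => Nat.le_of_ble_eq_true (allB_sound h3 a (by omega)),
    fun i a b => Nat.le_of_ble_eq_true (allB_sound h4 a (by omega)), Nat.le_of_ble_eq_true h6, m7,
    Nat.le_of_ble_eq_true h8⟩

variable {D C A M : ℕ}

lemma n2_p1 {s : ℝ} (h : s < 1 / 4) : psi D C A M s = (C : ℝ) / 1024 - 34 / 5 * max s 0 := by
  unfold psi
  rw [if_pos h]

lemma n2_p2 {s : ℝ} (h : 1 / 4 ≤ s) (h' : s < (M : ℝ) / 512) :
    psi D C A M s = (dig D ⌊s * 512⌋₊ : ℝ) / 1024 := by
  unfold psi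
  rw [if_neg (not_lt.2 h), if_neg (not_le.2 h')]

lemma N2Side.m (H : N2Side D C A M) : (2 : ℝ) ≤ (M : ℝ) / 512 := by
  have : (1024 : ℝ) ≤ M := by exact_mod_cast H.s7
  linarith

lemma N2Side.p3 (H : N2Side D C A M) {s : ℝ} (h : (M : ℝ) / 512 ≤ s) :
    psi D C A M s = (A : ℝ) / 512 / 1024 / s := by
  have := H.m
  unfold psi
  rw [if_neg (not_lt.2 (by linarith)), if_pos h]

lemma N2Side.anti (H : N2Side D C A M) {i j : ℕ} (hi : 128 ≤ i) (hij : i ≤ j) (hj : j < M) :
    dig D j ≤ dig D i := by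
  induction j, hij using Nat.le_induction with
  | base => exact le_rfl
  | succ k hk ih => exact (H.s1 k (by omega) hj).trans (ih (by omega))

lemma n2_fl {s : ℝ} {j : ℕ} (h : (j : ℝ) / 512 ≤ s) : j ≤ ⌊s * 512⌋₊ :=
  Nat.le_floor (by linarith)

lemma n2_fl' {s : ℝ} {j : ℕ} (h0 : 0 ≤ s) (h : s < (j : ℝ) / 512) : ⌊s * 512⌋₊ < j :=
  (Nat.floor_lt (by positivity)).2 (by linarith)

lemma N2Side.up (H : N2Side D C A M) {j : ℕ} (hj : 128 ≤ j) (hM : j < M) {y : ℝ}
    (hy : (j : ℝ) / 512 ≤ y) : psi D C A M y ≤ (dig D j : ℝ) / 1024 := by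
  have a : (128 : ℝ) ≤ j := by exact_mod_cast hj
  have m := H.m
  rcases le_or_gt ((M : ℝ) / 512) y with h | h
  · rw [H.p3 h, div_le_iff₀ (by linarith)]
    have b : (A : ℝ) ≤ M * dig D (M - 1) := by exact_mod_cast H.s2
    have c : (dig D (M - 1) : ℝ) ≤ dig D j := by
      exact_mod_cast H.anti hj (by omega) (by omega : M - 1 < M)
    have d : (0 : ℝ) ≤ dig D (M - 1) := Nat.cast_nonneg _
    nlinarith [mul_le_mul c h (by linarith) (d.trans c)]
  · rw [n2_p2 (by linarith) h]
    have c : (dig D ⌊y * 512⌋₊ : ℝ) ≤ dig D j := by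
      exact_mod_cast H.anti hj (n2_fl hy) (n2_fl' (by linarith) h)
    linarith

lemma N2Side.d128 (H : N2Side D C A M) : (dig D 128 : ℝ) / 1024 ≤ (C : ℝ) / 1024 - 17 / 10 := by
  have : (5 : ℝ) * dig D 128 + 68 * (128 + 1) ≤ 5 * C := by
    exact_mod_cast H.s4 128 le_rfl (by norm_num)
  linarith

lemma N2Side.up0 (H : N2Side D C A M) {y : ℝ} (hy : 1 / 4 ≤ y) :
    psi D C A M y ≤ (C : ℝ) / 1024 - 17 / 10 :=
  (H.up le_rfl (by have := H.s7; omega) (by push_cast; linarith)).trans H.d128

lemma N2Side.antitone (H : N2Side D C A M) : Antitone (psi D C A M) := fun x y hxy => by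
  have m := H.m
  rcases lt_or_ge x (1 / 4) with hx | hx
  · rw [n2_p1 hx]
    rcases lt_or_ge y (1 / 4) with hy | hy
    · rw [n2_p1 hy]
      have := max_le_max_right 0 hxy
      linarith
    · have := H.up0 hy
      have : max x 0 ≤ 1 / 4 := max_le hx.le (by norm_num)
      linarith
  · rcases le_or_gt ((M : ℝ) / 512) x with h | h
    · rw [H.p3 h, H.p3 (h.trans hxy)]
      exact div_le_div_of_nonneg_left (by positivity) (by linarith) hxy
    · rw [n2_p2 hx h]
      refine H.up (n2_fl (by push_cast; linarith)) (n2_fl' (by linarith) h) ?_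
      have := Nat.floor_le (show 0 ≤ x * 512 by linarith)
      linarith

lemma N2Side.nonneg (H : N2Side D C A M) (s : ℝ) : 0 ≤ psi D C A M s := by
  have m := H.m
  rcases lt_or_ge s (1 / 4) with hx | hx
  · rw [n2_p1 hx]
    have := H.d128
    have : max s 0 ≤ 1 / 4 := max_le hx.le (by norm_num)
    have : (0 : ℝ) ≤ dig D 128 := Nat.cast_nonneg _
    linarith
  · rcases le_or_gt ((M : ℝ) / 512) s with h | h
    · rw [H.p3 h]
      exact div_nonneg (by positivity) (by linarith)
    · rw [n2_p2 hx h]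
      positivity

lemma N2Side.top (H : N2Side D C A M) (s : ℝ) : psi D C A M s ≤ (C : ℝ) / 1024 := by
  rcases lt_or_ge s (1 / 4) with hx | hx
  · rw [n2_p1 hx]
    have := le_max_right s 0
    linarith
  · have := H.up0 hx
    linarith

lemma N2Side.lin (H : N2Side D C A M) {r : ℝ} (hr : r ≤ 1 / 2) :
    psi D C A M r ≤ (C : ℝ) / 1024 - 34 / 5 * r := by
  have m := H.m
  rcases lt_or_ge r (1 / 4) with hx | hx
  · rw [n2_p1 hx]
    have := le_max_left r 0
    linarith
  · rw [n2_p2 hx (by linarith)]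
    have a : (5 : ℝ) * dig D ⌊r * 512⌋₊ + 68 * (⌊r * 512⌋₊ + 1) ≤ 5 * C := by
      exact_mod_cast H.s4 _ (n2_fl (by push_cast; linarith))
        (n2_fl' (by linarith) (by push_cast; linarith))
    have := Nat.lt_floor_add_one (r * 512)
    linarith

lemma N2Side.tail (H : N2Side D C A M) {r : ℝ} (hr : (2 * M / 3 - 1 : ℝ) / 512 ≤ r) :
    psi D C A M r ≤ (A : ℝ) / 512 / 1024 / r := by
  have m := H.m
  rcases le_or_gt ((M : ℝ) / 512) r with h | h
  · exact (H.p3 h).le
  · rw [n2_p2 (by linarith) h, le_div_iff₀ (by linarith)]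
    have b := Nat.lt_floor_add_one (r * 512)
    have c : 2 * M / 3 - 3 ≤ ⌊r * 512⌋₊ := by
      have : 2 * M < 3 * ⌊r * 512⌋₊ + 6 := by
        have : (2 : ℝ) * M < 3 * ⌊r * 512⌋₊ + 6 := by linarith
        exact_mod_cast this
      omega
    have a : (dig D ⌊r * 512⌋₊ : ℝ) * (⌊r * 512⌋₊ + 1) ≤ A := by
      exact_mod_cast H.s3 _ c (n2_fl' (by linarith) h)
    have d : (0 : ℝ) ≤ dig D ⌊r * 512⌋₊ := Nat.cast_nonneg _
    nlinarith [mul_le_mul_of_nonneg_left b.le d]

lemma N2Side.look (H : N2Side D C A M) (j : ℕ) (s : ℝ) (h : (j : ℝ) / 512 ≤ s ∨ j = 0) :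
    psi D C A M s ≤ (nlook D C A M j : ℝ) / 1024 := by
  have m := H.m
  rcases lt_or_ge j 128 with hj | hj
  · have e : nlook D C A M j = C - 68 * j / 5 := by
      unfold nlook
      rw [show Nat.ble (nat_lit 128) j = false from
        Bool.eq_false_iff.2 fun h => absurd (Nat.le_of_ble_eq_true h) (not_le.2 hj)]
      rfl
    have a : (j : ℝ) < 128 := by exact_mod_cast hj
    have b : (5 : ℝ) * C ≤ 5 * (C - 68 * j / 5 : ℕ) + 68 * j := by
      have : 5 * C ≤ 5 * (C - 68 * j / 5) + 68 * j := by omega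
      exact_mod_cast this
    rw [e]
    rcases h with h | rfl
    · have := (H.antitone h).trans (H.lin (by linarith))
      linarith
    · simpa using H.top s
  · have h := h.resolve_right (by omega)
    rcases lt_or_ge j M with hM | hM
    · have e : nlook D C A M j = dig D j := by
        unfold nlook
        rw [show Nat.ble (nat_lit 128) j = true from Nat.ble_eq_true_of_le hj,
          show Nat.ble M j = false from
            Bool.eq_false_iff.2 fun h => absurd (Nat.le_of_ble_eq_true h) (not_le.2 hM)]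
      rw [e]
      exact H.up hj hM h
    · have e : nlook D C A M j = A / j + 1 := by
        unfold nlook
        rw [show Nat.ble (nat_lit 128) j = true from Nat.ble_eq_true_of_le hj,
          show Nat.ble M j = true from Nat.ble_eq_true_of_le hM]
        rfl
      have a : (M : ℝ) ≤ j := by exact_mod_cast hM
      have b : (A : ℝ) ≤ j * (A / j + 1 : ℕ) := by
        exact_mod_cast (Nat.lt_mul_div_succ A (by omega : 0 < j)).le
      rw [e, H.p3 (by linarith), div_le_iff₀ (by linarith)]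
      have d : (0 : ℝ) ≤ (A / j + 1 : ℕ) := Nat.cast_nonneg _
      nlinarith [mul_le_mul_of_nonneg_left h d]

lemma N2Side.int (H : N2Side D C A M) (s e : ℝ) :
    IntervalIntegrable (fun t => psi D C A M (s / mm t - e)) volume 0 2 := by
  have c : Continuous fun t => s / mm t - e :=
    (continuous_const.div continuous_mm fun s => (mm_pos s).ne').sub continuous_const
  refine (intervalIntegrable_const (c := (C : ℝ) / 1024)).mono_fun'
    (H.antitone.measurable.comp c.measurable).aestronglyMeasurable (ae_of_all _ fun t => ?_)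
  simp only
  rw [Real.norm_of_nonneg (H.nonneg _)]
  exact H.top _

lemma n2_ar {a u s e : ℝ} (a2 : a ≤ 11) (a3 : 0 ≤ a) (c : 2 * s / 3 ≤ u) (hs : 2 ≤ s) (e0 : 0 ≤ e)
    (e1 : e ≤ 1 / 512) : a / (u - e) ≤ 50 * e / s ^ 2 + a / u := by
  have u1 : 0 < u := by linarith
  have u2 : s / 2 ≤ u - e := by linarith
  have u3 : 0 < u - e := by linarith
  have u4 : s ^ 2 / 3 ≤ u * (u - e) := by nlinarith [mul_le_mul c u2 (by linarith) u1.le]
  have u5 : a / (u - e) - a / u = a * e / (u * (u - e)) := by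
    field_simp
    ring
  have u6 : a * e / (u * (u - e)) ≤ 50 * e / s ^ 2 := by
    rw [div_le_div_iff₀ (mul_pos u1 u3) (by positivity)]
    have v1 : a * e * s ^ 2 ≤ 11 * e * s ^ 2 := by gcongr
    have v2 := mul_le_mul_of_nonneg_left u4 e0
    have v3 : 0 ≤ e * s ^ 2 := by positivity
    nlinarith
  linarith

lemma n2_ar2 {s e : ℝ} (hs : 2 ≤ s) (e0 : 0 ≤ e) : 50 * e / s ^ 2 ≤ 100 * e / (1 + s ^ 2) := by
  rw [div_le_div_iff₀ (by positivity) (by positivity)]
  have : 1 ≤ s ^ 2 := by nlinarith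
  nlinarith [mul_le_mul_of_nonneg_left this e0]

lemma n2_ar3 {s e : ℝ} (h0 : 0 < s) (hs : s < 1 / 4) (e0 : 0 ≤ e) :
    34 / 5 * e ≤ 100 * e / (1 + s ^ 2) := by
  rw [le_div_iff₀ (by positivity)]
  have : s ^ 2 ≤ 1 := by nlinarith
  nlinarith [mul_le_mul_of_nonneg_left this e0]

theorem prof_sound {t : TB} {K1 D C A M : ℕ} (ht : TabOK t K1) (hs : nside D C A M = true)
    (hr : ∀ i, 128 ≤ i → i < M → nrow t D C A M i = true) :
    Prof (psi D C A M) ((C : ℝ) / 1024) := by
  have H := n2_side hs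
  have m := H.m
  have a0 : (0 : ℝ) ≤ A := Nat.cast_nonneg _
  have a1 : (A : ℝ) ≤ 5767168 := by exact_mod_cast H.s6
  refine ⟨H.antitone, H.nonneg, H.top, fun s h1 => ?_, fun s h0 h1 => ?_, fun s e h0 e0 e1 => ?_⟩
  · rcases le_or_gt ((M : ℝ) / 512) s with h | h
    · rw [H.p3 h]
      exact div_le_div_of_nonneg_right (by linarith) (by linarith)
    · refine (H.up (j := 512) (by norm_num) (by have := H.s7; omega)
        (by push_cast; linarith)).trans ?_
      have b : (dig D 512 : ℝ) * M ≤ 10485760 := by exact_mod_cast H.s8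
      have d : (0 : ℝ) ≤ dig D 512 := Nat.cast_nonneg _
      rw [le_div_iff₀ (by linarith)]
      linarith [mul_le_mul_of_nonneg_left h.le d]
  · rw [n2_p1 (by linarith), max_eq_left h0]
    constructor <;> linarith
  have ci : Continuous fun t => 1 / mm t :=
    continuous_const.div continuous_mm fun s => (mm_pos s).ne'
  rcases lt_or_ge s (1 / 4) with hx | hx
  · have b : ∫ t in (0 : ℝ)..2, psi D C A M (s / mm t - e) ≤
        ∫ t in (0 : ℝ)..2, ((C : ℝ) / 1024 + 34 / 5 * e - 34 / 5 * s * (1 / mm t)) := by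
      refine intervalIntegral.integral_mono_on (by norm_num) (H.int s e)
        ((continuous_const.sub (continuous_const.mul ci)).intervalIntegrable _ _) fun t _ => ?_
      have c : s / mm t ≤ 1 / 2 := by
        rw [div_le_iff₀ (mm_pos t)]
        linarith [mm_ge t]
      refine (H.lin (by linarith)).trans (le_of_eq ?_)
      ring
    rw [intervalIntegral.integral_sub (continuous_const.intervalIntegrable _ _)
      ((ci.intervalIntegrable _ _).const_mul _), intervalIntegral.integral_const_mul,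
      intervalIntegral.integral_const, smul_eq_mul] at b
    have c := mul_le_mul_of_nonneg_left avg_inv h0.le
    have d := n2_ar3 h0 hx e0
    rw [if_pos (by linarith), n2_p1 hx, max_eq_left h0.le]
    linarith
  rcases le_or_gt ((M : ℝ) / 512) s with h | h
  · have b : ∫ t in (0 : ℝ)..2, psi D C A M (s / mm t - e) ≤
        ∫ t in (0 : ℝ)..2, (50 * e / s ^ 2 + (A : ℝ) / 512 / 1024 / s * mm t) := by
      refine intervalIntegral.integral_mono_on (by norm_num) (H.int s e)
        ((continuous_const.add (continuous_const.mul continuous_mm)).intervalIntegrable _ _)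
        fun t _ => ?_
      have c : 2 * s / 3 ≤ s / mm t := by
        rw [le_div_iff₀ (mm_pos t)]
        linarith [mul_le_mul_of_nonneg_left (mm_le t) h0.le]
      refine (H.tail (by linarith)).trans ?_
      have e2 : (A : ℝ) / 512 / 1024 / s * mm t = (A : ℝ) / 512 / 1024 / (s / mm t) := by
        rw [div_div_eq_mul_div]
        ring
      rw [e2]
      have a2 : (A : ℝ) / 512 / 1024 ≤ 11 := by linarith
      have a3 : (0 : ℝ) ≤ (A : ℝ) / 512 / 1024 := by positivity
      generalize (A : ℝ) / 512 / 1024 = a at a2 a3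
      generalize s / mm t = u at c
      exact n2_ar a2 a3 c (by linarith) e0 e1
    rw [intervalIntegral.integral_add (continuous_const.intervalIntegrable _ _)
      ((continuous_mm.intervalIntegrable _ _).const_mul _),
      intervalIntegral.integral_const_mul, intervalIntegral.integral_const, smul_eq_mul,
      avg_mm] at b
    have d := n2_ar2 (s := s) (by linarith) e0
    rw [if_neg (by linarith), H.p3 h]
    linarith
  · have f0 := Nat.floor_le (show 0 ≤ s * 512 by linarith)
    have f1 := Nat.lt_floor_add_one (s * 512)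
    have b := avgT_sound ht H.antitone (nlook D C A M) H.look ⌊s * 512⌋₊ (s := s) (by linarith) e0 e1
    have c := hr ⌊s * 512⌋₊ (n2_fl (by push_cast; linarith)) (n2_fl' h0.le h)
    rw [n2_p2 hx h]
    have g : s < 1 → ⌊s * 512⌋₊ < 512 := fun h1 => n2_fl' h0.le (by push_cast; linarith)
    generalize ⌊s * 512⌋₊ = i at f0 f1 b c g
    unfold nrow at c
    rw [sq_eq] at c
    have c1 := Nat.le_of_ble_eq_true c
    have e48 : Nat.shiftLeft i (nat_lit 48) = i * 2 ^ 48 := Nat.shiftLeft_eq i 48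
    have e40 : ∀ x, Nat.shiftLeft x (nat_lit 40) = x * 2 ^ 40 := fun x => Nat.shiftLeft_eq x 40
    rw [e48, e40, e40, Nat.add_eq] at c1
    have d : 0 ≤ 100 * e / (1 + s ^ 2) := by positivity
    generalize avgT (nlook D C A M) (i * 2 ^ 48) t = T at b c1
    split_ifs with h1
    · rw [show Nat.ble (nat_lit 512) i = false from
        Bool.eq_false_iff.2 fun h => absurd (Nat.le_of_ble_eq_true h) (not_le.2 (g h1))] at c1
      have c2 : T + 2 * (i + 1) * 2 ^ 40 ≤ dig D i * 2 ^ 40 := c1
      have c3 : (T : ℝ) + 2 * (i + 1) * 2 ^ 40 ≤ dig D i * 2 ^ 40 := by exact_mod_cast c2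
      have c4 : (T : ℝ) / 2 ^ 40 ≤ dig D i - 2 * (i + 1) := by
        rw [div_le_iff₀ (by positivity)]
        linarith
      linarith
    · have c2 : T ≤ dig D i * 2 ^ 40 := le_trans (Nat.le_add_right _ _) c1
      have c3 : (T : ℝ) ≤ dig D i * 2 ^ 40 := by exact_mod_cast c2
      have c4 : (T : ℝ) / 2 ^ 40 ≤ dig D i := by
        rw [div_le_iff₀ (by positivity)]
        exact c3
      linarith

end Pool.Agent.Lib.MP_2dc536_an.X
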