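import Pool.Agent.Lib.MP_2dc536_an.X.NR0
import Pool.Agent.Lib.MP_2dc536_an.X.NR1
import Pool.Agent.Lib.MP_2dc536_an.X.NR2
import Pool.Agent.Lib.MP_2dc536_an.X.NR3
import Pool.Agent.Lib.MP_2dc536_an.X.N2
import Pool.Agent.Lib.MP_2dc536_an.X.FastT

namespace Pool.Agent.Lib.MP_2dc536_an.X

theorem prof_nD : Prof (psi nD 15948 4504576 1024) (((15948 : ℕ) : ℝ) / 1024) := by
  refine prof_sound tab_ok nD_side fun i h0 h1 => ?_
  by_cases c0 : i < 352
  · exact allB_sound nr0 (by omega) (by omega)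
  by_cases c1 : i < 576
  · exact allB_sound nr1 (by omega) (by omega)
  by_cases c2 : i < 800
  · exact allB_sound nr2 (by omega) (by omega)
  exact allB_sound nr3 (by omega) (by omega)

end Pool.Agent.Lib.MP_2dc536_an.X
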