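import Pool.Agent.Lib.MP_2dc536_an.X.N4
import Pool.Agent.Lib.MP_2dc536_an.X.Glue
import Pool.Agent.Lib.MP_2dc536_an.X.NAll

/-!
The transfer inequality for an arbitrary invariant set.
-/

namespace Pool.Agent.Lib.MP_2dc536_an.X

open Real Set MeasureTheory

lemma ge_piece {E : Set ℝ} (hEm : MeasurableSet E) (hEf : ∀ x ∈ E, ff x ∈ E)
    (H : ℝ → ℝ) {U : Set ℝ} (hU : MeasurableSet U) (hinj : InjOn ff U)
    (hd : ∀ x ∈ U, ff' x ≠ 0) :
    ∫⁻ x in U ∩ E, ENNReal.ofReal (H x) = ∫⁻ y in E, (ff '' (U ∩ E)).indicator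
      (fun y => ENNReal.ofReal (H (Function.invFunOn ff U y) /
        |ff' (Function.invFunOn ff U y)|)) y := by
  have hV : MeasurableSet (U ∩ E) := hU.inter hEm
  have hi : InjOn ff (U ∩ E) := hinj.mono inter_subset_left
  have hW : MeasurableSet (ff '' (U ∩ E)) :=
    hV.image_of_continuousOn_injOn continuous_ff.continuousOn hi
  have hs : ff '' (U ∩ E) ⊆ E := by
    rintro _ ⟨x, hx, rfl⟩
    exact hEf _ hx.2
  rw [lintegral_indicator hW, Measure.restrict_restrict hW, inter_eq_left.2 hs,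
    lintegral_image_eq_lintegral_abs_deriv_mul hV
      (fun x _ => (hasDerivAt_ff x).hasDerivWithinAt) hi]
  refine setLIntegral_congr_fun hV (fun x hx => ?_)
  have h1 : Function.invFunOn ff U (ff x) = x := hinj.leftInvOn_invFunOn hx.1
  have h2 : |ff' x| ≠ 0 := abs_ne_zero.2 (hd x hx.1)
  simp only [h1]
  rw [← ENNReal.ofReal_mul (abs_nonneg _), mul_div_cancel₀ _ h2]

theorem ge_frame {E : Set ℝ} (hEm : MeasurableSet E) (hEf : ∀ x ∈ E, ff x ∈ E)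
    (H src b : ℝ → ℝ) (U : ℕ → Set ℝ) (hUm : ∀ n, MeasurableSet (U n))
    (hUs : ∀ n, U n ⊆ Ico (n : ℝ) (n + 1)) (hinj : ∀ n, InjOn ff (U n))
    (hd : ∀ n, ∀ x ∈ U n, ff' x ≠ 0) (hH0 : ∀ x, 0 ≤ H x) (hH : ∀ x, H x ≠ 0 → ∃ n, x ∈ U n)
    (hfin : ∫⁻ x, ENNReal.ofReal (H x) ≠ ⊤) (hsrc : Measurable src) (hsrc0 : ∀ y, 0 ≤ src y)
    (hb : Measurable b) (hb0 : ∀ y, 0 ≤ b y)
    (key : ∀ y ∈ E, (∀ m : ℕ, y ≠ m) → ∀ (S : Finset ℕ) (x : ℕ → ℝ),
      (∀ n ∈ S, x n ∈ U n ∧ ff (x n) = y) →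
        ∑ n ∈ S, H (x n) / |ff' (x n)| + src y ≤ H y + b y) :
    ∫⁻ y in E, ENNReal.ofReal (src y) ≤ ∫⁻ y in E, ENNReal.ofReal (b y) := by
  classical
  have hI : ∫⁻ x in E, ENNReal.ofReal (H x) ≠ ⊤ :=
    ne_top_of_le_ne_top hfin (setLIntegral_le_lintegral _ _)
  have hUU : MeasurableSet (⋃ n, U n) := MeasurableSet.iUnion hUm
  have h1 : ∫⁻ x in E, ENNReal.ofReal (H x) ≤ ∑' n, ∫⁻ x in U n ∩ E, ENNReal.ofReal (H x) := by
    have e : (fun x => ENNReal.ofReal (H x)) =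
        (⋃ n, U n).indicator (fun x => ENNReal.ofReal (H x)) := by
      funext x
      by_cases h : x ∈ ⋃ n, U n
      · rw [indicator_of_mem h]
      · rw [indicator_of_notMem h]
        by_contra h2
        refine h (mem_iUnion.2 (hH x fun h3 => h2 ?_))
        rw [h3, ENNReal.ofReal_zero]
    calc ∫⁻ x in E, ENNReal.ofReal (H x)
        = ∫⁻ x in E, (⋃ n, U n).indicator (fun x => ENNReal.ofReal (H x)) x := by rw [← e]
      _ = ∫⁻ x in ⋃ n, U n ∩ E, ENNReal.ofReal (H x) := by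
          rw [lintegral_indicator hUU, Measure.restrict_restrict hUU, iUnion_inter]
      _ ≤ _ := lintegral_iUnion_le _ _
  have hN : ∀ᵐ y : ℝ, y ∉ range (Nat.cast : ℕ → ℝ) :=
    (countable_range _).ae_notMem volume
  have h2 : ∀ S : Finset ℕ, (∑ n ∈ S, ∫⁻ x in U n ∩ E, ENNReal.ofReal (H x)) +
      ∫⁻ y in E, ENNReal.ofReal (src y) ≤
      (∫⁻ x in E, ENNReal.ofReal (H x)) + ∫⁻ y in E, ENNReal.ofReal (b y) := by
    intro S
    rw [Finset.sum_congr rfl (fun n _ => ge_piece hEm hEf H (hUm n) (hinj n) (hd n)),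
      ← lintegral_add_right _ hb.ennreal_ofReal]
    refine (add_le_add (sum_lintegral_le _ _ S) le_rfl).trans
      ((le_lintegral_add _ _).trans ?_)
    refine setLIntegral_mono_ae' hEm ?_
    filter_upwards [hN] with y hy hE
    have h3 := key y hE (fun m h => hy ⟨m, h.symm⟩) (S.filter fun n => y ∈ ff '' (U n ∩ E))
      (fun n => Function.invFunOn ff (U n) y) (fun n hn => by
        obtain ⟨x, hx, rfl⟩ := (Finset.mem_filter.1 hn).2
        rw [(hinj n).leftInvOn_invFunOn hx.1]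
        exact ⟨hx.1, rfl⟩)
    have h4 : ∀ n, 0 ≤ H (Function.invFunOn ff (U n) y) / |ff' (Function.invFunOn ff (U n) y)| :=
      fun n => div_nonneg (hH0 _) (abs_nonneg _)
    simp only [indicator_apply]
    rw [← Finset.sum_filter, ← ENNReal.ofReal_sum_of_nonneg (fun n _ => h4 n),
      ← ENNReal.ofReal_add (Finset.sum_nonneg fun n _ => h4 n) (hsrc0 y),
      ← ENNReal.ofReal_add (hH0 y) (hb0 y)]
    exact ENNReal.ofReal_le_ofReal h3
  refine (ENNReal.add_le_add_iff_left hI).1 ((add_le_add h1 le_rfl).trans ?_)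
  rw [ENNReal.tsum_eq_iSup_sum, ENNReal.iSup_add]
  exact iSup_le h2

lemma ge_core {E : Set ℝ} (hEm : MeasurableSet E) (hEf : ∀ x ∈ E, ff x ∈ E)
    {ψ : ℝ → ℝ} {C0 : ℝ} (hP : Prof ψ C0) (hC : C0 ≤ 17)
    {U : ℕ → Set ℝ} {H b : ℝ → ℝ} {κ : ℝ} (hκ : 0 ≤ κ)
    (hUm : ∀ n, MeasurableSet (U n)) (hUs : ∀ n, U n ⊆ Ico (n : ℝ) (n + 1))
    (hinj : ∀ n, InjOn ff (U n)) (hd : ∀ n, ∀ x ∈ U n, ff' x ≠ 0)
    (hH0 : ∀ x, 0 ≤ H x) (hH : ∀ x, H x ≠ 0 → ∃ n, x ∈ U n) (hHb : ∀ x, H x ≤ 64)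
    (hUA : ∀ n, 3000 ≤ n → U n = UA n) (hHA : ∀ x, 3000 ≤ x → H x = HA x)
    (hb : Measurable b) (hb0 : ∀ y, 0 ≤ b y)
    (hbκ : ∫⁻ y, ENNReal.ofReal (b y) ≤ ENNReal.ofReal κ)
    (key : ∀ y ∈ E, (∀ m : ℕ, y ≠ m) → Key U H b y) {Z : ℕ} {X C W : ℝ}
    (hZ : 3000 ≤ Z) (hX : 2 * (Z : ℝ) + 1 ≤ X) (hC0 : 0 ≤ C)
    (hC1 : ∀ m : ℕ, Z ≤ m → m ≤ 2 * Z → C * Phi0 m ≤ ψ (m / X)) (hW : 2 * (Z : ℝ) ≤ W)
    (hC2 : ∀ m : ℕ, W ≤ m → ψ (m / X) ≤ C * Phi0 m) :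
    volume (E ∩ Icc 1 X) ≤
      ENNReal.ofReal (W + (X * (C * κ + (30 * (20 / √(Z : ℝ)) + 2 / √(Z : ℝ))) + 1 / 4)) := by
  have h3 : (3000 : ℝ) ≤ Z := by exact_mod_cast hZ
  have hX0 : 0 < X := by linarith
  have hT : (0 : ℝ) ≤ 30 := by norm_num
  have hp0 : ∀ n : ℕ, 0 ≤ ψ (n / X) := fun n => hP.2.1 _
  have hi : ∀ f : ℝ → ℝ, (∀ y, 0 ≤ y → 0 ≤ f y) →
      ∀ y, 0 ≤ (Ici ((2 * Z : ℕ) : ℝ)).indicator f y := fun f hf y =>
    indicator_nonneg (fun z hz => hf z (le_trans (Nat.cast_nonneg _) hz)) y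
  have hiT := hi bT (fun _ => bT_nonneg)
  have hiA := hi bA (fun _ => bA_nonneg)
  have hind : ∀ (f : ℝ → ℝ) (s : Set ℝ) (y : ℝ), ENNReal.ofReal (s.indicator f y) =
      s.indicator (fun y => ENNReal.ofReal (f y)) y := by
    intro f s y
    by_cases h : y ∈ s
    · rw [indicator_of_mem h, indicator_of_mem h]
    · rw [indicator_of_notMem h, indicator_of_notMem h, ENNReal.ofReal_zero]
  have hmT : Measurable ((Ici ((2 * Z : ℕ) : ℝ)).indicator bT) :=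
    measurable_bT.indicator measurableSet_Ici
  have hmA : Measurable ((Ici ((2 * Z : ℕ) : ℝ)).indicator bA) :=
    measurable_bA.indicator measurableSet_Ici
  have h1 := ge_frame hEm hEf (n4H H Z (fun n => ψ (n / X)) C)
    ((Ico (W + 1) (X - 1 / 4)).indicator (fun _ => 1 / X))
    (fun y => C * b y + (30 * (Ici ((2 * Z : ℕ) : ℝ)).indicator bT y +
        (Ici ((2 * Z : ℕ) : ℝ)).indicator bA y)) U hUm hUs hinj hd (n4_H0 hH0 hp0 hC0)
    (fun x hx => hH x fun h => hx (le_antisymm (by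
      have := n4_Hle (p := fun n => ψ (n / X)) (C := C) hZ hHA x
      rwa [h, mul_zero] at this) (n4_H0 hH0 hp0 hC0 x)))
    (n4_fin hP.2.2.2.1 hZ hC0 (by linarith) (fun x hx => by
      by_contra h
      obtain ⟨n, hn⟩ := hH x h
      linarith [(hUs n hn).1, (Nat.cast_nonneg n : (0 : ℝ) ≤ n)]) hHb hHA)
    (measurable_const.indicator measurableSet_Ico)
    (fun y => indicator_nonneg (fun z _ => by positivity) y)
    ((hb.const_mul C).add ((hmT.const_mul _).add hmA))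
    (fun y => add_nonneg (mul_nonneg hC0 (hb0 y)) (add_nonneg (mul_nonneg hT (hiT y)) (hiA y)))
    (fun y hy hn S x hx => n4_key hP hC hUs hUA hHA hb0 hZ hX hC0 hC1 hW hC2 hn
      (key y hy hn) S x hx)
  have hs : 0 < √(Z : ℝ) := sqrt_pos.2 (by linarith)
  have h20 : 0 ≤ 20 / √(Z : ℝ) := by positivity
  have h21 : 0 ≤ 2 / √(Z : ℝ) := by positivity
  have h2 : ∫⁻ y, ENNReal.ofReal (C * b y +
      (30 * (Ici ((2 * Z : ℕ) : ℝ)).indicator bT y +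
        (Ici ((2 * Z : ℕ) : ℝ)).indicator bA y)) ≤
      ENNReal.ofReal (C * κ + (30 * (20 / √(Z : ℝ)) + 2 / √(Z : ℝ))) := by
    have e : ∀ y, ENNReal.ofReal (C * b y +
        (30 * (Ici ((2 * Z : ℕ) : ℝ)).indicator bT y +
          (Ici ((2 * Z : ℕ) : ℝ)).indicator bA y)) =
        ENNReal.ofReal C * ENNReal.ofReal (b y) + (ENNReal.ofReal 30 *
          (Ici ((2 * Z : ℕ) : ℝ)).indicator (fun y => ENNReal.ofReal (bT y)) y +
          (Ici ((2 * Z : ℕ) : ℝ)).indicator (fun y => ENNReal.ofReal (bA y)) y) := by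
      intro y
      rw [ENNReal.ofReal_add (mul_nonneg hC0 (hb0 y)) (add_nonneg (mul_nonneg hT (hiT y)) (hiA y)),
        ENNReal.ofReal_add (mul_nonneg hT (hiT y)) (hiA y), ENNReal.ofReal_mul hC0,
        ENNReal.ofReal_mul hT, hind, hind]
    have m1 : Measurable ((Ici ((2 * Z : ℕ) : ℝ)).indicator fun y => ENNReal.ofReal (bT y)) :=
      measurable_bT.ennreal_ofReal.indicator measurableSet_Ici
    simp only [e]
    rw [lintegral_add_left (hb.ennreal_ofReal.const_mul _), lintegral_add_left (m1.const_mul _),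
      lintegral_const_mul _ hb.ennreal_ofReal, lintegral_const_mul _ m1,
      lintegral_indicator measurableSet_Ici, lintegral_indicator measurableSet_Ici,
      ENNReal.ofReal_add (mul_nonneg hC0 hκ) (add_nonneg (mul_nonneg hT h20) h21),
      ENNReal.ofReal_add (mul_nonneg hT h20) h21, ENNReal.ofReal_mul hC0,
      ENNReal.ofReal_mul hT]
    refine add_le_add (mul_le_mul_right hbκ _) (add_le_add (mul_le_mul_right
      ((costT (2 * Z) (by omega)).trans (ENNReal.ofReal_le_ofReal ?_)) _)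
      ((costA (2 * Z) (by omega)).trans (ENNReal.ofReal_le_ofReal ?_)))
    · refine div_le_div_of_nonneg_left (by norm_num) hs (sqrt_le_sqrt ?_)
      push_cast
      linarith
    · push_cast
      have a1 : √(Z : ℝ) ≤ √(2 * (Z : ℝ) - 3) := sqrt_le_sqrt (by linarith)
      have a2 : 81 / 100 / √(2 * (Z : ℝ) - 3) ≤ 1 / √(Z : ℝ) :=
        div_le_div₀ (by norm_num) (by norm_num) hs a1
      have a4 : √(Z : ℝ) ≤ 2 * (Z : ℝ) - 2 := sqrt_le_iff.2 ⟨by linarith, by nlinarith⟩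
      have a3 : 63 / 100 / (2 * (Z : ℝ) - 2) ≤ 1 / √(Z : ℝ) :=
        div_le_div₀ (by norm_num) (by norm_num) hs a4
      have a5 : 2 / √(Z : ℝ) = 1 / √(Z : ℝ) + 1 / √(Z : ℝ) := by ring
      linarith
  have hK : 0 ≤ C * κ + (30 * (20 / √(Z : ℝ)) + 2 / √(Z : ℝ)) :=
    add_nonneg (mul_nonneg hC0 hκ) (add_nonneg (mul_nonneg hT h20) h21)
  have h4 : ∫⁻ y in E, ENNReal.ofReal ((Ico (W + 1) (X - 1 / 4)).indicator (fun _ => 1 / X) y) =
      ENNReal.ofReal (1 / X) * volume (E ∩ Ico (W + 1) (X - 1 / 4)) := by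
    simp only [hind]
    rw [lintegral_indicator measurableSet_Ico, Measure.restrict_restrict measurableSet_Ico,
      inter_comm, setLIntegral_const]
  have h6 : volume (E ∩ Ico (W + 1) (X - 1 / 4)) ≤
      ENNReal.ofReal (X * (C * κ + (30 * (20 / √(Z : ℝ)) + 2 / √(Z : ℝ)))) := by
    have h7 := mul_le_mul_right (h4.ge.trans (h1.trans ((setLIntegral_le_lintegral _ _).trans h2)))
      (ENNReal.ofReal X)
    rwa [← mul_assoc, ← ENNReal.ofReal_mul hX0.le, mul_one_div_cancel hX0.ne', ENNReal.ofReal_one,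
      one_mul, ← ENNReal.ofReal_mul hX0.le] at h7
  have h5 : E ∩ Icc 1 X ⊆
      Icc 1 (W + 1) ∪ (E ∩ Ico (W + 1) (X - 1 / 4) ∪ Icc (X - 1 / 4) X) := by
    intro y hy
    rcases le_total y (W + 1) with h | h
    · exact Or.inl ⟨hy.2.1, h⟩
    rcases lt_or_ge y (X - 1 / 4) with h' | h'
    · exact Or.inr (Or.inl ⟨hy.1, h, h'⟩)
    · exact Or.inr (Or.inr ⟨h', hy.2.2⟩)
  refine (measure_mono h5).trans ((measure_union_le _ _).trans
    ((add_le_add le_rfl (measure_union_le _ _)).trans ?_))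
  rw [Real.volume_Icc, Real.volume_Icc, add_sub_cancel_right, sub_sub_cancel,
    ENNReal.ofReal_add (by linarith) (add_nonneg (mul_nonneg hX0.le hK) (by norm_num)),
    ENNReal.ofReal_add (mul_nonneg hX0.le hK) (by norm_num)]
  exact add_le_add le_rfl (add_le_add h6 le_rfl)

theorem ge_top {E : Set ℝ} (hEm : MeasurableSet E) (hEf : ∀ x ∈ E, ff x ∈ E)
    {ψ : ℝ → ℝ} {C0 : ℝ} (hP : Prof ψ C0) (hC : C0 ≤ 17)
    (U : ℕ → Set ℝ) (H b : ℝ → ℝ) (κ δ : ℝ) (hκ : 0 ≤ κ)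
    (hUm : ∀ n, MeasurableSet (U n)) (hUs : ∀ n, U n ⊆ Ico (n : ℝ) (n + 1))
    (hinj : ∀ n, InjOn ff (U n)) (hd : ∀ n, ∀ x ∈ U n, ff' x ≠ 0)
    (hH0 : ∀ x, 0 ≤ H x) (hH : ∀ x, H x ≠ 0 → ∃ n, x ∈ U n) (hHb : ∀ x, H x ≤ 64)
    (hUA : ∀ n, 3000 ≤ n → U n = UA n) (hHA : ∀ x, 3000 ≤ x → H x = HA x)
    (hb : Measurable b) (hb0 : ∀ y, 0 ≤ b y)
    (hbκ : ∫⁻ y, ENNReal.ofReal (b y) ≤ ENNReal.ofReal κ)
    (key : ∀ y ∈ E, (∀ m : ℕ, y ≠ m) → Key U H b y) (hδ : C0 * κ < δ) :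
    ∃ X₀ : ℝ, ∀ X : ℝ, X₀ ≤ X → volume (E ∩ Icc 1 X) ≤ ENNReal.ofReal (δ * X) := by
  obtain ⟨g, hg, hδg⟩ : ∃ g : ℝ, 0 < g ∧ δ = C0 * κ + g := ⟨δ - C0 * κ, by linarith, by ring⟩
  obtain ⟨Z, hZ⟩ := exists_nat_ge (1000000 + (1604 / g) ^ 2)
  have p2 : 0 ≤ (1604 / g) ^ 2 := sq_nonneg _
  have h3 : (1000000 : ℝ) ≤ Z := by linarith
  have hZ3 : 3000 ≤ Z := by
    have : (3000 : ℝ) ≤ Z := by linarith
    exact_mod_cast this
  have hs1 : (1000 : ℝ) ≤ √(Z : ℝ) := le_sqrt_of_sq_le (by linarith)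
  have hs2 : 1604 / g ≤ √(Z : ℝ) := le_sqrt_of_sq_le (by linarith)
  obtain ⟨u, hu0, hu1, hu⟩ : ∃ u : ℝ, 0 < u ∧ u * √(Z : ℝ) = 1 ∧ ∀ a : ℝ, a / √(Z : ℝ) = a * u :=
    ⟨(√(Z : ℝ))⁻¹, by positivity, inv_mul_cancel₀ (by linarith), fun a => div_eq_mul_inv _ _⟩
  have hu2 : 802 * u ≤ g / 2 := by
    rw [div_le_iff₀ hg] at hs2
    have : 1604 * u ≤ √(Z : ℝ) * g * u := mul_le_mul_of_nonneg_right hs2 hu0.le
    have e1 : √(Z : ℝ) * g * u = g * (u * √(Z : ℝ)) := by ring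
    rw [e1, hu1] at this
    linarith
  have hu3 : 1000 * u ≤ 1 := by
    have := mul_le_mul_of_nonneg_left hs1 hu0.le
    linarith
  have p3 : 0 < 1 / g := by positivity
  have p4 : 2 * (Z : ℝ) + 1 ≤ (2 * (Z : ℝ) + 1) * √(Z : ℝ) :=
    le_mul_of_one_le_right (by linarith) (by linarith)
  refine ⟨1 / g + (2 * Z + 1) * √(Z : ℝ), fun X hX => ?_⟩
  have hX1 : 2 * (Z : ℝ) + 1 ≤ X := by linarith
  have hX0 : 0 < X := by linarith
  have hXg : 1 ≤ X * g := (div_le_iff₀ hg).1 (by linarith)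
  have hXu : 2 * (Z : ℝ) + 1 ≤ u * X := by
    have h1 : u * ((2 * (Z : ℝ) + 1) * √(Z : ℝ)) ≤ u * X :=
      mul_le_mul_of_nonneg_left (by linarith) hu0.le
    have e1 : u * ((2 * (Z : ℝ) + 1) * √(Z : ℝ)) = (2 * (Z : ℝ) + 1) * (u * √(Z : ℝ)) := by ring
    rw [e1, hu1] at h1
    linarith
  have hsu : (2 * (Z : ℝ) + 1) / X ≤ u := (div_le_iff₀ hX0).2 hXu
  have hs0 : 0 ≤ (2 * (Z : ℝ) + 1) / X := by positivity
  obtain ⟨C, hCe⟩ : ∃ C : ℝ, C * (1 + 8 * u) = ψ ((2 * (Z : ℝ) + 1) / X) :=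
    ⟨_, div_mul_cancel₀ _ (by positivity)⟩
  have hC0 : 0 ≤ C := by
    by_contra h
    have := mul_neg_of_neg_of_pos (not_le.1 h) (show 0 < 1 + 8 * u by positivity)
    linarith [hP.2.1 ((2 * (Z : ℝ) + 1) / X)]
  have hCT : C ≤ C0 := by
    have := mul_nonneg hC0 hu0.le
    linarith [hP.2.2.1 ((2 * (Z : ℝ) + 1) / X)]
  have hlow : C0 - 200 * u ≤ C := by
    have h1 := (hP.2.2.2.2.1 _ hs0 (by linarith)).1
    have h2 : C * u ≤ 17 * u := mul_le_mul_of_nonneg_right (hCT.trans hC) hu0.le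
    linarith
  refine (ge_core hEm hEf hP hC hκ hUm hUs hinj hd hH0 hH hHb hUA hHA hb hb0 hbκ key (Z := Z) (X := X)
    (C := C) (W := 200 * u * X) hZ3 hX1 hC0 ?_ (by linarith) ?_).trans
    (ENNReal.ofReal_le_ofReal ?_)
  · intro m h1 h2
    have h5 : (m : ℝ) ≤ 2 * Z := by exact_mod_cast h2
    have h6 := tp_Phi2 (by omega) h1
    rw [hu] at h6
    have h7 : ψ ((2 * (Z : ℝ) + 1) / X) ≤ ψ (m / X) :=
      hP.1 (div_le_div_of_nonneg_right (by linarith) hX0.le)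
    have h8 := mul_le_mul_of_nonneg_left h6 hC0
    linarith
  · intro m h1
    have h4 : ψ (m / X) ≤ ψ (200 * u) := hP.1 ((le_div_iff₀ hX0).2 h1)
    have h5 := (hP.2.2.2.2.1 (200 * u) (by linarith) (by linarith)).2
    have h6 : C ≤ C * Phi0 m := le_mul_of_one_le_right hC0 (tp_Phi1 m)
    linarith
  · have h2 : X * (C * κ) ≤ X * (C0 * κ) :=
      mul_le_mul_of_nonneg_left (mul_le_mul_of_nonneg_right hCT hκ) hX0.le
    have h6 : X * (802 * u) ≤ X * (g / 2) := mul_le_mul_of_nonneg_left hu2 hX0.le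
    rw [hu, hu, hδg]
    linarith

theorem ge_high {E : Set ℝ} (hEm : MeasurableSet E) (hEf : ∀ x ∈ E, ff x ∈ E)
    {Y : ℕ} (hY1 : 1503 ≤ Y) (hE : ∀ y ∈ E, (Y : ℝ) ≤ y) {δ : ℝ}
    (hδ : ((15948 : ℕ) : ℝ) / 1024 *
      (81 / 100 / √((Y : ℝ) - 3) + 63 / 100 / ((Y : ℝ) - 2)) < δ) :
    ∃ X₀ : ℝ, ∀ X : ℝ, X₀ ≤ X → volume (E ∩ Icc 1 X) ≤ ENNReal.ofReal (δ * X) := by
  have hY2 : (1503 : ℝ) ≤ Y := by exact_mod_cast hY1
  have hc1 : (0 : ℝ) ≤ 81 / 100 / √((Y : ℝ) - 3) + 63 / 100 / ((Y : ℝ) - 2) :=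
    add_nonneg (div_nonneg (by norm_num) (sqrt_nonneg _))
      (div_nonneg (by norm_num) (by linarith))
  have hi0 : ∀ y, 0 ≤ (Ici (Y : ℝ)).indicator bA y := fun y =>
    indicator_nonneg (fun z hz => bA_nonneg (le_trans (Nat.cast_nonneg Y) hz)) y
  exact ge_top hEm hEf prof_nD (by norm_num) (UU 1000) (HH TB.nil 1000 (DTr.leaf 0 0))
    ((Ici (Y : ℝ)).indicator bA) _ δ hc1 (gl_meas 1000)
    (fun _ => gl_ico)
    (fun n => by
      by_cases h : 2 ≤ n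
      · exact (UB_inj h).1.mono (fun x hx => (gl_sub hx).1)
      · exact fun x hx => absurd (gl_sub hx).2 h)
    (fun n x hx => (UB_inj (gl_sub hx).2).2 x (gl_sub hx).1)
    (HH_nonneg _ _ _) (gl_supp (by omega)) (gl_le (by omega))
    (fun n hn => gl_UA (by omega) (by omega)) (fun x hx => gl_HA (by push_cast; linarith))
    (measurable_bA.indicator measurableSet_Ici) hi0
    (by
      have e : ∀ y, ENNReal.ofReal ((Ici (Y : ℝ)).indicator bA y) =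
          (Ici (Y : ℝ)).indicator (fun y => ENNReal.ofReal (bA y)) y := by
        intro y
        by_cases h : y ∈ Ici (Y : ℝ)
        · rw [indicator_of_mem h, indicator_of_mem h]
        · rw [indicator_of_notMem h, indicator_of_notMem h, ENNReal.ofReal_zero]
      simp only [e]
      rw [lintegral_indicator measurableSet_Ici]
      exact costA Y hY1)
    (fun y hy hn => by
      have h := hE y hy
      refine gl_mono (gl_high le_rfl (by push_cast; linarith) hn) ?_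
      rw [indicator_of_mem (show y ∈ Ici (Y : ℝ) from h)])
    hδ

end Pool.Agent.Lib.MP_2dc536_an.X
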