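import Pool.Agent.Lib.MP_2dc536_an.X.Gen

/-!
The bounds of `Gen` with an explicit threshold in `X`.
-/

namespace Pool.Agent.Lib.MP_2dc536_an.X

open Real Set MeasureTheory

theorem ge_topE {E : Set ℝ} (hEm : MeasurableSet E) (hEf : ∀ x ∈ E, ff x ∈ E)
    {ψ : ℝ → ℝ} {C0 : ℝ} (hP : Prof ψ C0) (hC : C0 ≤ 17)
    (U : ℕ → Set ℝ) (H b : ℝ → ℝ) (κ δ : ℝ) (hκ : 0 ≤ κ)
    (hUm : ∀ n, MeasurableSet (U n)) (hUs : ∀ n, U n ⊆ Ico (n : ℝ) (n + 1))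
    (hinj : ∀ n, InjOn ff (U n)) (hd : ∀ n, ∀ x ∈ U n, ff' x ≠ 0)
    (hH0 : ∀ x, 0 ≤ H x) (hH : ∀ x, H x ≠ 0 → ∃ n, x ∈ U n) (hHb : ∀ x, H x ≤ 64)
    (hUA : ∀ n, 3000 ≤ n → U n = UA n) (hHA : ∀ x, 3000 ≤ x → H x = HA x)
    (hb : Measurable b) (hb0 : ∀ y, 0 ≤ b y)
    (hbκ : ∫⁻ y, ENNReal.ofReal (b y) ≤ ENNReal.ofReal κ)
    (key : ∀ y ∈ E, (∀ m : ℕ, y ≠ m) → Key U H b y) {g : ℝ} (hg : 0 < g) (hδg : δ = C0 * κ + g)
    {Z : ℕ} (hZ : 1000000 + (1604 / g) ^ 2 ≤ Z) {X : ℝ} (hX : 1 / g + (2 * Z + 1) * √(Z : ℝ) ≤ X) :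
    volume (E ∩ Icc 1 X) ≤ ENNReal.ofReal (δ * X) := by
  have p2 : 0 ≤ (1604 / g) ^ 2 := sq_nonneg _
  have h3 : (1000000 : ℝ) ≤ Z := by linarith
  have hZ3 : 3000 ≤ Z := by
    have : (3000 : ℝ) ≤ Z := by linarith
    exact_mod_cast this
  have hs1 : (1000 : ℝ) ≤ √(Z : ℝ) := le_sqrt_of_sq_le (by linarith)
  have hs2 : 1604 / g ≤ √(Z : ℝ) := le_sqrt_of_sq_le (by linarith)
  obtain ⟨u, hu0, hu1, hu⟩ : ∃ u : ℝ, 0 < u ∧ u * √(Z : ℝ) = 1 ∧ ∀ a : ℝ, a / √(Z : ℝ) = a * u :=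
    ⟨(√(Z : ℝ))⁻¹, by positivity, inv_mul_cancel₀ (by linarith), fun a => div_eq_mul_inv _ _⟩
  have hu2 : 802 * u ≤ g / 2 := by
    rw [div_le_iff₀ hg] at hs2
    have : 1604 * u ≤ √(Z : ℝ) * g * u := mul_le_mul_of_nonneg_right hs2 hu0.le
    have e1 : √(Z : ℝ) * g * u = g * (u * √(Z : ℝ)) := by ring
    rw [e1, hu1] at this
    linarith
  have hu3 : 1000 * u ≤ 1 := by
    have := mul_le_mul_of_nonneg_left hs1 hu0.le
    linarith
  have p3 : 0 < 1 / g := by positivity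
  have p4 : 2 * (Z : ℝ) + 1 ≤ (2 * (Z : ℝ) + 1) * √(Z : ℝ) :=
    le_mul_of_one_le_right (by linarith) (by linarith)
  have hX1 : 2 * (Z : ℝ) + 1 ≤ X := by linarith
  have hX0 : 0 < X := by linarith
  have hXg : 1 ≤ X * g := (div_le_iff₀ hg).1 (by linarith)
  have hXu : 2 * (Z : ℝ) + 1 ≤ u * X := by
    have h1 : u * ((2 * (Z : ℝ) + 1) * √(Z : ℝ)) ≤ u * X :=
      mul_le_mul_of_nonneg_left (by linarith) hu0.le
    have e1 : u * ((2 * (Z : ℝ) + 1) * √(Z : ℝ)) = (2 * (Z : ℝ) + 1) * (u * √(Z : ℝ)) := by ring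
    rw [e1, hu1] at h1
    linarith
  have hsu : (2 * (Z : ℝ) + 1) / X ≤ u := (div_le_iff₀ hX0).2 hXu
  have hs0 : 0 ≤ (2 * (Z : ℝ) + 1) / X := by positivity
  obtain ⟨C, hCe⟩ : ∃ C : ℝ, C * (1 + 8 * u) = ψ ((2 * (Z : ℝ) + 1) / X) :=
    ⟨_, div_mul_cancel₀ _ (by positivity)⟩
  have hC0 : 0 ≤ C := by
    by_contra h
    have := mul_neg_of_neg_of_pos (not_le.1 h) (show 0 < 1 + 8 * u by positivity)
    linarith [hP.2.1 ((2 * (Z : ℝ) + 1) / X)]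
  have hCT : C ≤ C0 := by
    have := mul_nonneg hC0 hu0.le
    linarith [hP.2.2.1 ((2 * (Z : ℝ) + 1) / X)]
  have hlow : C0 - 200 * u ≤ C := by
    have h1 := (hP.2.2.2.2.1 _ hs0 (by linarith)).1
    have h2 : C * u ≤ 17 * u := mul_le_mul_of_nonneg_right (hCT.trans hC) hu0.le
    linarith
  refine (ge_core hEm hEf hP hC hκ hUm hUs hinj hd hH0 hH hHb hUA hHA hb hb0 hbκ key (Z := Z) (X := X)
    (C := C) (W := 200 * u * X) hZ3 hX1 hC0 ?_ (by linarith) ?_).trans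
    (ENNReal.ofReal_le_ofReal ?_)
  · intro m h1 h2
    have h5 : (m : ℝ) ≤ 2 * Z := by exact_mod_cast h2
    have h6 := tp_Phi2 (by omega) h1
    rw [hu] at h6
    have h7 : ψ ((2 * (Z : ℝ) + 1) / X) ≤ ψ (m / X) :=
      hP.1 (div_le_div_of_nonneg_right (by linarith) hX0.le)
    have h8 := mul_le_mul_of_nonneg_left h6 hC0
    linarith
  · intro m h1
    have h4 : ψ (m / X) ≤ ψ (200 * u) := hP.1 ((le_div_iff₀ hX0).2 h1)
    have h5 := (hP.2.2.2.2.1 (200 * u) (by linarith) (by linarith)).2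
    have h6 : C ≤ C * Phi0 m := le_mul_of_one_le_right hC0 (tp_Phi1 m)
    linarith
  · have h2 : X * (C * κ) ≤ X * (C0 * κ) :=
      mul_le_mul_of_nonneg_left (mul_le_mul_of_nonneg_right hCT hκ) hX0.le
    have h6 : X * (802 * u) ≤ X * (g / 2) := mul_le_mul_of_nonneg_left hu2 hX0.le
    rw [hu, hu, hδg]
    linarith

theorem ge_highE {E : Set ℝ} (hEm : MeasurableSet E) (hEf : ∀ x ∈ E, ff x ∈ E)
    {Y : ℕ} (hY1 : 1503 ≤ Y) (hE : ∀ y ∈ E, (Y : ℝ) ≤ y) {δ g : ℝ} (hg : 0 < g)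
    (hδ : δ = ((15948 : ℕ) : ℝ) / 1024 *
      (81 / 100 / √((Y : ℝ) - 3) + 63 / 100 / ((Y : ℝ) - 2)) + g)
    {Z : ℕ} (hZ : 1000000 + (1604 / g) ^ 2 ≤ Z) {X : ℝ} (hX : 1 / g + (2 * Z + 1) * √(Z : ℝ) ≤ X) :
    volume (E ∩ Icc 1 X) ≤ ENNReal.ofReal (δ * X) := by
  have hY2 : (1503 : ℝ) ≤ Y := by exact_mod_cast hY1
  have hc1 : (0 : ℝ) ≤ 81 / 100 / √((Y : ℝ) - 3) + 63 / 100 / ((Y : ℝ) - 2) :=
    add_nonneg (div_nonneg (by norm_num) (sqrt_nonneg _))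
      (div_nonneg (by norm_num) (by linarith))
  have hi0 : ∀ y, 0 ≤ (Ici (Y : ℝ)).indicator bA y := fun y =>
    indicator_nonneg (fun z hz => bA_nonneg (le_trans (Nat.cast_nonneg Y) hz)) y
  exact ge_topE hEm hEf prof_nD (by norm_num) (UU 1000) (HH TB.nil 1000 (DTr.leaf 0 0))
    ((Ici (Y : ℝ)).indicator bA) _ δ hc1 (gl_meas 1000)
    (fun _ => gl_ico)
    (fun n => by
      by_cases h : 2 ≤ n
      · exact (UB_inj h).1.mono (fun x hx => (gl_sub hx).1)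
      · exact fun x hx => absurd (gl_sub hx).2 h)
    (fun n x hx => (UB_inj (gl_sub hx).2).2 x (gl_sub hx).1)
    (HH_nonneg _ _ _) (gl_supp (by omega)) (gl_le (by omega))
    (fun n hn => gl_UA (by omega) (by omega)) (fun x hx => gl_HA (by push_cast; linarith))
    (measurable_bA.indicator measurableSet_Ici) hi0
    (by
      have e : ∀ y, ENNReal.ofReal ((Ici (Y : ℝ)).indicator bA y) =
          (Ici (Y : ℝ)).indicator (fun y => ENNReal.ofReal (bA y)) y := by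
        intro y
        by_cases h : y ∈ Ici (Y : ℝ)
        · rw [indicator_of_mem h, indicator_of_mem h]
        · rw [indicator_of_notMem h, indicator_of_notMem h, ENNReal.ofReal_zero]
      simp only [e]
      rw [lintegral_indicator measurableSet_Ici]
      exact costA Y hY1)
    (fun y hy hn => by
      have h := hE y hy
      refine gl_mono (gl_high le_rfl (by push_cast; linarith) hn) ?_
      rw [indicator_of_mem (show y ∈ Ici (Y : ℝ) from h)])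
    hg hδ hZ hX

end Pool.Agent.Lib.MP_2dc536_an.X
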