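import Pool.Agent.Lib.MP_2dc536_an.X.Base
import Pool.Agent.Lib.MP_2dc536_an.X.Lap
import Pool.Agent.Lib.MP_2dc536_an.X.Frame

/-!
The transfer inequality on the ramp.
-/

namespace Pool.Agent.Lib.MP_2dc536_an.X

open Real Set MeasureTheory

lemma kt_log_sq {x : ℝ} (hx : 0 < x) : log x = 2 * log √x := by
  rw [log_sqrt hx.le]; ring

lemma kt_top_nonneg {B X z : ℝ} (hB0 : 0 ≤ B) (hz : 0 < z) : 0 ≤ top B X z := by
  unfold top
  split_ifs with h
  · have : 0 ≤ log (X / z) := log_nonneg ((one_le_div hz).2 h)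
    positivity
  · positivity

lemma kt_top_le3 {B X z : ℝ} (hB0 : 0 ≤ B) (hB1 : B ≤ 20) (hz : 0 < z) :
    top B X z ≤ 60 * √(X / z) := by
  unfold top
  split_ifs with h
  · have h1 : 1 ≤ X / z := (one_le_div hz).2 h
    have h2 : 1 ≤ √(X / z) := one_le_sqrt.2 h1
    have h3 := log_le_sub_one_of_pos (x := √(X / z)) (by linarith)
    have h4 := log_nonneg h2
    rw [kt_log_sq (by linarith)]
    nlinarith
  · exact le_rfl

lemma kt_top_le2 {B X z : ℝ} (hB0 : 0 ≤ B) (hB1 : B ≤ 20) (hX : 2000 ≤ X) (hz : 0 < z)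
    (hz1 : z ≤ 2 * X + 10) : top B X z ≤ 60 + B * log (X / z) := by
  unfold top
  split_ifs with h
  · exact le_rfl
  · have h0 : 0 < X / z := by positivity
    have h1 : X / z ≤ 1 := (div_le_one hz).2 (by linarith)
    have h2 : √(X / z) ≤ 1 := sqrt_le_one.2 h1
    have h3 : 2 / 3 ≤ √(X / z) := le_sqrt_of_sq_le (by rw [le_div_iff₀ hz]; linarith)
    rw [kt_log_sq h0]
    generalize √(X / z) = r at h2 h3
    have h4 := one_sub_inv_le_log_of_pos (x := r) (by linarith)
    have h5 : r⁻¹ ≤ 1 + 3 / 2 * (1 - r) := by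
      rw [inv_eq_one_div, div_le_iff₀ (by linarith)]; nlinarith
    have h6 : -(3 / 2 * (1 - r)) ≤ log r := by linarith
    nlinarith

lemma kt_top_leT {B X z : ℝ} (hB0 : 0 ≤ B) (hX : 2000 ≤ X) (hz : 1 ≤ z) :
    top B X z ≤ 60 + B * log X := by
  unfold top
  split_ifs with h
  · have : log (X / z) ≤ log X := log_le_log (by positivity) (div_le_self (by linarith) hz)
    nlinarith
  · have h1 : √(X / z) ≤ 1 := sqrt_le_one.2 ((div_le_one (by linarith)).2 (by linarith))
    have h2 : 0 ≤ log X := log_nonneg (by linarith)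
    nlinarith [mul_nonneg hB0 h2]

lemma kt_fin {y s I T c tp η μ ν p q : ℝ} (hy : 2000 ≤ y) (hT : 0 ≤ T) (hη : 0 < η) (hν : 0 < ν)
    (hμ : ν ≤ μ)
    (h : (y + 1 / 4) * s ≤ I + (T * (103 / 100) / √(2 * η) - 0 * (99 / 100) * p) /
      (π * √(y + 1 / 4)) + 3 * (T * (103 / 100) / √(2 * μ / 3) - 0 * (98 / 100) * q) /
      (π * √(y + 1 / 4)))
    (hm : I + (y + 1 / 4) * c ≤ (y + 1 / 4) * tp + T / y) :
    s + c ≤ tp + T * (2 * (1 + 1 / √η + 1 / √ν) / (y * √y)) := by
  have hp := pi_gt_d2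
  have hy0 : 0 < y := by linarith
  have hs : 0 < √y := sqrt_pos.2 hy0
  have hs1 : √y ≤ y := by rw [sqrt_le_left hy0.le]; nlinarith
  have hs2 : √y ≤ √(y + 1 / 4) := sqrt_le_sqrt (by linarith)
  have ha : 0 < √η := sqrt_pos.2 hη
  have hb : 0 < √ν := sqrt_pos.2 hν
  have h1 : √η ≤ √(2 * η) := sqrt_le_sqrt (by linarith)
  have h2 : 2 / 3 * √ν ≤ √(2 * μ / 3) :=
    le_sqrt_of_sq_le (by rw [mul_pow, sq_sqrt hν.le]; linarith)
  have e1 : (T * (103 / 100) / √(2 * η) - 0 * (99 / 100) * p) / (π * √(y + 1 / 4)) ≤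
      T * (2 * (1 / √η) / √y) := by
    calc _ = T * (103 / 100) / √(2 * η) / (π * √(y + 1 / 4)) := by ring
      _ ≤ T * 2 / √η / (1 * √y) := by gcongr <;> linarith
      _ = _ := by ring
  have e2 : 3 * (T * (103 / 100) / √(2 * μ / 3) - 0 * (98 / 100) * q) / (π * √(y + 1 / 4)) ≤
      T * (2 * (1 / √ν) / √y) := by
    calc _ = 3 * (T * (103 / 100) / √(2 * μ / 3)) / (π * √(y + 1 / 4)) := by ring
      _ ≤ 3 * (T * (4 / 3) / (2 / 3 * √ν)) / (3 * √y) := by
        gcongr 3 * (T * ?_ / ?_) / (?_ * ?_) <;> linarith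
      _ = _ := by field_simp; ring
  have e3 : T / y ≤ T * (2 * 1 / √y) := by
    calc T / y ≤ T * 2 / √y := by gcongr <;> linarith
      _ = _ := by ring
  have e4 : T * (2 * (1 + 1 / √η + 1 / √ν) / √y) ≤
      (y + 1 / 4) * (T * (2 * (1 + 1 / √η + 1 / √ν) / (y * √y))) := by
    calc _ = y * (T * (2 * (1 + 1 / √η + 1 / √ν) / (y * √y))) := by field_simp
      _ ≤ _ := by gcongr; linarith
  have e5 : T * (2 * (1 + 1 / √η + 1 / √ν) / √y) =
      T * (2 * 1 / √y) + T * (2 * (1 / √η) / √y) + T * (2 * (1 / √ν) / √y) := by ring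
  refine le_of_mul_le_mul_left ?_ (show 0 < y + 1 / 4 by linarith)
  rw [mul_add, mul_add]
  linarith

lemma kt_int2 {B X w : ℝ} (hB0 : 0 ≤ B) (hX : 0 < X) (hw : 2000 ≤ w) :
    1 / 2 * (∫ t in (0 : ℝ)..2, (60 + B * log (X / (w / mm t - 5)))) ≤
      60 + B * log (X / (w - 15 / 2)) - B * (683 / 10000) := by
  have hc : ∀ t, 0 < w / mm t - 5 := fun t => by
    rw [sub_pos, lt_div_iff₀ (mm_pos t)]; linarith [mm_le t]
  have c1 : Continuous fun t => log (mm t) := continuous_mm.log fun s => (mm_pos s).ne'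
  have c2 : Continuous fun t => w / mm t - 5 :=
    (continuous_const.div continuous_mm fun s => (mm_pos s).ne').sub continuous_const
  have c3 : Continuous fun t => 60 + B * log (X / (w / mm t - 5)) :=
    continuous_const.add (continuous_const.mul ((continuous_const.div c2 fun s => (hc s).ne').log
      fun s => (div_pos hX (hc s)).ne'))
  have h1 : ∫ t in (0 : ℝ)..2, (60 + B * log (X / (w / mm t - 5))) ≤
      ∫ t in (0 : ℝ)..2, ((60 + B * log (X / (w - 15 / 2))) + B * log (mm t)) := by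
    refine intervalIntegral.integral_mono_on (by norm_num) (c3.intervalIntegrable _ _)
      ((continuous_const.add (continuous_const.mul c1)).intervalIntegrable _ _) fun t _ => ?_
    have hm := mm_pos t
    have h2 : log (X / (w / mm t - 5)) ≤ log (X / (w - 15 / 2)) + log (mm t) := by
      rw [← log_mul (div_pos hX (by linarith)).ne' hm.ne']
      refine log_le_log (div_pos hX (hc t)) ?_
      rw [show w / mm t - 5 = (w - 5 * mm t) / mm t by field_simp, div_div_eq_mul_div,
        div_mul_eq_mul_div]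
      gcongr
      · linarith
      · linarith [mm_le t]
    nlinarith
  have c4 : Continuous fun t => B * log (mm t) := continuous_const.mul c1
  rw [intervalIntegral.integral_add (continuous_const.intervalIntegrable _ _)
    (c4.intervalIntegrable _ _), intervalIntegral.integral_const,
    intervalIntegral.integral_const_mul] at h1
  have h3 := mul_le_mul_of_nonneg_left avg_log hB0
  simp only [sub_zero, smul_eq_mul] at h1
  linarith

lemma kt_int3 {X w : ℝ} (hX : 0 < X) (hw : 2000 ≤ w) :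
    1 / 2 * (∫ t in (0 : ℝ)..2, 60 * √(X / (w / mm t - 5))) ≤
      60 * √(X / (w - 15 / 2)) * (63 / 64) := by
  have hc : ∀ t, 0 < w / mm t - 5 := fun t => by
    rw [sub_pos, lt_div_iff₀ (mm_pos t)]; linarith [mm_le t]
  have c1 : Continuous fun t => √(mm t) := continuous_mm.sqrt
  have c2 : Continuous fun t => w / mm t - 5 :=
    (continuous_const.div continuous_mm fun s => (mm_pos s).ne').sub continuous_const
  have c3 : Continuous fun t => 60 * √(X / (w / mm t - 5)) :=
    continuous_const.mul (continuous_const.div c2 fun s => (hc s).ne').sqrt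
  have h1 : ∫ t in (0 : ℝ)..2, 60 * √(X / (w / mm t - 5)) ≤
      ∫ t in (0 : ℝ)..2, 60 * √(X / (w - 15 / 2)) * √(mm t) := by
    refine intervalIntegral.integral_mono_on (by norm_num) (c3.intervalIntegrable _ _)
      ((continuous_const.mul c1).intervalIntegrable _ _) fun t _ => ?_
    have hm := mm_pos t
    rw [mul_assoc, ← sqrt_mul (div_pos hX (by linarith)).le,
      show w / mm t - 5 = (w - 5 * mm t) / mm t by field_simp, div_div_eq_mul_div,
      div_mul_eq_mul_div]
    gcongr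
    · linarith
    · linarith [mm_le t]
  rw [intervalIntegral.integral_const_mul (60 * √(X / (w - 15 / 2)))] at h1
  have h3 := mul_le_mul_of_nonneg_left avg_sqrt
    (show 0 ≤ 60 * √(X / (w - 15 / 2)) by positivity)
  linarith

theorem keyT {B X y : ℝ} (hB0 : 0 ≤ B) (hB1 : B ≤ 20) (hX : 2000 ≤ X) (hy : 2000 ≤ y)
    (hn : ∀ m : ℕ, y ≠ m) (hB : 1 + 200 / y ≤ B * (683 / 10000))
    (φ : ℕ → ℝ) (hφ0 : ∀ n, 0 ≤ φ n) (hφ : ∀ n : ℕ, y / 2 ≤ n → φ n ≤ top B X n)
    (S : Finset ℕ) (x : ℕ → ℝ) (hx : ∀ n ∈ S, x n ∈ UA n ∧ ff (x n) = y) :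
    ∑ n ∈ S, φ n / ((x n + 1 / 2) * |ff' (x n)|) + (if y ≤ X then 1 / y else 0) ≤
      top B X ⌊y⌋₊ / (y + 1 / 2) + (60 + B * log X) * bT y := by
  have hy0 : 0 < y := by linarith
  have hX0 : 0 < X := by linarith
  have hm2 : y < (⌊y⌋₊ : ℝ) + 1 := Nat.lt_floor_add_one y
  have hm1 : (⌊y⌋₊ : ℝ) < y := lt_of_le_of_ne (Nat.floor_le hy0.le) (hn _).symm
  unfold bT
  generalize ⌊y⌋₊ = m at hm1 hm2 ⊢
  obtain ⟨M, hM, hM1, hM2⟩ : ∃ M : ℕ, M % 3 = 2 ∧ m + 1 ≤ M ∧ M ≤ m + 3 :=
    ⟨3 * ((m + 1) / 3) + 2, by omega, by omega, by omega⟩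
  have hM3 : (m : ℝ) + 1 ≤ M := by exact_mod_cast hM1
  have hM4 : (M : ℝ) ≤ m + 3 := by exact_mod_cast hM2
  have hT : 0 ≤ 60 + B * log X := by
    have := log_nonneg (show 1 ≤ X by linarith)
    positivity
  have hP : ∀ n : ℕ, 2 * y / 3 - 8 ≤ n → φ n ≤ 60 + B * log X := fun n h =>
    (hφ n (by linarith)).trans (kt_top_leT hB0 hX (by linarith))
  have hPu : ∀ n : ℕ, |n - 2 * y| ≤ 8 → φ n ≤ 60 + B * log X := fun n h =>
    hP n (by linarith [(abs_le.1 h).1])
  have hPl : ∀ n : ℕ, |n - 2 * y / 3| ≤ 8 → φ n ≤ 60 + B * log X := fun n h =>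
    hP n (by linarith [(abs_le.1 h).1])
  have c2 : ContinuousOn (fun z : ℝ => X / (z - 5)) (Ici 600) :=
    continuousOn_const.div (continuousOn_id.sub continuousOn_const) fun z hz => by
      have : (600 : ℝ) ≤ z := hz
      linarith
  rcases le_or_gt (m : ℝ) X with hmX | hmX
  · have hL : ∀ z : ℝ, 600 ≤ z → z ≤ 2 * y + 8 → 0 ≤ 60 + B * log (X / (z - 5)) := fun z a b =>
      (kt_top_nonneg hB0 (by linarith)).trans (kt_top_le2 hB0 hB1 hX (by linarith) (by linarith))
    have h := lapsum (by linarith) hm1 hm2 hM (by linarith) (by linarith)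
      (fun z => 60 + B * log (X / (z - 5)))
      (continuousOn_const.add (continuousOn_const.mul (c2.log fun z hz => by
        have : (600 : ℝ) ≤ z := hz
        exact (div_pos hX0 (by linarith)).ne'))) φ hφ0
      (fun n z a b c => by
        obtain ⟨c1, c3⟩ := abs_le.1 c
        refine (hφ n (by linarith)).trans ((kt_top_le2 hB0 hB1 hX (by linarith)
          (by linarith)).trans ?_)
        have : log (X / n) ≤ log (X / (z - 5)) :=
          log_le_log (div_pos hX0 (by linarith)) (by gcongr <;> linarith)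
        nlinarith)
      hPu hPl (Lu := 0) (Ll := 0)
      (fun z a => hL z (by linarith [(abs_le.1 a).1]) (by linarith [(abs_le.1 a).2]))
      (fun z a => hL z (by linarith [(abs_le.1 a).1]) (by linarith [(abs_le.1 a).2])) S x hx
    refine kt_fin hy hT (by linarith) (by linarith) (by linarith) h ?_
    have h1 := kt_int2 (w := y + 1 / 4) hB0 hX0 (by linarith)
    have hm0 : (0 : ℝ) < m := by linarith
    have h2 : log (X / (y + 1 / 4 - 15 / 2)) ≤ log (X / m) + 15 / 2 / y := by
      have a : (0 : ℝ) < y + 1 / 4 - 15 / 2 := by linarith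
      rw [show X / (y + 1 / 4 - 15 / 2) = X / m * (m / (y + 1 / 4 - 15 / 2)) by field_simp,
        log_mul (by positivity) (by positivity)]
      have b := log_le_sub_one_of_pos (x := m / (y + 1 / 4 - 15 / 2)) (by positivity)
      have c : m / (y + 1 / 4 - 15 / 2) ≤ 1 + 15 / 2 / y := by
        rw [div_le_iff₀ a, show (1 + 15 / 2 / y) * (y + 1 / 4 - 15 / 2) =
          y + 1 / 4 - 435 / 8 / y by field_simp; ring]
        have d : 435 / 8 / y ≤ 1 / 4 := by rw [div_le_iff₀ hy0]; linarith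
        linarith
      linarith
    have h3 : (y + 1 / 4) * (if y ≤ X then 1 / y else 0) ≤ 1 + 1 / 4 / y := by
      split_ifs
      · exact le_of_eq (by field_simp)
      · rw [mul_zero]; positivity
    have h4 := kt_top_leT (z := m) hB0 hX (by linarith)
    have h5 : top B X m = 60 + B * log (X / m) := by unfold top; rw [if_pos hmX]
    have h6 : top B X m - (60 + B * log X) / y ≤ (y + 1 / 4) * (top B X m / (y + 1 / 2)) := by
      have a : top B X m / 4 / (y + 1 / 2) ≤ (60 + B * log X) / y := by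
        have := kt_top_nonneg (X := X) hB0 hm0
        gcongr <;> linarith
      have b : (y + 1 / 4) * (top B X m / (y + 1 / 2)) =
          top B X m - top B X m / 4 / (y + 1 / 2) := by field_simp; ring
      linarith
    have h7 := mul_le_mul_of_nonneg_left h2 hB0
    have h8 : B * (15 / 2 / y) ≤ 20 * (15 / 2 / y) := by gcongr
    have h9 : 20 * (15 / 2 / y) + 1 / 4 / y ≤ 200 / y := by
      rw [show 20 * (15 / 2 / y) + 1 / 4 / y = 601 / 4 / y by ring]
      gcongr
      norm_num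
    rw [mul_add] at h7
    linarith
  · have h := lapsum (by linarith) hm1 hm2 hM (by linarith) (by linarith)
      (fun z => 60 * √(X / (z - 5))) (continuousOn_const.mul c2.sqrt) φ hφ0
      (fun n z a b c => by
        obtain ⟨c1, c3⟩ := abs_le.1 c
        refine (hφ n (by linarith)).trans ((kt_top_le3 hB0 hB1 (by linarith)).trans ?_)
        gcongr <;> linarith)
      hPu hPl (Lu := 0) (Ll := 0) (fun z _ => by positivity) (fun z _ => by positivity) S x hx
    refine kt_fin hy hT (by linarith) (by linarith) (by linarith) h ?_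
    have h1 := kt_int3 (w := y + 1 / 4) hX0 (by linarith)
    have hm0 : (0 : ℝ) < m := by linarith
    have h5 : top B X m = 60 * √(X / m) := by unfold top; rw [if_neg (not_le.2 hmX)]
    have h2 : √(X / (y + 1 / 4 - 15 / 2)) ≤ 101 / 100 * √(X / m) := by
      rw [sqrt_le_left (by positivity), mul_pow, sq_sqrt (by positivity), ← mul_div_assoc,
        div_le_div_iff₀ (by linarith) hm0]
      have a : (m : ℝ) ≤ (101 / 100) ^ 2 * (y + 1 / 4 - 15 / 2) := by linarith
      nlinarith
    have h3 : 999 / 1000 * (60 * √(X / m)) ≤ (y + 1 / 4) * (60 * √(X / m) / (y + 1 / 2)) := by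
      rw [← mul_div_assoc, le_div_iff₀ (by linarith)]
      nlinarith [sqrt_nonneg (X / m)]
    have h4 : 0 ≤ (60 + B * log X) / y := by positivity
    rw [if_neg (by linarith), mul_zero, h5]
    linarith [sqrt_nonneg (X / m)]

end Pool.Agent.Lib.MP_2dc536_an.X
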