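import Pool.Agent.Lib.MP_2dc536_an.X.Chk2
import Pool.Agent.Lib.MP_2dc536_an.X.TabD

namespace Pool.Agent.Lib.MP_2dc536_an.X

/-- The search tree. -/
def skA : SK :=
  (.node (nat_lit 281474976709655)
  (.node (nat_lit 422107034308598)
  (.node (nat_lit 422212167431650)
  (.node (nat_lit 422212451310898)
  (.node (nat_lit 422212461664224)
  (.node (nat_lit 422212463594452)
  (.node (nat_lit 422212463954058)
  (.leaf (nat_lit 0) tb0)
  (.leaf (nat_lit 1) tb1))
  (.node (nat_lit 422212463119329)
  (.leaf (nat_lit 2) tb2)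
  (.node (nat_lit 422212462492863)
  (.leaf (nat_lit 3) tb3)
  (.leaf (nat_lit 4) tb4))))
  (.node (nat_lit 422212459121745)
  (.node (nat_lit 422212460568145)
  (.leaf (nat_lit 5) tb5)
  (.leaf (nat_lit 6) tb6))
  (.node (nat_lit 422212457203289)
  (.leaf (nat_lit 7) tb7)
  (.node (nat_lit 422212454665359)
  (.leaf (nat_lit 8) tb8)
  (.leaf (nat_lit 9) tb9)))))
  (.node (nat_lit 422212409441121)
  (.node (nat_lit 422212441015512)
  (.node (nat_lit 422212446877215)
  (.leaf (nat_lit 10) tb10)
  (.leaf (nat_lit 11) tb11))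
  (.node (nat_lit 422212433264873)
  (.leaf (nat_lit 12) tb12)
  (.node (nat_lit 422212422999150)
  (.leaf (nat_lit 13) tb13)
  (.leaf (nat_lit 14) tb14))))
  (.node (nat_lit 422212336372063)
  (.node (nat_lit 422212391480869)
  (.leaf (nat_lit 15) tb15)
  (.node (nat_lit 422212367754643)
  (.leaf (nat_lit 16) tb16)
  (.leaf (nat_lit 17) tb17)))
  (.node (nat_lit 422212294880900)
  (.leaf (nat_lit 18) tb18)
  (.node (nat_lit 422212239984765)
  (.leaf (nat_lit 19) tb19)
  (.leaf (nat_lit 20) tb20))))))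
  (.node (nat_lit 422207593504825)
  (.node (nat_lit 422211260835645)
  (.node (nat_lit 422211944432135)
  (.node (nat_lit 422212071410663)
  (.leaf (nat_lit 21) tb21)
  (.leaf (nat_lit 22) tb22))
  (.node (nat_lit 422211776602368)
  (.leaf (nat_lit 23) tb23)
  (.node (nat_lit 422211554535495)
  (.leaf (nat_lit 24) tb24)
  (.leaf (nat_lit 25) tb25))))
  (.node (nat_lit 422210358959191)
  (.node (nat_lit 422210872572711)
  (.leaf (nat_lit 26) tb26)
  (.leaf (nat_lit 27) tb27))
  (.node (nat_lit 422209679808633)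
  (.leaf (nat_lit 28) tb28)
  (.node (nat_lit 422208781510178)
  (.leaf (nat_lit 29) tb29)
  (.leaf (nat_lit 30) tb30)))))
  (.node (nat_lit 422192757076933)
  (.node (nat_lit 422203944702488)
  (.node (nat_lit 422206022463877)
  (.leaf (nat_lit 31) tb31)
  (.leaf (nat_lit 32) tb32))
  (.node (nat_lit 422201196788859)
  (.leaf (nat_lit 33) tb33)
  (.node (nat_lit 422197563159915)
  (.leaf (nat_lit 34) tb34)
  (.leaf (nat_lit 35) tb35))))
  (.node (nat_lit 422166880796307)
  (.node (nat_lit 422186401928772)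
  (.leaf (nat_lit 36) tb36)
  (.node (nat_lit 422177996735486)
  (.leaf (nat_lit 37) tb37)
  (.leaf (nat_lit 38) tb38)))
  (.node (nat_lit 422152181497697)
  (.leaf (nat_lit 39) tb39)
  (.node (nat_lit 422132741838575)
  (.leaf (nat_lit 40) tb40)
  (.leaf (nat_lit 41) tb41)))))))
  (.node (nat_lit 398101111005447)
  (.node (nat_lit 420490232587492)
  (.node (nat_lit 421786100637241)
  (.node (nat_lit 422028082571794)
  (.node (nat_lit 422073038035648)
  (.leaf (nat_lit 42) tb42)
  (.leaf (nat_lit 43) tb43))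
  (.node (nat_lit 421968636315548)
  (.leaf (nat_lit 44) tb44)
  (.node (nat_lit 421890032116545)
  (.leaf (nat_lit 45) tb45)
  (.leaf (nat_lit 46) tb46))))
  (.node (nat_lit 421467031022995)
  (.node (nat_lit 421648688562760)
  (.leaf (nat_lit 47) tb47)
  (.leaf (nat_lit 48) tb48))
  (.node (nat_lit 421226911495342)
  (.leaf (nat_lit 49) tb49)
  (.node (nat_lit 420909562038250)
  (.leaf (nat_lit 50) tb50)
  (.leaf (nat_lit 51) tb51)))))
  (.node (nat_lit 415288352107622)
  (.node (nat_lit 419204882857367)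
  (.node (nat_lit 419936315201549)
  (.leaf (nat_lit 52) tb52)
  (.leaf (nat_lit 53) tb53))
  (.node (nat_lit 418239523275157)
  (.leaf (nat_lit 54) tb54)
  (.node (nat_lit 416966258864234)
  (.leaf (nat_lit 55) tb55)
  (.leaf (nat_lit 56) tb56))))
  (.node (nat_lit 407923715026733)
  (.node (nat_lit 413116433419964)
  (.leaf (nat_lit 57) tb57)
  (.node (nat_lit 410659783203822)
  (.leaf (nat_lit 58) tb58)
  (.leaf (nat_lit 59) tb59)))
  (.node (nat_lit 404914146818303)
  (.leaf (nat_lit 60) tb60)
  (.node (nat_lit 401637588070128)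
  (.leaf (nat_lit 61) tb61)
  (.leaf (nat_lit 62) tb62))))))
  (.node (nat_lit 350379585752841)
  (.node (nat_lit 376806676937968)
  (.node (nat_lit 390279615835787)
  (.node (nat_lit 394312393254098)
  (.leaf (nat_lit 63) tb63)
  (.leaf (nat_lit 64) tb64))
  (.node (nat_lit 386011501374126)
  (.leaf (nat_lit 65) tb65)
  (.node (nat_lit 381517281510762)
  (.leaf (nat_lit 66) tb66)
  (.leaf (nat_lit 67) tb67))))
  (.node (nat_lit 366777493561695)
  (.node (nat_lit 371889856177662)
  (.leaf (nat_lit 68) tb68)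
  (.leaf (nat_lit 69) tb69))
  (.node (nat_lit 361480627396361)
  (.leaf (nat_lit 70) tb70)
  (.node (nat_lit 356010714443361)
  (.leaf (nat_lit 71) tb71)
  (.leaf (nat_lit 72) tb72)))))
  (.node (nat_lit 320242682251328)
  (.node (nat_lit 338682698431160)
  (.node (nat_lit 344599421073639)
  (.leaf (nat_lit 73) tb73)
  (.leaf (nat_lit 74) tb74))
  (.node (nat_lit 332642262926748)
  (.leaf (nat_lit 75) tb75)
  (.node (nat_lit 326491156058033)
  (.leaf (nat_lit 76) tb76)
  (.leaf (nat_lit 77) tb77))))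
  (.node (nat_lit 301049060555285)
  (.node (nat_lit 313910356531019)
  (.leaf (nat_lit 78) tb78)
  (.node (nat_lit 307507875287486)
  (.leaf (nat_lit 79) tb79)
  (.leaf (nat_lit 80) tb80)))
  (.node (nat_lit 294547934308202)
  (.leaf (nat_lit 81) tb81)
  (.node (nat_lit 288018532141878)
  (.leaf (nat_lit 82) tb82)
  (.leaf (nat_lit 83) tb83))))))))
  (.node (nat_lit 140842919110713)
  (.node (nat_lit 164848842413864)
  (.node (nat_lit 218350532345672)
  (.node (nat_lit 249039596888292)
  (.node (nat_lit 268402019111109)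
  (.node (nat_lit 274931421277433)
  (.leaf (nat_lit 84) tb84)
  (.leaf (nat_lit 85) tb85))
  (.node (nat_lit 261900892864026)
  (.leaf (nat_lit 86) tb86)
  (.node (nat_lit 255442078131825)
  (.leaf (nat_lit 87) tb87)
  (.leaf (nat_lit 88) tb88))))
  (.node (nat_lit 236458797361278)
  (.node (nat_lit 242707271167983)
  (.leaf (nat_lit 89) tb89)
  (.leaf (nat_lit 90) tb90))
  (.node (nat_lit 230307690492563)
  (.leaf (nat_lit 91) tb91)
  (.node (nat_lit 224267254988151)
  (.leaf (nat_lit 92) tb92)
  (.leaf (nat_lit 93) tb93)))))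
  (.node (nat_lit 191060097241649)
  (.node (nat_lit 206939238975950)
  (.node (nat_lit 212570367666470)
  (.leaf (nat_lit 94) tb94)
  (.leaf (nat_lit 95) tb95))
  (.node (nat_lit 201469326022950)
  (.leaf (nat_lit 96) tb96)
  (.node (nat_lit 196172459857616)
  (.leaf (nat_lit 97) tb97)
  (.leaf (nat_lit 98) tb98))))
  (.node (nat_lit 176938452045185)
  (.node (nat_lit 186143276481343)
  (.leaf (nat_lit 99) tb99)
  (.node (nat_lit 181432671908549)
  (.leaf (nat_lit 100) tb100)
  (.leaf (nat_lit 101) tb101)))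
  (.node (nat_lit 172670337583524)
  (.leaf (nat_lit 102) tb102)
  (.node (nat_lit 168637560165213)
  (.leaf (nat_lit 103) tb103)
  (.leaf (nat_lit 104) tb104))))))
  (.node (nat_lit 143013638217762)
  (.node (nat_lit 149833519999347)
  (.node (nat_lit 158035806601008)
  (.node (nat_lit 161312365349183)
  (.leaf (nat_lit 105) tb105)
  (.leaf (nat_lit 106) tb106))
  (.node (nat_lit 155026238392578)
  (.leaf (nat_lit 107) tb107)
  (.node (nat_lit 152290170215489)
  (.leaf (nat_lit 108) tb108)
  (.leaf (nat_lit 109) tb109))))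
  (.node (nat_lit 145983694555077)
  (.node (nat_lit 147661601311689)
  (.leaf (nat_lit 110) tb110)
  (.leaf (nat_lit 111) tb111))
  (.node (nat_lit 144710430144154)
  (.leaf (nat_lit 112) tb112)
  (.node (nat_lit 143745070561944)
  (.leaf (nat_lit 113) tb113)
  (.leaf (nat_lit 114) tb114)))))
  (.node (nat_lit 141301264856551)
  (.node (nat_lit 142040391381061)
  (.node (nat_lit 142459720831819)
  (.leaf (nat_lit 115) tb115)
  (.leaf (nat_lit 116) tb116))
  (.node (nat_lit 141723041923969)
  (.leaf (nat_lit 117) tb117)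
  (.node (nat_lit 141482922396316)
  (.leaf (nat_lit 118) tb118)
  (.leaf (nat_lit 119) tb119))))
  (.node (nat_lit 140981317103763)
  (.node (nat_lit 141163852782070)
  (.leaf (nat_lit 120) tb120)
  (.node (nat_lit 141059921302766)
  (.leaf (nat_lit 121) tb121)
  (.leaf (nat_lit 122) tb122)))
  (.node (nat_lit 140921870847517)
  (.leaf (nat_lit 123) tb123)
  (.node (nat_lit 140876915383663)
  (.leaf (nat_lit 124) tb124)
  (.leaf (nat_lit 125) tb125)))))))
  (.node (nat_lit 140737785987661)
  (.node (nat_lit 140743930955434)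
  (.node (nat_lit 140763551490539)
  (.node (nat_lit 140797771921614)
  (.node (nat_lit 140817211580736)
  (.leaf (nat_lit 126) tb126)
  (.leaf (nat_lit 127) tb127))
  (.node (nat_lit 140783072623004)
  (.leaf (nat_lit 128) tb128)
  (.node (nat_lit 140771956683825)
  (.leaf (nat_lit 129) tb129)
  (.leaf (nat_lit 130) tb130))))
  (.node (nat_lit 140752390259396)
  (.node (nat_lit 140757196342378)
  (.leaf (nat_lit 131) tb131)
  (.leaf (nat_lit 132) tb132))
  (.node (nat_lit 140748756630452)
  (.leaf (nat_lit 133) tb133)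
  (.node (nat_lit 140746008716823)
  (.leaf (nat_lit 134) tb134)
  (.leaf (nat_lit 135) tb135)))))
  (.node (nat_lit 140739080846600)
  (.node (nat_lit 140741171909133)
  (.node (nat_lit 140742359914486)
  (.leaf (nat_lit 136) tb136)
  (.leaf (nat_lit 137) tb137))
  (.node (nat_lit 140740273610678)
  (.leaf (nat_lit 138) tb138)
  (.node (nat_lit 140739594460120)
  (.leaf (nat_lit 139) tb139)
  (.leaf (nat_lit 140) tb140))))
  (.node (nat_lit 140738176816943)
  (.node (nat_lit 140738692583666)
  (.leaf (nat_lit 141) tb141)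
  (.node (nat_lit 140738398883816)
  (.leaf (nat_lit 142) tb142)
  (.leaf (nat_lit 143) tb143)))
  (.node (nat_lit 140738008987176)
  (.leaf (nat_lit 144) tb144)
  (.node (nat_lit 140737882008648)
  (.leaf (nat_lit 145) tb145)
  (.leaf (nat_lit 146) tb146))))))
  (.node (nat_lit 140737506542096)
  (.node (nat_lit 140737561938442)
  (.node (nat_lit 140737658538411)
  (.node (nat_lit 140737713434546)
  (.leaf (nat_lit 147) tb147)
  (.leaf (nat_lit 148) tb148))
  (.node (nat_lit 140737617047248)
  (.leaf (nat_lit 149) tb149)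
  (.node (nat_lit 140737585664668)
  (.leaf (nat_lit 150) tb150)
  (.leaf (nat_lit 151) tb151))))
  (.node (nat_lit 140737530420161)
  (.node (nat_lit 140737543978190)
  (.leaf (nat_lit 152) tb152)
  (.leaf (nat_lit 153) tb153))
  (.node (nat_lit 140737520154438)
  (.leaf (nat_lit 154) tb154)
  (.node (nat_lit 140737512403799)
  (.leaf (nat_lit 155) tb155)
  (.leaf (nat_lit 156) tb156)))))
  (.node (nat_lit 140737492851166)
  (.node (nat_lit 140737498753952)
  (.node (nat_lit 140737502108413)
  (.leaf (nat_lit 157) tb157)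
  (.leaf (nat_lit 158) tb158))
  (.node (nat_lit 140737496216022)
  (.leaf (nat_lit 159) tb159)
  (.node (nat_lit 140737494297566)
  (.leaf (nat_lit 160) tb160)
  (.leaf (nat_lit 161) tb161))))
  (.node (nat_lit 140737490299982)
  (.node (nat_lit 140737491755087)
  (.leaf (nat_lit 162) tb162)
  (.node (nat_lit 140737490926448)
  (.leaf (nat_lit 163) tb163)
  (.leaf (nat_lit 164) tb164)))
  (.node (nat_lit 140737489824859)
  (.leaf (nat_lit 165) tb165)
  (.node (nat_lit 140737489465253)
  (.leaf (nat_lit 166) tb166)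
  (.leaf (nat_lit 167) tb167)))))))))

end Pool.Agent.Lib.MP_2dc536_an.X
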