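import Pool.Agent.Lib.MP_2dc536_an.X.Dat
import Pool.Agent.Lib.MP_2dc536_an.X.Sk

set_option maxRecDepth 1000000

namespace Pool.Agent.Lib.MP_2dc536_an.X

theorem r22 : Nat.ble (run2 tb0 skA 167 1000 dtA 568009424896 1319108608 654 27) 21836806000000000000 = true := by
  decide +kernel

end Pool.Agent.Lib.MP_2dc536_an.X
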