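import Pool.Agent.Lib.MP_2dc536_an.X.R00
import Pool.Agent.Lib.MP_2dc536_an.X.R01
import Pool.Agent.Lib.MP_2dc536_an.X.R02
import Pool.Agent.Lib.MP_2dc536_an.X.R03
import Pool.Agent.Lib.MP_2dc536_an.X.R04
import Pool.Agent.Lib.MP_2dc536_an.X.R05
import Pool.Agent.Lib.MP_2dc536_an.X.R06
import Pool.Agent.Lib.MP_2dc536_an.X.R07
import Pool.Agent.Lib.MP_2dc536_an.X.R08
import Pool.Agent.Lib.MP_2dc536_an.X.R09
import Pool.Agent.Lib.MP_2dc536_an.X.R10
import Pool.Agent.Lib.MP_2dc536_an.X.R11
import Pool.Agent.Lib.MP_2dc536_an.X.R12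
import Pool.Agent.Lib.MP_2dc536_an.X.R13
import Pool.Agent.Lib.MP_2dc536_an.X.R14
import Pool.Agent.Lib.MP_2dc536_an.X.R15
import Pool.Agent.Lib.MP_2dc536_an.X.R16
import Pool.Agent.Lib.MP_2dc536_an.X.R17
import Pool.Agent.Lib.MP_2dc536_an.X.R18
import Pool.Agent.Lib.MP_2dc536_an.X.R19
import Pool.Agent.Lib.MP_2dc536_an.X.R20
import Pool.Agent.Lib.MP_2dc536_an.X.R21
import Pool.Agent.Lib.MP_2dc536_an.X.R22
import Pool.Agent.Lib.MP_2dc536_an.X.R23
import Pool.Agent.Lib.MP_2dc536_an.X.R24
import Pool.Agent.Lib.MP_2dc536_an.X.R25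
import Pool.Agent.Lib.MP_2dc536_an.X.R26
import Pool.Agent.Lib.MP_2dc536_an.X.R27
import Pool.Agent.Lib.MP_2dc536_an.X.R28
import Pool.Agent.Lib.MP_2dc536_an.X.R29
import Pool.Agent.Lib.MP_2dc536_an.X.R30
import Pool.Agent.Lib.MP_2dc536_an.X.R31
import Pool.Agent.Lib.MP_2dc536_an.X.R32
import Pool.Agent.Lib.MP_2dc536_an.X.R33
import Pool.Agent.Lib.MP_2dc536_an.X.R34
import Pool.Agent.Lib.MP_2dc536_an.X.R35
import Pool.Agent.Lib.MP_2dc536_an.X.R36
import Pool.Agent.Lib.MP_2dc536_an.X.R37
import Pool.Agent.Lib.MP_2dc536_an.X.R38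
import Pool.Agent.Lib.MP_2dc536_an.X.R39
import Pool.Agent.Lib.MP_2dc536_an.X.R40
import Pool.Agent.Lib.MP_2dc536_an.X.R41
import Pool.Agent.Lib.MP_2dc536_an.X.R42
import Pool.Agent.Lib.MP_2dc536_an.X.R43
import Pool.Agent.Lib.MP_2dc536_an.X.R44
import Pool.Agent.Lib.MP_2dc536_an.X.R45
import Pool.Agent.Lib.MP_2dc536_an.X.R46
import Pool.Agent.Lib.MP_2dc536_an.X.R47
import Pool.Agent.Lib.MP_2dc536_an.X.R48
import Pool.Agent.Lib.MP_2dc536_an.X.R49
import Pool.Agent.Lib.MP_2dc536_an.X.R50
import Pool.Agent.Lib.MP_2dc536_an.X.R51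
import Pool.Agent.Lib.MP_2dc536_an.X.R52
import Pool.Agent.Lib.MP_2dc536_an.X.R53
import Pool.Agent.Lib.MP_2dc536_an.X.R54
import Pool.Agent.Lib.MP_2dc536_an.X.Fast

namespace Pool.Agent.Lib.MP_2dc536_an.X

theorem low_step {m0 cnt m1 c c1 c2 h eta : ℕ} (hG : GoodK tb0 1000 dtA 2 m0 c1)
    (hr : Nat.ble (run2 tb0 skA 167 1000 dtA h eta m0 cnt) c = true) (h2 : 2 ≤ m0)
    (hm : m0 + cnt ≤ 2400) (e1 : m0 + cnt = m1) (e2 : c1 + c = c2) :
    GoodK tb0 1000 dtA 2 m1 c2 :=
  e1 ▸ e2 ▸ GoodK_add hG (run2_sound dtA h eta m0 cnt c h2 hm hr)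

theorem low_first {cnt m1 c c2 h eta : ℕ}
    (hr : Nat.ble (run2 tb0 skA 167 1000 dtA h eta 2 cnt) c = true)
    (hm : 2 + cnt ≤ 2400) (e1 : 2 + cnt = m1) (e2 : c = c2) : GoodK tb0 1000 dtA 2 m1 c2 :=
  e1 ▸ e2 ▸ run2_sound dtA h eta 2 cnt c le_rfl hm hr

theorem low0 : GoodK tb0 1000 dtA 2 30 101000000000000 :=
  low_first r00 (by norm_num) (by norm_num) (by norm_num)

theorem low1 : GoodK tb0 1000 dtA 2 60 75980164000000000000 :=
  low_step low0 r01 (by norm_num) (by norm_num) (by norm_num) (by norm_num)

theorem low2 : GoodK tb0 1000 dtA 2 90 422790140000000000000 :=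
  low_step low1 r02 (by norm_num) (by norm_num) (by norm_num) (by norm_num)

theorem low3 : GoodK tb0 1000 dtA 2 120 567884127000000000000 :=
  low_step low2 r03 (by norm_num) (by norm_num) (by norm_num) (by norm_num)

theorem low4 : GoodK tb0 1000 dtA 2 150 667538976000000000000 :=
  low_step low3 r04 (by norm_num) (by norm_num) (by norm_num) (by norm_num)

theorem low5 : GoodK tb0 1000 dtA 2 180 717876583000000000000 :=
  low_step low4 r05 (by norm_num) (by norm_num) (by norm_num) (by norm_num)

theorem low6 : GoodK tb0 1000 dtA 2 210 934854554000000000000 :=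
  low_step low5 r06 (by norm_num) (by norm_num) (by norm_num) (by norm_num)

theorem low7 : GoodK tb0 1000 dtA 2 240 982488060000000000000 :=
  low_step low6 r07 (by norm_num) (by norm_num) (by norm_num) (by norm_num)

theorem low8 : GoodK tb0 1000 dtA 2 270 1098252931000000000000 :=
  low_step low7 r08 (by norm_num) (by norm_num) (by norm_num) (by norm_num)

theorem low9 : GoodK tb0 1000 dtA 2 300 1139916581000000000000 :=
  low_step low8 r09 (by norm_num) (by norm_num) (by norm_num) (by norm_num)

theorem low10 : GoodK tb0 1000 dtA 2 330 1157776821000000000000 :=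
  low_step low9 r10 (by norm_num) (by norm_num) (by norm_num) (by norm_num)

theorem low11 : GoodK tb0 1000 dtA 2 360 1214687921000000000000 :=
  low_step low10 r11 (by norm_num) (by norm_num) (by norm_num) (by norm_num)

theorem low12 : GoodK tb0 1000 dtA 2 390 1253010265000000000000 :=
  low_step low11 r12 (by norm_num) (by norm_num) (by norm_num) (by norm_num)

theorem low13 : GoodK tb0 1000 dtA 2 420 1264695361000000000000 :=
  low_step low12 r13 (by norm_num) (by norm_num) (by norm_num) (by norm_num)

theorem low14 : GoodK tb0 1000 dtA 2 450 1291375425000000000000 :=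
  low_step low13 r14 (by norm_num) (by norm_num) (by norm_num) (by norm_num)

theorem low15 : GoodK tb0 1000 dtA 2 480 1301206613000000000000 :=
  low_step low14 r15 (by norm_num) (by norm_num) (by norm_num) (by norm_num)

theorem low16 : GoodK tb0 1000 dtA 2 510 1319322218000000000000 :=
  low_step low15 r16 (by norm_num) (by norm_num) (by norm_num) (by norm_num)

theorem low17 : GoodK tb0 1000 dtA 2 540 1333806079000000000000 :=
  low_step low16 r17 (by norm_num) (by norm_num) (by norm_num) (by norm_num)

theorem low18 : GoodK tb0 1000 dtA 2 570 1351370829000000000000 :=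
  low_step low17 r18 (by norm_num) (by norm_num) (by norm_num) (by norm_num)

theorem low19 : GoodK tb0 1000 dtA 2 600 1364959777000000000000 :=
  low_step low18 r19 (by norm_num) (by norm_num) (by norm_num) (by norm_num)

theorem low20 : GoodK tb0 1000 dtA 2 627 1374163883000000000000 :=
  low_step low19 r20 (by norm_num) (by norm_num) (by norm_num) (by norm_num)

theorem low21 : GoodK tb0 1000 dtA 2 654 1386419023000000000000 :=
  low_step low20 r21 (by norm_num) (by norm_num) (by norm_num) (by norm_num)

theorem low22 : GoodK tb0 1000 dtA 2 681 1408255829000000000000 :=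
  low_step low21 r22 (by norm_num) (by norm_num) (by norm_num) (by norm_num)

theorem low23 : GoodK tb0 1000 dtA 2 708 1414247323000000000000 :=
  low_step low22 r23 (by norm_num) (by norm_num) (by norm_num) (by norm_num)

theorem low24 : GoodK tb0 1000 dtA 2 735 1424722414000000000000 :=
  low_step low23 r24 (by norm_num) (by norm_num) (by norm_num) (by norm_num)

theorem low25 : GoodK tb0 1000 dtA 2 762 1428196439000000000000 :=
  low_step low24 r25 (by norm_num) (by norm_num) (by norm_num) (by norm_num)

theorem low26 : GoodK tb0 1000 dtA 2 789 1438005361000000000000 :=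
  low_step low25 r26 (by norm_num) (by norm_num) (by norm_num) (by norm_num)

theorem low27 : GoodK tb0 1000 dtA 2 816 1438940905000000000000 :=
  low_step low26 r27 (by norm_num) (by norm_num) (by norm_num) (by norm_num)

theorem low28 : GoodK tb0 1000 dtA 2 843 1442586075000000000000 :=
  low_step low27 r28 (by norm_num) (by norm_num) (by norm_num) (by norm_num)

theorem low29 : GoodK tb0 1000 dtA 2 870 1445278040000000000000 :=
  low_step low28 r29 (by norm_num) (by norm_num) (by norm_num) (by norm_num)

theorem low30 : GoodK tb0 1000 dtA 2 897 1460484718000000000000 :=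
  low_step low29 r30 (by norm_num) (by norm_num) (by norm_num) (by norm_num)

theorem low31 : GoodK tb0 1000 dtA 2 924 1462642776000000000000 :=
  low_step low30 r31 (by norm_num) (by norm_num) (by norm_num) (by norm_num)

theorem low32 : GoodK tb0 1000 dtA 2 951 1464224409000000000000 :=
  low_step low31 r32 (by norm_num) (by norm_num) (by norm_num) (by norm_num)

theorem low33 : GoodK tb0 1000 dtA 2 978 1466999198000000000000 :=
  low_step low32 r33 (by norm_num) (by norm_num) (by norm_num) (by norm_num)

theorem low34 : GoodK tb0 1000 dtA 2 1005 1572065567000000000000 :=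
  low_step low33 r34 (by norm_num) (by norm_num) (by norm_num) (by norm_num)

theorem low35 : GoodK tb0 1000 dtA 2 1032 2195791827000000000000 :=
  low_step low34 r35 (by norm_num) (by norm_num) (by norm_num) (by norm_num)

theorem low36 : GoodK tb0 1000 dtA 2 1059 2824777133000000000000 :=
  low_step low35 r36 (by norm_num) (by norm_num) (by norm_num) (by norm_num)

theorem low37 : GoodK tb0 1000 dtA 2 1086 3422469587000000000000 :=
  low_step low36 r37 (by norm_num) (by norm_num) (by norm_num) (by norm_num)

theorem low38 : GoodK tb0 1000 dtA 2 1113 3993952108000000000000 :=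
  low_step low37 r38 (by norm_num) (by norm_num) (by norm_num) (by norm_num)

theorem low39 : GoodK tb0 1000 dtA 2 1138 4538333993000000000000 :=
  low_step low38 r39 (by norm_num) (by norm_num) (by norm_num) (by norm_num)

theorem low40 : GoodK tb0 1000 dtA 2 1163 5070411192000000000000 :=
  low_step low39 r40 (by norm_num) (by norm_num) (by norm_num) (by norm_num)

theorem low41 : GoodK tb0 1000 dtA 2 1188 5560565632000000000000 :=
  low_step low40 r41 (by norm_num) (by norm_num) (by norm_num) (by norm_num)

theorem low42 : GoodK tb0 1000 dtA 2 1213 6017519869000000000000 :=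
  low_step low41 r42 (by norm_num) (by norm_num) (by norm_num) (by norm_num)

theorem low43 : GoodK tb0 1000 dtA 2 1238 6530312406000000000000 :=
  low_step low42 r43 (by norm_num) (by norm_num) (by norm_num) (by norm_num)

theorem low44 : GoodK tb0 1000 dtA 2 1263 6985849100000000000000 :=
  low_step low43 r44 (by norm_num) (by norm_num) (by norm_num) (by norm_num)

theorem low45 : GoodK tb0 1000 dtA 2 1288 7437768195000000000000 :=
  low_step low44 r45 (by norm_num) (by norm_num) (by norm_num) (by norm_num)

theorem low46 : GoodK tb0 1000 dtA 2 1313 7917882925000000000000 :=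
  low_step low45 r46 (by norm_num) (by norm_num) (by norm_num) (by norm_num)

theorem low47 : GoodK tb0 1000 dtA 2 1338 8328038978000000000000 :=
  low_step low46 r47 (by norm_num) (by norm_num) (by norm_num) (by norm_num)

theorem low48 : GoodK tb0 1000 dtA 2 1363 8752822690000000000000 :=
  low_step low47 r48 (by norm_num) (by norm_num) (by norm_num) (by norm_num)

theorem low49 : GoodK tb0 1000 dtA 2 1388 9194605578000000000000 :=
  low_step low48 r49 (by norm_num) (by norm_num) (by norm_num) (by norm_num)

theorem low50 : GoodK tb0 1000 dtA 2 1413 9595248130000000000000 :=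
  low_step low49 r50 (by norm_num) (by norm_num) (by norm_num) (by norm_num)

theorem low51 : GoodK tb0 1000 dtA 2 1438 9974158620000000000000 :=
  low_step low50 r51 (by norm_num) (by norm_num) (by norm_num) (by norm_num)

theorem low52 : GoodK tb0 1000 dtA 2 1463 10411961388000000000000 :=
  low_step low51 r52 (by norm_num) (by norm_num) (by norm_num) (by norm_num)

theorem low53 : GoodK tb0 1000 dtA 2 1488 10766997503000000000000 :=
  low_step low52 r53 (by norm_num) (by norm_num) (by norm_num) (by norm_num)

theorem low54 : GoodK tb0 1000 dtA 2 1503 10948739560000000000000 :=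
  low_step low53 r54 (by norm_num) (by norm_num) (by norm_num) (by norm_num)

theorem low_all : GoodK tb0 1000 dtA 2 1503 10948739560000000000000 := low54

end Pool.Agent.Lib.MP_2dc536_an.X
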