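import Pool.Agent.Lib.MP_2dc536_an.X.Defs

/-!
The window bound (midpoint rule for the inverse of `TT w`).
-/

namespace Pool.Agent.Lib.MP_2dc536_an.X

open Real Set MeasureTheory

lemma mid_mono {f f' : ℝ → ℝ} {a b : ℝ} (hf : ∀ s ∈ Icc a b, HasDerivAt f (f' s) s)
    (h0 : ∀ s ∈ Icc a b, 0 ≤ f' s) : MonotoneOn f (Icc a b) :=
  monotoneOn_of_deriv_nonneg (convex_Icc a b)
    (fun s hs => (hf s hs).continuousAt.continuousWithinAt)
    (fun s hs => (hf s (interior_subset hs)).differentiableAt.differentiableWithinAt)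
    (fun s hs => by rw [(hf s (interior_subset hs)).deriv]; exact h0 s (interior_subset hs))

lemma mid_smono {f f' : ℝ → ℝ} {a b : ℝ} (hf : ∀ s ∈ Icc a b, HasDerivAt f (f' s) s)
    (h0 : ∀ s ∈ Icc a b, 0 < f' s) : StrictMonoOn f (Icc a b) :=
  strictMonoOn_of_deriv_pos (convex_Icc a b)
    (fun s hs => (hf s hs).continuousAt.continuousWithinAt)
    (fun s hs => by rw [(hf s (interior_subset hs)).deriv]; exact h0 s (interior_subset hs))

/-- Midpoint rule for the inverse of an increasing map whose inverse has a convex derivative. -/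
lemma mid_window {τ τ1 Γ : ℝ → ℝ} {e1 e2 h a b c : ℝ}
    (hτ : ∀ s ∈ Icc e1 e2, HasDerivAt τ (τ1 s) s) (hpos : ∀ s ∈ Icc e1 e2, 0 < τ1 s)
    (hD : ∀ s ∈ Icc e1 e2, HasDerivAt (fun s => 1 / τ1 s) (Γ s * τ1 s) s)
    (hΓ : MonotoneOn Γ (Icc e1 e2)) (ha : a ∈ Icc e1 e2) (hb : b ∈ Icc e1 e2)
    (hc : c ∈ Icc e1 e2) (hab : a ≤ b) (hτa : τ a = τ c - h) (hτb : τ b = τ c + h) :
    2 * h / τ1 c ≤ b - a := by
  have hF : ∀ s ∈ Icc e1 e2, HasDerivAt (fun s => 1 / τ1 s - Γ c * τ s)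
      ((Γ s - Γ c) * τ1 s) s := fun s hs => by
    refine ((hD s hs).sub ((hτ s hs).const_mul (Γ c))).congr_deriv ?_
    ring
  have tang : ∀ s ∈ Icc e1 e2, 1 / τ1 c - Γ c * τ c ≤ 1 / τ1 s - Γ c * τ s := by
    intro s hs
    rcases le_total c s with hcs | hcs
    · have sub : Icc c e2 ⊆ Icc e1 e2 := Icc_subset_Icc hc.1 le_rfl
      exact mid_mono (fun x hx => hF x (sub hx))
        (fun x hx => mul_nonneg (sub_nonneg.2 (hΓ hc (sub hx) hx.1)) (hpos x (sub hx)).le)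
        ⟨le_rfl, hc.2⟩ ⟨hcs, hs.2⟩ hcs
    · have sub : Icc e1 c ⊆ Icc e1 e2 := Icc_subset_Icc le_rfl hc.2
      have := mid_mono (f := fun s => -(1 / τ1 s - Γ c * τ s))
        (f' := fun s => -((Γ s - Γ c) * τ1 s)) (fun x hx => (hF x (sub hx)).neg)
        (fun x hx => by
          have h1 := hΓ (sub hx) hc hx.2
          have h2 := hpos x (sub hx)
          nlinarith)
        ⟨hs.1, hcs⟩ ⟨hc.1, le_rfl⟩ hcs
      simp only at this
      linarith
  have hH : ∀ s ∈ Icc e1 e2,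
      HasDerivAt (fun s => s - 1 / τ1 c * τ s - Γ c * ((τ s - τ c) * (τ s - τ c)) / 2)
      (1 - 1 / τ1 c * τ1 s - Γ c * (τ s - τ c) * τ1 s) s := fun s hs => by
    have h1 := (hτ s hs).sub_const (τ c)
    refine (((hasDerivAt_id s).sub ((hτ s hs).const_mul (1 / τ1 c))).sub
      (((h1.mul h1).const_mul (Γ c)).div_const 2)).congr_deriv ?_
    ring
  have key := mid_mono hH (fun s hs => by
    have h1 := tang s hs
    have h2 := hpos s hs
    have h3 : 1 / τ1 s * τ1 s = 1 := by field_simp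
    have h4 := mul_le_mul_of_nonneg_right h1 h2.le
    nlinarith) ha hb hab
  simp only [hτa, hτb] at key
  have e : 2 * h / τ1 c = 1 / τ1 c * (τ c + h) - 1 / τ1 c * (τ c - h) := by ring
  rw [e]
  nlinarith

/-- Summation over disjoint windows. -/
lemma mid_sum {τ : ℝ → ℝ} {e1 e2 h A B : ℝ} (hh : 0 < h) (he : e1 ≤ e2)
    (hτc : Continuous τ) (hτ : StrictMonoOn τ (Icc e1 e2)) (ℓ : ℝ → ℝ)
    (hwin : ∀ a ∈ Icc e1 e2, ∀ b ∈ Icc e1 e2, ∀ c ∈ Icc e1 e2, a ≤ b → τ a = τ c - h →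
      τ b = τ c + h → ℓ c ≤ b - a)
    (S : Finset ℕ) (θ φ : ℕ → ℝ) (hθ : ∀ n ∈ S, θ n ∈ Icc e1 e2)
    (hsep : ∀ n ∈ S, ∀ n' ∈ S, n ≠ n' → 2 * h ≤ |τ (θ n) - τ (θ n')|)
    (hA : ∀ n ∈ S, A ≤ τ (θ n) - h ∧ τ (θ n) + h ≤ B)
    (hA1 : τ e1 ≤ A) (hB1 : B ≤ τ e2)
    (G : ℝ → ℝ) (hG : ContinuousOn G (Icc e1 e2)) (hG0 : ∀ s ∈ Icc e1 e2, 0 ≤ G s)
    (hφ0 : ∀ n ∈ S, 0 ≤ φ n)
    (hφ : ∀ n ∈ S, ∀ s ∈ Icc e1 e2, |τ s - τ (θ n)| ≤ h → φ n ≤ G s) :
    ∑ n ∈ S, φ n * ℓ (θ n) ≤ ∫ s in {s | s ∈ Icc e1 e2 ∧ A ≤ τ s ∧ τ s ≤ B}, G s := by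
  have ivt := intermediate_value_Icc he hτc.continuousOn
  have ex : ∀ n, ∃ a b : ℝ, n ∈ S → a ∈ Icc e1 e2 ∧ b ∈ Icc e1 e2 ∧ τ a = τ (θ n) - h ∧
      τ b = τ (θ n) + h := by
    intro n
    by_cases hn : n ∈ S
    · obtain ⟨h1, h2⟩ := hA n hn
      obtain ⟨a, ha, hτa⟩ := ivt (show τ (θ n) - h ∈ Icc (τ e1) (τ e2) from
        ⟨by linarith, by linarith⟩)
      obtain ⟨b, hb, hτb⟩ := ivt (show τ (θ n) + h ∈ Icc (τ e1) (τ e2) from
        ⟨by linarith, by linarith⟩)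
      exact ⟨a, b, fun _ => ⟨ha, hb, hτa, hτb⟩⟩
    · exact ⟨0, 0, fun h => absurd h hn⟩
  choose a b hab using ex
  have hle : ∀ n ∈ S, a n ≤ b n := fun n hn => by
    obtain ⟨ha, hb, h1, h2⟩ := hab n hn
    exact (hτ.le_iff_le ha hb).1 (by linarith)
  have hin : ∀ n ∈ S, ∀ s ∈ Ioo (a n) (b n), s ∈ Icc e1 e2 ∧ τ (θ n) - h < τ s ∧
      τ s < τ (θ n) + h := fun n hn s hs => by
    obtain ⟨ha, hb, h1, h2⟩ := hab n hn
    have hs' : s ∈ Icc e1 e2 := ⟨ha.1.trans hs.1.le, hs.2.le.trans hb.2⟩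
    exact ⟨hs', h1 ▸ hτ ha hs' hs.1, h2 ▸ hτ hs' hb hs.2⟩
  have hGi : IntegrableOn G (Icc e1 e2) := hG.integrableOn_Icc
  have hK : MeasurableSet {s | s ∈ Icc e1 e2 ∧ A ≤ τ s ∧ τ s ≤ B} :=
    measurableSet_Icc.inter ((measurableSet_le measurable_const hτc.measurable).inter
      (measurableSet_le hτc.measurable measurable_const))
  have hI : ∀ n ∈ S, IntegrableOn G (Ioo (a n) (b n)) := fun n hn =>
    hGi.mono_set fun s hs => (hin n hn s hs).1
  calc ∑ n ∈ S, φ n * ℓ (θ n) ≤ ∑ n ∈ S, ∫ s in Ioo (a n) (b n), G s := by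
        refine Finset.sum_le_sum fun n hn => ?_
        obtain ⟨ha, hb, h1, h2⟩ := hab n hn
        have h3 := hwin _ ha _ hb _ (hθ n hn) (hle n hn) h1 h2
        have h4 := setIntegral_ge_of_const_le_real (μ := volume) (f := G) (c := φ n)
          (measurableSet_Ioo (a := a n) (b := b n)) (by simp)
          (fun s hs => by
            obtain ⟨i1, i2, i3⟩ := hin n hn s hs
            exact hφ n hn s i1 (abs_le.2 ⟨by linarith, by linarith⟩)) (hI n hn)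
        rw [Real.volume_real_Ioo_of_le (hle n hn)] at h4
        exact (mul_le_mul_of_nonneg_left h3 (hφ0 n hn)).trans h4
    _ = ∫ s in ⋃ n ∈ S, Ioo (a n) (b n), G s := by
        refine (integral_biUnion_finset S (fun _ _ => measurableSet_Ioo) ?_ hI).symm
        intro n hn n' hn' hne
        refine Set.disjoint_left.2 fun s hs hs' => ?_
        obtain ⟨-, i2, i3⟩ := hin n hn s hs
        obtain ⟨-, j2, j3⟩ := hin n' hn' s hs'
        have := hsep n hn n' hn' hne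
        have : |τ (θ n) - τ (θ n')| < 2 * h := abs_lt.2 ⟨by linarith, by linarith⟩
        linarith
    _ ≤ _ := by
        refine setIntegral_mono_set (hGi.mono_set fun s hs => hs.1) ?_ ?_
        · exact (ae_restrict_iff' hK).2 (Filter.Eventually.of_forall fun s hs => hG0 s hs.1)
        · refine LE.le.eventuallyLE fun s hs => ?_
          simp only [mem_iUnion] at hs
          obtain ⟨n, hn, hs⟩ := hs
          obtain ⟨i1, i2, i3⟩ := hin n hn s hs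
          obtain ⟨h1, h2⟩ := hA n hn
          exact ⟨i1, by linarith, by linarith⟩

/-- The derivative of `kk`. -/
noncomputable def midK1 (s : ℝ) : ℝ :=
  π ^ 2 / 2 * (cos (π * s) + cos (π * s) ^ 2 / 2 - 1) / mm s ^ 3

/-- The derivative of `midK1`. -/
noncomputable def midK2 (s : ℝ) : ℝ :=
  π ^ 3 / 2 * sin (π * s) * (1 / 2 - 2 * cos (π * s) - cos (π * s) ^ 2 / 4) / mm s ^ 4

lemma mid_cos (s : ℝ) : HasDerivAt (fun x => cos (π * x)) (-sin (π * s) * π) s := by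
  simpa using ((hasDerivAt_id s).const_mul π).cos

lemma mid_sin (s : ℝ) : HasDerivAt (fun x => sin (π * x)) (cos (π * s) * π) s := by
  simpa using ((hasDerivAt_id s).const_mul π).sin

lemma mid_dk (s : ℝ) : HasDerivAt kk (midK1 s) s := by
  have hm := (mm_pos s).ne'
  have h1 := ((mid_sin s).const_mul (π / 2)).div ((hasDerivAt_mm s).pow 2) (pow_ne_zero 2 hm)
  refine h1.congr_deriv ?_
  have hs : sin (π * s) ^ 2 = 1 - cos (π * s) ^ 2 := sin_sq (π * s)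
  have hc : cos (π * s) = 2 - 2 * mm s := by unfold mm; ring
  simp only [midK1, Pi.pow_apply]
  field_simp
  norm_num
  rw [hc] at hs
  rw [hc]
  linear_combination (-2 * mm s) * hs

lemma mid_dk1 (s : ℝ) : HasDerivAt midK1 (midK2 s) s := by
  have hm := (mm_pos s).ne'
  have h1 := (((((mid_cos s).add (((mid_cos s).pow 2).div_const 2)).sub_const 1).const_mul
    (π ^ 2 / 2))).div ((hasDerivAt_mm s).pow 3) (pow_ne_zero 3 hm)
  refine h1.congr_deriv ?_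
  have hc : cos (π * s) = 2 - 2 * mm s := by unfold mm; ring
  simp only [midK2, Pi.pow_apply, Pi.add_apply]
  field_simp
  norm_num
  rw [hc]
  ring

lemma mid_poly {C : ℝ} (h1 : -1 ≤ C) (h2 : C ≤ 1) :
    1 / 10 ≤ 3 * (C + C ^ 2 / 2 - 1) ^ 2 - (1 - C ^ 2) * (1 / 2 - 2 * C - C ^ 2 / 4) := by
  rcases le_total C (1 / 2) with h | h
  · have h3 : C + C ^ 2 / 2 - 1 ≤ -(3 / 8) := by nlinarith
    rcases le_total C (1 / 4) with h' | h'
    · have h4 : C + C ^ 2 / 2 - 1 ≤ -(23 / 32) := by nlinarith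
      nlinarith [mul_nonneg (sub_nonneg.2 h1) (sub_nonneg.2 h2), sq_nonneg C,
        sq_nonneg (C + C ^ 2 / 2 - 1), sq_nonneg (C ^ 2)]
    · have h5 : 0 ≤ 1 - C ^ 2 := by nlinarith
      have h6 : 1 / 2 - 2 * C - C ^ 2 / 4 ≤ 0 := by nlinarith
      nlinarith [mul_nonneg h5 (neg_nonneg.2 h6)]
  · rcases le_total C (9 / 10) with h' | h'
    · have h5 : 19 / 100 ≤ 1 - C ^ 2 := by nlinarith
      have h6 : 1 / 2 - 2 * C - C ^ 2 / 4 ≤ -(9 / 16) := by nlinarith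
      nlinarith [sq_nonneg (C + C ^ 2 / 2 - 1),
        mul_nonneg (sub_nonneg.2 h5) (sub_nonneg.2 h6)]
    · have h3 : 3 / 10 ≤ C + C ^ 2 / 2 - 1 := by nlinarith
      have h5 : 0 ≤ 1 - C ^ 2 := by nlinarith
      have h6 : 1 / 2 - 2 * C - C ^ 2 / 4 ≤ 0 := by nlinarith
      nlinarith [mul_nonneg h5 (neg_nonneg.2 h6)]

lemma mid_num {w p P S Q m : ℝ} (hw : 100 ≤ w) (hp : 3 < p) (hP : 1 / 10 ≤ P) (s1 : -1 ≤ S)
    (s2 : S ≤ 1) (q1 : Q ≤ 5 / 2) (q2 : -(5 / 2) ≤ Q) (hm : 0 < m) (hm2 : m ≤ 3 / 2) :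
    S * Q * m ^ 2 / 2 ≤ w * (p / 4 * P) := by
  have hSQ : S * Q ≤ 5 / 2 := by nlinarith
  have hmm : m ^ 2 ≤ 9 / 4 := by nlinarith
  have h3 : S * Q * m ^ 2 ≤ 5 / 2 * m ^ 2 := mul_le_mul_of_nonneg_right hSQ (sq_nonneg m)
  have h4 : 3 / 40 ≤ p / 4 * P := by nlinarith
  have h5 : 3 ≤ w * (p / 4 * P) := by nlinarith
  linarith

lemma mid_ineq {w : ℝ} (hw : 100 ≤ w) (s : ℝ) :
    midK2 s ≤ w * (3 * midK1 s ^ 2 - kk s * midK2 s) := by
  have hm := mm_pos s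
  have c1 := neg_one_le_cos (π * s)
  have c2 := cos_le_one (π * s)
  have hs : sin (π * s) ^ 2 = 1 - cos (π * s) ^ 2 := sin_sq (π * s)
  have hQ1 : 1 / 2 - 2 * cos (π * s) - cos (π * s) ^ 2 / 4 ≤ 5 / 2 := by
    nlinarith [sq_nonneg (cos (π * s))]
  have hQ2 : -(5 / 2) ≤ 1 / 2 - 2 * cos (π * s) - cos (π * s) ^ 2 / 4 := by nlinarith
  have h5 := mid_num hw pi_gt_three (mid_poly c1 c2) (neg_one_le_sin (π * s)) (sin_le_one (π * s))
    hQ1 hQ2 hm (mm_le s)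
  have h6 : 0 ≤ π ^ 3 / mm s ^ 6 := by positivity
  have h7 := mul_le_mul_of_nonneg_left h5 h6
  rw [← hs] at h7
  refine le_trans (le_of_eq ?_) (h7.trans (le_of_eq ?_))
  · simp only [midK2]
    field_simp
  · simp only [midK1, midK2, kk]
    field_simp
    ring

lemma mid_dDT (w s : ℝ) : HasDerivAt (DT w) (-(w * midK1 s)) s :=
  (((mid_dk s).const_mul w).const_add 1).neg

lemma mid_signed {w e1 e2 h σ : ℝ} (hw : 100 ≤ w) (hσ : σ * σ = 1)
    (hpos : ∀ s ∈ Icc e1 e2, 0 < σ * DT w s) :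
    ∀ a ∈ Icc e1 e2, ∀ b ∈ Icc e1 e2, ∀ c ∈ Icc e1 e2, a ≤ b → σ * TT w a = σ * TT w c - h →
      σ * TT w b = σ * TT w c + h → 2 * h / (σ * DT w c) ≤ b - a := by
  intro a ha b hb c hc hab h1 h2
  have d1 : ∀ s, HasDerivAt (fun s => σ * DT w s) (σ * -(w * midK1 s)) s := fun s =>
    (mid_dDT w s).const_mul σ
  refine mid_window (τ := fun s => σ * TT w s) (τ1 := fun s => σ * DT w s)
    (Γ := fun s => σ * w * midK1 s / (σ * DT w s) ^ 3)
    (fun s _ => (hasDerivAt_TT w s).const_mul σ) hpos (fun s hs => ?_) ?_ ha hb hc hab h1 h2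
  · have hp := (hpos s hs).ne'
    refine ((hasDerivAt_const s (1 : ℝ)).div (d1 s) hp).congr_deriv ?_
    generalize σ * DT w s = v at hp
    field_simp
    ring
  · refine mid_mono (f' := fun s => w * (w * (3 * midK1 s ^ 2 - kk s * midK2 s) - midK2 s) /
      (σ * DT w s) ^ 4) (fun s hs => ?_) (fun s hs => ?_)
    · have hp := (hpos s hs).ne'
      refine (((mid_dk1 s).const_mul (σ * w)).div ((d1 s).pow 3)
        (pow_ne_zero 3 hp)).congr_deriv ?_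
      have hv : σ * (σ * DT w s) = -(1 + w * kk s) := by
        rw [← mul_assoc, hσ, one_mul]; rfl
      simp only [Pi.pow_apply]
      generalize σ * DT w s = v at hp hv
      field_simp
      norm_num
      linear_combination (v ^ 2 * midK2 s) * hv + (3 * v ^ 2 * w * midK1 s ^ 2) * hσ
    · have := mid_ineq hw s
      have hp := hpos s hs
      exact div_nonneg (mul_nonneg (by linarith) (by linarith)) (by positivity)

theorem win_sum {w e1 e2 h A B : ℝ} (hw : 100 ≤ w) (hh : 0 < h) (he : e1 ≤ e2)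
    (hne : ∀ s ∈ Icc e1 e2, DT w s ≠ 0) (S : Finset ℕ) (θ φ : ℕ → ℝ)
    (hθ : ∀ n ∈ S, θ n ∈ Icc e1 e2)
    (hsep : ∀ n ∈ S, ∀ n' ∈ S, n ≠ n' → 2 * h ≤ |TT w (θ n) - TT w (θ n')|)
    (hA : ∀ n ∈ S, A ≤ TT w (θ n) - h ∧ TT w (θ n) + h ≤ B)
    (hA1 : min (TT w e1) (TT w e2) ≤ A) (hB1 : B ≤ max (TT w e1) (TT w e2))
    (G : ℝ → ℝ) (hG : ContinuousOn G (Icc e1 e2)) (hG0 : ∀ s ∈ Icc e1 e2, 0 ≤ G s)
    (hφ0 : ∀ n ∈ S, 0 ≤ φ n)
    (hφ : ∀ n ∈ S, ∀ s ∈ Icc e1 e2, |TT w s - TT w (θ n)| ≤ h → φ n ≤ G s) :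
    ∑ n ∈ S, φ n * (2 * h / |DT w (θ n)|) ≤
      ∫ s in {s | s ∈ Icc e1 e2 ∧ A ≤ TT w s ∧ TT w s ≤ B}, G s := by
  have hDc : Continuous (DT w) :=
    continuous_iff_continuousAt.2 fun s => (mid_dDT w s).continuousAt
  have sign : (∀ s ∈ Icc e1 e2, 0 < DT w s) ∨ ∀ s ∈ Icc e1 e2, DT w s < 0 := by
    by_contra hcon
    push Not at hcon
    obtain ⟨⟨x, hx, hx0⟩, ⟨y, hy, hy0⟩⟩ := hcon
    obtain ⟨z, hz, hz0⟩ := isPreconnected_Icc.intermediate_value hx hy hDc.continuousOn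
      (show (0 : ℝ) ∈ Icc (DT w x) (DT w y) from ⟨hx0, hy0⟩)
    exact hne z hz hz0
  have l1 : e1 ∈ Icc e1 e2 := ⟨le_rfl, he⟩
  have l2 : e2 ∈ Icc e1 e2 := ⟨he, le_rfl⟩
  rcases sign with hp | hp
  · have sm := mid_smono (fun s _ => hasDerivAt_TT w s) hp
    have h12 : TT w e1 ≤ TT w e2 := sm.monotoneOn l1 l2 he
    rw [min_eq_left h12] at hA1
    rw [max_eq_right h12] at hB1
    have win := mid_signed (h := h) (σ := 1) hw (by norm_num) (by simpa using hp)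
    simp only [one_mul] at win
    refine le_trans (le_of_eq ?_) (mid_sum hh he (continuous_TT w) sm
      (fun c => 2 * h / DT w c) win S θ φ hθ hsep hA hA1 hB1 G hG hG0 hφ0 hφ)
    exact Finset.sum_congr rfl fun n hn => by rw [abs_of_pos (hp _ (hθ n hn))]
  · have sm := mid_smono (f := fun s => -TT w s) (f' := fun s => -DT w s)
      (fun s _ => (hasDerivAt_TT w s).neg) (fun s hs => neg_pos.2 (hp s hs))
    have h12 : TT w e2 ≤ TT w e1 := by
      have : -TT w e1 ≤ -TT w e2 := sm.monotoneOn l1 l2 he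
      linarith
    rw [min_eq_right h12] at hA1
    rw [max_eq_left h12] at hB1
    have win := mid_signed (h := h) (σ := -1) hw (by norm_num) (by simpa using hp)
    simp only [neg_mul, one_mul] at win
    have := mid_sum (τ := fun s => -TT w s) (A := -B) (B := -A) hh he (continuous_TT w).neg sm
      (fun c => 2 * h / -DT w c) win S θ φ hθ
      (fun n hn n' hn' hne' => by
        have := hsep n hn n' hn' hne'
        rwa [show -TT w (θ n) - -TT w (θ n') = -(TT w (θ n) - TT w (θ n')) by ring, abs_neg])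
      (fun n hn => ⟨by linarith [(hA n hn).2], by linarith [(hA n hn).1]⟩)
      (by linarith) (by linarith) G hG hG0 hφ0
      (fun n hn s hs hle => hφ n hn s hs (by
        rwa [show -TT w s - -TT w (θ n) = -(TT w s - TT w (θ n)) by ring, abs_neg] at hle))
    have es : {s | s ∈ Icc e1 e2 ∧ -B ≤ -TT w s ∧ -TT w s ≤ -A} =
        {s | s ∈ Icc e1 e2 ∧ A ≤ TT w s ∧ TT w s ≤ B} := by
      ext s
      simp only [mem_ofPred_eq, neg_le_neg_iff]
      tauto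
    rw [es] at this
    refine le_trans (le_of_eq ?_) this
    exact Finset.sum_congr rfl fun n hn => by rw [abs_of_neg (hp _ (hθ n hn))]

end Pool.Agent.Lib.MP_2dc536_an.X
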