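import Pool.Agent.Lib.MP_2dc536_an.X.NDef
import Pool.Agent.Lib.MP_2dc536_an.X.Tab

namespace Pool.Agent.Lib.MP_2dc536_an.X

open Real Set MeasureTheory

theorem allB_sound {f : ℕ → Bool} {i0 cnt : ℕ} (h : allB f i0 cnt = true) {i : ℕ} (h0 : i0 ≤ i)
    (h1 : i < i0 + cnt) : f i = true := by
  induction cnt with
  | zero => omega
  | succ n ih =>
    have h' : cond (sq (Nat.add i0 n) f) (allB f i0 n) false = true := h
    rw [sq_eq] at h'
    cases hc : f (Nat.add i0 n) with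
    | false => rw [hc] at h'; exact absurd h' (by simp)
    | true =>
      rw [hc, cond_true] at h'
      rcases Nat.lt_succ_iff_lt_or_eq.1 (show i < (i0 + n).succ from h1) with g | g
      · exact ih h' g
      · rw [g]; exact hc

section cover

variable {ψ : ℝ → ℝ} {f : ℕ → ℕ} {i : ℕ} {s e : ℝ} {τ : ℝ → ℝ}

theorem n1_cell (hf : ∀ j : ℕ, ∀ s : ℝ, (j : ℝ) / 512 ≤ s ∨ j = 0 → ψ s ≤ (f j : ℝ) / 1024)
    (hs : (i : ℝ) / 512 ≤ s) (he : e ≤ 1 / 512) {m : ℝ} (hm : 0 < m) {hi : ℕ}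
    (h : m * 2 ^ 48 ≤ hi) :
    ψ (s / m - e) ≤ (f (Nat.pred (Nat.div (i * 2 ^ 48) hi)) : ℝ) / 1024 := by
  refine hf _ _ ?_
  cases hq : Nat.div (i * 2 ^ 48) hi with
  | zero => exact Or.inr rfl
  | succ j =>
    left
    have h1 : (j + 1) * hi ≤ i * 2 ^ 48 := by
      have := Nat.div_mul_le_self (i * 2 ^ 48) hi
      rwa [show i * 2 ^ 48 / hi = j + 1 from hq] at this
    have h2 : ((j : ℝ) + 1) * hi ≤ i * 2 ^ 48 := by exact_mod_cast h1
    have h3 : ((j : ℝ) + 1) * (m * 2 ^ 48) ≤ ((j : ℝ) + 1) * hi :=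
      mul_le_mul_of_nonneg_left h (by positivity)
    have h4 : ((j : ℝ) + 1) / 512 ≤ s / m := by
      rw [le_div_iff₀ hm]
      linarith
    show (j : ℝ) / 512 ≤ s / m - e
    linarith

theorem n1_sub (hf : ∀ j : ℕ, ∀ s : ℝ, (j : ℝ) / 512 ≤ s ∨ j = 0 → ψ s ≤ (f j : ℝ) / 1024)
    (hs : (i : ℝ) / 512 ≤ s) (he : e ≤ 1 / 512) (hm : ∀ u, mm u = 1 + cos (π * τ u) / 2)
    (hτ : Measurable τ) (hv : ∀ a b : ℝ, volume (τ ⁻¹' Icc a b) = ENNReal.ofReal (b - a))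
    (x : SB) : ∀ p q : ℕ, SBok x p q →
      ∫⁻ u in τ ⁻¹' Icc ((p : ℝ) / 2 ^ 40) ((q : ℝ) / 2 ^ 40), ENNReal.ofReal (ψ (s / mm u - e)) ≤
        ENNReal.ofReal ((avgS f (i * 2 ^ 48) x : ℝ) / 2 ^ 40 / 1024) := by
  induction x with
  | nil =>
    intro p q h
    have hpq : p = q := h
    rw [setLIntegral_measure_zero _ _ (by rw [hv, hpq, sub_self, ENNReal.ofReal_zero])]
    exact zero_le
  | cons a b lo hi sl r ih =>
    rintro p q ⟨rfl, -, hc, hr⟩
    have e1 : (avgS f (i * 2 ^ 48) (SB.cons a b lo hi sl r) : ℝ) = avgS f (i * 2 ^ 48) r +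
        ((b - a : ℕ) : ℝ) * f (Nat.pred (Nat.div (i * 2 ^ 48) hi)) := by
      have : avgS f (i * 2 ^ 48) (SB.cons a b lo hi sl r) = avgS f (i * 2 ^ 48) r +
          (b - a) * f (Nat.pred (Nat.div (i * 2 ^ 48) hi)) := rfl
      rw [this, Nat.cast_add, Nat.cast_mul]
    have c1 : ∫⁻ u in τ ⁻¹' Icc ((a : ℝ) / 2 ^ 40) ((b : ℝ) / 2 ^ 40),
        ENNReal.ofReal (ψ (s / mm u - e)) ≤ ENNReal.ofReal (((b - a : ℕ) : ℝ) *
          f (Nat.pred (Nat.div (i * 2 ^ 48) hi)) / 2 ^ 40 / 1024) := by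
      refine (setLIntegral_mono' (g := fun _ => ENNReal.ofReal
        ((f (Nat.pred (Nat.div (i * 2 ^ 48) hi)) : ℝ) / 1024)) (hτ measurableSet_Icc)
        fun u hu => ENNReal.ofReal_le_ofReal (n1_cell hf hs he (mm_pos u) ?_)).trans ?_
      · rw [hm]
        exact (hc (τ u) ((div_le_iff₀ (by positivity)).1 hu.1)
          ((le_div_iff₀ (by positivity)).1 hu.2)).2.1
      · rw [setLIntegral_const, hv, ← ENNReal.ofReal_mul (by positivity)]
        refine ENNReal.ofReal_le_ofReal ?_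
        have h1 : (b : ℝ) - a ≤ ((b - a : ℕ) : ℝ) := by
          rcases le_total a b with g | g
          · rw [Nat.cast_sub g]
          · have : (b : ℝ) ≤ a := by exact_mod_cast g
            have h0 : (0 : ℝ) ≤ ((b - a : ℕ) : ℝ) := Nat.cast_nonneg _
            linarith
        have h3 := Nat.cast_nonneg (α := ℝ) (f (Nat.pred (Nat.div (i * 2 ^ 48) hi)))
        generalize (f (Nat.pred (Nat.div (i * 2 ^ 48) hi)) : ℝ) = F at h3 ⊢
        have h2 := mul_le_mul_of_nonneg_right h1 h3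
        calc F / 1024 * ((b : ℝ) / 2 ^ 40 - (a : ℝ) / 2 ^ 40)
            = ((b : ℝ) - a) * F / 2 ^ 40 / 1024 := by ring
          _ ≤ _ := by gcongr
    refine (lintegral_mono_set (preimage_mono
      (Icc_subset_Icc_union_Icc (b := (b : ℝ) / 2 ^ 40)))).trans ?_
    rw [preimage_union]
    refine (lintegral_union_le _ _ _).trans ((add_le_add c1 (ih b q hr)).trans ?_)
    rw [← ENNReal.ofReal_add (by positivity) (by positivity), e1]
    exact ENNReal.ofReal_le_ofReal (by linarith)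

theorem n1_tab (hf : ∀ j : ℕ, ∀ s : ℝ, (j : ℝ) / 512 ≤ s ∨ j = 0 → ψ s ≤ (f j : ℝ) / 1024)
    (hs : (i : ℝ) / 512 ≤ s) (he : e ≤ 1 / 512) (hm : ∀ u, mm u = 1 + cos (π * τ u) / 2)
    (hτ : Measurable τ) (hv : ∀ a b : ℝ, volume (τ ⁻¹' Icc a b) = ENNReal.ofReal (b - a))
    (t : TB) : TBok t →
      ∫⁻ u in τ ⁻¹' Icc ((gA t 0 : ℝ) / 2 ^ 40) 1, ENNReal.ofReal (ψ (s / mm u - e)) ≤
        ENNReal.ofReal ((avgT f (i * 2 ^ 48) t : ℝ) / 2 ^ 40 / 1024) := by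
  induction t with
  | nil =>
    intro _
    have h0 : (gA TB.nil 0 : ℝ) / 2 ^ 40 = 1 := by
      rw [gA, Nat.cast_pow, Nat.cast_ofNat, div_self (by positivity)]
    rw [setLIntegral_measure_zero _ _ (by rw [hv, h0, sub_self, ENNReal.ofReal_zero])]
    exact zero_le
  | cons a b lo hi sub r ih =>
    rintro ⟨hb, -, -, -, hsub, hr⟩
    have e1 : (avgT f (i * 2 ^ 48) (TB.cons a b lo hi sub r) : ℝ) = avgT f (i * 2 ^ 48) r +
        avgS f (i * 2 ^ 48) sub := by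
      have : avgT f (i * 2 ^ 48) (TB.cons a b lo hi sub r) = avgT f (i * 2 ^ 48) r +
          avgS f (i * 2 ^ 48) sub := rfl
      rw [this, Nat.cast_add]
    have c1 := n1_sub hf hs he hm hτ hv sub a b hsub
    have c2 := ih hr
    rw [← hb] at c2
    rw [gA]
    refine (lintegral_mono_set (preimage_mono
      (Icc_subset_Icc_union_Icc (b := (b : ℝ) / 2 ^ 40)))).trans ?_
    rw [preimage_union]
    refine (lintegral_union_le _ _ _).trans ((add_le_add c1 c2).trans ?_)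
    rw [← ENNReal.ofReal_add (by positivity) (by positivity), e1]
    exact ENNReal.ofReal_le_ofReal (by linarith)

end cover

theorem avgT_sound {t : TB} {K1 : ℕ} (ht : TabOK t K1) {ψ : ℝ → ℝ} (hψ : Antitone ψ)
    (f : ℕ → ℕ) (hf : ∀ j : ℕ, ∀ s : ℝ, (j : ℝ) / 512 ≤ s ∨ j = 0 → ψ s ≤ (f j : ℝ) / 1024)
    (i : ℕ) {s e : ℝ} (hs : (i : ℝ) / 512 ≤ s) (he0 : 0 ≤ e) (he : e ≤ 1 / 512) :
    1 / 2 * (∫ u in (0 : ℝ)..2, ψ (s / mm u - e)) ≤
      (avgT f (i * 2 ^ 48) t : ℝ) / 2 ^ 40 / 1024 := by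
  have _ := hψ
  have _ := he0
  obtain ⟨V, hV⟩ : ∃ V : ℝ, V = (avgT f (i * 2 ^ 48) t : ℝ) / 2 ^ 40 / 1024 := ⟨_, rfl⟩
  have hV0 : 0 ≤ V := by rw [hV]; positivity
  have c1 := n1_tab hf hs he (τ := fun u => 1 - u)
    (fun u => by rw [mm, mul_sub, mul_one, cos_pi_sub]; ring) (by fun_prop)
    (fun a b => by rw [preimage_const_sub_Icc, Real.volume_Icc]; congr 1; ring) t ht.1
  have c2 := n1_tab hf hs he (τ := fun u => u - 1)
    (fun u => by rw [mm, mul_sub, mul_one, cos_sub_pi]; ring) (by fun_prop)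
    (fun a b => by rw [preimage_sub_const_Icc, Real.volume_Icc]; congr 1; ring) t ht.1
  rw [ht.2.2.2.1, ← hV] at c1 c2
  rw [← hV]
  have c3 : ∫⁻ u in Ioc (0 : ℝ) 2, ENNReal.ofReal (ψ (s / mm u - e)) ≤ ENNReal.ofReal (V + V) := by
    rw [ENNReal.ofReal_add hV0 hV0]
    refine le_trans (lintegral_mono_set fun u hu => ?_)
      ((lintegral_union_le _ _ _).trans (add_le_add c1 c2))
    simp only [mem_union, mem_preimage, mem_Icc, Nat.cast_zero, zero_div]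
    rcases le_total u 1 with g | g
    · exact Or.inl ⟨by linarith, by linarith [hu.1]⟩
    · exact Or.inr ⟨by linarith, by linarith [hu.2]⟩
  rw [intervalIntegral.integral_of_le zero_le_two]
  by_cases hint : Integrable (fun u => ψ (s / mm u - e)) (volume.restrict (Ioc (0 : ℝ) 2))
  · rw [integral_eq_lintegral_pos_part_sub_lintegral_neg_part hint]
    have h1 := ENNReal.toReal_le_of_le_ofReal (add_nonneg hV0 hV0) c3
    have h2 : 0 ≤ (∫⁻ u in Ioc (0 : ℝ) 2, ENNReal.ofReal (-ψ (s / mm u - e))).toReal :=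
      ENNReal.toReal_nonneg
    linarith
  · rw [integral_undef hint]
    linarith

end Pool.Agent.Lib.MP_2dc536_an.X
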