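import Pool.Agent.Lib.MP_2dc536_an.X.NDef
import Pool.Agent.Lib.MP_2dc536_an.X.Lap

/-!
The transfer inequality for the profile.
-/

namespace Pool.Agent.Lib.MP_2dc536_an.X

open Real Set MeasureTheory

lemma n3_fin {y s I T c tp η μ ν p q : ℝ} (hy : 2000 ≤ y) (hT : 0 ≤ T) (hη : 0 < η) (hν : 0 < ν)
    (hμ : ν ≤ μ)
    (h : (y + 1 / 4) * s ≤ I + (T * (103 / 100) / √(2 * η) - 0 * (99 / 100) * p) /
      (π * √(y + 1 / 4)) + 3 * (T * (103 / 100) / √(2 * μ / 3) - 0 * (98 / 100) * q) /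
      (π * √(y + 1 / 4)))
    (hm : I + (y + 1 / 4) * c ≤ (y + 1 / 4) * tp + T * (2 * 1 / √y)) :
    s + c ≤ tp + T * (2 * (1 + 1 / √η + 1 / √ν) / (y * √y)) := by
  have hp := pi_gt_d2
  have hy0 : 0 < y := by linarith
  have hs : 0 < √y := sqrt_pos.2 hy0
  have hs2 : √y ≤ √(y + 1 / 4) := sqrt_le_sqrt (by linarith)
  have ha : 0 < √η := sqrt_pos.2 hη
  have hb : 0 < √ν := sqrt_pos.2 hν
  have h1 : √η ≤ √(2 * η) := sqrt_le_sqrt (by linarith)
  have h2 : 2 / 3 * √ν ≤ √(2 * μ / 3) :=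
    le_sqrt_of_sq_le (by rw [mul_pow, sq_sqrt hν.le]; linarith)
  have e1 : (T * (103 / 100) / √(2 * η) - 0 * (99 / 100) * p) / (π * √(y + 1 / 4)) ≤
      T * (2 * (1 / √η) / √y) := by
    calc _ = T * (103 / 100) / √(2 * η) / (π * √(y + 1 / 4)) := by ring
      _ ≤ T * 2 / √η / (1 * √y) := by gcongr <;> linarith
      _ = _ := by ring
  have e2 : 3 * (T * (103 / 100) / √(2 * μ / 3) - 0 * (98 / 100) * q) / (π * √(y + 1 / 4)) ≤
      T * (2 * (1 / √ν) / √y) := by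
    calc _ = 3 * (T * (103 / 100) / √(2 * μ / 3)) / (π * √(y + 1 / 4)) := by ring
      _ ≤ 3 * (T * (4 / 3) / (2 / 3 * √ν)) / (3 * √y) := by
        gcongr 3 * (T * ?_ / ?_) / (?_ * ?_) <;> linarith
      _ = _ := by field_simp; ring
  have e4 : T * (2 * (1 + 1 / √η + 1 / √ν) / √y) ≤
      (y + 1 / 4) * (T * (2 * (1 + 1 / √η + 1 / √ν) / (y * √y))) := by
    calc _ = y * (T * (2 * (1 + 1 / √η + 1 / √ν) / (y * √y))) := by field_simp
      _ ≤ _ := by gcongr; linarith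
  have e5 : T * (2 * (1 + 1 / √η + 1 / √ν) / √y) =
      T * (2 * 1 / √y) + T * (2 * (1 / √η) / √y) + T * (2 * (1 / √ν) / √y) := by ring
  refine le_of_mul_le_mul_left ?_ (show 0 < y + 1 / 4 by linarith)
  rw [mul_add, mul_add]
  linarith

/-- A continuous function between two shifts of an antitone function. -/
lemma n3_smooth {g : ℝ → ℝ} (hg : Antitone g) :
    ∃ F : ℝ → ℝ, Continuous F ∧ ∀ z, g (z - 5) ≤ F z ∧ F z ≤ g (z - 6) := by
  have hi : ∀ a b, IntervalIntegrable g volume a b := fun a b => hg.intervalIntegrable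
  have hc := intervalIntegral.continuous_primitive hi 0
  refine ⟨fun z => (∫ v in (0 : ℝ)..(z - 5), g v) - ∫ v in (0 : ℝ)..(z - 6), g v,
    (hc.comp (continuous_id.sub continuous_const)).sub
      (hc.comp (continuous_id.sub continuous_const)), fun z => ?_⟩
  show g (z - 5) ≤ (∫ v in (0 : ℝ)..(z - 5), g v) - (∫ v in (0 : ℝ)..(z - 6), g v) ∧
    (∫ v in (0 : ℝ)..(z - 5), g v) - (∫ v in (0 : ℝ)..(z - 6), g v) ≤ g (z - 6)
  rw [intervalIntegral.integral_interval_sub_left (hi _ _) (hi _ _)]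
  have hle : z - 6 ≤ z - 5 := by linarith
  have h1 := intervalIntegral.integral_mono_on hle
    (intervalIntegrable_const (c := g (z - 5))) (hi _ _) (fun v hv => hg hv.2)
  have h2 := intervalIntegral.integral_mono_on hle (hi _ _)
    (intervalIntegrable_const (c := g (z - 6))) (fun v hv => hg hv.1)
  rw [intervalIntegral.integral_const, smul_eq_mul, show z - 5 - (z - 6) = 1 by ring,
    one_mul] at h1 h2
  exact ⟨h1, h2⟩

theorem keyN {ψ : ℝ → ℝ} {C0 X y : ℝ} (hP : Prof ψ C0) (hC : C0 ≤ 17) (hX : 4000 ≤ X)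
    (hy : 2000 ≤ y) (hn : ∀ m : ℕ, y ≠ m)
    (φ : ℕ → ℝ) (hφ0 : ∀ n, 0 ≤ φ n) (hφ : ∀ n : ℕ, y / 2 ≤ n → φ n ≤ ψ (n / X))
    (S : Finset ℕ) (x : ℕ → ℝ) (hx : ∀ n ∈ S, x n ∈ UA n ∧ ff (x n) = y) :
    ∑ n ∈ S, φ n / ((x n + 1 / 2) * |ff' (x n)|) + (if y + 1 / 4 < X then 1 / X else 0) ≤
      ψ (⌊y⌋₊ / X) / (y + 1 / 2) + 30 * bT y := by
  obtain ⟨hA, h0, hB, -, -, hK⟩ := hP
  have hy0 : 0 < y := by linarith
  have hX0 : 0 < X := by linarith
  have hm2 : y < (⌊y⌋₊ : ℝ) + 1 := Nat.lt_floor_add_one y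
  have hm1 : (⌊y⌋₊ : ℝ) < y := lt_of_le_of_ne (Nat.floor_le hy0.le) (hn _).symm
  unfold bT
  generalize ⌊y⌋₊ = m at hm1 hm2 ⊢
  obtain ⟨M, hM, hM1, hM2⟩ : ∃ M : ℕ, M % 3 = 2 ∧ m + 1 ≤ M ∧ M ≤ m + 3 :=
    ⟨3 * ((m + 1) / 3) + 2, by omega, by omega, by omega⟩
  have hM3 : (m : ℝ) + 1 ≤ M := by exact_mod_cast hM1
  have hM4 : (M : ℝ) ≤ m + 3 := by exact_mod_cast hM2
  have hg : Antitone fun v : ℝ => ψ (v / X) := fun a b hab =>
    hA (div_le_div_of_nonneg_right hab hX0.le)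
  obtain ⟨F, hF, hFb⟩ := n3_smooth hg
  have hPb : ∀ n : ℕ, 2 * y / 3 - 8 ≤ n → φ n ≤ 30 := fun n h =>
    (hφ n (by linarith)).trans ((hB _).trans (by linarith))
  have h := lapsum (by linarith) hm1 hm2 hM (by linarith) (by linarith) F hF.continuousOn φ hφ0
    (fun n z a _ c => by
      obtain ⟨c1, c3⟩ := abs_le.1 c
      exact (hφ n (by linarith)).trans ((hg (show z - 5 ≤ n by linarith)).trans (hFb z).1))
    (Pu := 30) (Pl := 30) (Lu := 0) (Ll := 0)
    (fun n h => hPb n (by linarith [(abs_le.1 h).1]))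
    (fun n h => hPb n (by linarith [(abs_le.1 h).1]))
    (fun z _ => (h0 _).trans (hFb z).1) (fun z _ => (h0 _).trans (hFb z).1) S x hx
  refine n3_fin hy (by norm_num) (by linarith) (by linarith) (by linarith) h ?_
  have hw : 0 < y + 1 / 4 := by linarith
  have hs : 0 < (y + 1 / 4) / X := by positivity
  have hk := hK ((y + 1 / 4) / X) (6 / X) hs (by positivity)
    (by rw [div_le_div_iff₀ hX0 (by norm_num)]; linarith)
  have c1 : ∀ a : ℝ, Continuous fun t => a / mm t := fun a =>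
    continuous_const.div continuous_mm fun s => (mm_pos s).ne'
  have h1 : ∫ t in (0 : ℝ)..2, F ((y + 1 / 4) / mm t) ≤
      ∫ t in (0 : ℝ)..2, ψ ((y + 1 / 4) / X / mm t - 6 / X) := by
    refine intervalIntegral.integral_mono_on (by norm_num)
      ((hF.comp (c1 _)).intervalIntegrable _ _) ?_ fun t _ => ?_
    · refine (intervalIntegrable_const (c := C0)).mono_fun'
        (hA.measurable.comp ((c1 _).sub continuous_const).measurable).aestronglyMeasurable
        (Filter.Eventually.of_forall fun t => ?_)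
      show ‖ψ _‖ ≤ C0
      rw [Real.norm_of_nonneg (h0 _)]
      exact hB _
    · refine (hFb _).2.trans (le_of_eq ?_)
      show ψ _ = ψ _
      congr 1
      ring
  have h2 : (y + 1 / 4) * (if y + 1 / 4 < X then 1 / X else 0) =
      if (y + 1 / 4) / X < 1 then (y + 1 / 4) / X else 0 := by
    by_cases hc : y + 1 / 4 < X
    · rw [if_pos hc, if_pos ((div_lt_one hX0).2 hc)]
      ring
    · rw [if_neg hc, if_neg (fun h' => hc ((div_lt_one hX0).1 h')), mul_zero]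
  have h3 : ψ ((y + 1 / 4) / X) ≤ ψ (m / X) := hg (show (m : ℝ) ≤ y + 1 / 4 by linarith)
  have h4 : 100 * (6 / X) / (1 + ((y + 1 / 4) / X) ^ 2) ≤ 300 / y := by
    rw [show 100 * (6 / X) / (1 + ((y + 1 / 4) / X) ^ 2) =
      600 * X / (X ^ 2 + (y + 1 / 4) ^ 2) by field_simp; ring,
      div_le_div_iff₀ (by positivity) hy0]
    nlinarith [sq_nonneg (X - y)]
  have h5 : ψ (m / X) - 5 / y ≤ (y + 1 / 4) * (ψ (m / X) / (y + 1 / 2)) := by
    have a : ψ (m / X) / 4 / (y + 1 / 2) ≤ 5 / y := by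
      have := h0 (m / X)
      have := hB (m / X)
      gcongr <;> linarith
    have b : (y + 1 / 4) * (ψ (m / X) / (y + 1 / 2)) =
        ψ (m / X) - ψ (m / X) / 4 / (y + 1 / 2) := by field_simp; ring
    linarith
  have h6 : 300 / y + 5 / y ≤ 30 * (2 * 1 / √y) := by
    have a : 0 < √y := sqrt_pos.2 hy0
    have b : 6 ≤ √y := le_sqrt_of_sq_le (by linarith)
    have c := mul_self_sqrt hy0.le
    rw [← add_div, ← mul_div_assoc, div_le_div_iff₀ hy0 a]
    nlinarith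
  linarith

end Pool.Agent.Lib.MP_2dc536_an.X
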