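import Pool.Agent.Lib.MP_2dc536_an.X.N3
import Pool.Agent.Lib.MP_2dc536_an.X.Cost
import Pool.Agent.Lib.MP_2dc536_an.X.Frame
import Pool.Agent.Lib.MP_2dc536_an.X.Top

namespace Pool.Agent.Lib.MP_2dc536_an.X

open Real Set MeasureTheory

open Classical in
/-- The weight glued to the profile `p`. -/
noncomputable def n4H (H : ℝ → ℝ) (Z : ℕ) (p : ℕ → ℝ) (C x : ℝ) : ℝ :=
  if x < Z then C * H x else
    if x ∈ UA ⌊x⌋₊ then min (p ⌊x⌋₊) (C * Phi0 ⌊x⌋₊) / (x + 1 / 2) else 0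

lemma n4_H0 {H : ℝ → ℝ} {Z : ℕ} {p : ℕ → ℝ} {C : ℝ} (hH0 : ∀ x, 0 ≤ H x) (hp : ∀ n, 0 ≤ p n)
    (hC : 0 ≤ C) (x : ℝ) : 0 ≤ n4H H Z p C x := by
  unfold n4H
  split_ifs with h1 h2
  · exact mul_nonneg hC (hH0 x)
  · have h3 : (0 : ℝ) ≤ Z := Nat.cast_nonneg Z
    exact div_nonneg (le_min (hp _) (mul_nonneg hC (by linarith [tp_Phi1 ⌊x⌋₊])))
      (by linarith [not_lt.1 h1])
  · exact le_rfl

lemma n4_Hle {H : ℝ → ℝ} {Z : ℕ} {p : ℕ → ℝ} {C : ℝ} (hZ : 3000 ≤ Z)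
    (hHA : ∀ x, 3000 ≤ x → H x = HA x) (x : ℝ) : n4H H Z p C x ≤ C * H x := by
  have h3 : (3000 : ℝ) ≤ Z := by exact_mod_cast hZ
  unfold n4H
  split_ifs with h1 h2
  · exact le_rfl
  · rw [hHA x (by linarith [not_lt.1 h1])]
    unfold HA
    rw [if_pos h2, ← mul_div_assoc]
    exact div_le_div_of_nonneg_right (min_le_right _ _) (by linarith [not_lt.1 h1])
  · rw [hHA x (by linarith [not_lt.1 h1])]
    unfold HA
    rw [if_neg h2, mul_zero]

lemma n4_Heq {H : ℝ → ℝ} {Z : ℕ} {p : ℕ → ℝ} {C : ℝ} (hZ : 3000 ≤ Z)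
    (hHA : ∀ x, 3000 ≤ x → H x = HA x) {x : ℝ}
    (h : (Z : ℝ) ≤ x → x ∈ UA ⌊x⌋₊ → C * Phi0 ⌊x⌋₊ ≤ p ⌊x⌋₊) :
    n4H H Z p C x = C * H x := by
  have h3 : (3000 : ℝ) ≤ Z := by exact_mod_cast hZ
  unfold n4H
  split_ifs with h1 h2
  · rfl
  · rw [hHA x (by linarith [not_lt.1 h1])]
    unfold HA
    rw [if_pos h2, ← mul_div_assoc, min_eq_right (h (not_lt.1 h1) h2)]
  · rw [hHA x (by linarith [not_lt.1 h1])]
    unfold HA
    rw [if_neg h2, mul_zero]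

lemma n4_fin {H : ℝ → ℝ} {Z : ℕ} {ψ : ℝ → ℝ} {X C : ℝ} (hψ : ∀ s, 1 ≤ s → ψ s ≤ 20 / s)
    (hZ : 3000 ≤ Z) (hC : 0 ≤ C) (hX : (Z : ℝ) ≤ X)
    (hneg : ∀ x, x < 0 → H x = 0) (hHb : ∀ x, H x ≤ 64)
    (hHA : ∀ x, 3000 ≤ x → H x = HA x) :
    ∫⁻ x, ENNReal.ofReal (n4H H Z (fun n => ψ (n / X)) C x) ≠ ⊤ := by
  have h3 : (3000 : ℝ) ≤ Z := by exact_mod_cast hZ
  have hX0 : 0 < X := by linarith
  have hI : IntegrableOn (fun x : ℝ => 40 * X * x ^ (-2 : ℝ)) (Ioi (X + 2)) :=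
    (integrableOn_Ioi_rpow_of_lt (by norm_num) (by linarith)).const_mul _
  have hle : ∀ x, ENNReal.ofReal (n4H H Z (fun n => ψ (n / X)) C x) ≤
      (Icc 0 (X + 2)).indicator (fun _ => ENNReal.ofReal (C * 64)) x +
      (Ioi (X + 2)).indicator (fun x => ENNReal.ofReal (40 * X * x ^ (-2 : ℝ))) x := by
    intro x
    rcases lt_or_ge x 0 with h | h
    · have := n4_Hle (p := fun n => ψ (n / X)) (C := C) hZ hHA x
      rw [hneg x h, mul_zero] at this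
      rw [ENNReal.ofReal_of_nonpos this]
      exact zero_le
    rcases le_or_gt x (X + 2) with h' | h'
    · rw [indicator_of_mem (show x ∈ Icc 0 (X + 2) from ⟨h, h'⟩)]
      refine le_trans (ENNReal.ofReal_le_ofReal ?_) le_self_add
      exact (n4_Hle hZ hHA x).trans (mul_le_mul_of_nonneg_left (hHb x) hC)
    · rw [indicator_of_mem (show x ∈ Ioi (X + 2) from h')]
      refine le_trans (ENNReal.ofReal_le_ofReal ?_) le_add_self
      have hx : 0 < x := by linarith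
      have e : x ^ (-2 : ℝ) = 1 / (x * x) := by
        rw [rpow_neg hx.le, rpow_two, one_div, pow_two]
      have h5 : x < ⌊x⌋₊ + 1 := Nat.lt_floor_add_one x
      rw [e]
      unfold n4H
      rw [if_neg (by linarith)]
      split_ifs with h2
      · have h4 : (0 : ℝ) < ⌊x⌋₊ := by linarith
        have h6 : ψ (⌊x⌋₊ / X) ≤ 40 * X / x := by
          refine (hψ _ ((one_le_div hX0).2 (by linarith))).trans ?_
          rw [div_div_eq_mul_div, div_le_div_iff₀ h4 hx]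
          nlinarith
        have h7 : 0 ≤ 40 * X / x := by positivity
        calc min (ψ (⌊x⌋₊ / X)) (C * Phi0 ⌊x⌋₊) / (x + 1 / 2)
            ≤ 40 * X / x / x :=
              div_le_div₀ h7 ((min_le_left _ _).trans h6) hx (by linarith)
          _ = 40 * X * (1 / (x * x)) := by field_simp
      · positivity
  refine ne_top_of_le_ne_top ?_ (lintegral_mono hle)
  rw [lintegral_add_left (measurable_const.indicator measurableSet_Icc),
    lintegral_indicator measurableSet_Icc, lintegral_indicator measurableSet_Ioi]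
  refine ENNReal.add_ne_top.2 ⟨?_, hI.lintegral_lt_top.ne⟩
  rw [setLIntegral_const, Real.volume_Icc]
  exact ENNReal.mul_ne_top ENNReal.ofReal_ne_top ENNReal.ofReal_ne_top

lemma n4_key {ψ : ℝ → ℝ} {C0 : ℝ} (hP : Prof ψ C0) (hC : C0 ≤ 17)
    {U : ℕ → Set ℝ} {H b : ℝ → ℝ} {Z : ℕ} {X C W : ℝ}
    (hUs : ∀ n, U n ⊆ Ico (n : ℝ) (n + 1))
    (hUA : ∀ n, 3000 ≤ n → U n = UA n) (hHA : ∀ x, 3000 ≤ x → H x = HA x)
    (hb0 : ∀ y, 0 ≤ b y) (hZ : 3000 ≤ Z) (hX : 2 * (Z : ℝ) + 1 ≤ X) (hC0 : 0 ≤ C)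
    (hC1 : ∀ m : ℕ, Z ≤ m → m ≤ 2 * Z → C * Phi0 m ≤ ψ (m / X)) (hW : 2 * (Z : ℝ) ≤ W)
    (hC2 : ∀ m : ℕ, W ≤ m → ψ (m / X) ≤ C * Phi0 m)
    {y : ℝ} (hn : ∀ m : ℕ, y ≠ m) (key : Key U H b y) (S : Finset ℕ) (x : ℕ → ℝ)
    (hx : ∀ n ∈ S, x n ∈ U n ∧ ff (x n) = y) :
    ∑ n ∈ S, n4H H Z (fun n => ψ (n / X)) C (x n) / |ff' (x n)| +
        (Ico (W + 1) (X - 1 / 4)).indicator (fun _ => 1 / X) y ≤
      n4H H Z (fun n => ψ (n / X)) C y + (C * b y + (30 * (Ici ((2 * Z : ℕ) : ℝ)).indicator bT y +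
        (Ici ((2 * Z : ℕ) : ℝ)).indicator bA y)) := by
  have h3 : (3000 : ℝ) ≤ Z := by exact_mod_cast hZ
  have hX0 : 0 < X := by linarith
  have hgen : ∑ n ∈ S, n4H H Z (fun n => ψ (n / X)) C (x n) / |ff' (x n)| ≤
      C * H y + C * b y := by
    rw [← mul_add]
    refine le_trans ?_ (mul_le_mul_of_nonneg_left (key S x hx) hC0)
    rw [Finset.mul_sum]
    refine Finset.sum_le_sum fun n _ => ?_
    rw [← mul_div_assoc]
    exact div_le_div_of_nonneg_right (n4_Hle hZ hHA _) (abs_nonneg _)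
  rcases lt_or_ge y (2 * Z) with h | h
  · have e1 : y ∉ Ico (W + 1) (X - 1 / 4) := fun h' => by linarith [h'.1]
    have e2 : y ∉ Ici ((2 * Z : ℕ) : ℝ) := fun h' => by
      have : ((2 * Z : ℕ) : ℝ) ≤ y := h'
      push_cast at this
      linarith
    rw [indicator_of_notMem e1, indicator_of_notMem e2, indicator_of_notMem e2,
      n4_Heq hZ hHA (fun h1 _ => hC1 _ (Nat.le_floor h1) (Nat.floor_le_of_le (by
        push_cast; exact h.le)))]
    linarith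
  have hy0 : 0 < y := by linarith
  have e2 : y ∈ Ici ((2 * Z : ℕ) : ℝ) := by
    show ((2 * Z : ℕ) : ℝ) ≤ y
    push_cast
    exact h
  have hbT := bT_nonneg hy0.le
  have hbA := bA_nonneg hy0.le
  rw [indicator_of_mem e2, indicator_of_mem e2]
  by_cases hU : y ∈ UA ⌊y⌋₊
  · rcases le_or_gt (ψ (⌊y⌋₊ / X)) (C * Phi0 ⌊y⌋₊) with h1 | h1
    · have hsrc : (Ico (W + 1) (X - 1 / 4)).indicator (fun _ => 1 / X) y ≤
          if y + 1 / 4 < X then 1 / X else 0 := by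
        by_cases h1 : y ∈ Ico (W + 1) (X - 1 / 4)
        · rw [indicator_of_mem h1, if_pos (by linarith [h1.2])]
        · rw [indicator_of_notMem h1]
          split_ifs
          · positivity
          · exact le_rfl
      have h2 : ∀ n ∈ S, (Z : ℝ) + 1 ≤ x n ∧ Z ≤ n := by
        intro n hn
        obtain ⟨h2, h4⟩ := hx n hn
        have h5 : (0 : ℝ) ≤ x n := le_trans (Nat.cast_nonneg n) (hUs n h2).1
        have h6 : (x n + 1 / 2) * mm (x n) ≤ (x n + 1 / 2) * (3 / 2) :=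
          mul_le_mul_of_nonneg_left (mm_le _) (by linarith)
        rw [ff_eq] at h4
        have h7 : (Z : ℝ) + 1 ≤ x n := by linarith
        have h8 : (Z : ℝ) < n := by linarith [(hUs n h2).2]
        exact ⟨h7, by exact_mod_cast h8.le⟩
      have h4 : ∀ n ∈ S, x n ∈ UA n ∧ ff (x n) = y := fun n hn => by
        rw [← hUA n (hZ.trans (h2 n hn).2)]
        exact hx n hn
      have h5 := keyN (X := X) (y := y) hP hC (by linarith) (by linarith) hn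
        (fun n => min (ψ (n / X)) (C * Phi0 n))
        (fun n => le_min (hP.2.1 _) (mul_nonneg hC0 (by linarith [tp_Phi1 n])))
        (fun n _ => min_le_left _ _) S x h4
      have h6 : ∀ n ∈ S, n4H H Z (fun n => ψ (n / X)) C (x n) / |ff' (x n)| =
          min (ψ (n / X)) (C * Phi0 n) / ((x n + 1 / 2) * |ff' (x n)|) := by
        intro n hn
        have h7 : ⌊x n⌋₊ = n :=
          (Nat.floor_eq_iff (by linarith [(h2 n hn).1])).2 (hUs n (hx n hn).1)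
        unfold n4H
        rw [if_neg (by linarith [(h2 n hn).1]), h7, if_pos (h4 n hn).1, div_div]
      have h7 : n4H H Z (fun n => ψ (n / X)) C y = ψ (⌊y⌋₊ / X) / (y + 1 / 2) := by
        unfold n4H
        rw [if_neg (by linarith), if_pos hU, min_eq_left h1]
      rw [Finset.sum_congr rfl h6, h7]
      have h8 := mul_nonneg hC0 (hb0 y)
      linarith
    · have e1 : y ∉ Ico (W + 1) (X - 1 / 4) := fun h' => by
        have h5 : y < ⌊y⌋₊ + 1 := Nat.lt_floor_add_one y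
        exact absurd (hC2 ⌊y⌋₊ (by linarith [h'.1])) (not_le.2 h1)
      rw [indicator_of_notMem e1, n4_Heq hZ hHA (fun _ _ => h1.le)]
      linarith
  · rw [n4_Heq hZ hHA (fun _ h' => absurd h' hU)]
    have h1 := tp_bA hy0 hU
    have h2 : (Ico (W + 1) (X - 1 / 4)).indicator (fun _ => 1 / X) y ≤ 1 / y := by
      by_cases h1 : y ∈ Ico (W + 1) (X - 1 / 4)
      · rw [indicator_of_mem h1]
        exact one_div_le_one_div_of_le hy0 (by linarith [h1.2])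
      · rw [indicator_of_notMem h1]
        positivity
    linarith

lemma n4_core {ψ : ℝ → ℝ} {C0 : ℝ} (hP : Prof ψ C0) (hC : C0 ≤ 17)
    {U : ℕ → Set ℝ} {H b : ℝ → ℝ} {κ : ℝ} (hκ : 0 ≤ κ)
    (hUm : ∀ n, MeasurableSet (U n)) (hUs : ∀ n, U n ⊆ Ico (n : ℝ) (n + 1))
    (hinj : ∀ n, InjOn ff (U n)) (hd : ∀ n, ∀ x ∈ U n, ff' x ≠ 0)
    (hH0 : ∀ x, 0 ≤ H x) (hH : ∀ x, H x ≠ 0 → ∃ n, x ∈ U n) (hHb : ∀ x, H x ≤ 64)
    (hUA : ∀ n, 3000 ≤ n → U n = UA n) (hHA : ∀ x, 3000 ≤ x → H x = HA x)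
    (hb : Measurable b) (hb0 : ∀ y, 0 ≤ b y)
    (hbκ : ∫⁻ y, ENNReal.ofReal (b y) ≤ ENNReal.ofReal κ)
    (key : ∀ y ∈ EE, (∀ m : ℕ, y ≠ m) → Key U H b y) {Z : ℕ} {X C W : ℝ}
    (hZ : 3000 ≤ Z) (hX : 2 * (Z : ℝ) + 1 ≤ X) (hC0 : 0 ≤ C)
    (hC1 : ∀ m : ℕ, Z ≤ m → m ≤ 2 * Z → C * Phi0 m ≤ ψ (m / X)) (hW : 2 * (Z : ℝ) ≤ W)
    (hC2 : ∀ m : ℕ, W ≤ m → ψ (m / X) ≤ C * Phi0 m) :
    volume (EE ∩ Icc 1 X) ≤
      ENNReal.ofReal (W + (X * (C * κ + (30 * (20 / √(Z : ℝ)) + 2 / √(Z : ℝ))) + 1 / 4)) := by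
  have h3 : (3000 : ℝ) ≤ Z := by exact_mod_cast hZ
  have hX0 : 0 < X := by linarith
  have hT : (0 : ℝ) ≤ 30 := by norm_num
  have hp0 : ∀ n : ℕ, 0 ≤ ψ (n / X) := fun n => hP.2.1 _
  have hi : ∀ f : ℝ → ℝ, (∀ y, 0 ≤ y → 0 ≤ f y) →
      ∀ y, 0 ≤ (Ici ((2 * Z : ℕ) : ℝ)).indicator f y := fun f hf y =>
    indicator_nonneg (fun z hz => hf z (le_trans (Nat.cast_nonneg _) hz)) y
  have hiT := hi bT (fun _ => bT_nonneg)
  have hiA := hi bA (fun _ => bA_nonneg)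
  have hind : ∀ (f : ℝ → ℝ) (s : Set ℝ) (y : ℝ), ENNReal.ofReal (s.indicator f y) =
      s.indicator (fun y => ENNReal.ofReal (f y)) y := by
    intro f s y
    by_cases h : y ∈ s
    · rw [indicator_of_mem h, indicator_of_mem h]
    · rw [indicator_of_notMem h, indicator_of_notMem h, ENNReal.ofReal_zero]
  have hmT : Measurable ((Ici ((2 * Z : ℕ) : ℝ)).indicator bT) :=
    measurable_bT.indicator measurableSet_Ici
  have hmA : Measurable ((Ici ((2 * Z : ℕ) : ℝ)).indicator bA) :=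
    measurable_bA.indicator measurableSet_Ici
  have h1 := frame (n4H H Z (fun n => ψ (n / X)) C)
    ((Ico (W + 1) (X - 1 / 4)).indicator (fun _ => 1 / X))
    (fun y => C * b y + (30 * (Ici ((2 * Z : ℕ) : ℝ)).indicator bT y +
        (Ici ((2 * Z : ℕ) : ℝ)).indicator bA y)) U hUm hUs hinj hd (n4_H0 hH0 hp0 hC0)
    (fun x hx => hH x fun h => hx (le_antisymm (by
      have := n4_Hle (p := fun n => ψ (n / X)) (C := C) hZ hHA x
      rwa [h, mul_zero] at this) (n4_H0 hH0 hp0 hC0 x)))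
    (n4_fin hP.2.2.2.1 hZ hC0 (by linarith) (fun x hx => by
      by_contra h
      obtain ⟨n, hn⟩ := hH x h
      linarith [(hUs n hn).1, (Nat.cast_nonneg n : (0 : ℝ) ≤ n)]) hHb hHA)
    (measurable_const.indicator measurableSet_Ico)
    (fun y => indicator_nonneg (fun z _ => by positivity) y)
    ((hb.const_mul C).add ((hmT.const_mul _).add hmA))
    (fun y => add_nonneg (mul_nonneg hC0 (hb0 y)) (add_nonneg (mul_nonneg hT (hiT y)) (hiA y)))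
    (fun y hy hn S x hx => n4_key hP hC hUs hUA hHA hb0 hZ hX hC0 hC1 hW hC2 hn
      (key y hy hn) S x hx)
  have hs : 0 < √(Z : ℝ) := sqrt_pos.2 (by linarith)
  have h20 : 0 ≤ 20 / √(Z : ℝ) := by positivity
  have h21 : 0 ≤ 2 / √(Z : ℝ) := by positivity
  have h2 : ∫⁻ y, ENNReal.ofReal (C * b y +
      (30 * (Ici ((2 * Z : ℕ) : ℝ)).indicator bT y +
        (Ici ((2 * Z : ℕ) : ℝ)).indicator bA y)) ≤
      ENNReal.ofReal (C * κ + (30 * (20 / √(Z : ℝ)) + 2 / √(Z : ℝ))) := by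
    have e : ∀ y, ENNReal.ofReal (C * b y +
        (30 * (Ici ((2 * Z : ℕ) : ℝ)).indicator bT y +
          (Ici ((2 * Z : ℕ) : ℝ)).indicator bA y)) =
        ENNReal.ofReal C * ENNReal.ofReal (b y) + (ENNReal.ofReal 30 *
          (Ici ((2 * Z : ℕ) : ℝ)).indicator (fun y => ENNReal.ofReal (bT y)) y +
          (Ici ((2 * Z : ℕ) : ℝ)).indicator (fun y => ENNReal.ofReal (bA y)) y) := by
      intro y
      rw [ENNReal.ofReal_add (mul_nonneg hC0 (hb0 y)) (add_nonneg (mul_nonneg hT (hiT y)) (hiA y)),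
        ENNReal.ofReal_add (mul_nonneg hT (hiT y)) (hiA y), ENNReal.ofReal_mul hC0,
        ENNReal.ofReal_mul hT, hind, hind]
    have m1 : Measurable ((Ici ((2 * Z : ℕ) : ℝ)).indicator fun y => ENNReal.ofReal (bT y)) :=
      measurable_bT.ennreal_ofReal.indicator measurableSet_Ici
    simp only [e]
    rw [lintegral_add_left (hb.ennreal_ofReal.const_mul _), lintegral_add_left (m1.const_mul _),
      lintegral_const_mul _ hb.ennreal_ofReal, lintegral_const_mul _ m1,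
      lintegral_indicator measurableSet_Ici, lintegral_indicator measurableSet_Ici,
      ENNReal.ofReal_add (mul_nonneg hC0 hκ) (add_nonneg (mul_nonneg hT h20) h21),
      ENNReal.ofReal_add (mul_nonneg hT h20) h21, ENNReal.ofReal_mul hC0,
      ENNReal.ofReal_mul hT]
    refine add_le_add (mul_le_mul_right hbκ _) (add_le_add (mul_le_mul_right
      ((costT (2 * Z) (by omega)).trans (ENNReal.ofReal_le_ofReal ?_)) _)
      ((costA (2 * Z) (by omega)).trans (ENNReal.ofReal_le_ofReal ?_)))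
    · refine div_le_div_of_nonneg_left (by norm_num) hs (sqrt_le_sqrt ?_)
      push_cast
      linarith
    · push_cast
      have a1 : √(Z : ℝ) ≤ √(2 * (Z : ℝ) - 3) := sqrt_le_sqrt (by linarith)
      have a2 : 81 / 100 / √(2 * (Z : ℝ) - 3) ≤ 1 / √(Z : ℝ) :=
        div_le_div₀ (by norm_num) (by norm_num) hs a1
      have a4 : √(Z : ℝ) ≤ 2 * (Z : ℝ) - 2 := sqrt_le_iff.2 ⟨by linarith, by nlinarith⟩
      have a3 : 63 / 100 / (2 * (Z : ℝ) - 2) ≤ 1 / √(Z : ℝ) :=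
        div_le_div₀ (by norm_num) (by norm_num) hs a4
      have a5 : 2 / √(Z : ℝ) = 1 / √(Z : ℝ) + 1 / √(Z : ℝ) := by ring
      linarith
  have hK : 0 ≤ C * κ + (30 * (20 / √(Z : ℝ)) + 2 / √(Z : ℝ)) :=
    add_nonneg (mul_nonneg hC0 hκ) (add_nonneg (mul_nonneg hT h20) h21)
  have h4 : ∫⁻ y in EE, ENNReal.ofReal ((Ico (W + 1) (X - 1 / 4)).indicator (fun _ => 1 / X) y) =
      ENNReal.ofReal (1 / X) * volume (EE ∩ Ico (W + 1) (X - 1 / 4)) := by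
    simp only [hind]
    rw [lintegral_indicator measurableSet_Ico, Measure.restrict_restrict measurableSet_Ico,
      inter_comm, setLIntegral_const]
  have h6 : volume (EE ∩ Ico (W + 1) (X - 1 / 4)) ≤
      ENNReal.ofReal (X * (C * κ + (30 * (20 / √(Z : ℝ)) + 2 / √(Z : ℝ)))) := by
    have h7 := mul_le_mul_right (h4.ge.trans (h1.trans ((setLIntegral_le_lintegral _ _).trans h2)))
      (ENNReal.ofReal X)
    rwa [← mul_assoc, ← ENNReal.ofReal_mul hX0.le, mul_one_div_cancel hX0.ne', ENNReal.ofReal_one,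
      one_mul, ← ENNReal.ofReal_mul hX0.le] at h7
  have h5 : EE ∩ Icc 1 X ⊆
      Icc 1 (W + 1) ∪ (EE ∩ Ico (W + 1) (X - 1 / 4) ∪ Icc (X - 1 / 4) X) := by
    intro y hy
    rcases le_total y (W + 1) with h | h
    · exact Or.inl ⟨hy.2.1, h⟩
    rcases lt_or_ge y (X - 1 / 4) with h' | h'
    · exact Or.inr (Or.inl ⟨hy.1, h, h'⟩)
    · exact Or.inr (Or.inr ⟨h', hy.2.2⟩)
  refine (measure_mono h5).trans ((measure_union_le _ _).trans
    ((add_le_add le_rfl (measure_union_le _ _)).trans ?_))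
  rw [Real.volume_Icc, Real.volume_Icc, add_sub_cancel_right, sub_sub_cancel,
    ENNReal.ofReal_add (by linarith) (add_nonneg (mul_nonneg hX0.le hK) (by norm_num)),
    ENNReal.ofReal_add (mul_nonneg hX0.le hK) (by norm_num)]
  exact add_le_add le_rfl (add_le_add h6 le_rfl)

theorem topN {ψ : ℝ → ℝ} {C0 : ℝ} (hP : Prof ψ C0) (hC : C0 ≤ 17)
    (U : ℕ → Set ℝ) (H b : ℝ → ℝ) (κ δ : ℝ) (hκ : 0 ≤ κ)
    (hUm : ∀ n, MeasurableSet (U n)) (hUs : ∀ n, U n ⊆ Ico (n : ℝ) (n + 1))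
    (hinj : ∀ n, InjOn ff (U n)) (hd : ∀ n, ∀ x ∈ U n, ff' x ≠ 0)
    (hH0 : ∀ x, 0 ≤ H x) (hH : ∀ x, H x ≠ 0 → ∃ n, x ∈ U n) (hHb : ∀ x, H x ≤ 64)
    (hUA : ∀ n, 3000 ≤ n → U n = UA n) (hHA : ∀ x, 3000 ≤ x → H x = HA x)
    (hb : Measurable b) (hb0 : ∀ y, 0 ≤ b y)
    (hbκ : ∫⁻ y, ENNReal.ofReal (b y) ≤ ENNReal.ofReal κ)
    (key : ∀ y ∈ EE, (∀ m : ℕ, y ≠ m) → Key U H b y) (hδ : C0 * κ < δ) :
    ∃ X₀ : ℝ, ∀ X : ℝ, X₀ ≤ X → volume (EE ∩ Icc 1 X) ≤ ENNReal.ofReal (δ * X) := by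
  obtain ⟨g, hg, hδg⟩ : ∃ g : ℝ, 0 < g ∧ δ = C0 * κ + g := ⟨δ - C0 * κ, by linarith, by ring⟩
  obtain ⟨Z, hZ⟩ := exists_nat_ge (1000000 + (1604 / g) ^ 2)
  have p2 : 0 ≤ (1604 / g) ^ 2 := sq_nonneg _
  have h3 : (1000000 : ℝ) ≤ Z := by linarith
  have hZ3 : 3000 ≤ Z := by
    have : (3000 : ℝ) ≤ Z := by linarith
    exact_mod_cast this
  have hs1 : (1000 : ℝ) ≤ √(Z : ℝ) := le_sqrt_of_sq_le (by linarith)
  have hs2 : 1604 / g ≤ √(Z : ℝ) := le_sqrt_of_sq_le (by linarith)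
  obtain ⟨u, hu0, hu1, hu⟩ : ∃ u : ℝ, 0 < u ∧ u * √(Z : ℝ) = 1 ∧ ∀ a : ℝ, a / √(Z : ℝ) = a * u :=
    ⟨(√(Z : ℝ))⁻¹, by positivity, inv_mul_cancel₀ (by linarith), fun a => div_eq_mul_inv _ _⟩
  have hu2 : 802 * u ≤ g / 2 := by
    rw [div_le_iff₀ hg] at hs2
    have : 1604 * u ≤ √(Z : ℝ) * g * u := mul_le_mul_of_nonneg_right hs2 hu0.le
    have e1 : √(Z : ℝ) * g * u = g * (u * √(Z : ℝ)) := by ring
    rw [e1, hu1] at this
    linarith
  have hu3 : 1000 * u ≤ 1 := by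
    have := mul_le_mul_of_nonneg_left hs1 hu0.le
    linarith
  have p3 : 0 < 1 / g := by positivity
  have p4 : 2 * (Z : ℝ) + 1 ≤ (2 * (Z : ℝ) + 1) * √(Z : ℝ) :=
    le_mul_of_one_le_right (by linarith) (by linarith)
  refine ⟨1 / g + (2 * Z + 1) * √(Z : ℝ), fun X hX => ?_⟩
  have hX1 : 2 * (Z : ℝ) + 1 ≤ X := by linarith
  have hX0 : 0 < X := by linarith
  have hXg : 1 ≤ X * g := (div_le_iff₀ hg).1 (by linarith)
  have hXu : 2 * (Z : ℝ) + 1 ≤ u * X := by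
    have h1 : u * ((2 * (Z : ℝ) + 1) * √(Z : ℝ)) ≤ u * X :=
      mul_le_mul_of_nonneg_left (by linarith) hu0.le
    have e1 : u * ((2 * (Z : ℝ) + 1) * √(Z : ℝ)) = (2 * (Z : ℝ) + 1) * (u * √(Z : ℝ)) := by ring
    rw [e1, hu1] at h1
    linarith
  have hsu : (2 * (Z : ℝ) + 1) / X ≤ u := (div_le_iff₀ hX0).2 hXu
  have hs0 : 0 ≤ (2 * (Z : ℝ) + 1) / X := by positivity
  obtain ⟨C, hCe⟩ : ∃ C : ℝ, C * (1 + 8 * u) = ψ ((2 * (Z : ℝ) + 1) / X) :=
    ⟨_, div_mul_cancel₀ _ (by positivity)⟩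
  have hC0 : 0 ≤ C := by
    by_contra h
    have := mul_neg_of_neg_of_pos (not_le.1 h) (show 0 < 1 + 8 * u by positivity)
    linarith [hP.2.1 ((2 * (Z : ℝ) + 1) / X)]
  have hCT : C ≤ C0 := by
    have := mul_nonneg hC0 hu0.le
    linarith [hP.2.2.1 ((2 * (Z : ℝ) + 1) / X)]
  have hlow : C0 - 200 * u ≤ C := by
    have h1 := (hP.2.2.2.2.1 _ hs0 (by linarith)).1
    have h2 : C * u ≤ 17 * u := mul_le_mul_of_nonneg_right (hCT.trans hC) hu0.le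
    linarith
  refine (n4_core hP hC hκ hUm hUs hinj hd hH0 hH hHb hUA hHA hb hb0 hbκ key (Z := Z) (X := X)
    (C := C) (W := 200 * u * X) hZ3 hX1 hC0 ?_ (by linarith) ?_).trans
    (ENNReal.ofReal_le_ofReal ?_)
  · intro m h1 h2
    have h5 : (m : ℝ) ≤ 2 * Z := by exact_mod_cast h2
    have h6 := tp_Phi2 (by omega) h1
    rw [hu] at h6
    have h7 : ψ ((2 * (Z : ℝ) + 1) / X) ≤ ψ (m / X) :=
      hP.1 (div_le_div_of_nonneg_right (by linarith) hX0.le)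
    have h8 := mul_le_mul_of_nonneg_left h6 hC0
    linarith
  · intro m h1
    have h4 : ψ (m / X) ≤ ψ (200 * u) := hP.1 ((le_div_iff₀ hX0).2 h1)
    have h5 := (hP.2.2.2.2.1 (200 * u) (by linarith) (by linarith)).2
    have h6 : C ≤ C * Phi0 m := le_mul_of_one_le_right hC0 (tp_Phi1 m)
    linarith
  · have h2 : X * (C * κ) ≤ X * (C0 * κ) :=
      mul_le_mul_of_nonneg_left (mul_le_mul_of_nonneg_right hCT hκ) hX0.le
    have h6 : X * (802 * u) ≤ X * (g / 2) := mul_le_mul_of_nonneg_left hu2 hX0.le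
    rw [hu, hu, hδg]
    linarith

end Pool.Agent.Lib.MP_2dc536_an.X
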