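import Pool.Agent.Lib.MP_2dc536_an.X.N4
import Pool.Agent.Lib.MP_2dc536_an.X.Glue

namespace Pool.Agent.Lib.MP_2dc536_an.X

open Real Set MeasureTheory

theorem glueN {ψ : ℝ → ℝ} {C0 : ℝ} (hP : Prof ψ C0) (hC : C0 ≤ 17)
    {t : TB} {N1 : ℕ} {dt : DTr} {Y c : ℕ} {δ : ℝ} (hN : 1000 ≤ N1) (hN2 : N1 ≤ 1590)
    (hY : 3 * N1 + 6 ≤ 2 * Y) (hG : GoodK t N1 dt 2 Y c)
    (hδ : C0 * ((c : ℝ) / 2 ^ 80 + (81 / 100 / √((Y : ℝ) - 3) + 63 / 100 / ((Y : ℝ) - 2))) < δ) :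
    ∃ X₀ : ℝ, ∀ X : ℝ, X₀ ≤ X →
      volume {x : ℝ | x ∈ Icc 1 X ∧ ∀ k : ℕ, ff^[k] x ∉ Icc (1 : ℝ) (12 / 5)} ≤
        ENNReal.ofReal (δ * X) := by
  obtain ⟨b, hbm, hb0, hbc, hbk⟩ := hG
  have hY1 : 1503 ≤ Y := by omega
  have hY2 : (1503 : ℝ) ≤ Y := by exact_mod_cast hY1
  have hY3 : 3 * (N1 : ℝ) + 6 ≤ 2 * Y := by exact_mod_cast hY
  have hN3 : (N1 : ℝ) ≤ 1590 := by exact_mod_cast hN2
  have hc0 : (0 : ℝ) ≤ (c : ℝ) / 2 ^ 80 := by positivity
  have hc1 : (0 : ℝ) ≤ 81 / 100 / √((Y : ℝ) - 3) + 63 / 100 / ((Y : ℝ) - 2) :=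
    add_nonneg (div_nonneg (by norm_num) (sqrt_nonneg _))
      (div_nonneg (by norm_num) (by linarith))
  have hi0 : ∀ y, 0 ≤ (Ici (Y : ℝ)).indicator bA y := fun y =>
    indicator_nonneg (fun z hz => bA_nonneg (le_trans (Nat.cast_nonneg Y) hz)) y
  obtain ⟨X₀, hX⟩ := topN hP hC (UU N1) (HH t N1 dt)
    (fun y => b y + (Ici (Y : ℝ)).indicator bA y) _ δ (add_nonneg hc0 hc1) (gl_meas N1)
    (fun _ => gl_ico)
    (fun n => by
      by_cases h : 2 ≤ n
      · exact (UB_inj h).1.mono (fun x hx => (gl_sub hx).1)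
      · exact fun x hx => absurd (gl_sub hx).2 h)
    (fun n x hx => (UB_inj (gl_sub hx).2).2 x (gl_sub hx).1)
    (HH_nonneg t N1 dt) (gl_supp (by omega)) (gl_le (by omega))
    (fun n hn => gl_UA (by omega) (by omega)) (fun x hx => gl_HA (by linarith))
    (hbm.add (measurable_bA.indicator measurableSet_Ici))
    (fun y => add_nonneg (hb0 y) (hi0 y))
    (by
      have e : ∀ y, ENNReal.ofReal (b y + (Ici (Y : ℝ)).indicator bA y) =
          ENNReal.ofReal (b y) + (Ici (Y : ℝ)).indicator (fun y => ENNReal.ofReal (bA y)) y := by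
        intro y
        rw [ENNReal.ofReal_add (hb0 y) (hi0 y)]
        by_cases h : y ∈ Ici (Y : ℝ)
        · rw [indicator_of_mem h, indicator_of_mem h]
        · rw [indicator_of_notMem h, indicator_of_notMem h, ENNReal.ofReal_zero]
      simp only [e]
      rw [lintegral_add_left hbm.ennreal_ofReal, lintegral_indicator measurableSet_Ici,
        ENNReal.ofReal_add hc0 hc1]
      exact add_le_add hbc (costA Y hY1))
    (fun y hy hn => by
      rcases lt_or_ge y Y with h | h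
      · have h0 : (12 : ℝ) / 5 < y := hy 0
        exact gl_mono (hbk y hy hn (by push_cast; linarith) h) (by linarith [hi0 y])
      · refine gl_mono (gl_high hN (by linarith) hn) ?_
        rw [indicator_of_mem (show y ∈ Ici (Y : ℝ) from h)]
        linarith [hb0 y])
    hδ
  refine ⟨X₀, fun X h => le_trans (measure_mono ?_) (hX X h)⟩
  exact fun x hx => ⟨gl_EE hx.1 hx.2, hx.1⟩

end Pool.Agent.Lib.MP_2dc536_an.X
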