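import Pool.Agent.Lib.MP_2dc536_an.X.Spec

/-!
The profile at the top for natural density.
-/

namespace Pool.Agent.Lib.MP_2dc536_an.X

open Real Set MeasureTheory

/-- What is needed of the profile. -/
def Prof (ψ : ℝ → ℝ) (C0 : ℝ) : Prop :=
  Antitone ψ ∧ (∀ s, 0 ≤ ψ s) ∧ (∀ s, ψ s ≤ C0) ∧ (∀ s, 1 ≤ s → ψ s ≤ 20 / s) ∧
    (∀ s, 0 ≤ s → s ≤ 1 / 5 → C0 - 7 * s ≤ ψ s ∧ ψ s ≤ C0 - s) ∧
    ∀ s e : ℝ, 0 < s → 0 ≤ e → e ≤ 1 / 512 →
      1 / 2 * (∫ t in (0 : ℝ)..2, ψ (s / mm t - e)) + (if s < 1 then s else 0) ≤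
        ψ s + 100 * e / (1 + s ^ 2)

/-- Upper bound of `1024 * psi` on `[i / 512, ∞)`. -/
def nlook (D C A M i : ℕ) : ℕ :=
  @Bool.rec (fun _ => ℕ)
    (Nat.sub C (Nat.div (Nat.mul (nat_lit 68) i) (nat_lit 5)))
    (@Bool.rec (fun _ => ℕ) (dig D i) (Nat.succ (Nat.div A i)) (Nat.ble M i))
    (Nat.ble (nat_lit 128) i)

open Classical in
/-- The profile: linear, then tabulated on a grid of step `1 / 512`, then `a / s`. -/
noncomputable def psi (D C A M : ℕ) (s : ℝ) : ℝ :=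
  if s < 1 / 4 then (C : ℝ) / 1024 - 34 / 5 * max s 0
  else if (M : ℝ) / 512 ≤ s then (A : ℝ) / 512 / 1024 / s
  else (dig D ⌊s * 512⌋₊ : ℝ) / 1024

/-- Upper sum over the small cells of a block. -/
noncomputable def avgS (f : ℕ → ℕ) (N : ℕ) (t : SB) : ℕ :=
  SB.rec (nat_lit 0) (fun a b _ hi _ _ ih =>
    Nat.add ih (Nat.mul (Nat.sub b a) (f (Nat.pred (Nat.div N hi))))) t

/-- Upper sum over the table. -/
noncomputable def avgT (f : ℕ → ℕ) (N : ℕ) (t : TB) : ℕ :=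
  TB.rec (nat_lit 0) (fun _ _ _ _ sub _ ih => Nat.add ih (avgS f N sub)) t

/-- The transfer inequality on the grid cell `i`. -/
noncomputable def nrow (t : TB) (D C A M i : ℕ) : Bool :=
  sq (Nat.shiftLeft i (nat_lit 48)) fun N =>
    Nat.ble (Nat.add (avgT (nlook D C A M) N t)
      (Nat.shiftLeft (cond (Nat.ble (nat_lit 512) i) (nat_lit 0)
        (Nat.mul (nat_lit 2) (Nat.succ i))) (nat_lit 40)))
      (Nat.shiftLeft (dig D i) (nat_lit 40))

/-- All of `f i0, …, f (i0 + cnt - 1)` hold. -/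
noncomputable def allB (f : ℕ → Bool) (i0 cnt : ℕ) : Bool :=
  Nat.rec true (fun i ih => cond (sq (Nat.add i0 i) f) ih false) cnt

/-- The side conditions on the table of the profile. -/
noncomputable def nside (D C A M : ℕ) : Bool :=
  and (allB (fun i => Nat.ble (dig D (Nat.succ i)) (dig D i)) 128 (M - 129))
    (and (Nat.ble A (Nat.mul M (dig D (M - 1))))
      (and (allB (fun i => Nat.ble (Nat.mul (dig D i) (Nat.succ i)) A) (2 * M / 3 - 3)
          (M - (2 * M / 3 - 3)))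
        (and (allB (fun i => Nat.ble (Nat.add (Nat.mul 5 (dig D i)) (Nat.mul 68 (Nat.succ i)))
            (Nat.mul 5 C)) 128 132)
          (and (Nat.ble C 17408) (and (Nat.ble A 5767168) (and (Nat.ble 1024 M)
            (Nat.ble (Nat.mul (dig D 512) M) 10485760)))))))

end Pool.Agent.Lib.MP_2dc536_an.X
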