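import Pool.Agent.Lib.MP_2dc536_an.X.NDat

set_option maxRecDepth 1000000

namespace Pool.Agent.Lib.MP_2dc536_an.X

theorem nr0 : allB (nrow tb0 nD 15948 4504576 1024) 128 224 = true := by
  decide +kernel

end Pool.Agent.Lib.MP_2dc536_an.X
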