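import Pool.Agent.Lib.MP_2dc536_an.X.Spec
import Pool.Agent.Lib.MP_2dc536_an.X.Cell
import Pool.Agent.Lib.MP_2dc536_an.X.Tab

/-!
Soundness of the lists of cells built for one lap.
-/

namespace Pool.Agent.Lib.MP_2dc536_an.X

open Real Set MeasureTheory

theorem s1_subL_nil (o : Bool) (C p y0 y1 : ℕ) (k : CL → ℕ → CL) :
    subL o C p y0 y1 k SB.nil = k := rfl

theorem s1_subL_cons (o : Bool) (C p y0 y1 : ℕ) (k : CL → ℕ → CL) (a b lo hi s : ℕ) (r : SB)
    (acc : CL) (ml : ℕ) :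
    subL o C p y0 y1 k (SB.cons a b lo hi s r) acc ml =
      cond (Nat.ble (cL (zA o C a b) lo) y1)
        (cond (Nat.ble y0 (cH (zB o C a b) hi))
          (cond (Nat.ble (cL (zA o C a b) lo) ml)
            (subL o C p y0 y1 k r (CL.cons (cL (zA o C a b) lo) (cH (zB o C a b) hi)
              (cW o p (zA o C a b) lo hi s) acc) (cL (zA o C a b) lo))
            (subL o C p y0 y1 k r (CL.cons ml (cH (zB o C a b) hi)
              (cW o p (zA o C a b) lo hi s) acc) ml))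
          (subL o C p y0 y1 k r acc ml))
        (subL o C p y0 y1 k r acc ml) := by
  have : subL o C p y0 y1 k (SB.cons a b lo hi s r) acc ml =
      sq (zA o C a b) fun za => sq (cL za lo) fun L => cond (Nat.ble L y1)
        (sq (cH (zB o C a b) hi) fun H => cond (Nat.ble y0 H)
          (sq (cW o p za lo hi s) fun w =>
            cond (Nat.ble L ml) (subL o C p y0 y1 k r (CL.cons L H w acc) L)
              (subL o C p y0 y1 k r (CL.cons ml H w acc) ml))
          (subL o C p y0 y1 k r acc ml))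
        (subL o C p y0 y1 k r acc ml) := rfl
  rw [this]
  simp only [sq_eq]

theorem s1_blkL_cons (o : Bool) (C Cm Cp y0 y1 : ℕ) (pf : ℕ → ℕ → ℕ → ℕ) (a b lo hi : ℕ)
    (sub : SB) (r : TB) (i : ℕ) (acc : CL) (ml : ℕ) :
    blkL o C Cm Cp y0 y1 pf (TB.cons a b lo hi sub r) i acc ml =
      cond (Nat.ble (cL Cm lo) y1)
        (cond (Nat.ble y0 (cH Cp hi))
          (cond (Nat.beq (pf i a b) 0) (blkL o C Cm Cp y0 y1 pf r (i + 1) acc ml)
            (subL o C (pf i a b) y0 y1 (blkL o C Cm Cp y0 y1 pf r (i + 1)) sub acc ml))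
          acc)
        (blkL o C Cm Cp y0 y1 pf r (i + 1) acc ml) := by
  have : blkL o C Cm Cp y0 y1 pf (TB.cons a b lo hi sub r) i acc ml =
      cond (Nat.ble (cL Cm lo) y1)
        (cond (Nat.ble y0 (cH Cp hi))
          (sq i fun i => sq (pf i a b) fun p =>
            cond (Nat.beq p 0) (blkL o C Cm Cp y0 y1 pf r (i + 1) acc ml)
              (subL o C p y0 y1 (blkL o C Cm Cp y0 y1 pf r (i + 1)) sub acc ml))
          acc)
        (blkL o C Cm Cp y0 y1 pf r (i + 1) acc ml) := rfl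
  rw [this]
  simp only [sq_eq]

/-- The list gives nothing below `ml`. -/
def S1Low (acc : CL) (ml : ℕ) : Prop := ∀ y : ℝ, y < ml → val acc y = 0

theorem s1_low_cons (L H w : ℕ) (acc : CL) : S1Low (CL.cons L H w acc) L := by
  intro y hy
  simp only [val, if_pos hy]

theorem s1_mono {acc : CL} {ml L : ℕ} (hI : S1Low acc ml) (hL : L ≤ ml) (H w : ℕ) (Y : ℝ) :
    val acc Y ≤ val (CL.cons L H w acc) Y := by
  by_cases h : Y < L
  · rw [hI Y (h.trans_le (by exact_mod_cast hL))]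
    exact Nat.zero_le _
  · simp only [val, if_neg h]
    exact le_max_right _ _

theorem s1_catch (acc : CL) {L H : ℕ} (w : ℕ) {Y : ℝ} (h1 : (L : ℝ) ≤ Y) (h2 : Y ≤ H) :
    w ≤ val (CL.cons L H w acc) Y := by
  simp only [val, if_neg (not_lt.2 h1), if_pos h2]
  exact le_max_left _ _

/-- Some small cell catches the height `Y` with weight at least `V`. -/
def S1Cat (o : Bool) (C p : ℕ) (Y V : ℝ) : SB → Prop
  | .nil => False
  | .cons a b lo hi s r => ((cL (zA o C a b) lo : ℝ) ≤ Y ∧ Y ≤ (cH (zB o C a b) hi : ℝ) ∧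
      V ≤ (cW o p (zA o C a b) lo hi s : ℝ)) ∨ S1Cat o C p Y V r

theorem s1_subL {o : Bool} {C p y0 y1 : ℕ} {k : CL → ℕ → CL} {Y V : ℝ} {E : Prop}
    {R : CL → Prop} (hy0 : (y0 : ℝ) ≤ Y) (hy1 : Y ≤ y1)
    (hk : ∀ acc ml, S1Low acc ml → (E ∨ V ≤ (val acc Y : ℝ)) → R (k acc ml)) (t : SB) :
    ∀ acc ml, S1Low acc ml → (E ∨ V ≤ (val acc Y : ℝ) ∨ S1Cat o C p Y V t) →
      R (subL o C p y0 y1 k t acc ml) := by
  induction t with
  | nil =>
    intro acc ml hI h
    exact hk acc ml hI (h.imp_right fun h => h.resolve_right fun h => h)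
  | cons a b lo hi s r ih =>
    intro acc ml hI h
    rw [s1_subL_cons]
    cases g1 : Nat.ble (cL (zA o C a b) lo) y1 with
    | false =>
      refine ih acc ml hI (h.imp_right fun h => h.imp_right fun h => h.resolve_left fun h => ?_)
      have : cL (zA o C a b) lo ≤ y1 := by exact_mod_cast h.1.trans hy1
      rw [Nat.ble_eq_true_of_le this] at g1
      exact Bool.noConfusion g1
    | true =>
      cases g2 : Nat.ble y0 (cH (zB o C a b) hi) with
      | false =>
        refine ih acc ml hI (h.imp_right fun h => h.imp_right fun h => h.resolve_left fun h => ?_)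
        have : y0 ≤ cH (zB o C a b) hi := by exact_mod_cast hy0.trans h.2.1
        rw [Nat.ble_eq_true_of_le this] at g2
        exact Bool.noConfusion g2
      | true =>
        have step : ∀ L : ℕ, L ≤ ml → L ≤ cL (zA o C a b) lo →
            R (subL o C p y0 y1 k r (CL.cons L (cH (zB o C a b) hi)
              (cW o p (zA o C a b) lo hi s) acc) L) := by
          intro L h1 h2
          refine ih _ _ (s1_low_cons _ _ _ _) (h.imp_right fun h => ?_)
          rcases h with h | h | h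
          · exact Or.inl (h.trans (by exact_mod_cast s1_mono hI h1 _ _ Y))
          · refine Or.inl (h.2.2.trans ?_)
            exact_mod_cast s1_catch acc _ (le_trans (by exact_mod_cast h2) h.1) h.2.1
          · exact Or.inr h
        cases g3 : Nat.ble (cL (zA o C a b) lo) ml with
        | true => exact step _ (Nat.le_of_ble_eq_true g3) le_rfl
        | false =>
          refine step _ le_rfl (le_of_not_ge fun h4 => ?_)
          rw [Nat.ble_eq_true_of_le h4] at g3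
          exact Bool.noConfusion g3

theorem s1_cat {n : ℕ} (hn : 2 ≤ n) {x : ℝ} (hx : x ∈ UB n) (p : ℕ) {V : ℝ}
    (hV : V ≤ (p : ℝ) / 1024 / (x + 1 / 2) / |ff' x| * 2 ^ 40) (t : SB) :
    ∀ a e : ℕ, SBok t a e → sbP t = true → a < e → (a : ℝ) ≤ uu n x * 2 ^ 40 →
      uu n x * 2 ^ 40 ≤ e → S1Cat (od n) (cC n) p ((ff x + 1 / 4) * 2 ^ 40) V t := by
  induction t with
  | nil => exact fun a e h _ h1 _ _ => absurd h h1.ne
  | cons a' b lo hi s r ih =>
    intro a e h hp hlt h1 h2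
    obtain ⟨rfl, hb, hc, hr⟩ := h
    have hp' : (and (Nat.ble 1 lo) (sbP r)) = true := hp
    rw [Bool.and_eq_true] at hp'
    by_cases g : uu n x * 2 ^ 40 ≤ b
    · obtain ⟨c1, c2, c3⟩ := cell_sound p hn hx hb hc (Nat.le_of_ble_eq_true hp'.1) h1 g
      exact Or.inl ⟨c1, c2, hV.trans c3⟩
    · have g' := not_le.1 g
      exact Or.inr (ih b e hr hp'.2 (by exact_mod_cast g'.trans_le h2) g'.le h2)

theorem s1_blkL {n : ℕ} (hn : 2 ≤ n) {x : ℝ} (hx : x ∈ UB n) {Cm Cp y0 y1 : ℕ}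
    (pf : ℕ → ℕ → ℕ → ℕ) {v : ℝ} (hu : uu n x ≤ 1)
    (hm : (Cm : ℝ) ≤ (x + 1 / 2) * 2 ^ 40) (hM : (x + 1 / 2) * 2 ^ 40 ≤ Cp)
    (hy0 : (y0 : ℝ) ≤ (ff x + 1 / 4) * 2 ^ 40) (hy1 : (ff x + 1 / 4) * 2 ^ 40 ≤ y1) (t : TB) :
    TBok t → tbP t = true → ∀ i acc ml, S1Low acc ml →
      (v / |ff' x| * 2 ^ 40 ≤ (val acc ((ff x + 1 / 4) * 2 ^ 40) : ℝ) ∨
        ∃ e, e < tlen t ∧ (gA t e : ℝ) ≤ uu n x * 2 ^ 40 ∧ uu n x * 2 ^ 40 ≤ gA t (e + 1) ∧
          v ≤ (pf (i + e) (gA t e) (gA t (e + 1)) : ℝ) / 1024 / (x + 1 / 2)) →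
      v / |ff' x| * 2 ^ 40 ≤ (val (blkL (od n) (cC n) Cm Cp y0 y1 pf t i acc ml)
        ((ff x + 1 / 4) * 2 ^ 40) : ℝ) := by
  have hx0 : 0 ≤ x + 1 / 2 := by
    have := (UB_sub (by omega) hx).1
    have h0 : (0 : ℝ) ≤ n := Nat.cast_nonneg n
    linarith
  induction t with
  | nil =>
    intro _ _ i acc ml _ h
    exact h.resolve_right fun ⟨e, he, _⟩ => Nat.not_lt_zero e he
  | cons a b lo hi sub r ih =>
    intro ht hp i acc ml hI h
    have hmono := gA_mono ht
    obtain ⟨hb, hab, hc, hhi, hsub, hr⟩ := ht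
    have hp' : (and (sbP sub) (tbP r)) = true := hp
    rw [Bool.and_eq_true] at hp'
    have split : v / |ff' x| * 2 ^ 40 ≤ (val acc ((ff x + 1 / 4) * 2 ^ 40) : ℝ) ∨
        ((a : ℝ) ≤ uu n x * 2 ^ 40 ∧ uu n x * 2 ^ 40 ≤ b ∧
          v ≤ (pf i a b : ℝ) / 1024 / (x + 1 / 2)) ∨
        ∃ e, e < tlen r ∧ (gA r e : ℝ) ≤ uu n x * 2 ^ 40 ∧ uu n x * 2 ^ 40 ≤ gA r (e + 1) ∧
          v ≤ (pf (i + 1 + e) (gA r e) (gA r (e + 1)) : ℝ) / 1024 / (x + 1 / 2) := by
      refine h.imp_right ?_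
      rintro ⟨e, he, e1, e2, e3⟩
      cases e with
      | zero =>
        left
        rw [hb]
        exact ⟨e1, e2, e3⟩
      | succ e =>
        right
        refine ⟨e, Nat.lt_of_succ_lt_succ he, e1, e2, ?_⟩
        rw [show i + 1 + e = i + (e + 1) by omega]
        exact e3
    rw [s1_blkL_cons]
    cases g1 : Nat.ble (cL Cm lo) y1 with
    | false =>
      refine ih hr hp'.2 _ acc ml hI (split.imp_right fun h => h.resolve_left fun h => ?_)
      have h3 := cL_le hm (hc _ h.1 h.2.1).1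
      rw [← geo_f] at h3
      have : cL Cm lo ≤ y1 := by exact_mod_cast h3.trans hy1
      rw [Nat.ble_eq_true_of_le this] at g1
      exact Bool.noConfusion g1
    | true =>
      cases g2 : Nat.ble y0 (cH Cp hi) with
      | false =>
        refine h.resolve_right ?_
        rintro ⟨e, -, e1, -, -⟩
        have h0 : a ≤ gA (TB.cons a b lo hi sub r) e := hmono (Nat.zero_le e)
        have h3 := le_cH hx0 (by linarith [neg_one_le_cos (π * uu n x)]) hM
          (hhi _ (le_trans (by exact_mod_cast h0) e1) hu)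
        rw [← geo_f] at h3
        have : y0 ≤ cH Cp hi := by exact_mod_cast hy0.trans h3
        rw [Nat.ble_eq_true_of_le this] at g2
        exact Bool.noConfusion g2
      | true =>
        cases g3 : Nat.beq (pf i a b) 0 with
        | true =>
          refine ih hr hp'.2 _ acc ml hI ?_
          rcases split with h | h | h
          · exact Or.inl h
          · left
            have h4 := h.2.2
            rw [Nat.eq_of_beq_eq_true g3] at h4
            have h5 : v ≤ 0 := by simpa using h4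
            exact (mul_nonpos_of_nonpos_of_nonneg (div_nonpos_of_nonpos_of_nonneg h5
              (abs_nonneg _)) (by positivity)).trans (Nat.cast_nonneg _)
          · exact Or.inr h
        | false =>
          refine s1_subL (E := ∃ e, e < tlen r ∧ (gA r e : ℝ) ≤ uu n x * 2 ^ 40 ∧
              uu n x * 2 ^ 40 ≤ gA r (e + 1) ∧
              v ≤ (pf (i + 1 + e) (gA r e) (gA r (e + 1)) : ℝ) / 1024 / (x + 1 / 2))
            (V := v / |ff' x| * 2 ^ 40)
            (R := fun l => v / |ff' x| * 2 ^ 40 ≤ (val l ((ff x + 1 / 4) * 2 ^ 40) : ℝ))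
            hy0 hy1 (fun acc ml hI h => ih hr hp'.2 _ acc ml hI h.symm) sub acc ml hI ?_
          rcases split with h | h | h
          · exact Or.inr (Or.inl h)
          · refine Or.inr (Or.inr (s1_cat hn hx _ ?_ sub a b hsub hp'.1 hab h.1 h.2.1))
            have := h.2.2
            gcongr
          · exact Or.inl h

theorem s1_zA (o : Bool) (C W : ℕ) : Nat.sub C W ≤ zA o C 0 W := by
  cases o
  · exact le_rfl
  · exact Nat.sub_le _ _

theorem s1_zB (o : Bool) (C W : ℕ) : zB o C 0 W ≤ Nat.add C W := by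
  cases o
  · exact Nat.le_add_right _ _
  · exact le_rfl

theorem s1_lapO (o : Bool) (n y0 y1 : ℕ) (pf : ℕ → ℕ → ℕ → ℕ) (t : TB) :
    ∃ W : ℕ, W = 2 ^ 40 ∧ lapO o n y0 y1 pf t =
      blkL o (cC n) (Nat.sub (cC n) W) (Nat.add (cC n) W) y0 y1 pf t 0 CL.nil y1 := by
  refine ⟨nat_lit 1099511627776, by decide, ?_⟩
  unfold lapO
  rw [sq_eq, sq_eq, sq_eq]

theorem lapO_sound {t : TB} (ht : TBok t) (hp : tbP t = true) {n : ℕ} (hn : 2 ≤ n) {x : ℝ}
    (hx : x ∈ UB n) (y0 y1 : ℕ) (pf : ℕ → ℕ → ℕ → ℕ) (e : ℕ) (he : e < tlen t)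
    (h1 : (gA t e : ℝ) ≤ uu n x * 2 ^ 40) (h2 : uu n x * 2 ^ 40 ≤ gA t (e + 1)) {v : ℝ}
    (hv : v ≤ (pf e (gA t e) (gA t (e + 1)) : ℝ) / 1024 / (x + 1 / 2))
    (hy0 : (y0 : ℝ) ≤ (ff x + 1 / 4) * 2 ^ 40) (hy1 : (ff x + 1 / 4) * 2 ^ 40 ≤ y1) :
    v / |ff' x| * 2 ^ 40 ≤ (val (lapO (od n) n y0 y1 pf t) ((ff x + 1 / 4) * 2 ^ 40) : ℝ) := by
  obtain ⟨W, hW, e0⟩ := s1_lapO (od n) n y0 y1 pf t
  have h3 : gA t (e + 1) ≤ W := hW ▸ (gA_mono ht he).trans (gA_tlen t le_rfl).le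
  have h4 : uu n x * 2 ^ 40 ≤ (W : ℝ) := h2.trans (Nat.cast_le.2 h3)
  have h5 : ((0 : ℕ) : ℝ) ≤ uu n x * 2 ^ 40 := le_trans (Nat.cast_le.2 (Nat.zero_le _)) h1
  obtain ⟨z1, z2⟩ := z_bounds hW.le (Nat.zero_le _) (by omega : 1 ≤ n) h5 h4
  have hu : uu n x ≤ 1 := by
    have h6 : (W : ℝ) = 1 * 2 ^ 40 := by
      rw [hW]
      norm_num
    rw [h6] at h4
    exact le_of_mul_le_mul_right h4 (by positivity)
  rw [e0]
  exact s1_blkL hn hx pf hu (le_trans (Nat.cast_le.2 (s1_zA _ _ _)) z1)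
    (z2.trans (Nat.cast_le.2 (s1_zB _ _ _))) hy0 hy1 t ht hp 0 CL.nil y1 (fun _ _ => rfl)
    (Or.inr ⟨e, he, h1, h2, by rwa [Nat.zero_add]⟩)

theorem mkAll_sound (f : ℕ → CL) (n0 cnt : ℕ) (acc : LL) (Y : ℝ) :
    ∑ i ∈ Finset.range cnt, val (f (n0 + i)) Y + tot acc Y ≤ tot (mkAll f n0 cnt acc) Y := by
  induction cnt generalizing acc with
  | zero =>
    rw [Finset.range_zero, Finset.sum_empty, Nat.zero_add]
    exact le_rfl
  | succ i ih =>
    have e0 : mkAll f n0 (i + 1) acc = CL.rec (mkAll f n0 i acc)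
        (fun lo hi w r _ => mkAll f n0 i (LL.cons (CL.cons lo hi w r) acc)) (sq (n0 + i) f) := rfl
    rw [e0, sq_eq, Finset.sum_range_succ]
    cases g : f (n0 + i) with
    | nil => exact ih acc
    | cons lo hi w r =>
      have := ih (LL.cons (CL.cons lo hi w r) acc)
      rw [Nat.add_assoc]
      exact this

end Pool.Agent.Lib.MP_2dc536_an.X
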