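import Pool.Agent.Lib.MP_2dc536_an.X.Base

namespace Pool.Agent.Lib.MP_2dc536_an.X

open Real Set MeasureTheory

/-- The orbits of `3, …, N + 2` reach `4`. -/
noncomputable def trChk (N : ℕ) : Bool :=
  Nat.rec true (fun k ih => and (lg 400 (Nat.add k 3) 0) ih) N

lemma tr_chk {N : ℕ} (h : trChk N = true) : ∀ k < N, lg 400 (k + 3) 0 = true := by
  induction N with
  | zero => intro k hk; omega
  | succ N ih =>
    have e : trChk (N + 1) = and (lg 400 (N + 3) 0) (trChk N) := rfl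
    rw [e, Bool.and_eq_true] at h
    intro k hk
    rcases Nat.lt_succ_iff_lt_or_eq.1 hk with h1 | rfl
    · exact ih h.2 k h1
    · exact h.1

lemma tr_run : trChk 2498 = true := by decide +kernel

theorem collatz_ok {n : ℕ} (h3 : 3 ≤ n) (hn : n ≤ 2500) : lg 400 n 0 = true := by
  have := tr_chk tr_run (n - 3) (by omega)
  rwa [show n - 3 + 3 = n by omega] at this

lemma tr_sub (a b : ℕ) : (a : ℝ) - b ≤ ((a - b : ℕ) : ℝ) := by
  rcases le_total b a with h | h
  · rw [Nat.cast_sub h]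
  · have : (a : ℝ) ≤ b := by exact_mod_cast h
    have h0 : (0 : ℝ) ≤ ((a - b : ℕ) : ℝ) := Nat.cast_nonneg _
    linarith

lemma tr_lt (a b : ℕ) (hb : 0 < b) : (a : ℝ) / b < ((a / b : ℕ) : ℝ) + 1 := by
  have h : a < b * (a / b + 1) := Nat.lt_mul_div_succ a hb
  have hb' : (0 : ℝ) < b := by exact_mod_cast hb
  rw [div_lt_iff₀ hb']
  have : (a : ℝ) < b * (((a / b : ℕ) : ℝ) + 1) := by exact_mod_cast h
  linarith

theorem zone_sound {m : ℕ} (d : ℕ) (h2 : 2 ≤ m) (hm : m ≤ 2400) {y : ℝ} (hy : y ∈ EE)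
    (h1 : (m : ℝ) < y) (h3 : y < m + 1) :
    (zr m : ℝ) < (y - m) * 2 ^ 40 ∧ (y - m) * 2 ^ 40 < (zl m d : ℝ) ∧
      ¬((z2 m : ℝ) ≤ (y - m) * 2 ^ 40 ∧ (y - m) * 2 ^ 40 ≤ (z3 m : ℝ)) := by
  have e40 : (2 : ℝ) ^ 40 = 1099511627776 := by norm_num
  have m0 : (2 : ℝ) ≤ m := by exact_mod_cast h2
  refine ⟨?_, ?_, ?_⟩
  · have e : zr m = cond (Nat.beq m 2) 439804651110 (549755813888 / m) := rfl
    rw [e, e40]
    simp only [Bool.cond_eq_ite, Nat.beq_eq]
    split_ifs with a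
    · subst a
      have h0 : (12 / 5 : ℝ) < y := hy 0
      push_cast
      linarith
    · have h4 := lg_sound (collatz_ok (n := m) (by omega) (by omega)) y
      have h5 : (m : ℝ) + 1 / (2 * m) < y := by
        by_contra h
        exact h4 ⟨by simpa using h1.le, not_lt.1 h⟩ hy
      have h6 : ((549755813888 / m : ℕ) : ℝ) ≤ (549755813888 : ℕ) / (m : ℝ) := Nat.cast_div_le
      have h7 : ((549755813888 : ℕ) : ℝ) / (m : ℝ) = 1 / (2 * m) * 1099511627776 := by
        push_cast; field_simp; norm_num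
      linarith
  · have e : zl m d = cond (Nat.beq d 0) 1099511627776
        (cond (lg 400 (m + 1) d) (1099511627776 - d) 1099511627776) := rfl
    rw [e, e40]
    simp only [Bool.cond_eq_ite, Nat.beq_eq]
    split_ifs with a b
    · push_cast; linarith
    · have h4 := lg_sound b y
      have h5 : y < ((m + 1 : ℕ) : ℝ) - (d : ℝ) / 2 ^ 40 := by
        by_contra h
        refine h4 ⟨not_lt.1 h, ?_⟩ hy
        have : (0 : ℝ) ≤ 1 / (2 * ((m + 1 : ℕ) : ℝ)) := by positivity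
        push_cast at this ⊢
        linarith
      have h6 := tr_sub 1099511627776 d
      rw [e40] at h5
      push_cast [-Nat.cast_sub] at h5
      have h7 : ((1099511627776 : ℕ) : ℝ) = 1099511627776 := by norm_num
      linarith
    · push_cast; linarith
  · rintro ⟨a1, a2⟩
    have e2 : z2 m = cond (and (Nat.beq (m % 2) 1) (Nat.ble 5 m))
        (1099511627776 - 7696581394432 / (10 * (m + 1))) 2199023255552 := rfl
    have e3 : z3 m = 1099511627776 - (23089744183296 / (100 * (m + 1)) + 1) := rfl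
    rw [e2, e40] at a1
    rw [e3, e40] at a2
    simp only [Bool.cond_eq_ite, Bool.and_eq_true, Nat.beq_eq, Nat.ble_eq] at a1
    split_ifs at a1 with b
    · obtain ⟨n, hn⟩ : ∃ n, m + 1 = 2 * n := ⟨(m + 1) / 2, by omega⟩
      have n3 : 3 ≤ n := by omega
      have n3' : (3 : ℝ) ≤ n := by exact_mod_cast n3
      have hn' : (m : ℝ) + 1 = 2 * n := by exact_mod_cast hn
      rw [hn] at a1 a2
      have h7 : ((1099511627776 : ℕ) : ℝ) = 1099511627776 := by norm_num
      refine far_left n3 (collatz_ok n3 (by omega)) y ⟨?_, ?_⟩ hy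
      · have h4 := tr_sub 1099511627776 (7696581394432 / (10 * (2 * n)))
        have h5 : ((7696581394432 / (10 * (2 * n)) : ℕ) : ℝ) ≤
            (7696581394432 : ℕ) / ((10 * (2 * n) : ℕ) : ℝ) := Nat.cast_div_le
        have h6 : ((7696581394432 : ℕ) : ℝ) / ((10 * (2 * n) : ℕ) : ℝ) =
            7 / (20 * n) * 1099511627776 := by
          push_cast; field_simp; norm_num
        linarith
      · have h4 : 23089744183296 / (100 * (2 * n)) + 1 ≤ 1099511627776 := by
          have : 23089744183296 / (100 * (2 * n)) ≤ 23089744183296 / 600 :=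
            Nat.div_le_div_left (by omega) (by norm_num)
          omega
        have h5 := tr_lt 23089744183296 (100 * (2 * n)) (by omega)
        have h6 : ((23089744183296 : ℕ) : ℝ) / ((100 * (2 * n) : ℕ) : ℝ) =
            21 / (200 * n) * 1099511627776 := by
          push_cast; field_simp; norm_num
        rw [Nat.cast_sub h4, Nat.cast_add, Nat.cast_one] at a2
        linarith
    · push_cast at a1
      linarith

lemma tr_phi {n : ℕ} (hn : 1 ≤ n) : Phi0 n * 1024 =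
    1024 + ((cond (Nat.beq (n % 3) 1) 7602176 6291456 : ℕ) : ℝ) / (1024 * √n) := by
  have h0 : 0 < √(n : ℝ) := sqrt_pos.2 (by exact_mod_cast hn)
  unfold Phi0
  simp only [Bool.cond_eq_ite, Nat.beq_eq]
  split_ifs <;> push_cast <;> field_simp <;> ring

lemma tr_sq (n : ℕ) : (1024 * √(n : ℝ)) ^ 2 = ((n * 2 ^ 20 : ℕ) : ℝ) := by
  rw [mul_pow, sq_sqrt (Nat.cast_nonneg n)]
  push_cast
  ring

theorem Phi0_le_hiA {n r : ℕ} (hn : 1 ≤ n) (hr0 : 0 < r) (hr : r * r ≤ n * 2 ^ 20) :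
    Phi0 n * 1024 ≤ (hiA n r : ℝ) := by
  have e : hiA n r = 1025 + cond (Nat.beq (n % 3) 1) 7602176 6291456 / r := rfl
  rw [e, tr_phi hn]
  generalize cond (Nat.beq (n % 3) 1) 7602176 6291456 = C
  have r0 : (0 : ℝ) < r := by exact_mod_cast hr0
  have h1 : (r : ℝ) ≤ 1024 * √n := by
    refine le_of_sq_le_sq ?_ (by positivity)
    rw [tr_sq, sq]
    exact_mod_cast hr
  have h2 : (C : ℝ) / (1024 * √n) ≤ C / r := div_le_div_of_nonneg_left (Nat.cast_nonneg C) r0 h1
  have h3 := tr_lt C r hr0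
  rw [Nat.cast_add]
  have h7 : ((1025 : ℕ) : ℝ) = 1025 := by norm_num
  linarith

theorem loA_le_Phi0 {n r : ℕ} (hn : 1 ≤ n) (hr : n * 2 ^ 20 ≤ (r + 1) * (r + 1)) :
    (loA n r : ℝ) ≤ Phi0 n * 1024 := by
  have e : loA n r = 1024 + cond (Nat.beq (n % 3) 1) 7602176 6291456 / (r + 1) := rfl
  rw [e, tr_phi hn]
  generalize cond (Nat.beq (n % 3) 1) 7602176 6291456 = C
  have h0 : 0 < √(n : ℝ) := sqrt_pos.2 (by exact_mod_cast hn)
  have h1 : 1024 * √n ≤ ((r + 1 : ℕ) : ℝ) := by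
    refine le_of_sq_le_sq ?_ (by positivity)
    rw [tr_sq, sq]
    exact_mod_cast hr
  have h2 : (C : ℝ) / ((r + 1 : ℕ) : ℝ) ≤ C / (1024 * √n) :=
    div_le_div_of_nonneg_left (Nat.cast_nonneg C) (by positivity) h1
  have h3 : ((C / (r + 1) : ℕ) : ℝ) ≤ C / ((r + 1 : ℕ) : ℝ) := Nat.cast_div_le
  rw [Nat.cast_add]
  have h7 : ((1024 : ℕ) : ℝ) = 1024 := by norm_num
  linarith

end Pool.Agent.Lib.MP_2dc536_an.X
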