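import Pool.Agent.Lib.MP_2dc536_an.X.S1
import Pool.Agent.Lib.MP_2dc536_an.X.Trap

namespace Pool.Agent.Lib.MP_2dc536_an.X

open Real Set MeasureTheory

theorem jx_spec {t : TB} {K1 : ℕ} (ht : TabOK t K1) {θ : ℝ} (h0 : 0 ≤ θ) (h1 : θ < 1) :
    jx t θ ≤ K1 ∧ (gA t (jx t θ) : ℝ) ≤ θ * 2 ^ 40 ∧ θ * 2 ^ 40 < gA t (jx t θ + 1) := by
  obtain ⟨-, -, hl, hz, -⟩ := ht
  have e : tlen t - 1 = K1 := by omega
  have a1 : jx t θ ≤ K1 := by
    unfold jx
    rw [e]
    exact Nat.findGreatest_le _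
  refine ⟨a1, ?_, ?_⟩
  · unfold jx
    refine Nat.findGreatest_spec (P := fun j => (gA t j : ℝ) ≤ θ * 2 ^ 40) (Nat.zero_le _) ?_
    show (gA t 0 : ℝ) ≤ θ * 2 ^ 40
    rw [hz, Nat.cast_zero]
    positivity
  · rcases a1.lt_or_eq with h | h
    · refine not_le.1 (Nat.findGreatest_is_greatest
        (P := fun j => (gA t j : ℝ) ≤ θ * 2 ^ 40) (n := tlen t - 1) (Nat.lt_succ_self _) ?_)
      omega
    · rw [gA_tlen t (by omega)]
      push_cast
      linarith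

theorem jx_eq {t : TB} {K1 : ℕ} (ht : TabOK t K1) {θ : ℝ} {e : ℕ} (he : e < tlen t)
    (h0 : (gA t e : ℝ) ≤ θ * 2 ^ 40) (h1 : θ * 2 ^ 40 < gA t (e + 1)) : jx t θ = e := by
  unfold jx
  rw [Nat.findGreatest_eq_iff]
  refine ⟨by omega, fun _ => h0, fun k hk _ h => ?_⟩
  have h2 : (gA t (e + 1) : ℝ) ≤ gA t k := by exact_mod_cast gA_mono ht.1 (show e + 1 ≤ k from hk)
  linarith

lemma s2_od (n : ℕ) : od n = true ↔ n % 2 = 1 := by
  have e : od n = Nat.beq (n % 2) 1 := rfl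
  rw [e, Nat.beq_eq]

lemma s2_mem {N1 n : ℕ} {x : ℝ} (hx : x ∈ UU N1 n) :
    2 ≤ n ∧ x ∈ UB n ∧ (n : ℝ) ≤ x ∧ x < n + 1 ∧ (N1 ≤ n → x ∈ UA n) := by
  unfold UU at hx
  split_ifs at hx with a b
  · exact hx.elim
  · have h := UB_sub (n := n) (by omega) hx
    exact ⟨by omega, hx, h.1, h.2, fun h => by omega⟩
  · have h1 := UA_sub_UB (n := n) (by omega) hx
    have h := UB_sub (n := n) (by omega) h1
    exact ⟨by omega, h1, h.1, h.2, fun _ => hx⟩

lemma s2_even {t : TB} {K1 : ℕ} (ht : TabOK t K1) {θ : ℝ} (h0 : 0 ≤ θ) (h1 : θ < 1) :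
    (gA t (K1 - jx t θ) : ℝ) ≤ (1 - θ) * 2 ^ 40 ∧ (1 - θ) * 2 ^ 40 ≤ gA t (K1 - jx t θ + 1) := by
  obtain ⟨a1, a2, a3⟩ := jx_spec ht h0 h1
  obtain ⟨-, -, hl, -, hs⟩ := ht
  have b1 := hs (jx t θ + 1) (by omega)
  have b2 := hs (jx t θ) (by omega)
  rw [show tlen t - (jx t θ + 1) = K1 - jx t θ by omega] at b1
  rw [show tlen t - jx t θ = K1 - jx t θ + 1 by omega] at b2
  have c1 : (gA t (jx t θ + 1) : ℝ) + gA t (K1 - jx t θ) = 2 ^ 40 := by exact_mod_cast b1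
  have c2 : (gA t (jx t θ) : ℝ) + gA t (K1 - jx t θ + 1) = 2 ^ 40 := by exact_mod_cast b2
  constructor <;> linarith

lemma s2_hiP {n : ℕ} (hn : 1 ≤ n) : Phi0 n * 1024 ≤ (hiP n : ℝ) := by
  have e : hiP n = cond (and (Nat.ble 1 (Nat.pred (rt (n * 1048576))))
      (Nat.ble (Nat.pred (rt (n * 1048576)) * Nat.pred (rt (n * 1048576))) (n * 1048576)))
      (hiA n (Nat.pred (rt (n * 1048576)))) 65536 := by
    unfold hiP
    rw [sq_eq]
    rfl
  rw [e]
  generalize Nat.pred (rt (n * 1048576)) = r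
  simp only [Bool.cond_eq_ite, Bool.and_eq_true, Nat.ble_eq]
  split_ifs with a
  · exact Phi0_le_hiA hn a.1 (by rw [show (2 : ℕ) ^ 20 = 1048576 by norm_num]; exact a.2)
  · have h1 : (1 : ℝ) ≤ √n := by
      rw [one_le_sqrt]
      exact_mod_cast hn
    have h2 : (6 + if n % 3 = 1 then 5 / 4 else 0 : ℝ) / √n ≤ 8 := by
      rw [div_le_iff₀ (by linarith)]
      split_ifs <;> linarith
    unfold Phi0
    push_cast
    linarith

theorem lapB_sound {t : TB} {K1 N1 : ℕ} (ht : TabOK t K1) (hN : 1000 ≤ N1) (dt : DTr)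
    (y0 y1 : ℕ) {n : ℕ} {x : ℝ} (hx : x ∈ UU N1 n)
    (hy0 : (y0 : ℝ) ≤ (ff x + 1 / 4) * 2 ^ 40) (hy1 : (ff x + 1 / 4) * 2 ^ 40 ≤ y1) :
    HH t N1 dt x / |ff' x| * 2 ^ 40 ≤
      (val (lapB t K1 N1 dt y0 y1 n) ((ff x + 1 / 4) * 2 ^ 40) : ℝ) := by
  obtain ⟨hn, hB, x1, x2, hA⟩ := s2_mem hx
  have hf : ⌊x⌋₊ = n := (Nat.floor_eq_iff (le_trans (Nat.cast_nonneg n) x1)).2 ⟨x1, x2⟩
  have θ0 : 0 ≤ x - n := by linarith
  have θ1 : x - n < 1 := by linarith
  have n0 : (2 : ℝ) ≤ n := by exact_mod_cast hn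
  have xp : 0 < x + 1 / 2 := by linarith
  obtain ⟨a1, a2, a3⟩ := jx_spec ht θ0 θ1
  obtain ⟨b1, b2⟩ := s2_even ht θ0 θ1
  have hl := ht.2.2.1
  have e : lapB t K1 N1 dt y0 y1 n = cond (Nat.ble N1 n)
      (cond (od n)
        (lapO true n y0 y1 (fun _ a b => cond (and (Nat.ble (879609302220 / n) b)
          (Nat.ble a (1099511627776 - 274877906944 / n))) (hiP n) 0) t)
        (lapO false n y0 y1 (fun _ _ _ => hiP n) t))
      (cond (od n) (lapO true n y0 y1 (fun i _ _ => dig (datD dt n) i) t)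
        (lapO false n y0 y1 (fun i _ _ => dig (datD dt n) (K1 - i)) t)) := by
    unfold lapB
    simp only [sq_eq]
    rfl
  have odd : od n = true → ∀ pf : ℕ → ℕ → ℕ → ℕ, HH t N1 dt x ≤
      (pf (jx t (x - n)) (gA t (jx t (x - n))) (gA t (jx t (x - n) + 1)) : ℝ) / 1024 /
        (x + 1 / 2) → HH t N1 dt x / |ff' x| * 2 ^ 40 ≤
      (val (lapO true n y0 y1 pf t) ((ff x + 1 / 4) * 2 ^ 40) : ℝ) := by
    intro ho pf hv
    have hu : uu n x = x - n := by
      unfold uu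
      rw [if_neg (by have := (s2_od n).1 ho; omega)]
    have := lapO_sound ht.1 ht.2.1 hn hB y0 y1 pf (jx t (x - n)) (by omega) (by rw [hu]; exact a2)
      (by rw [hu]; exact a3.le) hv hy0 hy1
    rwa [ho] at this
  have even : od n = false → ∀ pf : ℕ → ℕ → ℕ → ℕ, HH t N1 dt x ≤
      (pf (K1 - jx t (x - n)) (gA t (K1 - jx t (x - n))) (gA t (K1 - jx t (x - n) + 1)) : ℝ) /
        1024 / (x + 1 / 2) → HH t N1 dt x / |ff' x| * 2 ^ 40 ≤
      (val (lapO false n y0 y1 pf t) ((ff x + 1 / 4) * 2 ^ 40) : ℝ) := by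
    intro ho pf hv
    have hu : uu n x = 1 - (x - n) := by
      have h2 : ¬ n % 2 = 1 := fun h => by
        rw [(s2_od n).2 h] at ho
        exact Bool.noConfusion ho
      unfold uu
      rw [if_pos (by omega)]
      ring
    have := lapO_sound ht.1 ht.2.1 hn hB y0 y1 pf (K1 - jx t (x - n)) (by omega)
      (by rw [hu]; exact b1) (by rw [hu]; exact b2) hv hy0 hy1
    rwa [ho] at this
  rw [e]
  cases hb : Nat.ble N1 n
  · have hlt : n < N1 := by
      by_contra h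
      rw [Nat.ble_eq_true_of_le (not_lt.1 h)] at hb
      exact Bool.noConfusion hb
    have hH : HH t N1 dt x = (dig (datD dt n) (jx t (x - n)) : ℝ) / 1024 / (x + 1 / 2) := by
      unfold HH
      rw [hf, if_pos hlt, if_pos hx]
    rw [cond_false]
    cases ho : od n
    · rw [cond_false]
      refine even ho (fun i _ _ => dig (datD dt n) (K1 - i)) ?_
      rw [hH, show K1 - (K1 - jx t (x - n)) = jx t (x - n) by omega]
    · rw [cond_true]
      exact odd ho (fun i _ _ => dig (datD dt n) i) hH.le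
  · have hge : N1 ≤ n := Nat.le_of_ble_eq_true hb
    have hH : HH t N1 dt x ≤ (hiP n : ℝ) / 1024 / (x + 1 / 2) := by
      unfold HH HA
      rw [hf, if_neg (not_lt.2 hge), if_pos (hA hge)]
      refine div_le_div_of_nonneg_right ?_ xp.le
      have := s2_hiP (n := n) (by omega)
      linarith
    rw [cond_true]
    cases ho : od n
    · rw [cond_false]
      exact even ho (fun _ _ _ => hiP n) hH
    · rw [cond_true]
      refine odd ho _ ?_
      have hx' := hA hge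
      unfold UA at hx'
      rw [if_neg (by have := (s2_od n).1 ho; omega)] at hx'
      obtain ⟨c1, c2⟩ := hx'
      have e40 : (2 : ℝ) ^ 40 = 1099511627776 := by norm_num
      have np : (0 : ℝ) < n := by linarith
      have d1 : 879609302220 / n ≤ gA t (jx t (x - n) + 1) := by
        have f1 : ((879609302220 / n : ℕ) : ℝ) ≤ (879609302220 : ℕ) / (n : ℝ) := Nat.cast_div_le
        have f2 : ((879609302220 : ℕ) : ℝ) / (n : ℝ) ≤ 4 / (5 * n) * 1099511627776 := by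
          rw [div_le_iff₀ np]
          have : 4 / (5 * (n : ℝ)) * 1099511627776 * n = 4 / 5 * 1099511627776 := by
            field_simp
          rw [this]
          norm_num
        rw [e40] at a3
        have : ((879609302220 / n : ℕ) : ℝ) ≤ gA t (jx t (x - n) + 1) := by linarith
        exact_mod_cast this
      have d2 : gA t (jx t (x - n)) ≤ 1099511627776 - 274877906944 / n := by
        have f1 : ((274877906944 / n : ℕ) : ℝ) ≤ (274877906944 : ℕ) / (n : ℝ) := Nat.cast_div_le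
        have f2 : ((274877906944 : ℕ) : ℝ) / (n : ℝ) = 1 / (4 * n) * 1099511627776 := by
          push_cast
          field_simp
          norm_num
        have f3 := tr_sub 1099511627776 (274877906944 / n)
        have f4 : ((1099511627776 : ℕ) : ℝ) = 1099511627776 := by norm_num
        rw [e40] at a2
        have : (gA t (jx t (x - n)) : ℝ) ≤ ((1099511627776 - 274877906944 / n : ℕ) : ℝ) := by
          linarith
        exact_mod_cast this
      rw [Nat.ble_eq_true_of_le d1, Nat.ble_eq_true_of_le d2, Bool.and_self, cond_true]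
      exact hH

theorem all_sound {t : TB} {K1 N1 : ℕ} (ht : TabOK t K1) (hN : 1000 ≤ N1) (dt : DTr)
    (m0 m1 y0 y1 n0 : ℕ) (hy0 : y0 = m0 * 2 ^ 40 + 2 ^ 38) (hy1 : y1 = m1 * 2 ^ 40 + 2 ^ 38)
    (hn0 : n0 = 2 + (2 * m0 / 3 - 4)) {y : ℝ} (h0 : (m0 : ℝ) ≤ y) (h1 : y ≤ m1)
    (S : Finset ℕ) (x : ℕ → ℝ) (hx : ∀ n ∈ S, x n ∈ UU N1 n ∧ ff (x n) = y) :
    ∑ n ∈ S, HH t N1 dt (x n) / |ff' (x n)| ≤
      (tot (mkAll (lapB t K1 N1 dt y0 y1) n0 (2 * m1 + 1 - n0) LL.nil)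
        ((y + 1 / 4) * 2 ^ 40) : ℝ) / 2 ^ 40 := by
  have a0 : (y0 : ℝ) ≤ (y + 1 / 4) * 2 ^ 40 := by
    rw [hy0]
    push_cast
    linarith
  have a1 : (y + 1 / 4) * 2 ^ 40 ≤ (y1 : ℝ) := by
    rw [hy1]
    push_cast
    linarith
  have hS : S ⊆ Finset.Ico n0 (2 * m1 + 1) := by
    intro n hn
    obtain ⟨b1, b2⟩ := hx n hn
    obtain ⟨c1, -, c2, c3, -⟩ := s2_mem b1
    have c0 : (0 : ℝ) ≤ n := Nat.cast_nonneg n
    have d := ff_eq (x n)
    have d1 := mul_le_mul_of_nonneg_left (mm_le (x n)) (show 0 ≤ x n + 1 / 2 by linarith)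
    have d2 := mul_le_mul_of_nonneg_left (mm_ge (x n)) (show 0 ≤ x n + 1 / 2 by linarith)
    have e1 : 2 * m0 < 3 * n + 4 := by
      have : 2 * (m0 : ℝ) < 3 * n + 4 := by linarith
      exact_mod_cast this
    have e2 : n ≤ 2 * m1 := by
      have : (n : ℝ) ≤ 2 * m1 := by linarith
      exact_mod_cast this
    rw [Finset.mem_Ico]
    omega
  have h2 := mkAll_sound (lapB t K1 N1 dt y0 y1) n0 (2 * m1 + 1 - n0) LL.nil
    ((y + 1 / 4) * 2 ^ 40)
  rw [← Finset.sum_Ico_eq_sum_range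
    (fun n => val (lapB t K1 N1 dt y0 y1 n) ((y + 1 / 4) * 2 ^ 40))] at h2
  have h3 := (Finset.sum_le_sum_of_subset
    (f := fun n => val (lapB t K1 N1 dt y0 y1 n) ((y + 1 / 4) * 2 ^ 40)) hS).trans
    (le_trans (Nat.le_add_right _ _) h2)
  rw [le_div_iff₀ (by positivity), Finset.sum_mul]
  refine le_trans (Finset.sum_le_sum fun n hn => ?_) ((Nat.cast_sum _ _).symm.le.trans
    (Nat.cast_le.2 h3))
  obtain ⟨b1, b2⟩ := hx n hn
  have := lapB_sound ht hN dt y0 y1 b1 (by rw [b2]; exact a0) (by rw [b2]; exact a1)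
  rwa [b2] at this

end Pool.Agent.Lib.MP_2dc536_an.X
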