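import Pool.Agent.Lib.MP_2dc536_an.X.Base

/-!
The choice of the parameters at the top.
-/

namespace Pool.Agent.Lib.MP_2dc536_an.X

open Real Set MeasureTheory Filter

theorem top_log {V : ℝ} (hV : 1 ≤ V) :
    ∫⁻ y in Icc 1 V, ENNReal.ofReal (1 / y) = ENNReal.ofReal (log V) := by
  have hc : ContinuousOn (fun y : ℝ => 1 / y) (Icc 1 V) :=
    continuousOn_const.div continuousOn_id (fun y hy => by linarith [hy.1])
  rw [← ofReal_integral_eq_lintegral_ofReal (hc.integrableOn_compact isCompact_Icc)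
    ((ae_restrict_iff' measurableSet_Icc).2 (Eventually.of_forall fun y hy => by
      have := hy.1
      positivity)),
    integral_Icc_eq_integral_Ioc, ← intervalIntegral.integral_of_le hV,
    integral_one_div_of_pos one_pos (by linarith), div_one]

lemma te_small {κ δ : ℝ} (hδ : κ / (683 / 10000) < δ) :
    ∃ s : ℝ, 0 < s ∧ s ≤ 1 / 100 ∧
      (1 + s) / (683 / 10000) * κ + 1000 * s < δ := by
  have h1 : Continuous fun s : ℝ => (1 + s) / (683 / 10000) * κ + 1000 * s := by fun_prop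
  have h2 : ∀ᶠ s in nhds (0 : ℝ), (1 + s) / (683 / 10000) * κ + 1000 * s < δ := by
    refine h1.continuousAt.eventually_lt continuousAt_const ?_
    have : (1 + (0 : ℝ)) / (683 / 10000) * κ + 1000 * 0 = κ / (683 / 10000) := by ring
    rw [this]; exact hδ
  obtain ⟨ε, hε, h3⟩ := Metric.eventually_nhds_iff.1 h2
  refine ⟨min (ε / 2) (1 / 100), by positivity, min_le_right _ _, h3 ?_⟩
  rw [Real.dist_eq, sub_zero, abs_of_pos (by positivity)]
  linarith [min_le_left (ε / 2) (1 / 100)]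

theorem top_end {κ δ : ℝ} (hκ : 0 ≤ κ) (hδ : κ / (683 / 10000) < δ) :
    ∃ (B : ℝ) (Z : ℕ) (X₀ : ℝ), 0 ≤ B ∧ B ≤ 20 ∧ 3000 ≤ Z ∧
      1 + 200 / (Z : ℝ) ≤ B * (683 / 10000) ∧ ∀ X, X₀ ≤ X → ∃ C V : ℝ, 2000 ≤ X ∧ 0 ≤ C ∧
        2 * (Z : ℝ) + 2 ≤ V ∧ V ≤ X ∧
        C * (1 + 8 / √(Z : ℝ)) ≤ 60 + B * log (X / (2 * Z + 1)) ∧
        60 + B * log (X / (V - 1)) ≤ C ∧
        C * κ + (60 + B * log X) * (20 / √((Z : ℝ) - 1)) + 1 + log V ≤ δ * log X := by
  obtain ⟨s, hs0, hs1, hs⟩ := te_small hδ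
  obtain ⟨Z, hZ⟩ := exists_nat_ge (200 / s ^ 2 + 3000)
  have hs2 : 0 ≤ 200 / s ^ 2 := by positivity
  have hZ1 : (3000 : ℝ) ≤ Z := by linarith
  have hZs : 200 ≤ s ^ 2 * (Z - 1) := by
    have : 200 / s ^ 2 ≤ (Z : ℝ) - 1 := by linarith
    rw [div_le_iff₀ (by positivity)] at this
    linarith
  have hr1 : 1 / s ≤ √((Z : ℝ) - 1) := by
    refine le_sqrt_of_sq_le ?_
    rw [div_pow, div_le_iff₀ (by positivity)]
    linarith
  have hr2 : 1 / s ≤ √(Z : ℝ) := hr1.trans (sqrt_le_sqrt (by linarith))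
  have hp : 0 < 1 / s := by positivity
  have hq1 : 20 / √((Z : ℝ) - 1) ≤ 20 * s := by
    rw [div_le_iff₀ (by linarith)]
    rw [div_le_iff₀ hs0] at hr1
    linarith
  have hq2 : 8 / √(Z : ℝ) ≤ 8 * s := by
    rw [div_le_iff₀ (by linarith)]
    rw [div_le_iff₀ hs0] at hr2
    linarith
  have hq3 : 0 ≤ 8 / √(Z : ℝ) := by positivity
  have hq4 : 0 ≤ 20 / √((Z : ℝ) - 1) := by positivity
  set B := (1 + s) / (683 / 10000) with hB
  have hB1 : 14 ≤ B := by rw [hB, le_div_iff₀ (by norm_num)]; linarith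
  have hB2 : B ≤ 20 := by rw [hB, div_le_iff₀ (by norm_num)]; linarith
  set A := log (2 * (Z : ℝ) + 1) with hA
  have hA0 : 0 ≤ A := log_nonneg (by linarith)
  set g := δ - (B * κ + 1000 * s) with hg
  have hg0 : 0 < g := by linarith
  set L₀ := 8 + A / s + (A + 60) / s + (60 * κ + 100) / g with hL
  have t1 : 0 ≤ A / s := by positivity
  have t2 : 0 ≤ (A + 60) / s := by positivity
  have t3 : 0 ≤ (60 * κ + 100) / g := by positivity
  refine ⟨B, Z, exp L₀, by linarith, hB2, by exact_mod_cast hZ1, ?_, fun X hX => ?_⟩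
  · have : B * (683 / 10000) = 1 + s := by rw [hB]; field_simp
    rw [this, add_le_add_iff_left, div_le_iff₀ (by linarith)]
    have h1 : s * (s * (Z - 1)) ≤ 1 * (s * (Z - 1)) :=
      mul_le_mul_of_nonneg_right (by linarith) (mul_nonneg hs0.le (by linarith))
    have h2 : s ^ 2 * ((Z : ℝ) - 1) = s * (s * (Z - 1)) := by ring
    have h3 : s * ((Z : ℝ) - 1) = s * Z - s := by ring
    linarith
  have hX0 : 0 < X := lt_of_lt_of_le (exp_pos _) hX
  set L := log X with hLX
  have hLL : L₀ ≤ L := by rw [hLX, le_log_iff_exp_le hX0]; exact hX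
  have hL8 : 8 ≤ L := by linarith
  have u1 : A ≤ s * L := by
    have : A / s ≤ L := by linarith
    rw [div_le_iff₀ hs0] at this; linarith
  have u2 : A + 60 ≤ s * L := by
    have : (A + 60) / s ≤ L := by linarith
    rw [div_le_iff₀ hs0] at this; linarith
  have u3 : 60 * κ + 100 ≤ g * L := by
    have : (60 * κ + 100) / g ≤ L := by linarith
    rw [div_le_iff₀ hg0] at this; linarith
  have hXe : X = exp L := by rw [hLX, exp_log hX0]
  have hsL : 0 ≤ s * L := by positivity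
  have hsL2 : s * L ≤ L / 100 := by
    linarith [mul_le_mul_of_nonneg_right hs1 (show 0 ≤ L by linarith)]
  have hW1 : 1 ≤ exp (10 * (s * L)) := one_le_exp (by linarith)
  have l1 : log (X / (2 * Z + 1)) = L - A := by rw [log_div hX0.ne' (by linarith)]
  have hBL : 0 ≤ B * (L - A) := mul_nonneg (by linarith) (by linarith)
  refine ⟨(60 + B * (L - A)) / (1 + 8 / √(Z : ℝ)), exp (10 * (s * L)) + 1, ?_, by positivity,
    ?_, ?_, ?_, ?_, ?_⟩
  · have h1 : exp 8 ≤ X := by rw [hXe]; exact exp_le_exp.2 hL8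
    have h2 : exp 8 = exp 1 ^ 8 := by rw [← exp_nat_mul]; norm_num
    have h3 : (2.7 : ℝ) ^ 8 ≤ exp 1 ^ 8 :=
      pow_le_pow_left₀ (by norm_num) (by linarith [exp_one_gt_d9]) 8
    have h4 : (2000 : ℝ) ≤ 2.7 ^ 8 := by norm_num
    linarith
  · have h1 : exp A ≤ exp (10 * (s * L)) := exp_le_exp.2 (by linarith)
    rw [hA, exp_log (by linarith)] at h1
    linarith
  · have h1 : exp L = exp (10 * (s * L)) * exp (L - 10 * (s * L)) := by
      rw [← exp_add]; congr 1; ring
    have h2 : L - 10 * (s * L) + 1 ≤ exp (L - 10 * (s * L)) := add_one_le_exp _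
    have h3 : exp (10 * (s * L)) * 2 ≤ exp (10 * (s * L)) * exp (L - 10 * (s * L)) :=
      mul_le_mul_of_nonneg_left (by linarith) (exp_pos _).le
    rw [hXe, h1]
    linarith
  · rw [l1, div_mul_cancel₀ _ (by linarith)]
  · rw [add_sub_cancel_right, log_div hX0.ne' (exp_pos _).ne', log_exp,
      le_div_iff₀ (by linarith), ← hLX]
    have h1 : 0 ≤ 60 + B * (L - 10 * (s * L)) := by
      have := mul_nonneg (show 0 ≤ B by linarith) (show 0 ≤ L - 10 * (s * L) by linarith)
      linarith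
    have h2 : (60 + B * (L - 10 * (s * L))) * (1 + 8 / √(Z : ℝ)) ≤
        (60 + B * (L - 10 * (s * L))) * (1 + 8 * s) :=
      mul_le_mul_of_nonneg_left (by linarith) h1
    have h3 : (60 + B * (L - 10 * (s * L))) * (1 + 8 * s) =
        60 + 480 * s + B * (L - 2 * (s * L) - 80 * s * (s * L)) := by ring
    have h4 : B * (L - 2 * (s * L) - 80 * s * (s * L)) ≤ B * (L - A - 60) :=
      mul_le_mul_of_nonneg_left
        (by linarith [mul_nonneg hs0.le hsL, mul_assoc 80 s (s * L)]) (by linarith)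
    have h5 : B * (L - A - 60) = B * (L - A) - 60 * B := by ring
    linarith
  · have h1 : (60 + B * (L - A)) / (1 + 8 / √(Z : ℝ)) ≤ 60 + B * L := by
      refine (div_le_self (by linarith) (by linarith)).trans ?_
      exact add_le_add le_rfl (mul_le_mul_of_nonneg_left (by linarith) (by linarith))
    have h2 := mul_le_mul_of_nonneg_right h1 hκ
    have h3 : (60 + B * L) * (20 / √((Z : ℝ) - 1)) ≤ (60 + 20 * L) * (20 * s) :=
      mul_le_mul (add_le_add le_rfl (mul_le_mul_of_nonneg_right hB2 (by linarith))) hq1 hq4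
        (by linarith)
    have h4 : log (exp (10 * (s * L)) + 1) ≤ 10 * (s * L) + 1 := by
      rw [log_le_iff_le_exp (by positivity), exp_add]
      have := mul_le_mul_of_nonneg_left (add_one_le_exp (1 : ℝ)) (exp_pos (10 * (s * L))).le
      linarith
    have h5 : δ * L = g * L + B * κ * L + 1000 * (s * L) := by rw [hg]; ring
    have h6 : (60 + B * L) * κ = 60 * κ + B * κ * L := by ring
    have h7 : (60 + 20 * L) * (20 * s) = 1200 * s + 400 * (s * L) := by ring
    linarith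

end Pool.Agent.Lib.MP_2dc536_an.X
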