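import Pool.Agent.Lib.MP_2dc536_an.X.Defs

/-!
Neighbourhoods of integers that follow the integer orbit into the basin.
-/

namespace Pool.Agent.Lib.MP_2dc536_an.X

open Real Set

/-- `lg fuel n d`: the interval `[n - d / 2^40, n + 1 / (2 n)]` follows the orbit of `n` to `4`. -/
noncomputable def lg (fuel : ℕ) : ℕ → ℕ → Bool :=
  Nat.rec (fun _ _ => false) (fun _ ih n d =>
    cond (Nat.beq n 4) (Nat.ble d 192414534860)
      (cond (Nat.ble n 2) false
        (cond (Nat.beq (Nat.mod n 2) 0)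
          (cond (Nat.ble (Nat.mul (Nat.mul d n) 10) 7696581394432)
            (cond (Nat.ble (Nat.mul (Nat.mul d n) 250) 14293651161088)
              (ih (Nat.div n 2) (Nat.div (Nat.add d 1) 2))
              (ih (Nat.div n 2) (Nat.add (Nat.div 14293651161088 (Nat.mul 500 n)) 1))) false)
          (cond (Nat.ble d 549755813888)
            (ih (Nat.div (Nat.add (Nat.mul 3 n) 1) 2)
              (Nat.add (Nat.div (Nat.add (Nat.mul 3 d) 1) 2)
                (Nat.div (Nat.add (Nat.mul (Nat.mul (Nat.add (Nat.mul 2 n) 1) 247) (Nat.mul d d))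
                  219902325555199) 219902325555200))) false)))) fuel

lemma z_pi_sq : 98696 / 10000 ≤ π ^ 2 ∧ π ^ 2 ≤ 98697 / 10000 := by
  have h1 := pi_gt_d6
  have h2 := pi_lt_d6
  constructor <;> nlinarith

lemma z_c_nonneg (s : ℝ) : 0 ≤ 1 - cos (π * s) := by linarith [cos_le_one (π * s)]

lemma z_c_up (s : ℝ) : 1 - cos (π * s) ≤ 987 / 200 * s ^ 2 := by
  have h1 := one_sub_sq_div_two_le_cos (x := π * s)
  have h2 : (π * s) ^ 2 ≤ 98697 / 10000 * s ^ 2 := by
    rw [mul_pow]; exact mul_le_mul_of_nonneg_right z_pi_sq.2 (sq_nonneg s)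
  nlinarith [sq_nonneg s]

lemma z_c_lo {s a : ℝ} (ha : s ^ 2 ≤ a) (ha' : a ≤ 1 / 36) :
    (49348 / 10000 - 51 / 10 * a) * s ^ 2 ≤ 1 - cos (π * s) := by
  obtain ⟨p1, p2⟩ := z_pi_sq
  have hs := sq_nonneg s
  have h2 : (π * s) ^ 2 ≤ 98697 / 10000 * s ^ 2 := by
    rw [mul_pow]; exact mul_le_mul_of_nonneg_right p2 hs
  have h3 : 98696 / 10000 * s ^ 2 ≤ (π * s) ^ 2 := by
    rw [mul_pow]; exact mul_le_mul_of_nonneg_right p1 hs
  have h1 : |π * s| ≤ 1 := by
    rw [← sq_le_one_iff_abs_le_one]; linarith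
  have h4 := (abs_le.1 (cos_bound h1)).2
  have h5 : |π * s| ^ 4 = ((π * s) ^ 2) ^ 2 := by
    rw [show (4 : ℕ) = 2 * 2 from rfl, pow_mul, sq_abs]
  have h6 : ((π * s) ^ 2) ^ 2 ≤ (98697 / 10000 * s ^ 2) ^ 2 :=
    pow_le_pow_left₀ (sq_nonneg _) h2 2
  have h7 : s ^ 2 * s ^ 2 ≤ a * s ^ 2 := mul_le_mul_of_nonneg_right ha hs
  have h8 : 0 ≤ s ^ 2 * s ^ 2 := mul_nonneg hs hs
  rw [h5] at h4
  nlinarith

lemma z_c_lo1 {s : ℝ} (h1 : -(7 / 60) ≤ s) (h2 : s ≤ 7 / 60) :
    97 / 20 * s ^ 2 ≤ 1 - cos (π * s) := by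
  have := z_c_lo (s := s) (a := 49 / 3600) (by nlinarith) (by norm_num)
  nlinarith [sq_nonneg s]

lemma z_c_lo2 {s : ℝ} (h1 : 0 ≤ s) (h2 : s ≤ 1 / 6) :
    47 / 10 * s ^ 2 ≤ 1 - cos (π * s) := by
  have := z_c_lo (s := s) (a := 1 / 36) (by nlinarith) le_rfl
  nlinarith [sq_nonneg s]

lemma z_even_eq (m : ℕ) (s : ℝ) :
    ff (2 * m + s) = m + (s / 2 + (m + s / 2 + 1 / 4) * (1 - cos (π * s))) := by
  have : cos (π * (2 * m + s)) = cos (π * s) := by
    rw [show π * (2 * m + s) = π * s + m * (2 * π) by ring, cos_add_nat_mul_two_pi]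
  unfold ff; rw [this]; ring

lemma z_odd_eq (m : ℕ) (s : ℝ) :
    ff (2 * m + 1 + s) = 3 * m + 2 +
      (3 * s / 2 - ((2 * m + 1) / 2 + s / 2 + 1 / 4) * (1 - cos (π * s))) := by
  have : cos (π * (2 * m + 1 + s)) = -cos (π * s) := by
    rw [show π * (2 * m + 1 + s) = (π * s + π) + m * (2 * π) by ring, cos_add_nat_mul_two_pi,
      cos_add_pi]
  unfold ff; rw [this]; ring

lemma z_small {m s : ℝ} (hm : 3 ≤ m) (h1 : -(7 / 20) ≤ s * m) (h2 : s * m ≤ 1 / 4) :
    -(7 / 60) ≤ s ∧ s ≤ 1 / 12 := by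
  constructor
  · by_contra h
    push Not at h
    nlinarith
  · by_contra h
    push Not at h
    nlinarith

lemma z_even_up {m s : ℝ} (hm : 3 ≤ m) (h1 : -(7 / 20) ≤ s * m) (h2 : s * m ≤ 1 / 4) :
    s / 2 + (m + s / 2 + 1 / 4) * (1 - cos (π * s)) ≤ 1 / (2 * m) := by
  obtain ⟨a1, a2⟩ := z_small hm h1 h2
  have h3 : (m + s / 2 + 1 / 4) * (1 - cos (π * s)) ≤ (11 / 10 * m) * (987 / 200 * s ^ 2) :=
    mul_le_mul (by linarith) (z_c_up s) (z_c_nonneg s) (by linarith)
  rw [le_div_iff₀ (by linarith)]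
  have h4 : (s / 2 + (m + s / 2 + 1 / 4) * (1 - cos (π * s))) * (2 * m) ≤
      (s / 2 + (11 / 10 * m) * (987 / 200 * s ^ 2)) * (2 * m) :=
    mul_le_mul_of_nonneg_right (by linarith) (by linarith)
  have h5 : (s / 2 + (11 / 10 * m) * (987 / 200 * s ^ 2)) * (2 * m) =
      s * m + 10857 / 1000 * (s * m) ^ 2 := by ring
  generalize s * m = u at *
  nlinarith [mul_nonneg (sub_nonneg.2 h1) (sub_nonneg.2 h2)]

lemma z_even_lo {m s : ℝ} (hm : 3 ≤ m) (h1 : -(7 / 20) ≤ s * m) (h2 : s * m ≤ 1 / 4) :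
    s * m / 2 + 97 / 20 * (s * m) ^ 2 ≤
      (s / 2 + (m + s / 2 + 1 / 4) * (1 - cos (π * s))) * m := by
  obtain ⟨a1, a2⟩ := z_small hm h1 h2
  have h3 : m * (97 / 20 * s ^ 2) ≤ (m + s / 2 + 1 / 4) * (1 - cos (π * s)) :=
    mul_le_mul (by linarith) (z_c_lo1 a1 (by linarith)) (by positivity) (by linarith)
  have h4 : (s / 2 + m * (97 / 20 * s ^ 2)) * m ≤
      (s / 2 + (m + s / 2 + 1 / 4) * (1 - cos (π * s))) * m :=
    mul_le_mul_of_nonneg_right (by linarith) (by linarith)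
  refine le_trans (le_of_eq ?_) h4
  ring

lemma z_odd_up {N s : ℝ} (hN : 3 ≤ N) (h1 : -(1 / 2) ≤ s) (h2 : s * N ≤ 1 / 2) :
    3 * s / 2 - (N / 2 + s / 2 + 1 / 4) * (1 - cos (π * s)) ≤ 1 / (3 * N + 1) := by
  rcases le_total s 0 with h | h
  · have h3 : 0 ≤ (N / 2 + s / 2 + 1 / 4) * (1 - cos (π * s)) :=
      mul_nonneg (by linarith) (z_c_nonneg s)
    have h4 : 0 ≤ 1 / (3 * N + 1) := by positivity
    linarith
  · have a2 : s ≤ 1 / 6 := by nlinarith
    have h3 : ((3 * N + 1) / 6) * (47 / 10 * s ^ 2) ≤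
        (N / 2 + s / 2 + 1 / 4) * (1 - cos (π * s)) :=
      mul_le_mul (by linarith) (z_c_lo2 h a2) (by positivity) (by linarith)
    rw [le_div_iff₀ (by linarith)]
    have h4 : (3 * s / 2 - (N / 2 + s / 2 + 1 / 4) * (1 - cos (π * s))) * (3 * N + 1) ≤
        (3 * s / 2 - ((3 * N + 1) / 6) * (47 / 10 * s ^ 2)) * (3 * N + 1) :=
      mul_le_mul_of_nonneg_right (by linarith) (by linarith)
    have h5 : (3 * s / 2 - ((3 * N + 1) / 6) * (47 / 10 * s ^ 2)) * (3 * N + 1) =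
        3 / 2 * (s * (3 * N + 1)) - 47 / 60 * (s * (3 * N + 1)) ^ 2 := by ring
    generalize s * (3 * N + 1) = v at *
    nlinarith [sq_nonneg (v - 1)]

lemma z_odd_neg {N s E : ℝ} (hN : 3 ≤ N) (h1 : -E ≤ s) (h : s ≤ 0) :
    -(3 * E / 2 + (2 * N + 1) * 247 / 200 * E ^ 2) ≤
      3 * s / 2 - (N / 2 + s / 2 + 1 / 4) * (1 - cos (π * s)) := by
  have h2 : s ^ 2 ≤ E ^ 2 := by nlinarith
  have h3 : (N / 2 + s / 2 + 1 / 4) * (1 - cos (π * s)) ≤ (N / 2 + 1 / 4) * (247 / 50 * E ^ 2) :=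
    mul_le_mul (by linarith) (by linarith [z_c_up s, sq_nonneg s]) (z_c_nonneg s) (by linarith)
  nlinarith

lemma z_odd_pos {N s : ℝ} (hN : N = 3 ∨ 5 ≤ N) (h : 0 ≤ s) (h2 : s * N ≤ 1 / 2) :
    0 ≤ 3 * s / 2 - (N / 2 + s / 2 + 1 / 4) * (1 - cos (π * s)) := by
  rcases hN with rfl | hN
  · rcases le_total s (33 / 200) with h3 | h3
    · have h4 : (3 / 2 + s / 2 + 1 / 4) * (1 - cos (π * s)) ≤ (733 / 400) * (987 / 200 * s ^ 2) :=
        mul_le_mul (by linarith) (z_c_up s) (z_c_nonneg s) (by norm_num)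
      nlinarith
    · have h5 : cos (π / 6) ≤ cos (π * s) :=
        cos_le_cos_of_nonneg_of_le_pi (by positivity) (by linarith [pi_pos])
          (by nlinarith [pi_pos])
      rw [cos_pi_div_six] at h5
      have h6 : (433 / 250 : ℝ) ≤ √3 := le_sqrt_of_sq_le (by norm_num)
      have h4 : (3 / 2 + s / 2 + 1 / 4) * (1 - cos (π * s)) ≤ (11 / 6) * (67 / 500) :=
        mul_le_mul (by linarith) (by linarith) (z_c_nonneg s) (by norm_num)
      linarith
  · have a2 : s ≤ 1 / 10 := by nlinarith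
    have h4 : (N / 2 + s / 2 + 1 / 4) * (1 - cos (π * s)) ≤ (14 / 25 * N) * (987 / 200 * s ^ 2) :=
      mul_le_mul (by linarith) (z_c_up s) (z_c_nonneg s) (by linarith)
    have h5 : (14 / 25 * N) * (987 / 200 * s ^ 2) = 6909 / 2500 * (s * N * s) := by ring
    have h6 : s * N * s ≤ 1 / 2 * s := mul_le_mul_of_nonneg_right h2 h
    linarith

lemma z_four {x : ℝ} (h1 : 4 - 7 / 40 ≤ x) (h2 : x ≤ 4 + 1 / 8) : x ∉ EE := by
  intro hx
  have h3 := hx 1
  obtain ⟨s, rfl⟩ : ∃ s, x = 2 * ((2 : ℕ) : ℝ) + s := ⟨x - 4, by push_cast; ring⟩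
  rw [Function.iterate_one, z_even_eq] at h3
  push_cast at h1 h2 h3
  have h4 : (2 + s / 2 + 1 / 4) * (1 - cos (π * s)) ≤ (37 / 16) * (987 / 200 * s ^ 2) :=
    mul_le_mul (by linarith) (z_c_up s) (z_c_nonneg s) (by norm_num)
  nlinarith [mul_nonneg (show 0 ≤ s + 7 / 40 by linarith) (show 0 ≤ 1 / 8 - s by linarith)]

lemma lg_cases {f n d : ℕ} (h : lg (f + 1) n d = true) :
    (n = 4 ∧ d ≤ 192414534860) ∨
    (3 ≤ n ∧ n ≠ 4 ∧ n % 2 = 0 ∧ d * n * 10 ≤ 7696581394432 ∧
      (lg f (n / 2) ((d + 1) / 2) = true ∨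
        lg f (n / 2) (14293651161088 / (500 * n) + 1) = true)) ∨
    (3 ≤ n ∧ n % 2 = 1 ∧ d ≤ 549755813888 ∧ lg f ((3 * n + 1) / 2) ((3 * d + 1) / 2 +
      ((2 * n + 1) * 247 * (d * d) + 219902325555199) / 219902325555200) = true) := by
  have e : lg (f + 1) n d = cond (Nat.beq n 4) (Nat.ble d 192414534860)
      (cond (Nat.ble n 2) false
        (cond (Nat.beq (n % 2) 0)
          (cond (Nat.ble (d * n * 10) 7696581394432)
            (cond (Nat.ble (d * n * 250) 14293651161088)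
              (lg f (n / 2) ((d + 1) / 2))
              (lg f (n / 2) (14293651161088 / (500 * n) + 1))) false)
          (cond (Nat.ble d 549755813888)
            (lg f ((3 * n + 1) / 2) ((3 * d + 1) / 2 +
              ((2 * n + 1) * 247 * (d * d) + 219902325555199) / 219902325555200)) false))) := rfl
  rw [e] at h
  simp only [Bool.cond_eq_ite, Nat.beq_eq, Nat.ble_eq] at h
  split_ifs at h with a1 a2 a3 a4 a5 a6
  · exact Or.inl ⟨a1, by simpa using h⟩
  · exact Or.inr (Or.inl ⟨by omega, a1, a3, a4, Or.inl h⟩)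
  · exact Or.inr (Or.inl ⟨by omega, a1, a3, a4, Or.inr h⟩)
  · exact Or.inr (Or.inr ⟨by omega, by omega, a6, h⟩)

theorem lg_sound {fuel n d : ℕ} (h : lg fuel n d = true) :
    ∀ x : ℝ, x ∈ Icc ((n : ℝ) - (d : ℝ) / 2 ^ 40) ((n : ℝ) + 1 / (2 * n)) → x ∉ EE := by
  induction fuel generalizing n d with
  | zero => exact absurd h (by simp [lg])
  | succ f ih =>
    rintro x ⟨x1, x2⟩ hx
    have d0 : (0 : ℝ) ≤ d := Nat.cast_nonneg d
    rcases lg_cases h with ⟨rfl, hd⟩ | ⟨h3, h4, he, hd, hl⟩ | ⟨h3, ho, hd, hl⟩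
    · have hd' : (d : ℝ) ≤ 192414534860 := by exact_mod_cast hd
      push_cast at x1 x2
      refine z_four ?_ ?_ hx
      · norm_num at x1 ⊢; linarith
      · norm_num at x2 ⊢; linarith
    · obtain ⟨m, rfl⟩ : ∃ m, n = 2 * m := ⟨n / 2, by omega⟩
      have hm : (3 : ℝ) ≤ m := by exact_mod_cast (show 3 ≤ m by omega)
      have hd' : (d : ℝ) * (2 * m) * 10 ≤ 7696581394432 := by exact_mod_cast hd
      obtain ⟨s, rfl⟩ : ∃ s, x = 2 * (m : ℝ) + s := ⟨x - 2 * m, by ring⟩
      push_cast at x1 x2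
      have s1 : -((d : ℝ) / 1099511627776) ≤ s := by norm_num at x1; linarith
      have s2 : s * m ≤ 1 / 4 := by
        have : s ≤ 1 / (2 * (2 * m)) := by linarith
        rw [le_div_iff₀ (by linarith)] at this
        linarith
      have s3 : -(7 / 20) ≤ s * m := by
        have := mul_le_mul_of_nonneg_right s1 (show (0 : ℝ) ≤ m by linarith)
        linarith
      have up := z_even_up hm s3 s2
      have lo := z_even_lo hm s3 s2
      obtain ⟨a1, a2⟩ := z_small hm s3 s2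
      have nn : 0 ≤ ((m : ℝ) + s / 2 + 1 / 4) * (1 - cos (π * s)) :=
        mul_nonneg (by linarith) (z_c_nonneg s)
      rw [show 2 * m / 2 = m by omega] at hl
      rcases hl with hl | hl
      · refine ih hl _ ⟨?_, ?_⟩ (EE_map hx)
        · have : (d : ℝ) ≤ 2 * (((d + 1) / 2 : ℕ) : ℝ) := by
            exact_mod_cast (show d ≤ 2 * ((d + 1) / 2) by omega)
          rw [z_even_eq, show (2 : ℝ) ^ 40 = 1099511627776 by norm_num]
          linarith
        · rw [z_even_eq]; linarith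
      · refine ih hl _ ⟨?_, ?_⟩ (EE_map hx)
        · have q1 : 14293651161088 < 500 * (2 * m) * (14293651161088 / (500 * (2 * m)) + 1) :=
            Nat.lt_mul_div_succ _ (by omega)
          generalize 14293651161088 / (500 * (2 * m)) + 1 = q at *
          have q2 : (14293651161088 : ℝ) < 500 * (2 * m) * q := by exact_mod_cast q1
          rw [z_even_eq, show (2 : ℝ) ^ 40 = 1099511627776 by norm_num]
          have q3 : -((q : ℝ) / 1099511627776) * m ≤
              (s / 2 + (m + s / 2 + 1 / 4) * (1 - cos (π * s))) * m := by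
            refine le_trans ?_ lo
            have : -(13 / 1000) ≤ s * m / 2 + 97 / 20 * (s * m) ^ 2 := by
              nlinarith [sq_nonneg (s * m + 5 / 97)]
            linarith
          have := le_of_mul_le_mul_right q3 (show (0 : ℝ) < m by linarith)
          linarith
        · rw [z_even_eq]; linarith
    · obtain ⟨m, rfl⟩ : ∃ m, n = 2 * m + 1 := ⟨n / 2, by omega⟩
      have hm : (1 : ℝ) ≤ m := by exact_mod_cast (show 1 ≤ m by omega)
      have hm' : (2 * m + 1 : ℝ) = 3 ∨ (5 : ℝ) ≤ 2 * m + 1 := by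
        rcases (show m = 1 ∨ 2 ≤ m by omega) with rfl | h2
        · left; norm_num
        · right
          have : (2 : ℝ) ≤ m := by exact_mod_cast h2
          linarith
      have hd' : (d : ℝ) ≤ 549755813888 := by exact_mod_cast hd
      obtain ⟨s, rfl⟩ : ∃ s, x = 2 * (m : ℝ) + 1 + s := ⟨x - (2 * m + 1), by ring⟩
      push_cast at x1 x2
      have s1 : -((d : ℝ) / 1099511627776) ≤ s := by norm_num at x1; linarith
      have s2 : s * (2 * m + 1) ≤ 1 / 2 := by
        have : s ≤ 1 / (2 * (2 * m + 1)) := by linarith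
        rw [le_div_iff₀ (by linarith)] at this
        linarith
      rw [show (3 * (2 * m + 1) + 1) / 2 = 3 * m + 2 by omega] at hl
      refine ih hl _ ⟨?_, ?_⟩ (EE_map hx)
      · have q1 : 3 * d ≤ 2 * ((3 * d + 1) / 2) := by omega
        have q2 : (2 * (2 * m + 1) + 1) * 247 * (d * d) ≤ 219902325555200 *
            (((2 * (2 * m + 1) + 1) * 247 * (d * d) + 219902325555199) / 219902325555200) := by
          generalize (2 * (2 * m + 1) + 1) * 247 * (d * d) = X
          omega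
        generalize ((2 * (2 * m + 1) + 1) * 247 * (d * d) + 219902325555199) /
          219902325555200 = q at *
        generalize (3 * d + 1) / 2 = p at *
        have q3 : 3 * (d : ℝ) ≤ 2 * p := by exact_mod_cast q1
        have q4 : (2 * (2 * m + 1) + 1) * 247 * ((d : ℝ) * d) ≤ 219902325555200 * q := by
          exact_mod_cast q2
        have p0 : (0 : ℝ) ≤ p := Nat.cast_nonneg p
        have q0 : (0 : ℝ) ≤ q := Nat.cast_nonneg q
        rw [z_odd_eq, show (2 : ℝ) ^ 40 = 1099511627776 by norm_num]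
        push_cast
        rcases le_total s 0 with hs | hs
        · have := z_odd_neg (N := 2 * m + 1) (by linarith) s1 hs
          have e : (2 * (2 * m + 1) + 1) * 247 / 200 * ((d : ℝ) / 1099511627776) ^ 2 =
              (2 * (2 * m + 1) + 1) * 247 * ((d : ℝ) * d) / 219902325555200 / 1099511627776 := by
            ring
          rw [e] at this
          generalize (2 * (2 * m + 1) + 1) * 247 * ((d : ℝ) * d) = X at *
          linarith
        · have := z_odd_pos hm' hs s2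
          linarith
      · have := z_odd_up (N := 2 * m + 1) (s := s) (by linarith) (by linarith) s2
        rw [z_odd_eq]
        push_cast
        rw [show (2 : ℝ) * (3 * m + 2) = 3 * (2 * m + 1) + 1 by ring]
        linarith

theorem far_left {fuel n : ℕ} (hn : 3 ≤ n) (h : lg fuel n 0 = true) :
    ∀ x : ℝ, x ∈ Icc (2 * (n : ℝ) - 7 / (20 * n)) (2 * (n : ℝ) - 21 / (200 * n)) → x ∉ EE := by
  rintro x ⟨x1, x2⟩ hx
  have hm : (3 : ℝ) ≤ n := by exact_mod_cast hn
  obtain ⟨s, rfl⟩ : ∃ s, x = 2 * (n : ℝ) + s := ⟨x - 2 * n, by ring⟩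
  have s1 : -(7 / 20) ≤ s * n := by
    have : -s ≤ 7 / (20 * n) := by linarith
    rw [le_div_iff₀ (by linarith)] at this
    linarith
  have s2 : s * n ≤ -(21 / 200) := by
    have : 21 / (200 * n) ≤ -s := by linarith
    rw [div_le_iff₀ (by linarith)] at this
    linarith
  have up := z_even_up hm s1 (by linarith)
  have lo := z_even_lo hm s1 (by linarith)
  refine lg_sound h _ ⟨?_, ?_⟩ (EE_map hx)
  · have q3 : 0 * (n : ℝ) ≤ (s / 2 + (n + s / 2 + 1 / 4) * (1 - cos (π * s))) * n := by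
      refine le_trans ?_ lo
      generalize s * n = u at *
      nlinarith
    have := le_of_mul_le_mul_right q3 (show (0 : ℝ) < n by linarith)
    rw [z_even_eq]
    push_cast
    linarith
  · rw [z_even_eq]; linarith

end Pool.Agent.Lib.MP_2dc536_an.X
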